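import Mathlib
import Pool.Agent.Helper278.CEStmt

set_option autoImplicit false
set_option linter.unusedSectionVars false

open scoped Topology BoundedContinuousFunction
open Filter

namespace Pool.Agent.Helper278.CE

universe w

section

variable {A : Type} [NormedRing A] [StarRing A] [CStarRing A] [NormedAlgebra ℂ A] [StarModule ℂ A]
variable {I : Type w} [TopologicalSpace I] [DiscreteTopology I]

/-- families that agree in the limit, in norm -/
def normCon (U : Ultrafilter I) : RingCon (I →ᵇ A) where
  r x y := Tendsto (fun i => ‖x i - y i‖) U (𝓝 0)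
  iseqv := by
    refine ⟨?_, ?_, ?_⟩
    · intro x
      have : (fun i => ‖x i - x i‖) = fun _ => 0 := by
        funext i
        rw [sub_self, norm_zero]
      rw [this]
      exact tendsto_const_nhds
    · intro x y h
      refine h.congr fun i => ?_
      rw [norm_sub_rev]
    · intro x y z h1 h2
      have h3 := h1.add h2
      rw [add_zero] at h3
      exact squeeze_zero (fun i => norm_nonneg _) (fun i => norm_sub_le_norm_sub_add_norm_sub _ _ _)
        h3
  mul' := by
    intro w x y z h1 h2
    have h3 := (h1.mul_const ‖y‖).add (h2.const_mul ‖x‖)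
    rw [zero_mul, mul_zero, add_zero] at h3
    refine squeeze_zero (fun i => norm_nonneg _) (fun i => ?_) h3
    have e : (w * y) i - (x * z) i = (w i - x i) * y i + x i * (y i - z i) := by
      rw [BoundedContinuousFunction.mul_apply, BoundedContinuousFunction.mul_apply]
      noncomm_ring
    rw [e]
    refine (norm_add_le _ _).trans (add_le_add ?_ ?_)
    · exact (norm_mul_le _ _).trans
        (mul_le_mul_of_nonneg_left (y.norm_coe_le_norm i) (norm_nonneg _))
    · exact (norm_mul_le _ _).trans
        (mul_le_mul_of_nonneg_right (x.norm_coe_le_norm i) (norm_nonneg _))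
  add' := by
    intro w x y z h1 h2
    have h3 := h1.add h2
    rw [add_zero] at h3
    refine squeeze_zero (fun i => norm_nonneg _) (fun i => ?_) h3
    have e : (w + y) i - (x + z) i = (w i - x i) + (y i - z i) := by
      rw [BoundedContinuousFunction.add_apply, BoundedContinuousFunction.add_apply]
      abel
    rw [e]
    exact norm_add_le _ _

theorem normCon_star (U : Ultrafilter I) (x y : I →ᵇ A) (h : normCon U x y) :
    normCon U (star x) (star y) := by
  have h' : Tendsto (fun i => ‖x i - y i‖) U (𝓝 0) := h
  show Tendsto (fun i => ‖(star x) i - (star y) i‖) U (𝓝 0)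
  refine h'.congr fun i => ?_
  show _ = ‖star (x i) - star (y i)‖
  rw [← star_sub, norm_star]

theorem exists_normUltrapower (U : Ultrafilter I) :
    ∃ (P : Type w) (_ : Ring P) (_ : StarRing P) (_ : Algebra ℂ P) (π : (I → A) → P),
      IsNormUltrapower U π := by
  classical
  let c : RingCon (I →ᵇ A) := normCon U
  let P : Type w := c.Quotient
  let st : P → P := Quotient.map' star (fun x y h => normCon_star U x y h)
  have hst : ∀ x : I →ᵇ A, st (x : c.Quotient) = ((star x : I →ᵇ A) : c.Quotient) :=
    fun x => rfl
  let sr : StarRing P :=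
    { star := st
      star_involutive := by
        intro q
        induction q using Quotient.inductionOn' with
        | h x =>
          show st (st (x : c.Quotient)) = (x : c.Quotient)
          rw [hst, hst, star_star]
      star_mul := by
        intro p q
        induction p using Quotient.inductionOn' with
        | h x =>
          induction q using Quotient.inductionOn' with
          | h y =>
            show st ((x : c.Quotient) * (y : c.Quotient)) = st (y : c.Quotient) * st (x : c.Quotient)
            rw [hst, hst, ← RingCon.coe_mul, ← RingCon.coe_mul, hst]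
            exact congrArg (fun z : I →ᵇ A => (z : c.Quotient)) (StarMul.star_mul x y)
      star_add := by
        intro p q
        induction p using Quotient.inductionOn' with
        | h x =>
          induction q using Quotient.inductionOn' with
          | h y =>
            show st ((x : c.Quotient) + (y : c.Quotient)) = st (x : c.Quotient) + st (y : c.Quotient)
            rw [hst, hst, ← RingCon.coe_add, ← RingCon.coe_add, hst, star_add] }
  let toBI : (x : I → A) → BddFam x → (I →ᵇ A) := fun x h =>
    BoundedContinuousFunction.ofNormedAddCommGroupDiscrete x h.choose h.choose_spec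
  let π : (I → A) → P := fun x => if h : BddFam x then ((toBI x h : I →ᵇ A) : c.Quotient) else 0
  have hπ : ∀ (x : I → A) (y : I →ᵇ A), (∀ i, y i = x i) → π x = (y : c.Quotient) := by
    intro x y hxy
    have hb : BddFam x := ⟨‖y‖, fun n => by rw [← hxy n]; exact y.norm_coe_le_norm n⟩
    show (if h : BddFam x then ((toBI x h : I →ᵇ A) : c.Quotient) else 0) = _
    rw [dif_pos hb]
    congr 1
    ext1 i
    exact (hxy i).symm
  refine ⟨P, inferInstance, sr, inferInstance, π, ⟨?_, ?_, ?_, ?_, ?_, ?_, ?_⟩⟩
  · exact hπ _ 1 (fun i => rfl)
  · intro x y hx hy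
    rw [hπ x (toBI x hx) (fun i => rfl), hπ y (toBI y hy) (fun i => rfl)]
    exact hπ _ (toBI x hx + toBI y hy) (fun i => rfl)
  · intro x y hx hy
    rw [hπ x (toBI x hx) (fun i => rfl), hπ y (toBI y hy) (fun i => rfl)]
    exact hπ _ (toBI x hx * toBI y hy) (fun i => rfl)
  · intro r x hx
    rw [hπ x (toBI x hx) (fun i => rfl)]
    exact hπ _ (r • toBI x hx) (fun i => rfl)
  · intro x hx
    rw [hπ x (toBI x hx) (fun i => rfl)]
    exact hπ _ (star (toBI x hx)) (fun i => rfl)
  · intro q
    induction q using Quotient.inductionOn' with
    | h y => exact ⟨fun i => y i, ⟨‖y‖, fun i => y.norm_coe_le_norm i⟩, hπ _ y (fun i => rfl)⟩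
  · intro x hx
    rw [hπ x (toBI x hx) (fun i => rfl)]
    have h0 : (((toBI x hx : I →ᵇ A) : c.Quotient) = 0) ↔
        (((toBI x hx : I →ᵇ A) : c.Quotient) = ((0 : I →ᵇ A) : c.Quotient)) := Iff.rfl
    rw [h0, RingCon.eq]
    show Tendsto (fun i => ‖(toBI x hx) i - (0 : I →ᵇ A) i‖) U (𝓝 0) ↔
      Tendsto (fun i => ‖x i‖) U (𝓝 0)
    have h1 : (fun i => ‖(toBI x hx) i - (0 : I →ᵇ A) i‖) = fun i => ‖x i‖ := by
      funext i
      rw [BoundedContinuousFunction.coe_zero, Pi.zero_apply, sub_zero]
      rfl
    rw [h1]

end

theorem normUltrapowersExist (A : Type) [CStarAlgebra A] : NormUltrapowersExist.{w} A := by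
  intro I U
  letI : TopologicalSpace I := ⊥
  haveI : DiscreteTopology I := ⟨rfl⟩
  exact exists_normUltrapower U

end Pool.Agent.Helper278.CE
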