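import Mathlib
import Pool.Agent.Helper278.KLift

set_option autoImplicit false
set_option linter.unusedSectionVars false

open scoped InnerProductSpace Topology ComplexOrder BoundedContinuousFunction
open Filter

namespace Pool.Agent.Helper278

universe u

section abstract

variable {A : Type u} [Ring A] [StarRing A] [Algebra ℂ A] [StarModule ℂ A]

theorem adjoin_symmetry (z : A) (hzs : star z = z) (hzz : z * z = 1) (x : A)
    (hx : x ∈ StarAlgebra.adjoin ℂ ({z} : Set A)) : ∃ c d : ℂ, x = c • 1 + d • z := by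
  induction hx using StarAlgebra.adjoin_induction with
  | mem x hx => exact ⟨0, 1, by rw [zero_smul, zero_add, one_smul]; exact hx⟩
  | algebraMap r => exact ⟨r, 0, by rw [zero_smul, add_zero]; exact Algebra.algebraMap_eq_smul_one r⟩
  | add x y _ _ hx hy =>
    obtain ⟨c, d, rfl⟩ := hx
    obtain ⟨c', d', rfl⟩ := hy
    exact ⟨c + c', d + d', by rw [add_smul, add_smul]; abel⟩
  | mul x y _ _ hx hy =>
    obtain ⟨c, d, rfl⟩ := hx
    obtain ⟨c', d', rfl⟩ := hy
    refine ⟨c * c' + d * d', c * d' + d * c', ?_⟩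
    rw [add_mul, mul_add, mul_add, smul_mul_smul_comm, smul_mul_smul_comm, smul_mul_smul_comm,
      smul_mul_smul_comm, hzz, one_mul, one_mul, mul_one, add_smul, add_smul]
    abel
  | star x _ hx =>
    obtain ⟨c, d, rfl⟩ := hx
    exact ⟨star c, star d, by rw [star_add, star_smul, star_smul, star_one, hzs]⟩

theorem wstar_symmetry {τ : A →ₗ[ℂ] ℂ} (h : TrAlg τ) (z : A) (hzs : star z = z)
    (hzz : z * z = 1) (hz0 : τ z = 0) (x : A) (hx : x ∈ wstar τ z) :
    x = τ x • 1 + τ (x * z) • z := by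
  have hnz : n2 τ z = 1 := by
    unfold n2
    rw [hzs, hzz, h.one, Complex.one_re, Real.sqrt_one]
  have hns : ∀ (c : ℂ) (y : A), n2 τ (c • y) = ‖c‖ * n2 τ y := by
    intro c y
    have h1 : n2 τ (c • y) ^ 2 = (‖c‖ * n2 τ y) ^ 2 := by
      rw [h.n2_sq, mul_pow, h.n2_sq, star_smul, smul_mul_smul_comm, map_smul, smul_eq_mul]
      have h2 : star c * c = ((‖c‖ ^ 2 : ℝ) : ℂ) := by
        rw [mul_comm, Complex.star_def, Complex.mul_conj, Complex.normSq_eq_norm_sq]
      rw [h2, Complex.re_ofReal_mul]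
    exact (pow_left_inj₀ (n2_nonneg _ _) (mul_nonneg (norm_nonneg _) (n2_nonneg _ _))
      two_ne_zero).1 h1
  set w := τ x • 1 + τ (x * z) • z with hw
  have hle : ∀ ε : ℝ, 0 < ε → n2 τ (x - w) ≤ 3 * ε := by
    intro ε hε
    obtain ⟨y, hy, hxy⟩ := hx ε hε
    obtain ⟨c, d, rfl⟩ := adjoin_symmetry z hzs hzz y hy
    have hxy' : n2 τ (x - (c • 1 + d • z)) < ε := hxy
    have e1 : τ (x - (c • 1 + d • z)) = τ x - c := by
      rw [map_sub, map_add, map_smul, map_smul, h.one, hz0]
      simp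
    have e2 : τ ((x - (c • 1 + d • z)) * z) = τ (x * z) - d := by
      rw [sub_mul, add_mul, smul_mul_assoc, smul_mul_assoc, one_mul, hzz, map_sub, map_add,
        map_smul, map_smul, h.one, hz0]
      simp
    have b1 : ‖τ x - c‖ ≤ ε := by
      rw [← e1]
      exact (h.norm_le _).trans hxy'.le
    have b2 : ‖τ (x * z) - d‖ ≤ ε := by
      rw [← e2]
      refine (h.cauchy' _ _).trans ?_
      rw [hnz, mul_one]
      exact hxy'.le
    have e3 : x - w = (x - (c • 1 + d • z)) - ((τ x - c) • (1 : A) + (τ (x * z) - d) • z) := by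
      rw [hw, sub_smul, sub_smul]
      abel
    rw [e3]
    have b3 : n2 τ ((τ x - c) • (1 : A)) ≤ ε := by
      rw [hns, h.n2_one, mul_one]; exact b1
    have b4 : n2 τ ((τ (x * z) - d) • z) ≤ ε := by
      rw [hns, hnz, mul_one]; exact b2
    have b5 := h.n2_sub_le (x - (c • 1 + d • z)) ((τ x - c) • (1 : A) + (τ (x * z) - d) • z)
    have b6 := h.n2_add_le ((τ x - c) • (1 : A)) ((τ (x * z) - d) • z)
    linarith
  have h0 : n2 τ (x - w) = 0 := by
    by_contra hne
    have hpos : 0 < n2 τ (x - w) := lt_of_le_of_ne (n2_nonneg _ _) (Ne.symm hne)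
    have := hle (n2 τ (x - w) / 6) (by positivity)
    linarith
  have h1 : x - w = 0 := by
    apply h.faithful
    rw [h.eq_sq, h0]
    norm_num
  exact sub_eq_zero.1 h1

theorem altProducts_symmetry {τ : A →ₗ[ℂ] ℂ} (h : TrAlg τ) (z : A) (hzs : star z = z)
    (hzz : z * z = 1) (hz0 : τ z = 0) (k : ℕ) :
    ∀ w ∈ AltProducts (centered τ z) (centered τ z) k, ∃ c : ℂ, w = c • z ^ k := by
  induction k with
  | zero =>
    intro w hw
    exact ⟨1, by rw [pow_zero, one_smul]; exact hw⟩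
  | succ k ih =>
    rintro w ⟨x, hx, y, hy, rfl⟩
    obtain ⟨c, rfl⟩ := ih y hy
    have h1 := wstar_symmetry h z hzs hzz hz0 x hx.1
    have hx2 : τ x = 0 := hx.2
    rw [hx2, zero_smul, zero_add] at h1
    refine ⟨τ (x * z) * c, ?_⟩
    rw [h1, smul_mul_smul_comm, ← pow_succ', ← h1]

theorem kindep_symmetry {τ : A →ₗ[ℂ] ℂ} (h : TrAlg τ) (z : A) (hzs : star z = z)
    (hzz : z * z = 1) (hz0 : τ z = 0) (k : ℕ) (hk : Odd k) : KIndep τ k z z := by
  intro w hw
  obtain ⟨c, rfl⟩ := altProducts_symmetry h z hzs hzz hz0 k w (by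
    rcases hw with hw | hw <;> exact hw)
  obtain ⟨m, rfl⟩ := hk
  have : z ^ (2 * m + 1) = z := by
    rw [pow_succ, pow_mul, sq, hzz, one_pow, one_mul]
  rw [this, map_smul, hz0, smul_zero]

/-- A trace zero symmetry in an algebra with the Lyapunov property. -/
theorem exists_symmetry {τ : A →ₗ[ℂ] ℂ} (hL : LyapProp τ) :
    ∃ z : A, star z = z ∧ z * z = 1 ∧ τ z = 0 := by
  obtain ⟨D, _, _, hD⟩ := hL ∅ (by simp) (by simp)
  obtain ⟨p, _, hp, hpτ⟩ := hD (Fin 2) (Fin 1) (fun _ => ((2⁻¹ : ℝ) : ℂ) • (1 : A)) (fun _ => 1)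
    (fun _ => D.smul_mem (one_mem D) _)
    (fun _ => pos_proj (star_one A) (mul_one 1) _ (by norm_num)) (by
      rw [Fin.sum_univ_two, ← add_smul, ← Complex.ofReal_add]
      norm_num)
  have hsum := hp.sum
  rw [Fin.sum_univ_two] at hsum
  have h01 := hp.orth 0 1 (by decide)
  have h10 := hp.orth 1 0 (by decide)
  refine ⟨p 0 - p 1, by rw [star_sub, hp.star_eq, hp.star_eq], ?_, ?_⟩
  · rw [sub_mul, mul_sub, mul_sub, hp.idem, hp.idem, h01, h10, sub_zero, zero_sub, sub_neg_eq_add,
      hsum]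
  · have e0 := hpτ 0 0
    have e1 := hpτ 1 0
    rw [mul_one, mul_one] at e0 e1
    rw [map_sub, e0, e1, sub_self]

theorem altProducts_even (S T : Set A) (x y : A) (hx : x ∈ S) (hy : y ∈ T) (m : ℕ) :
    (x * y) ^ m ∈ AltProducts S T (2 * m) := by
  induction m with
  | zero => exact pow_zero _
  | succ m ih =>
    have e : 2 * (m + 1) = (2 * m + 1) + 1 := by ring
    rw [e, pow_succ', mul_assoc]
    exact ⟨x, hx, _, ⟨y, hy, _, ih, rfl⟩, rfl⟩

end abstract

section ultra

variable {H : Type u} [NormedAddCommGroup H] [InnerProductSpace ℂ H] [CompleteSpace H]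
variable {N : VonNeumannAlgebra H}

theorem tau_norm_le (T : TracialState N) (x : Elt N) : ‖T.τ x‖ ≤ ‖x‖ := by
  have hA := trAlg T
  refine (hA.norm_le _).trans ?_
  have h2 := n2_mul_le T x 1
  rwa [mul_one, hA.n2_one, mul_one] at h2

/-- The centering of a bounded sequence. -/
noncomputable def cen (T : TracialState N) (x : ℕ →ᵇ Elt N) : ℕ →ᵇ Elt N :=
  BoundedContinuousFunction.ofNormedAddCommGroupDiscrete
    (fun n => T.τ (x n) • (1 : Elt N)) (‖x‖ * ‖(1 : Elt N)‖) (fun n => by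
      rw [norm_smul]
      exact mul_le_mul_of_nonneg_right ((tau_norm_le T _).trans (x.norm_coe_le_norm n))
        (norm_nonneg _))

/-- Failure of the lifting for odd `k` when `k`-independence only refers to words of length
exactly `k`. -/
theorem fails_of_lyap (T : TracialState N) (hL : LyapProp T.τ) (k : ℕ) (hk3 : 3 ≤ k)
    (hk : Odd k) : LiftingFails k (Elt N) T.τ := by
  intro U hU Q _ _ _ _ π σ hπ
  have hA := trAlg T
  have hS := sigma_trAlg hπ
  obtain ⟨z, hzs, hzz, hz0⟩ := exists_symmetry hL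
  let c : ℕ →ᵇ Elt N := BoundedContinuousFunction.const ℕ z
  have hcs : star c = c := by
    ext1 n
    exact hzs
  have hcc : c * c = 1 := by
    ext1 n
    exact hzz
  have hus : star (π c) = π c := by rw [← map_star, hcs]
  have huu : π c * π c = 1 := by rw [← map_mul, hcc, map_one]
  have hu0 : σ (π c) = 0 := by
    refine tendsto_nhds_unique (hπ.trace c) (tendsto_const_nhds.congr fun n => ?_)
    exact hz0.symm
  have huu' : π c ∈ unitary Q := Unitary.mem_iff.2 ⟨by rw [hus, huu], by rw [hus, huu]⟩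
  refine ⟨π c, huu', π c, huu', kindep_symmetry (τ := sigmaL hπ) hS (π c) hus huu hu0 k hk, ?_⟩
  intro a b ha hb hmem
  obtain ⟨m, hm⟩ := hk
  -- centering does not change the class
  have hcen : ∀ x : ℕ →ᵇ Elt N, π x = π c → π (x - cen T x) = π c := by
    intro x hx
    have h1 : π (cen T x) = 0 := by
      rw [hπ.ker, hA.tendsto_iff]
      have h2 := hπ.trace x
      rw [hx, hu0] at h2
      have h3 := h2.norm
      rw [norm_zero] at h3
      refine squeeze_zero (fun n => n2_nonneg _ _) (fun n => ?_) h3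
      show n2 T.τ (T.τ (x n) • (1 : Elt N)) ≤ ‖T.τ (x n)‖
      have h4 : n2 T.τ (T.τ (x n) • (1 : Elt N)) ^ 2 = ‖T.τ (x n)‖ ^ 2 := by
        rw [hA.n2_sq, star_smul, smul_mul_smul_comm, star_one, one_mul, map_smul, hA.one,
          smul_eq_mul, mul_one, mul_comm, Complex.star_def, Complex.mul_conj,
          Complex.normSq_eq_norm_sq, Complex.ofReal_re]
      exact ((pow_left_inj₀ (n2_nonneg _ _) (norm_nonneg _) two_ne_zero).1 h4).le
    rw [map_sub, h1, sub_zero, hx]
  have hmemc : ∀ (x : ℕ →ᵇ Elt N) (n : ℕ), (x - cen T x) n ∈ centered T.τ (x n) := by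
    intro x n
    have e : (x - cen T x) n = x n - T.τ (x n) • (1 : Elt N) := rfl
    rw [e]
    refine ⟨adjoin_sub_wstar' _ _ (sub_mem (StarAlgebra.self_mem_adjoin_singleton ℂ _)
      ((StarAlgebra.adjoin ℂ ({x n} : Set (Elt N))).smul_mem (one_mem _) _)), ?_⟩
    rw [map_sub, map_smul, hA.one, smul_eq_mul, mul_one, sub_self]
  let W : ℕ →ᵇ Elt N := ((a - cen T a) * (b - cen T b)) ^ m
  have hW : π W = 1 := by
    show π (((a - cen T a) * (b - cen T b)) ^ m) = 1
    rw [map_pow, map_mul, hcen a ha, hcen b hb, huu, one_pow]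
  have h1 := hπ.trace W
  rw [hW] at h1
  have hone : σ 1 = 1 := hS.one
  rw [hone] at h1
  have h2 : Tendsto (fun n => T.τ (W n)) U (𝓝 0) := by
    refine tendsto_const_nhds.congr' ?_
    refine Filter.Eventually.mono hmem fun n hn => ?_
    have hn' : KIndep T.τ (k - 1) (a n) (b n) := hn
    have hk1 : k - 1 = 2 * m := by omega
    rw [hk1] at hn'
    have e : W n = ((a - cen T a) n * (b - cen T b) n) ^ m := by
      show (((a - cen T a) * (b - cen T b)) ^ m : ℕ →ᵇ Elt N) n = _
      rw [bpow_apply, BoundedContinuousFunction.mul_apply]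
    show (0 : ℂ) = T.τ (W n)
    rw [e]
    exact (hn' _ (Or.inl (altProducts_even _ _ _ _ (hmemc a n) (hmemc b n) m))).symm
  exact one_ne_zero (tendsto_nhds_unique h1 h2)

end ultra

end Pool.Agent.Helper278
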