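import Mathlib

set_option autoImplicit false
set_option linter.unusedSectionVars false

open Filter

namespace Pool.Agent.Helper278

/-- The matrix algebra `M_n(ℂ)`. -/
abbrev Mat (n : ℕ) : Type := Matrix (Fin n) (Fin n) ℂ

/-- The operator norm of the matrix `x` is at most `|C|`: `‖x v‖² ≤ C² ‖v‖²` for all vectors `v`,
with the Hilbert space norm. -/
def OpBound {n : ℕ} (x : Mat n) (C : ℝ) : Prop :=
  ∀ v : Fin n → ℂ, ∑ i, ‖x.mulVec v i‖ ^ 2 ≤ C ^ 2 * ∑ i, ‖v i‖ ^ 2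

theorem OpBound.mul {n : ℕ} {x y : Mat n} {C D : ℝ} (hx : OpBound x C) (hy : OpBound y D) :
    OpBound (x * y) (C * D) := by
  intro v
  rw [← Matrix.mulVec_mulVec]
  refine (hx _).trans ?_
  rw [mul_pow, mul_assoc]
  exact mul_le_mul_of_nonneg_left (hy v) (sq_nonneg _)

theorem OpBound.add {n : ℕ} {x y : Mat n} {C D : ℝ} (hx : OpBound x C) (hy : OpBound y D) :
    OpBound (x + y) (2 * (|C| + |D|)) := by
  intro v
  rw [Matrix.add_mulVec]
  have h1 : ∑ i, ‖(x.mulVec v + y.mulVec v) i‖ ^ 2 ≤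
      2 * ∑ i, ‖x.mulVec v i‖ ^ 2 + 2 * ∑ i, ‖y.mulVec v i‖ ^ 2 := by
    rw [Finset.mul_sum, Finset.mul_sum, ← Finset.sum_add_distrib]
    refine Finset.sum_le_sum fun i _ => ?_
    have h2 := norm_add_le (x.mulVec v i) (y.mulVec v i)
    rw [Pi.add_apply]
    nlinarith [sq_nonneg (‖x.mulVec v i‖ - ‖y.mulVec v i‖), norm_nonneg (x.mulVec v i),
      norm_nonneg (y.mulVec v i), norm_nonneg (x.mulVec v i + y.mulVec v i)]
  have h3 := hx v
  have h4 := hy v
  have h5 : 0 ≤ ∑ i, ‖v i‖ ^ 2 := by positivity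
  refine h1.trans ?_
  have h6 : 2 * C ^ 2 + 2 * D ^ 2 ≤ (2 * (|C| + |D|)) ^ 2 := by
    nlinarith [sq_abs C, sq_abs D, abs_nonneg C, abs_nonneg D, mul_nonneg (abs_nonneg C)
      (abs_nonneg D)]
  nlinarith

theorem OpBound.mono {n : ℕ} {x : Mat n} {C D : ℝ} (hx : OpBound x C) (h : |C| ≤ |D|) :
    OpBound x D := by
  intro v
  refine (hx v).trans (mul_le_mul_of_nonneg_right ?_ (by positivity))
  rw [← sq_abs C, ← sq_abs D]
  exact pow_le_pow_left₀ (abs_nonneg _) h 2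

section

open scoped Matrix.Norms.L2Operator

theorem opBound_of_norm {n : ℕ} {x : Mat n} {C : ℝ} (h : ‖x‖ ≤ C) : OpBound x C := by
  intro v
  have h1 := Matrix.l2_opNorm_mulVec x (WithLp.toLp 2 v)
  have h2 := pow_le_pow_left₀ (norm_nonneg _) h1 2
  rw [mul_pow, EuclideanSpace.norm_sq_eq, EuclideanSpace.norm_sq_eq] at h2
  refine h2.trans (mul_le_mul_of_nonneg_right ?_ (by positivity))
  exact pow_le_pow_left₀ (norm_nonneg _) h 2

theorem OpBound.norm_le {n : ℕ} {x : Mat n} {C : ℝ} (h : OpBound x C) : ‖x‖ ≤ |C| := by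
  rw [Matrix.l2_opNorm_def]
  refine ContinuousLinearMap.opNorm_le_bound _ (abs_nonneg _) fun v => ?_
  refine (pow_le_pow_iff_left₀ (norm_nonneg _) (by positivity) two_ne_zero).1 ?_
  rw [mul_pow, EuclideanSpace.norm_sq_eq, EuclideanSpace.norm_sq_eq, sq_abs]
  exact h (WithLp.ofLp v)

theorem OpBound.star' {n : ℕ} {x : Mat n} {C : ℝ} (h : OpBound x C) :
    OpBound x.conjTranspose |C| := by
  refine opBound_of_norm ?_
  have h1 := h.norm_le
  rwa [← norm_star] at h1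

end

end Pool.Agent.Helper278
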