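import Mathlib
import Pool.Agent.Helper278.MUNorm

set_option autoImplicit false
set_option linter.unusedSectionVars false

open scoped Topology
open Filter

namespace Pool.Agent.Helper278

/-- The normalized trace on `M_n(ℂ)`. -/
noncomputable def ntr (n : ℕ) (x : Mat n) : ℂ := (n : ℂ)⁻¹ * Matrix.trace x

/-- The sequence `(x_n)`, `x_n ∈ M_n(ℂ)`, is bounded in the operator norm. -/
def NormBounded (x : ∀ n : ℕ, Mat n) : Prop := ∃ C : ℝ, ∀ n, OpBound (x n) C

section

variable {Q : Type*} [Ring Q] [StarRing Q] [Algebra ℂ Q]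

/-- `(Q, τ)` is the tracial ultraproduct `M^U = ∏_{n → U} M_n(ℂ)`: `π`, restricted to the star
algebra of the norm bounded sequences, is a unital star homomorphism onto `Q`, its kernel consists
of the sequences with `lim tr_n(x_n* x_n) = 0` along `U`, and `τ(π x)` is the limit of `tr_n(x_n)`
along `U`. -/
structure IsMatrixUltraproduct (U : Ultrafilter ℕ) (π : (∀ n, Mat n) → Q) (τ : Q → ℂ) :
    Prop where
  one : π (fun _ => 1) = 1
  add : ∀ x y, NormBounded x → NormBounded y → π (fun n => x n + y n) = π x + π y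
  mul : ∀ x y, NormBounded x → NormBounded y → π (fun n => x n * y n) = π x * π y
  smul : ∀ (c : ℂ) x, NormBounded x → π (fun n => c • x n) = c • π x
  star : ∀ x, NormBounded x → π (fun n => star (x n)) = star (π x)
  surj : ∀ q, ∃ x, NormBounded x ∧ π x = q
  ker : ∀ x, NormBounded x →
    (π x = 0 ↔ Tendsto (fun n => ntr n (Star.star (x n) * x n)) U (𝓝 0))
  trace : ∀ x, NormBounded x → Tendsto (fun n => ntr n (x n)) U (𝓝 (τ (π x)))

/-- The 2-norm `‖x‖₂ = τ(x* x)^{1/2}`. -/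
noncomputable def nrm2 (τ : Q → ℂ) (x : Q) : ℝ := Real.sqrt (τ (star x * x)).re

/-- A star subalgebra of the tracial von Neumann algebra `(Q, τ)` is a von Neumann subalgebra iff
it is closed in `Q` for the 2-norm. -/
def IsVNSub (τ : Q → ℂ) [StarModule ℂ Q] (S : StarSubalgebra ℂ Q) : Prop :=
  ∀ x, (∀ ε : ℝ, 0 < ε → ∃ y ∈ S, nrm2 τ (x - y) < ε) → x ∈ S

/-- The image in `Q` of the ultraproduct `S^U` of the symmetric groups: the classes of the
sequences of permutation matrices. -/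
def symImage (π : (∀ n, Mat n) → Q) : Set Q :=
  {x | ∃ σ : ∀ n, Equiv.Perm (Fin n), π (fun n => (σ n).permMatrix ℂ) = x}

/-- The von Neumann algebra `W*(S^U)`: the smallest von Neumann subalgebra of `Q` containing the
image of the ultraproduct `S^U` of the symmetric groups. -/
def symVN [StarModule ℂ Q] (π : (∀ n, Mat n) → Q) (τ : Q → ℂ) : StarSubalgebra ℂ Q :=
  sInf {S | symImage π ⊆ S ∧ IsVNSub τ S}

/-- `W ⊆ (Q, τ)` contains a copy of `(R, φ)`: it has a von Neumann subalgebra that is isomorphic to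
`R` by a trace preserving star isomorphism. -/
def ContainsCopy [StarModule ℂ Q] (τ : Q → ℂ) (W : StarSubalgebra ℂ Q) {R : Type*} [Ring R]
    [StarRing R] [Algebra ℂ R] (φ : R → ℂ) : Prop :=
  ∃ N : StarSubalgebra ℂ Q, N ≤ W ∧ IsVNSub τ N ∧ ∃ e : R ≃⋆ₐ[ℂ] N, ∀ x, τ (e x : Q) = φ x

/-- Every (possibly non-unital) star homomorphism from `(R, φ)` to `W ⊆ (Q, τ)` that scales the
trace by a constant is zero. -/
def OnlyZeroHoms [StarModule ℂ Q] (τ : Q → ℂ) (W : StarSubalgebra ℂ Q) {R : Type*} [Ring R]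
    [StarRing R] [Algebra ℂ R] (φ : R → ℂ) : Prop :=
  ∀ (ρ : R →⋆ₙₐ[ℂ] Q) (c : ℂ), (∀ x, τ (ρ x) = c * φ x) → (∀ x, ρ x ∈ W) → ∀ x, ρ x = 0

end

universe u v

/-- The matrix ultraproduct `M^U` exists. -/
def MatUltraExists (U : Ultrafilter ℕ) : Prop :=
  ∃ (Q : Type) (_ : Ring Q) (_ : StarRing Q) (_ : Algebra ℂ Q) (_ : StarModule ℂ Q)
    (π : (∀ n, Mat n) → Q) (τ : Q → ℂ), IsMatrixUltraproduct U π τ

/-- For every model `(Q, τ)` of the matrix ultraproduct `M^U` and every model `(R, φ)` of the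
matrix ultraproduct `M^V`, `W*(S^U) ⊆ Q` contains no copy of `(R, φ)`, and every star homomorphism
from `R` to `W*(S^U)` that scales the trace is zero. -/
def NoCopies (U V : Ultrafilter ℕ) : Prop :=
  ∀ (Q : Type u) [Ring Q] [StarRing Q] [Algebra ℂ Q] [StarModule ℂ Q] (π : (∀ n, Mat n) → Q)
    (τ : Q → ℂ), IsMatrixUltraproduct U π τ →
  ∀ (R : Type v) [Ring R] [StarRing R] [Algebra ℂ R] [StarModule ℂ R] (θ : (∀ n, Mat n) → R)
    (φ : R → ℂ), IsMatrixUltraproduct V θ φ →
    ¬ ContainsCopy τ (symVN π τ) φ ∧ OnlyZeroHoms τ (symVN π τ) φ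

end Pool.Agent.Helper278
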