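import Mathlib
import Pool.Agent.Helper278.MUStmt

set_option autoImplicit false
set_option linter.unusedSectionVars false

open scoped Topology
open Filter

namespace Pool.Agent.Helper278

/-- The star algebra of sequences `(x_n)`, `x_n ∈ M_n(ℂ)`, that are bounded in the operator
norm. -/
def BddSeq : StarSubalgebra ℂ (∀ n : ℕ, Mat n) where
  carrier := {x | ∃ C : ℝ, ∀ n, OpBound (x n) C}
  mul_mem' := by
    rintro x y ⟨C, hC⟩ ⟨D, hD⟩
    exact ⟨C * D, fun n => (hC n).mul (hD n)⟩
  add_mem' := by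
    rintro x y ⟨C, hC⟩ ⟨D, hD⟩
    exact ⟨2 * (|C| + |D|), fun n => (hC n).add (hD n)⟩
  algebraMap_mem' := by
    intro r
    refine ⟨‖r‖, fun n v => ?_⟩
    rw [Pi.algebraMap_apply, Algebra.algebraMap_eq_smul_one, Matrix.smul_mulVec,
      Matrix.one_mulVec, Finset.mul_sum]
    refine le_of_eq (Finset.sum_congr rfl fun i _ => ?_)
    rw [Pi.smul_apply, norm_smul, mul_pow]
  star_mem' := by
    rintro x ⟨C, hC⟩
    exact ⟨|C|, fun n => (hC n).star'⟩

section

variable {Q : Type*} [Ring Q] [StarRing Q] [Algebra ℂ Q]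

/-- `(Q, τ)` with the quotient map `π` is the tracial ultraproduct `∏_{n → U} M_n(ℂ)`: `π` maps
the star algebra of bounded sequences onto `Q`, its kernel consists of the sequences with
`lim tr_n(x_n* x_n) = 0` along `U`, and `τ(π x)` is the limit of `tr_n(x_n)` along `U`. -/
structure IsMatUltra (U : Ultrafilter ℕ) (π : BddSeq →⋆ₐ[ℂ] Q) (τ : Q → ℂ) : Prop where
  surj : Function.Surjective π
  ker : ∀ x, π x = 0 ↔ Tendsto (fun n => ntr n (star (x.1 n) * x.1 n)) U (𝓝 0)
  trace : ∀ x, Tendsto (fun n => ntr n (x.1 n)) U (𝓝 (τ (π x)))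

/-- The image in `Q` of the ultraproduct `∏_{n → U} S_n` of the symmetric groups: the classes of
the sequences of permutation matrices. -/
def permSet (π : BddSeq →⋆ₐ[ℂ] Q) : Set Q :=
  {x | ∃ (σ : ∀ n, Equiv.Perm (Fin n)) (y : BddSeq), (∀ n, y.1 n = (σ n).permMatrix ℂ) ∧ π y = x}

/-- The von Neumann algebra `W*(S^U)`: the smallest von Neumann subalgebra of `Q` containing the
image of the ultraproduct of the symmetric groups. -/
noncomputable def permVN [StarModule ℂ Q] (π : BddSeq →⋆ₐ[ℂ] Q) (τ : Q → ℂ) :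
    StarSubalgebra ℂ Q :=
  sInf {S | permSet π ⊆ S ∧ IsVNSub τ S}

end

end Pool.Agent.Helper278
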