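import Mathlib
import Pool.Agent.Helper278.MUDefs
import Pool.Agent.Helper278.TrAlg

set_option autoImplicit false
set_option linter.unusedSectionVars false
set_option linter.unusedVariables false
set_option linter.deprecated false

open scoped Matrix.Norms.L2Operator Topology ComplexOrder
open Filter

namespace Pool.Agent.Helper278

/-- squared 2-norm -/
noncomputable def s2 (n : ℕ) (x : Mat n) : ℝ := (n : ℝ)⁻¹ * ∑ i, ∑ j, ‖x i j‖ ^ 2

/-- the height: the average of the sup norms of the rows -/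
noncomputable def ht (n : ℕ) (x : Mat n) : ℝ := (n : ℝ)⁻¹ * ∑ i, ‖x i‖

variable {n : ℕ}

theorem s2_nonneg (x : Mat n) : 0 ≤ s2 n x := by unfold s2; positivity

theorem ht_nonneg (x : Mat n) : 0 ≤ ht n x := by unfold ht; positivity

theorem ntr_star_mul (x : Mat n) : ntr n (star x * x) = (s2 n x : ℂ) := by
  unfold ntr s2
  rw [Matrix.trace]
  simp only [Matrix.diag_apply, Matrix.mul_apply, Matrix.star_apply]
  rw [Finset.sum_comm]
  push_cast
  congr 1
  refine Finset.sum_congr rfl fun i _ => Finset.sum_congr rfl fun j _ => ?_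
  rw [mul_comm, Complex.star_def, Complex.mul_conj, Complex.normSq_eq_norm_sq]
  push_cast
  rfl

theorem ht_add_le (x y : Mat n) : ht n (x + y) ≤ ht n x + ht n y := by
  unfold ht
  rw [← mul_add, ← Finset.sum_add_distrib]
  refine mul_le_mul_of_nonneg_left (Finset.sum_le_sum fun i _ => ?_) (by positivity)
  exact norm_add_le (x i) (y i)

theorem ht_smul (c : ℂ) (x : Mat n) : ht n (c • x) = ‖c‖ * ht n x := by
  unfold ht
  have h1 : ∀ i : Fin n, ‖(c • x) i‖ = ‖c‖ * ‖x i‖ := fun i => norm_smul c (x i)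
  simp only [h1, ← Finset.mul_sum]
  ring

theorem ht_sq_le' (x : Mat n) : ht n x ^ 2 ≤ (n : ℝ)⁻¹ * ∑ i, ‖x i‖ ^ 2 := by
  unfold ht
  rcases Nat.eq_zero_or_pos n with hn | hn
  · subst hn; simp
  have h1 := sq_sum_le_card_mul_sum_sq (s := (Finset.univ : Finset (Fin n))) (f := fun i => ‖x i‖)
  rw [Finset.card_univ, Fintype.card_fin] at h1
  have hn' : (0 : ℝ) < n := by exact_mod_cast hn
  rw [mul_pow]
  calc ((n : ℝ)⁻¹) ^ 2 * (∑ i, ‖x i‖) ^ 2 ≤ ((n : ℝ)⁻¹) ^ 2 * (n * ∑ i, ‖x i‖ ^ 2) :=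
        mul_le_mul_of_nonneg_left h1 (by positivity)
    _ = (n : ℝ)⁻¹ * ∑ i, ‖x i‖ ^ 2 := by field_simp

theorem row_pow_le (x : Mat n) (i : Fin n) (k : ℕ) (hk : k ≠ 0) :
    ‖x i‖ ^ k ≤ ∑ j, ‖x i j‖ ^ k := by
  rcases Nat.eq_zero_or_pos n with hn | hn
  · subst hn; exact i.elim0
  have : Nonempty (Fin n) := ⟨i⟩
  obtain ⟨j, hj⟩ : ∃ j, ‖x i‖ = ‖x i j‖ := by
    obtain ⟨j, hj⟩ := Finite.exists_max (fun j => ‖x i j‖)
    exact ⟨j, le_antisymm ((pi_norm_le_iff_of_nonneg (norm_nonneg _)).2 hj) (norm_le_pi_norm (x i) j)⟩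
  rw [hj]
  exact Finset.single_le_sum (f := fun j => ‖x i j‖ ^ k) (fun j _ => by positivity)
    (Finset.mem_univ j)

theorem ht_sq_le (x : Mat n) : ht n x ^ 2 ≤ s2 n x := by
  refine (ht_sq_le' x).trans ?_
  unfold s2
  exact mul_le_mul_of_nonneg_left (Finset.sum_le_sum fun i _ => row_pow_le x i 2 two_ne_zero)
    (by positivity)

theorem ht_four_le (x : Mat n) : ht n x ^ 4 ≤ (n : ℝ)⁻¹ * ∑ i, ∑ j, ‖x i j‖ ^ 4 := by
  have h1 := ht_sq_le' x
  have h2 : ht n x ^ 4 ≤ ((n : ℝ)⁻¹ * ∑ i, ‖x i‖ ^ 2) ^ 2 := by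
    have : ht n x ^ 4 = (ht n x ^ 2) ^ 2 := by ring
    rw [this]
    exact pow_le_pow_left₀ (sq_nonneg _) h1 2
  refine h2.trans ?_
  have h3 : ((n : ℝ)⁻¹ * ∑ i, ‖x i‖ ^ 2) ^ 2 ≤ (n : ℝ)⁻¹ * ∑ i, ‖x i‖ ^ 4 := by
    rcases Nat.eq_zero_or_pos n with hn | hn
    · subst hn; simp
    have h1 := sq_sum_le_card_mul_sum_sq (s := (Finset.univ : Finset (Fin n)))
      (f := fun i => ‖x i‖ ^ 2)
    rw [Finset.card_univ, Fintype.card_fin] at h1
    have hn' : (0 : ℝ) < n := by exact_mod_cast hn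
    rw [mul_pow]
    calc ((n : ℝ)⁻¹) ^ 2 * (∑ i, ‖x i‖ ^ 2) ^ 2 ≤ ((n : ℝ)⁻¹) ^ 2 * (n * ∑ i, (‖x i‖ ^ 2) ^ 2) :=
          mul_le_mul_of_nonneg_left h1 (by positivity)
      _ = (n : ℝ)⁻¹ * ∑ i, (‖x i‖ ^ 2) ^ 2 := by field_simp
      _ = (n : ℝ)⁻¹ * ∑ i, ‖x i‖ ^ 4 := by
        congr 1
        refine Finset.sum_congr rfl fun i _ => by ring
  refine h3.trans ?_
  exact mul_le_mul_of_nonneg_left (Finset.sum_le_sum fun i _ => row_pow_le x i 4 (by norm_num))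
    (by positivity)

/-- permutation matrices -/
abbrev PM (σ : Equiv.Perm (Fin n)) : Mat n := σ.permMatrix ℂ

theorem pm_mul (σ : Equiv.Perm (Fin n)) (x : Mat n) (i : Fin n) : (PM σ * x) i = x (σ i) := by
  funext j
  rw [PM, Equiv.Perm.permMatrix, PEquiv.toMatrix_toPEquiv_mul]
  rfl

theorem mul_pm (σ : Equiv.Perm (Fin n)) (x : Mat n) (i j : Fin n) :
    (x * PM σ) i j = x i (σ.symm j) := by
  rw [PM, Equiv.Perm.permMatrix, PEquiv.mul_toMatrix_toPEquiv]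
  rfl

theorem star_pm (σ : Equiv.Perm (Fin n)) : star (PM σ) = PM σ⁻¹ := by
  ext i j
  rw [Matrix.star_apply, PM, PM, Equiv.Perm.permMatrix, Equiv.Perm.permMatrix,
    PEquiv.toMatrix_apply, PEquiv.toMatrix_apply]
  simp only [Equiv.toPEquiv_apply, Option.mem_def, Option.some.injEq]
  by_cases h : σ j = i
  · have h' : σ⁻¹ i = j := by rw [← h]; simp
    rw [if_pos h, if_pos h', star_one]
  · have h' : ¬ σ⁻¹ i = j := by
      rintro rfl
      exact h (by simp)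
    rw [if_neg h, if_neg h', star_zero]

theorem pm_mul_pm (σ τ : Equiv.Perm (Fin n)) : PM σ * PM τ = PM (τ * σ) := by
  ext i j
  rw [pm_mul, PM, PM, Equiv.Perm.permMatrix, Equiv.Perm.permMatrix, PEquiv.toMatrix_apply,
    PEquiv.toMatrix_apply]
  rfl

theorem pm_one : PM (1 : Equiv.Perm (Fin n)) = 1 := by
  ext i j
  rw [PM, Equiv.Perm.permMatrix, PEquiv.toMatrix_apply, Matrix.one_apply]
  simp

theorem star_pm_mul (σ : Equiv.Perm (Fin n)) : star (PM σ) * PM σ = 1 := by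
  rw [star_pm, pm_mul_pm, mul_inv_cancel, pm_one]

theorem ht_pm_mul (σ : Equiv.Perm (Fin n)) (x : Mat n) : ht n (PM σ * x) = ht n x := by
  unfold ht
  congr 1
  simp only [pm_mul]
  exact Equiv.sum_comp σ (fun i => ‖x i‖)

theorem ht_mul_pm (σ : Equiv.Perm (Fin n)) (x : Mat n) : ht n (x * PM σ) = ht n x := by
  unfold ht
  congr 1
  refine Finset.sum_congr rfl fun i _ => ?_
  refine le_antisymm ?_ ?_
  · refine (pi_norm_le_iff_of_nonneg (norm_nonneg _)).2 fun j => ?_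
    rw [mul_pm]
    exact norm_le_pi_norm (x i) _
  · refine (pi_norm_le_iff_of_nonneg (norm_nonneg _)).2 fun j => ?_
    have := norm_le_pi_norm ((x * PM σ) i) (σ j)
    rwa [mul_pm, Equiv.symm_apply_apply] at this

theorem norm_ntr_mul_pm (σ : Equiv.Perm (Fin n)) (x : Mat n) : ‖ntr n (x * PM σ)‖ ≤ ht n x := by
  unfold ntr ht
  rw [norm_mul, norm_inv, Complex.norm_natCast]
  refine mul_le_mul_of_nonneg_left ?_ (by positivity)
  rw [Matrix.trace]
  refine (norm_sum_le _ _).trans (Finset.sum_le_sum fun i _ => ?_)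
  rw [Matrix.diag_apply, mul_pm]
  exact norm_le_pi_norm (x i) _

theorem s2_mul_le (x y : Mat n) : s2 n (x * y) ≤ ‖x‖ ^ 2 * s2 n y := by
  unfold s2
  rw [mul_left_comm]
  refine mul_le_mul_of_nonneg_left ?_ (by positivity)
  rw [Finset.sum_comm, Finset.sum_comm (f := fun i j => ‖y i j‖ ^ 2), Finset.mul_sum]
  refine Finset.sum_le_sum fun j _ => ?_
  have h1 := Matrix.l2_opNorm_mulVec x (WithLp.toLp 2 (fun i => y i j))
  have h2 := pow_le_pow_left₀ (norm_nonneg _) h1 2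
  rw [mul_pow, EuclideanSpace.norm_sq_eq, EuclideanSpace.norm_sq_eq] at h2
  exact h2

theorem s2_star (x : Mat n) : s2 n (star x) = s2 n x := by
  unfold s2
  congr 1
  rw [Finset.sum_comm]
  refine Finset.sum_congr rfl fun i _ => Finset.sum_congr rfl fun j _ => ?_
  rw [Matrix.star_apply, norm_star]

theorem norm_apply_le (x : Mat n) (i j : Fin n) : ‖x i j‖ ≤ ‖x‖ := by
  have h1 := Matrix.l2_opNorm_mulVec x (WithLp.toLp 2 (Pi.single j (1 : ℂ)))
  have h2 : ‖(WithLp.toLp 2 (Pi.single j (1 : ℂ)) : EuclideanSpace ℂ (Fin n))‖ = 1 := by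
    have := EuclideanSpace.norm_single (𝕜 := ℂ) j (1 : ℂ)
    rw [norm_one] at this
    exact this
  rw [h2, mul_one] at h1
  refine le_trans ?_ h1
  have h3 := EuclideanSpace.norm_sq_eq
    (WithLp.toLp 2 (x.mulVec (Pi.single j (1 : ℂ))) : EuclideanSpace ℂ (Fin n))
  have h4 : ‖x i j‖ ^ 2 ≤ ‖(WithLp.toLp 2 (x.mulVec (Pi.single j (1 : ℂ))) :
      EuclideanSpace ℂ (Fin n))‖ ^ 2 := by
    rw [h3]
    have h5 : ∀ k, x.mulVec (Pi.single j (1 : ℂ)) k = x k j := by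
      intro k
      rw [Matrix.mulVec_single]
      simp
    have h6 := Finset.single_le_sum (f := fun k => ‖x k j‖ ^ 2) (fun k _ => by positivity)
      (Finset.mem_univ i)
    refine h6.trans (le_of_eq ?_)
    refine Finset.sum_congr rfl fun k _ => ?_
    show _ = ‖x.mulVec (Pi.single j (1 : ℂ)) k‖ ^ 2
    rw [h5]
  exact (pow_le_pow_iff_left₀ (norm_nonneg _) (norm_nonneg _) two_ne_zero).1 h4

/-- the average size of the diagonal entries is at most the 2-norm -/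
theorem diag_avg_sq (x : Mat n) : ((n : ℝ)⁻¹ * ∑ j, ‖x j j‖) ^ 2 ≤ s2 n x := by
  rcases Nat.eq_zero_or_pos n with hn | hn
  · subst hn; simp [s2]
  have h1 := sq_sum_le_card_mul_sum_sq (s := (Finset.univ : Finset (Fin n)))
    (f := fun i => ‖x i i‖)
  rw [Finset.card_univ, Fintype.card_fin] at h1
  have hn' : (0 : ℝ) < n := by exact_mod_cast hn
  rw [mul_pow]
  calc ((n : ℝ)⁻¹) ^ 2 * (∑ i, ‖x i i‖) ^ 2 ≤ ((n : ℝ)⁻¹) ^ 2 * (n * ∑ i, ‖x i i‖ ^ 2) :=
        mul_le_mul_of_nonneg_left h1 (by positivity)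
    _ = (n : ℝ)⁻¹ * ∑ i, ‖x i i‖ ^ 2 := by field_simp
    _ ≤ s2 n x := by
      unfold s2
      refine mul_le_mul_of_nonneg_left (Finset.sum_le_sum fun i _ => ?_) (by positivity)
      exact Finset.single_le_sum (f := fun j => ‖x i j‖ ^ 2) (fun j _ => by positivity)
        (Finset.mem_univ i)

end Pool.Agent.Helper278
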