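import Mathlib
import Pool.Agent.Helper278.MUFin
import Pool.Agent.Helper278.Rad

set_option autoImplicit false
set_option linter.unusedSectionVars false
set_option linter.unusedVariables false

open scoped Matrix.Norms.L2Operator Topology ComplexOrder
open Filter

namespace Pool.Agent.Helper278

/-- signed sums -/
noncomputable def sgs {A : Type*} [AddCommMonoid A] [Module ℂ A] : (m : ℕ) → Idx m → (ℕ → A) → A
  | 0, _, _ => 0
  | m + 1, i, v => sgs m i.1 v + sg i.2 • v m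

theorem sgs_succ {A : Type*} [AddCommMonoid A] [Module ℂ A] (m : ℕ) (i : Idx m) (b : Bool)
    (v : ℕ → A) : sgs (m + 1) (i, b) v = sgs m i v + sg b • v m := rfl

theorem khin2 (m : ℕ) (v : ℕ → ℂ) :
    ∑ i : Idx m, ‖sgs m i v‖ ^ 2 = 2 ^ m * ∑ l ∈ Finset.range m, ‖v l‖ ^ 2 := by
  induction m with
  | zero => simp [sgs]
  | succ m ih =>
    rw [sum_idx_succ]
    have h1 : ∀ i : Idx m, ‖sgs (m + 1) (i, true) v‖ ^ 2 + ‖sgs (m + 1) (i, false) v‖ ^ 2 =
        2 * ‖sgs m i v‖ ^ 2 + 2 * ‖v m‖ ^ 2 := by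
      intro i
      rw [sgs_succ, sgs_succ]
      simp only [sg, Bool.false_eq_true, if_false, if_true, neg_smul, one_smul, ← sub_eq_add_neg]
      have := parallelogram_law_with_norm ℂ (sgs m i v) (v m)
      nlinarith
    rw [Finset.sum_congr rfl (fun i _ => h1 i), Finset.sum_add_distrib, ← Finset.mul_sum, ih,
      Finset.sum_const, Finset.card_univ, card_idx, Finset.sum_range_succ]
    simp only [nsmul_eq_mul, Nat.cast_pow, Nat.cast_ofNat]
    ring

theorem four_pt (S v : ℂ) : ‖S + v‖ ^ 4 + ‖S - v‖ ^ 4 ≤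
    2 * ‖S‖ ^ 4 + 12 * ‖S‖ ^ 2 * ‖v‖ ^ 2 + 2 * ‖v‖ ^ 4 := by
  have h1 : ‖S + v‖ ^ 2 = ‖S‖ ^ 2 + 2 * (S.re * v.re + S.im * v.im) + ‖v‖ ^ 2 := by
    rw [Complex.sq_norm, Complex.sq_norm, Complex.sq_norm, Complex.normSq_apply,
      Complex.normSq_apply, Complex.normSq_apply, Complex.add_re, Complex.add_im]
    ring
  have h2 : ‖S - v‖ ^ 2 = ‖S‖ ^ 2 - 2 * (S.re * v.re + S.im * v.im) + ‖v‖ ^ 2 := by
    rw [Complex.sq_norm, Complex.sq_norm, Complex.sq_norm, Complex.normSq_apply,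
      Complex.normSq_apply, Complex.normSq_apply, Complex.sub_re, Complex.sub_im]
    ring
  have h3 : (S.re * v.re + S.im * v.im) ^ 2 ≤ ‖S‖ ^ 2 * ‖v‖ ^ 2 := by
    rw [Complex.sq_norm, Complex.sq_norm, Complex.normSq_apply, Complex.normSq_apply]
    nlinarith [sq_nonneg (S.re * v.im - S.im * v.re)]
  have h4 : ‖S + v‖ ^ 4 = (‖S + v‖ ^ 2) ^ 2 := by ring
  have h5 : ‖S - v‖ ^ 4 = (‖S - v‖ ^ 2) ^ 2 := by ring
  rw [h4, h5, h1, h2]
  nlinarith

theorem khin4 (m : ℕ) (v : ℕ → ℂ) :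
    ∑ i : Idx m, ‖sgs m i v‖ ^ 4 ≤ 2 ^ m * (3 * (∑ l ∈ Finset.range m, ‖v l‖ ^ 2) ^ 2) := by
  induction m with
  | zero => simp [sgs]
  | succ m ih =>
    rw [sum_idx_succ]
    have h1 : ∀ i : Idx m, ‖sgs (m + 1) (i, true) v‖ ^ 4 + ‖sgs (m + 1) (i, false) v‖ ^ 4 ≤
        2 * ‖sgs m i v‖ ^ 4 + 12 * ‖v m‖ ^ 2 * ‖sgs m i v‖ ^ 2 + 2 * ‖v m‖ ^ 4 := by
      intro i
      rw [sgs_succ, sgs_succ]
      simp only [sg, Bool.false_eq_true, if_false, if_true, neg_smul, one_smul, ← sub_eq_add_neg]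
      have := four_pt (sgs m i v) (v m)
      nlinarith
    refine (Finset.sum_le_sum fun i _ => h1 i).trans ?_
    rw [Finset.sum_add_distrib, Finset.sum_add_distrib, ← Finset.mul_sum, ← Finset.mul_sum, khin2,
      Finset.sum_const, Finset.card_univ, card_idx, Finset.sum_range_succ]
    simp only [nsmul_eq_mul, Nat.cast_pow, Nat.cast_ofNat]
    set T := ∑ l ∈ Finset.range m, ‖v l‖ ^ 2 with hT
    have hT0 : 0 ≤ T := by positivity
    have hp : (0 : ℝ) < 2 ^ m := by positivity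
    have hv : 0 ≤ ‖v m‖ ^ 2 := by positivity
    calc 2 * ∑ i, ‖sgs m i v‖ ^ 4 + 12 * ‖v m‖ ^ 2 * (2 ^ m * T) + 2 ^ m * (2 * ‖v m‖ ^ 4)
        ≤ 2 * (2 ^ m * (3 * T ^ 2)) + 12 * ‖v m‖ ^ 2 * (2 ^ m * T) + 2 ^ m * (2 * ‖v m‖ ^ 4) := by
          linarith
      _ = 2 ^ m * (6 * T ^ 2 + 12 * ‖v m‖ ^ 2 * T + 2 * (‖v m‖ ^ 2) ^ 2) := by ring
      _ ≤ 2 ^ m * (6 * (T + ‖v m‖ ^ 2) ^ 2) := by
          refine mul_le_mul_of_nonneg_left ?_ hp.le
          nlinarith [sq_nonneg (‖v m‖ ^ 2)]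
      _ = 2 ^ (m + 1) * (3 * (T + ‖v m‖ ^ 2) ^ 2) := by ring

variable {n : ℕ}

theorem sgs_apply (m : ℕ) (s : Idx m) (G : ℕ → Mat n) (i j : Fin n) :
    sgs m s G i j = sgs m s (fun l => G l i j) := by
  induction m with
  | zero => rfl
  | succ m ih =>
    obtain ⟨s, b⟩ := s
    rw [sgs_succ, sgs_succ, ← ih]
    rfl

/-- the finite dimensional flatness estimate -/
theorem flat_fin (N : ℕ) (G : ℕ → Mat n) (e : Fin n → ℝ) (he0 : ∀ j, 0 ≤ e j)
    (he : ∀ j, ∀ α : ℕ → ℝ, ∑ i, ‖∑ l ∈ Finset.range N, (α l : ℂ) * G l i j‖ ^ 2 ≤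
      (∑ l ∈ Finset.range N, α l ^ 2) * (1 + e j)) :
    ∑ s : Idx N, ((n : ℝ)⁻¹ * ∑ i, ∑ j, ‖sgs N s G i j‖ ^ 4) ≤
      2 ^ N * (6 * N * ((n : ℝ)⁻¹ * ∑ j, (1 + e j) ^ 2)) := by
  -- pointwise bound
  have hpt : ∀ i j, ∑ l ∈ Finset.range N, ‖G l i j‖ ^ 2 ≤ 2 * (1 + e j) := by
    intro i j
    have key : ∀ x : ℕ → ℝ, (∑ l ∈ Finset.range N, x l ^ 2) ^ 2 ≤
        ‖∑ l ∈ Finset.range N, (x l : ℂ) * G l i j‖ ^ 2 → ∑ l ∈ Finset.range N, x l ^ 2 ≤ 1 + e j := by
      intro x hx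
      have h1 := Finset.single_le_sum
        (f := fun i => ‖∑ l ∈ Finset.range N, (x l : ℂ) * G l i j‖ ^ 2)
        (fun i _ => by positivity) (Finset.mem_univ i)
      have h2 := (hx.trans h1).trans (he j x)
      have h3 : 0 ≤ ∑ l ∈ Finset.range N, x l ^ 2 := by positivity
      by_contra hcon
      push Not at hcon
      have h4 : 0 < ∑ l ∈ Finset.range N, x l ^ 2 := lt_trans (by linarith [he0 j]) hcon
      nlinarith
    have hre : ∑ l ∈ Finset.range N, (G l i j).re ^ 2 ≤ 1 + e j := by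
      refine key (fun l => (G l i j).re) ?_
      rw [← sq_abs (∑ l ∈ Finset.range N, (G l i j).re ^ 2)]
      refine pow_le_pow_left₀ (abs_nonneg _) ?_ 2
      have h5 : ∑ l ∈ Finset.range N, (G l i j).re ^ 2 =
          (∑ l ∈ Finset.range N, (((G l i j).re : ℝ) : ℂ) * G l i j).re := by
        rw [Complex.re_sum]
        refine Finset.sum_congr rfl fun l _ => ?_
        rw [Complex.re_ofReal_mul]
        ring
      rw [h5]
      exact Complex.abs_re_le_norm _
    have him : ∑ l ∈ Finset.range N, (G l i j).im ^ 2 ≤ 1 + e j := by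
      refine key (fun l => (G l i j).im) ?_
      rw [← sq_abs (∑ l ∈ Finset.range N, (G l i j).im ^ 2)]
      refine pow_le_pow_left₀ (abs_nonneg _) ?_ 2
      have h5 : ∑ l ∈ Finset.range N, (G l i j).im ^ 2 =
          (∑ l ∈ Finset.range N, (((G l i j).im : ℝ) : ℂ) * G l i j).im := by
        rw [Complex.im_sum]
        refine Finset.sum_congr rfl fun l _ => ?_
        rw [Complex.im_ofReal_mul]
        ring
      rw [h5]
      exact Complex.abs_im_le_norm _
    have : ∀ l, ‖G l i j‖ ^ 2 = (G l i j).re ^ 2 + (G l i j).im ^ 2 := by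
      intro l
      rw [Complex.sq_norm, Complex.normSq_apply]
      ring
    simp only [this, Finset.sum_add_distrib]
    linarith
  -- column bound
  have hcol : ∀ j l, l ∈ Finset.range N → ∑ i, ‖G l i j‖ ^ 2 ≤ 1 + e j := by
    intro j l hl
    have h1 := he j (fun k => if k = l then 1 else 0)
    have h2 : ∀ i, ∑ k ∈ Finset.range N, (((if k = l then 1 else 0 : ℝ)) : ℂ) * G k i j = G l i j := by
      intro i
      rw [Finset.sum_eq_single l]
      · rw [if_pos rfl, Complex.ofReal_one, one_mul]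
      · intro k _ hk
        rw [if_neg hk, Complex.ofReal_zero, zero_mul]
      · intro h; exact absurd hl h
    have h3 : ∑ k ∈ Finset.range N, (if k = l then 1 else 0 : ℝ) ^ 2 = 1 := by
      rw [Finset.sum_eq_single l]
      · rw [if_pos rfl, one_pow]
      · intro k _ hk
        rw [if_neg hk]; norm_num
      · intro h; exact absurd hl h
    simp only [h2, h3, one_mul] at h1
    exact h1
  have hmain : ∀ j, ∑ i, ∑ s : Idx N, ‖sgs N s G i j‖ ^ 4 ≤ 2 ^ N * (6 * N * (1 + e j) ^ 2) := by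
    intro j
    have h1 : ∀ i, ∑ s : Idx N, ‖sgs N s G i j‖ ^ 4 ≤
        2 ^ N * (6 * (1 + e j) * ∑ l ∈ Finset.range N, ‖G l i j‖ ^ 2) := by
      intro i
      have h2 := khin4 N (fun l => G l i j)
      simp only [← sgs_apply] at h2
      refine h2.trans ?_
      have h3 := hpt i j
      have h4 : 0 ≤ ∑ l ∈ Finset.range N, ‖G l i j‖ ^ 2 := by positivity
      refine mul_le_mul_of_nonneg_left ?_ (by positivity)
      nlinarith
    refine (Finset.sum_le_sum fun i _ => h1 i).trans ?_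
    rw [← Finset.mul_sum, ← Finset.mul_sum, Finset.sum_comm]
    have h5 : ∑ l ∈ Finset.range N, ∑ i, ‖G l i j‖ ^ 2 ≤ N * (1 + e j) := by
      refine (Finset.sum_le_sum fun l hl => hcol j l hl).trans ?_
      rw [Finset.sum_const, Finset.card_range, nsmul_eq_mul]
    refine mul_le_mul_of_nonneg_left ?_ (by positivity)
    have h6 : 0 ≤ 6 * (1 + e j) := by linarith [he0 j]
    calc 6 * (1 + e j) * ∑ l ∈ Finset.range N, ∑ i, ‖G l i j‖ ^ 2
        ≤ 6 * (1 + e j) * (N * (1 + e j)) := mul_le_mul_of_nonneg_left h5 h6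
      _ = 6 * N * (1 + e j) ^ 2 := by ring
  rw [← Finset.mul_sum]
  have hsw : ∑ s : Idx N, ∑ i, ∑ j, ‖sgs N s G i j‖ ^ 4 =
      ∑ j, ∑ i, ∑ s : Idx N, ‖sgs N s G i j‖ ^ 4 := by
    calc ∑ s : Idx N, ∑ i, ∑ j, ‖sgs N s G i j‖ ^ 4
        = ∑ s : Idx N, ∑ j, ∑ i, ‖sgs N s G i j‖ ^ 4 :=
          Finset.sum_congr rfl fun s _ => Finset.sum_comm
      _ = ∑ j, ∑ s : Idx N, ∑ i, ‖sgs N s G i j‖ ^ 4 := Finset.sum_comm
      _ = ∑ j, ∑ i, ∑ s : Idx N, ‖sgs N s G i j‖ ^ 4 :=
          Finset.sum_congr rfl fun j _ => Finset.sum_comm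
  rw [hsw]
  calc (n : ℝ)⁻¹ * ∑ j, ∑ i, ∑ s : Idx N, ‖sgs N s G i j‖ ^ 4
      ≤ (n : ℝ)⁻¹ * ∑ j, 2 ^ N * (6 * N * (1 + e j) ^ 2) :=
        mul_le_mul_of_nonneg_left (Finset.sum_le_sum fun j _ => hmain j) (by positivity)
    _ = 2 ^ N * (6 * N * ((n : ℝ)⁻¹ * ∑ j, (1 + e j) ^ 2)) := by
        rw [← Finset.mul_sum, ← Finset.mul_sum]
        ring

/-- the defects of the relations of anticommuting partial symmetries -/
noncomputable def dfc (G : ℕ → Mat n) (l k : ℕ) : Mat n :=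
  if l = k then G l * G l * (G l * G l) - G l * G l else G l * G k + G k * G l

theorem sq_diag {x : Mat n} (hx : star x = x) (j : Fin n) :
    ((x * x) j j).re = ∑ i, ‖x i j‖ ^ 2 ∧ ((x * x) j j).im = 0 := by
  have h1 : (x * x) j j = ((∑ i, ‖x i j‖ ^ 2 : ℝ) : ℂ) := by
    have h2 : x * x = star x * x := by rw [hx]
    rw [h2, Matrix.mul_apply, Complex.ofReal_sum]
    refine Finset.sum_congr rfl fun i _ => ?_
    rw [Matrix.star_apply, mul_comm, Complex.star_def, Complex.mul_conj,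
      Complex.normSq_eq_norm_sq]
  rw [h1]
  exact ⟨Complex.ofReal_re _, Complex.ofReal_im _⟩

theorem col_bound (N : ℕ) (G : ℕ → Mat n) (hG : ∀ l, star (G l) = G l) (j : Fin n) (α : ℕ → ℝ) :
    ∑ i, ‖∑ l ∈ Finset.range N, (α l : ℂ) * G l i j‖ ^ 2 ≤
      (∑ l ∈ Finset.range N, α l ^ 2) *
        (1 + ∑ l ∈ Finset.range N, ∑ k ∈ Finset.range N, ‖dfc G l k j j‖) := by
  set a : ℝ := ∑ l ∈ Finset.range N, α l ^ 2 with ha
  set X : Mat n := ∑ l ∈ Finset.range N, (α l : ℂ) • G l with hX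
  have hXa : ∀ i, X i j = ∑ l ∈ Finset.range N, (α l : ℂ) * G l i j := by
    intro i
    rw [hX, Matrix.sum_apply]
    rfl
  have hXs : star X = X := by
    rw [hX, star_sum]
    refine Finset.sum_congr rfl fun l _ => ?_
    rw [star_smul, hG, Complex.star_def, Complex.conj_ofReal]
  have h1 := (sq_diag hXs j).1
  simp only [hXa] at h1
  rw [← h1]
  set A : ℕ → ℕ → ℝ := fun l k => ((G l * G k) j j).re with hA
  have h2 : ((X * X) j j).re = ∑ l ∈ Finset.range N, ∑ k ∈ Finset.range N, α l * α k * A l k := by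
    rw [hX, Finset.sum_mul, Matrix.sum_apply, Complex.re_sum]
    refine Finset.sum_congr rfl fun l _ => ?_
    rw [Finset.mul_sum, Matrix.sum_apply, Complex.re_sum]
    refine Finset.sum_congr rfl fun k _ => ?_
    rw [smul_mul_smul_comm, Matrix.smul_apply, smul_eq_mul, ← Complex.ofReal_mul,
      Complex.re_ofReal_mul]
  rw [h2]
  have h3 : ∑ l ∈ Finset.range N, ∑ k ∈ Finset.range N, α l * α k * A l k =
      ∑ l ∈ Finset.range N, ∑ k ∈ Finset.range N, α l * α k * A k l := by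
    rw [Finset.sum_comm]
    refine Finset.sum_congr rfl fun l _ => Finset.sum_congr rfl fun k _ => ?_
    rw [mul_comm (α k) (α l)]
  have h4 : ∑ l ∈ Finset.range N, ∑ k ∈ Finset.range N, α l * α k * A l k =
      ∑ l ∈ Finset.range N, ∑ k ∈ Finset.range N, α l * α k * ((A l k + A k l) / 2) := by
    have : ∑ l ∈ Finset.range N, ∑ k ∈ Finset.range N, α l * α k * ((A l k + A k l) / 2) =
        (∑ l ∈ Finset.range N, ∑ k ∈ Finset.range N, α l * α k * A l k +
        ∑ l ∈ Finset.range N, ∑ k ∈ Finset.range N, α l * α k * A k l) / 2 := by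
      rw [← Finset.sum_add_distrib, Finset.sum_div]
      refine Finset.sum_congr rfl fun l _ => ?_
      rw [← Finset.sum_add_distrib, Finset.sum_div]
      refine Finset.sum_congr rfl fun k _ => by ring
    rw [this, ← h3]
    ring
  rw [h4]
  have ha0 : 0 ≤ a := by positivity
  have hal : ∀ l ∈ Finset.range N, α l ^ 2 ≤ a := fun l hl =>
    Finset.single_le_sum (f := fun l => α l ^ 2) (fun l _ => sq_nonneg _) hl
  have h5 : ∀ l ∈ Finset.range N, ∀ k ∈ Finset.range N,
      α l * α k * ((A l k + A k l) / 2) ≤ (if l = k then α l ^ 2 else 0) + a * ‖dfc G l k j j‖ := by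
    intro l hl k hk
    by_cases hlk : l = k
    · subst hlk
      rw [if_pos rfl]
      have hs : star (G l * G l) = G l * G l := by rw [star_mul, hG]
      have e1 := (sq_diag (hG l) j).1
      have e2 := (sq_diag hs j).1
      have e3 : 0 ≤ A l l := by
        rw [hA]; simp only; rw [e1]; positivity
      have e4 : A l l ^ 2 ≤ (((G l * G l) * (G l * G l)) j j).re := by
        rw [e2]
        have := Finset.single_le_sum (f := fun i => ‖(G l * G l) i j‖ ^ 2)
          (fun i _ => by positivity) (Finset.mem_univ j)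
        refine le_trans ?_ this
        rw [← sq_abs]
        exact pow_le_pow_left₀ (abs_nonneg _) (Complex.abs_re_le_norm _) 2
      have e5 : (((G l * G l) * (G l * G l)) j j).re - A l l ≤ ‖dfc G l l j j‖ := by
        unfold dfc
        rw [if_pos rfl, Matrix.sub_apply]
        refine le_trans ?_ (Complex.re_le_norm _)
        rw [Complex.sub_re]
      have e6 : A l l ≤ 1 + ‖dfc G l l j j‖ := by
        by_contra hcon
        push Not at hcon
        have : 0 ≤ ‖dfc G l l j j‖ := norm_nonneg _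
        nlinarith
      have e7 : α l * α l * ((A l l + A l l) / 2) = α l ^ 2 * A l l := by ring
      rw [e7]
      have e8 := hal l hl
      calc α l ^ 2 * A l l ≤ α l ^ 2 * (1 + ‖dfc G l l j j‖) :=
            mul_le_mul_of_nonneg_left e6 (sq_nonneg _)
        _ = α l ^ 2 + α l ^ 2 * ‖dfc G l l j j‖ := by ring
        _ ≤ α l ^ 2 + a * ‖dfc G l l j j‖ := by
            have := mul_le_mul_of_nonneg_right e8 (norm_nonneg (dfc G l l j j))
            linarith
    · rw [if_neg hlk, zero_add]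
      have e1 : |A l k + A k l| ≤ ‖dfc G l k j j‖ := by
        unfold dfc
        rw [if_neg hlk, Matrix.add_apply]
        refine le_trans ?_ (Complex.abs_re_le_norm _)
        rw [Complex.add_re]
      have e2 : |α l * α k| ≤ a := by
        have f1 := hal l hl
        have f2 := hal k hk
        rw [abs_le]
        constructor
        · nlinarith [sq_nonneg (α l + α k)]
        · nlinarith [sq_nonneg (α l - α k)]
      have e3 : α l * α k * ((A l k + A k l) / 2) ≤ |α l * α k| * |A l k + A k l| := by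
        have := le_abs_self ((α l * α k) * (A l k + A k l))
        rw [abs_mul] at this
        have h0 : 0 ≤ |α l * α k| * |A l k + A k l| := by positivity
        nlinarith
      refine e3.trans ?_
      exact mul_le_mul e2 e1 (abs_nonneg _) ha0
  refine (Finset.sum_le_sum fun l hl => Finset.sum_le_sum fun k hk => h5 l hl k hk).trans ?_
  have h6 : ∀ l ∈ Finset.range N, ∑ k ∈ Finset.range N,
      ((if l = k then α l ^ 2 else 0) + a * ‖dfc G l k j j‖) =
      α l ^ 2 + a * ∑ k ∈ Finset.range N, ‖dfc G l k j j‖ := by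
    intro l hl
    rw [Finset.sum_add_distrib, ← Finset.mul_sum]
    congr 1
    rw [Finset.sum_ite_eq, if_pos hl]
  rw [Finset.sum_congr rfl h6, Finset.sum_add_distrib, ← Finset.mul_sum]
  rw [mul_add, mul_one]

end Pool.Agent.Helper278
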