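import Mathlib
import Pool.Agent.Helper278.MUFlat

set_option autoImplicit false
set_option linter.unusedSectionVars false
set_option linter.unusedVariables false

open scoped Matrix.Norms.L2Operator Topology ComplexOrder Kronecker Matrix
open Filter

namespace Pool.Agent.Helper278

/-- Clifford matrices -/
theorem exists_cliff (k : ℕ) : ∃ (ι : Type) (_ : Fintype ι) (_ : DecidableEq ι)
    (g : ℕ → Matrix ι ι ℂ), Fintype.card ι = 2 ^ k ∧ (∀ j, (g j)ᴴ = g j) ∧
      (∀ j < k, g j * g j = 1) ∧ ∀ i < k, ∀ j < k, i ≠ j → g i * g j = -(g j * g i) := by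
  induction k with
  | zero => exact ⟨Unit, inferInstance, inferInstance, fun _ => 0, rfl, by simp, by simp, by simp⟩
  | succ k ih =>
    obtain ⟨ι, i1, i2, g, h1, h2, h3, h4⟩ := ih
    let X : Matrix Bool Bool ℂ := Matrix.of fun a b => if a = b then 0 else 1
    let Z : Matrix Bool Bool ℂ := Matrix.diagonal fun a => sg a
    have hX : Xᴴ = X := by
      ext a b
      rw [Matrix.conjTranspose_apply]
      cases a <;> cases b <;> simp [X]
    have hZ : Zᴴ = Z := by
      ext a b
      rw [Matrix.conjTranspose_apply]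
      cases a <;> cases b <;> simp [Z, sg]
    have hXX : X * X = 1 := by
      ext a b
      rw [Matrix.mul_apply]
      cases a <;> cases b <;> simp [X]
    have hZZ : Z * Z = 1 := by
      ext a b
      rw [Matrix.mul_apply]
      cases a <;> cases b <;> simp [Z, sg, Matrix.diagonal]
    have hXZ : X * Z = -(Z * X) := by
      ext a b
      rw [Matrix.neg_apply, Matrix.mul_apply, Matrix.mul_apply]
      cases a <;> cases b <;> simp [X, Z, sg, Matrix.diagonal]
    refine ⟨ι × Bool, inferInstance, inferInstance,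
      fun j => if j = k then (1 : Matrix ι ι ℂ) ⊗ₖ X else g j ⊗ₖ Z, ?_, ?_, ?_, ?_⟩
    · rw [Fintype.card_prod, h1, Fintype.card_bool, pow_succ]
    · intro j
      by_cases hj : j = k
      · simp only [hj, if_true]
        rw [Matrix.conjTranspose_kronecker, hX, Matrix.conjTranspose_one]
      · simp only [hj, if_false]
        rw [Matrix.conjTranspose_kronecker, hZ, h2]
    · intro j hj
      by_cases hj' : j = k
      · simp only [hj', if_true]
        rw [← Matrix.mul_kronecker_mul, hXX, mul_one, Matrix.one_kronecker_one]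
      · simp only [hj', if_false]
        rw [← Matrix.mul_kronecker_mul, hZZ, h3 j (by omega), Matrix.one_kronecker_one]
    · intro i hi j hj hij
      by_cases hi' : i = k
      · have hj' : ¬ j = k := by omega
        simp only [hi', hj', if_true, if_false]
        rw [← Matrix.mul_kronecker_mul, ← Matrix.mul_kronecker_mul, hXZ, one_mul, mul_one,
          ← neg_one_smul ℂ (Z * X), Matrix.kronecker_smul, neg_one_smul]
      · by_cases hj' : j = k
        · simp only [hi', hj', if_true, if_false]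
          rw [← Matrix.mul_kronecker_mul, ← Matrix.mul_kronecker_mul, hXZ, one_mul, mul_one,
            ← neg_one_smul ℂ (Z * X), Matrix.kronecker_smul, neg_one_smul, neg_neg]
        · simp only [hi', hj', if_false]
          rw [← Matrix.mul_kronecker_mul, ← Matrix.mul_kronecker_mul,
            h4 i (by omega) j (by omega) hij, ← neg_one_smul ℂ (g j * g i),
            Matrix.smul_kronecker, neg_one_smul]

theorem exists_iso {n : ℕ} {κ : Type} [Fintype κ] [DecidableEq κ]
    (h : Fintype.card κ ≤ Fintype.card (Fin n)) : ∃ J : Matrix (Fin n) κ ℂ, Jᴴ * J = 1 := by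
  obtain ⟨e⟩ := Function.Embedding.nonempty_of_card_le h
  refine ⟨Matrix.of fun i x => if i = e x then 1 else 0, ?_⟩
  ext x y
  rw [Matrix.mul_apply, Finset.sum_eq_single (e x)]
  · rw [Matrix.conjTranspose_apply, Matrix.of_apply, Matrix.of_apply, if_pos rfl, star_one, one_mul,
      Matrix.one_apply]
    simp
  · intro i _ hi
    rw [Matrix.conjTranspose_apply, Matrix.of_apply, if_neg hi, star_zero, zero_mul]
  · intro h; exact absurd (Finset.mem_univ _) h

section transfer

variable {n : ℕ} {κ : Type} [Fintype κ] [DecidableEq κ]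

/-- compression -/
def cmp (J : Matrix (Fin n) κ ℂ) (A : Matrix κ κ ℂ) : Mat n := J * A * Jᴴ

theorem cmp_mul (J : Matrix (Fin n) κ ℂ) (hJ : Jᴴ * J = 1) (A B : Matrix κ κ ℂ) :
    cmp J A * cmp J B = cmp J (A * B) := by
  unfold cmp
  calc J * A * Jᴴ * (J * B * Jᴴ) = J * A * (Jᴴ * J) * B * Jᴴ := by
        simp only [Matrix.mul_assoc]
    _ = J * (A * B) * Jᴴ := by rw [hJ, Matrix.mul_one]; simp only [Matrix.mul_assoc]

theorem cmp_star (J : Matrix (Fin n) κ ℂ) (A : Matrix κ κ ℂ) : star (cmp J A) = cmp J Aᴴ := by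
  unfold cmp
  rw [Matrix.star_eq_conjTranspose, Matrix.conjTranspose_mul, Matrix.conjTranspose_mul,
      Matrix.conjTranspose_conjTranspose, Matrix.mul_assoc]

theorem cmp_neg (J : Matrix (Fin n) κ ℂ) (A : Matrix κ κ ℂ) : cmp J (-A) = -cmp J A := by
  unfold cmp
  rw [Matrix.mul_neg, Matrix.neg_mul]

theorem ntr_cmp_one (J : Matrix (Fin n) κ ℂ) (hJ : Jᴴ * J = 1) :
    ntr n (cmp J 1) = (n : ℂ)⁻¹ * Fintype.card κ := by
  unfold cmp ntr
  rw [Matrix.mul_one, Matrix.trace_mul_comm, hJ, Matrix.trace_one]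

end transfer

/-- Clifford matrices in `M_n(ℂ)` -/
theorem exists_cliff_fin (n k : ℕ) (hn : 0 < n) : ∃ (b : ℕ → Mat n) (p : Mat n), star p = p ∧
    p * p = p ∧ s2 n (1 - p) ≤ 2 ^ k / n ∧ (∀ j, star (b j) = b j) ∧ (∀ j, p * b j = b j) ∧
    (∀ j, b j * p = b j) ∧ (∀ j < k, b j * b j = p) ∧
    ∀ i < k, ∀ j < k, i ≠ j → b i * b j = -(b j * b i) := by
  obtain ⟨ι, i1, i2, g, h1, h2, h3, h4⟩ := exists_cliff k
  set q : ℕ := n / 2 ^ k with hq
  have hcard : Fintype.card (ι × Fin q) ≤ Fintype.card (Fin n) := by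
    rw [Fintype.card_prod, h1, Fintype.card_fin, Fintype.card_fin, hq]
    exact Nat.mul_div_le n _
  obtain ⟨J, hJ⟩ := exists_iso hcard
  have hc1 : (1 : Matrix (ι × Fin q) (ι × Fin q) ℂ)ᴴ = 1 := Matrix.conjTranspose_one
  have hp0 : star (cmp J 1) = cmp J 1 := by rw [cmp_star, hc1]
  have hpp : cmp J 1 * cmp J 1 = cmp J 1 := by rw [cmp_mul J hJ, Matrix.mul_one]
  refine ⟨fun j => cmp J (g j ⊗ₖ 1), cmp J 1, hp0, hpp, ?_, ?_, ?_, ?_, ?_, ?_⟩
  · -- 2-norm of 1 - p
    have e1 : star (1 - cmp J 1) * (1 - cmp J 1) = 1 - cmp J 1 := by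
      rw [star_sub, star_one, hp0, sub_mul, one_mul, mul_sub, mul_one, hpp]
      simp
    have e2 := ntr_star_mul (1 - cmp J 1)
    rw [e1] at e2
    have hn' : (0 : ℝ) < n := by exact_mod_cast hn
    have hnc : (n : ℂ) ≠ 0 := by exact_mod_cast hn.ne'
    have e3 : ntr n (1 - cmp J 1) = (((n : ℝ) - 2 ^ k * q) / n : ℝ) := by
      have e5 : ntr n (1 - cmp J 1) = ntr n 1 - ntr n (cmp J 1) := by
        unfold ntr
        rw [Matrix.trace_sub, mul_sub]
      rw [e5, ntr_cmp_one J hJ, Fintype.card_prod, h1, Fintype.card_fin]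
      unfold ntr
      rw [Matrix.trace_one, Fintype.card_fin]
      push_cast
      rw [div_eq_inv_mul]
      ring
    rw [e3] at e2
    have e4 : ((n : ℝ) - 2 ^ k * q) / n = s2 n (1 - cmp J 1) := by exact_mod_cast e2
    rw [← e4]
    refine div_le_div_of_nonneg_right ?_ hn'.le
    have h5 : n < 2 ^ k * q + 2 ^ k := by
      rw [hq]
      have := Nat.lt_mul_div_succ n (show 0 < 2 ^ k by positivity)
      linarith [this]
    have h6 : (n : ℝ) < 2 ^ k * q + 2 ^ k := by exact_mod_cast h5
    linarith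
  · intro j
    show star (cmp J (g j ⊗ₖ 1)) = cmp J (g j ⊗ₖ 1)
    rw [cmp_star, Matrix.conjTranspose_kronecker, h2, Matrix.conjTranspose_one]
  · intro j
    show cmp J 1 * cmp J (g j ⊗ₖ 1) = cmp J (g j ⊗ₖ 1)
    rw [cmp_mul J hJ, Matrix.one_mul]
  · intro j
    show cmp J (g j ⊗ₖ 1) * cmp J 1 = cmp J (g j ⊗ₖ 1)
    rw [cmp_mul J hJ, Matrix.mul_one]
  · intro j hj
    show cmp J (g j ⊗ₖ 1) * cmp J (g j ⊗ₖ 1) = cmp J 1
    rw [cmp_mul J hJ, ← Matrix.mul_kronecker_mul, h3 j hj, mul_one, Matrix.one_kronecker_one]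
  · intro i hi j hj hij
    show cmp J (g i ⊗ₖ 1) * cmp J (g j ⊗ₖ 1) = -(cmp J (g j ⊗ₖ 1) * cmp J (g i ⊗ₖ 1))
    rw [cmp_mul J hJ, cmp_mul J hJ, ← Matrix.mul_kronecker_mul, ← Matrix.mul_kronecker_mul,
      h4 i hi j hj hij, mul_one, ← cmp_neg, ← neg_one_smul ℂ (g j * g i), Matrix.smul_kronecker,
      neg_one_smul]

section alg

variable {A : Type*} [Ring A] [StarRing A] [Algebra ℂ A] [StarModule ℂ A]

theorem sgs_anti (N : ℕ) (s : Idx N) (C : ℕ → A) (x : A) (h : ∀ l < N, x * C l = -(C l * x)) :
    x * sgs N s C = -(sgs N s C * x) := by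
  induction N with
  | zero => simp [sgs]
  | succ N ih =>
    obtain ⟨s, b⟩ := s
    rw [sgs_succ, mul_add, add_mul, ih s (fun l hl => h l (by omega)), mul_smul_comm,
      h N (by omega), smul_mul_assoc, smul_neg, neg_add]

theorem sgs_sa (N : ℕ) (s : Idx N) (C : ℕ → A) (h : ∀ l < N, star (C l) = C l) :
    star (sgs N s C) = sgs N s C := by
  induction N with
  | zero => simp [sgs]
  | succ N ih =>
    obtain ⟨s, b⟩ := s
    rw [sgs_succ, star_add, ih s (fun l hl => h l (by omega)), star_smul, star_sg, h N (by omega)]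

theorem sgs_unit (N : ℕ) (s : Idx N) (C : ℕ → A) (p : A) (h : ∀ l < N, p * C l = C l) :
    p * sgs N s C = sgs N s C := by
  induction N with
  | zero => simp [sgs]
  | succ N ih =>
    obtain ⟨s, b⟩ := s
    rw [sgs_succ, mul_add, ih s (fun l hl => h l (by omega)), mul_smul_comm, h N (by omega)]

theorem sgs_unit' (N : ℕ) (s : Idx N) (C : ℕ → A) (p : A) (h : ∀ l < N, C l * p = C l) :
    sgs N s C * p = sgs N s C := by
  induction N with
  | zero => simp [sgs]
  | succ N ih =>
    obtain ⟨s, b⟩ := s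
    rw [sgs_succ, add_mul, ih s (fun l hl => h l (by omega)), smul_mul_assoc, h N (by omega)]

theorem sgs_sq (N : ℕ) (s : Idx N) (C : ℕ → A) (p : A) (h1 : ∀ l < N, C l * C l = p)
    (h2 : ∀ l < N, ∀ k < N, l ≠ k → C l * C k = -(C k * C l)) :
    sgs N s C * sgs N s C = (N : ℂ) • p := by
  induction N with
  | zero => simp [sgs]
  | succ N ih =>
    obtain ⟨s, b⟩ := s
    have e1 := ih s (fun l hl => h1 l (by omega)) (fun l hl k hk => h2 l (by omega) k (by omega))
    have e2 : C N * sgs N s C = -(sgs N s C * C N) :=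
      sgs_anti N s C (C N) (fun l hl => h2 N (by omega) l (by omega) (by omega))
    rw [sgs_succ, add_mul, mul_add, mul_add, e1, smul_mul_smul_comm, sg_mul, one_smul,
      h1 N (by omega), smul_mul_assoc, e2, mul_smul_comm, smul_neg]
    push_cast
    rw [add_smul, one_smul]
    abel

theorem sgs_map {B : Type*} [AddCommMonoid B] [Module ℂ B] {D : Type*} [AddCommMonoid D]
    [Module ℂ D] (f : B →ₗ[ℂ] D) (N : ℕ) (s : Idx N) (C : ℕ → B) :
    f (sgs N s C) = sgs N s (fun l => f (C l)) := by
  induction N with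
  | zero => simp [sgs]
  | succ N ih =>
    obtain ⟨s, b⟩ := s
    rw [sgs_succ, sgs_succ, map_add, map_smul, ih]

/-- anticommuting systems of partial symmetries with unit `p` -/
structure Anti (p : A) (M : ℕ) (B Z : ℕ → A) : Prop where
  sB : ∀ m < M, star (B m) = B m
  sZ : ∀ m < M, star (Z m) = Z m
  qB : ∀ m < M, B m * B m = p
  qZ : ∀ m < M, Z m * Z m = p
  lB : ∀ m < M, p * B m = B m
  lZ : ∀ m < M, p * Z m = Z m
  rB : ∀ m < M, B m * p = B m
  rZ : ∀ m < M, Z m * p = Z m
  aB : ∀ m < M, ∀ k < M, m ≠ k → B m * B k = -(B k * B m)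
  aZ : ∀ m < M, ∀ k < M, m ≠ k → Z m * Z k = -(Z k * Z m)
  aBZ : ∀ m < M, ∀ k < M, B m * Z k = -(Z k * B m)

theorem Anti.mono {p : A} {M K : ℕ} {B Z : ℕ → A} (h : Anti p M B Z) (hK : K ≤ M) :
    Anti p K B Z :=
  ⟨fun m hm => h.sB m (by omega), fun m hm => h.sZ m (by omega), fun m hm => h.qB m (by omega),
    fun m hm => h.qZ m (by omega), fun m hm => h.lB m (by omega), fun m hm => h.lZ m (by omega),
    fun m hm => h.rB m (by omega), fun m hm => h.rZ m (by omega),
    fun m hm k hk => h.aB m (by omega) k (by omega), fun m hm k hk => h.aZ m (by omega) k (by omega),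
    fun m hm k hk => h.aBZ m (by omega) k (by omega)⟩

theorem exists_conj {p : A} (hp : star p = p) (hpp : p * p = p) (M : ℕ) (B Z : ℕ → A)
    (h : Anti p M B Z) : ∃ W : A, star W * W = p ∧ W * star W = p ∧ p * W = W ∧ W * p = W ∧
      (∀ m < M, W * B m * star W = Z m) ∧
      ∀ x, p * x = x → x * p = x → (∀ m < M, x * B m = -(B m * x)) →
        (∀ m < M, x * Z m = -(Z m * x)) → W * x = x * W := by
  induction M with
  | zero =>
    refine ⟨p, by rw [hp, hpp], by rw [hp, hpp], hpp, hpp, fun m hm => absurd hm (by omega), ?_⟩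
    intro x hx1 hx2 _ _
    rw [hx1, hx2]
  | succ M ih =>
    obtain ⟨W, w1, w2, w3, w4, w5, w6⟩ := ih (h.mono (Nat.le_succ M))
    have hM : M < M + 1 := Nat.lt_succ_self M
    set b := B M with hb
    set z := Z M with hz
    have hbz : b * z = -(z * b) := h.aBZ M hM M hM
    have hbb : b * b = p := h.qB M hM
    have hzz : z * z = p := h.qZ M hM
    have hpb : p * b = b := h.lB M hM
    have hbp : b * p = b := h.rB M hM
    have hpz : p * z = z := h.lZ M hM
    have hzp : z * p = z := h.rZ M hM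
    have hsb : star b = b := h.sB M hM
    have hsz : star z = z := h.sZ M hM
    set r : ℂ := (((Real.sqrt 2)⁻¹ : ℝ) : ℂ) with hr
    have hrr : r * r = 1 / 2 := by
      rw [hr, ← Complex.ofReal_mul, ← mul_inv, Real.mul_self_sqrt (by norm_num)]
      norm_num
    have hrs : star r = r := by rw [hr, Complex.star_def, Complex.conj_ofReal]
    set g : A := r • (p + z * b) with hg
    have hzbzb : z * b * (z * b) = -p := by
      calc z * b * (z * b) = z * (b * z) * b := by noncomm_ring
        _ = -(z * z * (b * b)) := by rw [hbz]; noncomm_ring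
        _ = -p := by rw [hzz, hbb, hpp]
    have hpzb : p * (z * b) = z * b := by rw [← mul_assoc, hpz]
    have hzbp : z * b * p = z * b := by rw [mul_assoc, hbp]
    have hsg : star g = r • (p - z * b) := by
      rw [hg, star_smul, hrs, star_add, star_mul, hp, hsb, hsz, hbz, ← sub_eq_add_neg]
    have hgg1 : g * star g = p := by
      rw [hsg, hg, smul_mul_smul_comm, hrr, add_mul, mul_sub, mul_sub, hpp, hpzb, hzbp, hzbzb]
      have : p - z * b + (z * b - -p) = (2 : ℂ) • p := by rw [two_smul]; abel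
      rw [this, smul_smul]; norm_num
    have hgg2 : star g * g = p := by
      rw [hsg, hg, smul_mul_smul_comm, hrr, sub_mul, mul_add, mul_add, hpp, hpzb, hzbp, hzbzb]
      have : p + z * b - (z * b + -p) = (2 : ℂ) • p := by rw [two_smul]; abel
      rw [this, smul_smul]; norm_num
    have hpg : p * g = g := by rw [hg, mul_smul_comm, mul_add, hpp, hpzb]
    have hgp : g * p = g := by rw [hg, smul_mul_assoc, add_mul, hpp, hzbp]
    have hgc : ∀ x, p * x = x → x * p = x → x * b = -(b * x) → x * z = -(z * x) →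
        g * x = x * g := by
      intro x x1 x2 x3 x4
      rw [hg, smul_mul_assoc, mul_smul_comm, add_mul, mul_add, x1, x2]
      congr 2
      calc z * b * x = -(z * -(b * x)) := by noncomm_ring
        _ = -(z * x) * b := by rw [← x3]; noncomm_ring
        _ = x * (z * b) := by rw [← x4, mul_assoc]
    have hconj : g * b * star g = z := by
      have e1 : b * (z * b) = -z := by
        rw [← mul_assoc, hbz, neg_mul, mul_assoc, hbb, hzp]
      have e2 : (p + z * b) * b = b + z := by rw [add_mul, hpb, mul_assoc, hbb, hzp]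
      have e3 : (b + z) * (p - z * b) = (2 : ℂ) • z := by
        rw [add_mul, mul_sub, mul_sub, hbp, hzp, e1, ← mul_assoc z z b, hzz, hpb, two_smul]
        abel
      rw [hsg, hg, smul_mul_assoc, e2, smul_mul_smul_comm, hrr, e3, smul_smul]
      norm_num
    refine ⟨g * W, ?_, ?_, ?_, ?_, ?_, ?_⟩
    · rw [star_mul]
      calc star W * star g * (g * W) = star W * (star g * g) * W := by noncomm_ring
        _ = star W * (p * W) := by rw [hgg2]; noncomm_ring
        _ = p := by rw [w3, w1]
    · rw [star_mul]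
      calc g * W * (star W * star g) = g * (W * star W) * star g := by noncomm_ring
        _ = p := by rw [w2, hgp, hgg1]
    · rw [← mul_assoc, hpg]
    · rw [mul_assoc, w4]
    · intro m hm
      rcases Nat.lt_succ_iff_lt_or_eq.1 hm with hm' | hm'
      · have hm2 : m < M + 1 := hm
        have e1 : g * Z m = Z m * g := hgc (Z m) (h.lZ m hm2) (h.rZ m hm2)
          (by rw [h.aBZ M hM m hm2, neg_neg]) (h.aZ m hm2 M hM (by omega))
        rw [star_mul]
        calc g * W * B m * (star W * star g) = g * (W * B m * star W) * star g := by noncomm_ring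
          _ = Z m * (g * star g) := by rw [w5 m hm', e1]; noncomm_ring
          _ = Z m := by rw [hgg1, h.rZ m hm2]
      · subst hm'
        have e1 : W * B m = B m * W := by
          refine w6 (B m) hpb hbp ?_ ?_
          · intro k hk
            exact h.aB m hM k (by omega) (by omega)
          · intro k hk
            exact h.aBZ m hM k (by omega)
        rw [star_mul]
        calc g * W * B m * (star W * star g) = g * (W * B m) * star W * star g := by noncomm_ring
          _ = g * (B m * (W * star W)) * star g := by rw [e1]; noncomm_ring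
          _ = g * b * star g := by rw [w2, hbp]
          _ = Z m := hconj
    · intro x x1 x2 x3 x4
      have e1 := w6 x x1 x2 (fun m hm => x3 m (by omega)) (fun m hm => x4 m (by omega))
      have e2 := hgc x x1 x2 (x3 M hM) (x4 M hM)
      rw [mul_assoc, e1, ← mul_assoc, e2, mul_assoc]

end alg

end Pool.Agent.Helper278
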