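import Mathlib
import Pool.Agent.Helper278.MUCliff

set_option autoImplicit false
set_option linter.unusedSectionVars false
set_option linter.unusedVariables false

open scoped Matrix.Norms.L2Operator Topology ComplexOrder Matrix
open Filter

namespace Pool.Agent.Helper278

theorem bdd (x : BddSeq) : ∃ C : ℝ, 0 ≤ C ∧ ∀ n, ‖x.1 n‖ ≤ C := by
  obtain ⟨C, hC⟩ := x.2
  exact ⟨|C|, abs_nonneg _, fun n => (hC n).norm_le⟩

theorem s2_le_sq {n : ℕ} (x : Mat n) : s2 n x ≤ ‖x‖ ^ 2 := by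
  have h1 := s2_mul_le x 1
  rw [mul_one] at h1
  refine h1.trans ?_
  have h2 : s2 n (1 : Mat n) ≤ 1 := by
    unfold s2
    have h3 : ∀ i : Fin n, ∑ j, ‖(1 : Mat n) i j‖ ^ 2 = 1 := by
      intro i
      rw [Finset.sum_eq_single i]
      · simp
      · intro j _ hj
        rw [Matrix.one_apply_ne (Ne.symm hj)]
        simp
      · intro h; exact absurd (Finset.mem_univ _) h
    rw [Finset.sum_congr rfl (fun i _ => h3 i), Finset.sum_const, Finset.card_univ,
      Fintype.card_fin, nsmul_eq_mul, mul_one]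
    rcases Nat.eq_zero_or_pos n with hn | hn
    · subst hn; simp
    · have : (n : ℝ) ≠ 0 := by exact_mod_cast hn.ne'
      rw [inv_mul_cancel₀ this]
  exact mul_le_of_le_one_right (sq_nonneg _) h2

theorem ht_le_norm {n : ℕ} (x : Mat n) : ht n x ≤ ‖x‖ :=
  (pow_le_pow_iff_left₀ (ht_nonneg x) (norm_nonneg _) two_ne_zero).1
    ((ht_sq_le x).trans (s2_le_sq x))

theorem exists_tendsto_of_bdd (U : Ultrafilter ℕ) (f : ℕ → ℝ) (C : ℝ) (hf : ∀ n, |f n| ≤ C) :
    ∃ L, Tendsto f U (𝓝 L) := by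
  have hc : IsCompact (Set.Icc (-C) C) := isCompact_Icc
  have h1 : (U.map f : Filter ℝ) ≤ 𝓟 (Set.Icc (-C) C) := by
    rw [Ultrafilter.coe_map, le_principal_iff, mem_map]
    refine Filter.Eventually.of_forall fun n => ?_
    exact abs_le.1 (hf n)
  obtain ⟨c, _, hc2⟩ := (isCompact_iff_ultrafilter_le_nhds.1 hc) (U.map f) h1
  exact ⟨c, hc2⟩

/-- the height of a bounded sequence -/
noncomputable def hgtS (U : Ultrafilter ℕ) (y : BddSeq) : ℝ :=
  limUnder (U : Filter ℕ) (fun n => ht n (y.1 n))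

theorem tendsto_hgtS (U : Ultrafilter ℕ) (y : BddSeq) :
    Tendsto (fun n => ht n (y.1 n)) U (𝓝 (hgtS U y)) := by
  apply tendsto_nhds_limUnder
  obtain ⟨C, hC0, hC⟩ := bdd y
  refine exists_tendsto_of_bdd U _ C fun n => ?_
  rw [abs_of_nonneg (ht_nonneg _)]
  exact (ht_le_norm _).trans (hC n)

section

variable {Q : Type*} [Ring Q] [StarRing Q] [Algebra ℂ Q] [StarModule ℂ Q] {U : Ultrafilter ℕ}
  {π : BddSeq →⋆ₐ[ℂ] Q} {τ : Q → ℂ}

theorem ntr_add {n : ℕ} (x y : Mat n) : ntr n (x + y) = ntr n x + ntr n y := by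
  unfold ntr; rw [Matrix.trace_add, mul_add]

theorem ntr_smul {n : ℕ} (c : ℂ) (x : Mat n) : ntr n (c • x) = c * ntr n x := by
  unfold ntr; rw [Matrix.trace_smul, smul_eq_mul]; ring

theorem ntr_comm {n : ℕ} (x y : Mat n) : ntr n (x * y) = ntr n (y * x) := by
  unfold ntr; rw [Matrix.trace_mul_comm]

theorem ntr_star {n : ℕ} (x : Mat n) : ntr n (star x) = star (ntr n x) := by
  unfold ntr
  rw [Matrix.star_eq_conjTranspose, Matrix.trace_conjTranspose, StarMul.star_mul, star_inv₀,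
    mul_comm]
  congr 1
  simp

theorem IsMatUltra.ker' (h : IsMatUltra U π τ) (x : BddSeq) :
    π x = 0 ↔ Tendsto (fun n => s2 n (x.1 n)) U (𝓝 0) := by
  rw [h.ker]
  simp only [ntr_star_mul]
  constructor
  · intro h1
    have := (Complex.continuous_re.tendsto _).comp h1
    rw [Complex.zero_re] at this
    exact this
  · intro h1
    have := (Complex.continuous_ofReal.tendsto _).comp h1
    rw [Complex.ofReal_zero] at this
    exact this

theorem IsMatUltra.pi_eq (h : IsMatUltra U π τ) (x y : BddSeq) :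
    π x = π y ↔ Tendsto (fun n => s2 n (x.1 n - y.1 n)) U (𝓝 0) := by
  rw [← sub_eq_zero, ← map_sub, h.ker']
  rfl

theorem IsMatUltra.pi_eq_of_eventually (h : IsMatUltra U π τ) (x y : BddSeq)
    (hxy : ∀ᶠ n in (U : Filter ℕ), x.1 n = y.1 n) : π x = π y := by
  rw [h.pi_eq]
  refine tendsto_const_nhds.congr' ?_
  filter_upwards [hxy] with n hn
  rw [hn, sub_self]
  unfold s2
  simp

/-- the trace as a linear functional -/
noncomputable def IsMatUltra.lin (h : IsMatUltra U π τ) : Q →ₗ[ℂ] ℂ where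
  toFun := τ
  map_add' x y := by
    obtain ⟨x, rfl⟩ := h.surj x
    obtain ⟨y, rfl⟩ := h.surj y
    rw [← map_add]
    refine tendsto_nhds_unique (h.trace (x + y)) ?_
    refine ((h.trace x).add (h.trace y)).congr fun n => ?_
    rw [← ntr_add]
    rfl
  map_smul' c x := by
    obtain ⟨x, rfl⟩ := h.surj x
    rw [← map_smul, RingHom.id_apply, smul_eq_mul]
    refine tendsto_nhds_unique (h.trace (c • x)) ?_
    refine ((h.trace x).const_mul c).congr fun n => ?_
    rw [← ntr_smul]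
    rfl

theorem IsMatUltra.lin_apply (h : IsMatUltra U π τ) (x : Q) : h.lin x = τ x := rfl

theorem IsMatUltra.tendsto_s2 (h : IsMatUltra U π τ) (x : BddSeq) :
    Tendsto (fun n => s2 n (x.1 n)) U (𝓝 (τ (star (π x) * π x)).re) ∧
      (τ (star (π x) * π x)).im = 0 := by
  have h1 := h.trace (star x * x)
  rw [map_mul, map_star] at h1
  have h2 : ∀ n, ntr n ((star x * x : BddSeq).1 n) = (s2 n (x.1 n) : ℂ) := by
    intro n
    rw [← ntr_star_mul]
    rfl
  simp only [h2] at h1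
  refine ⟨?_, ?_⟩
  · have := (Complex.continuous_re.tendsto _).comp h1
    exact this
  · have h3 := (Complex.continuous_im.tendsto _).comp h1
    refine tendsto_nhds_unique h3 ?_
    refine tendsto_const_nhds.congr fun n => ?_
    simp

theorem IsMatUltra.trAlg (h : IsMatUltra U π τ) (hU : ∀ᶠ n in (U : Filter ℕ), 0 < n) :
    TrAlg h.lin where
  one := by
    have h1 := h.trace 1
    rw [map_one] at h1
    refine tendsto_nhds_unique h1 ?_
    refine tendsto_const_nhds.congr' ?_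
    filter_upwards [hU] with n hn
    show 1 = ntr n (1 : Mat n)
    unfold ntr
    rw [Matrix.trace_one, Fintype.card_fin]
    have : (n : ℂ) ≠ 0 := by exact_mod_cast hn.ne'
    rw [inv_mul_cancel₀ this]
  comm := by
    intro x y
    obtain ⟨x, rfl⟩ := h.surj x
    obtain ⟨y, rfl⟩ := h.surj y
    have h1 := h.trace (x * y)
    have h2 := h.trace (y * x)
    rw [map_mul] at h1 h2
    refine tendsto_nhds_unique h1 (h2.congr fun n => ?_)
    exact ntr_comm _ _
  nonneg := by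
    intro x
    obtain ⟨x, rfl⟩ := h.surj x
    obtain ⟨h1, h2⟩ := h.tendsto_s2 x
    rw [h.lin_apply, Complex.nonneg_iff]
    exact ⟨ge_of_tendsto' h1 fun n => s2_nonneg _, h2.symm⟩
  conj := by
    intro x
    obtain ⟨x, rfl⟩ := h.surj x
    have h1 := h.trace (star x)
    rw [map_star] at h1
    have h2 := (continuous_star.tendsto _).comp (h.trace x)
    refine tendsto_nhds_unique h1 (h2.congr fun n => ?_)
    exact (ntr_star _).symm
  faithful := by
    intro x hx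
    obtain ⟨x, rfl⟩ := h.surj x
    obtain ⟨h1, h2⟩ := h.tendsto_s2 x
    rw [h.ker']
    rw [h.lin_apply] at hx
    rwa [hx] at h1

/-- the height of an element -/
noncomputable def IsMatUltra.hgt (h : IsMatUltra U π τ) (x : Q) : ℝ :=
  hgtS U (Function.surjInv h.surj x)

theorem IsMatUltra.tendsto_n2 (h : IsMatUltra U π τ) (x : BddSeq) :
    Tendsto (fun n => Real.sqrt (s2 n (x.1 n))) U (𝓝 (n2 τ (π x))) := by
  have := (Real.continuous_sqrt.tendsto _).comp (h.tendsto_s2 x).1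
  exact this

theorem IsMatUltra.tendsto_hgt (h : IsMatUltra U π τ) (x : BddSeq) :
    Tendsto (fun n => ht n (x.1 n)) U (𝓝 (h.hgt (π x))) := by
  set y := Function.surjInv h.surj (π x) with hy
  have h1 : π y = π x := Function.surjInv_eq h.surj (π x)
  have h2 : Tendsto (fun n => ht n (y.1 n)) U (𝓝 (h.hgt (π x))) := tendsto_hgtS U y
  have h3 := (h.pi_eq x y).1 h1.symm
  have h4 : Tendsto (fun n => ht n (x.1 n - y.1 n)) U (𝓝 0) := by
    have h5 := (Real.continuous_sqrt.tendsto _).comp h3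
    rw [Real.sqrt_zero] at h5
    refine squeeze_zero (fun n => ht_nonneg _) (fun n => ?_) h5
    exact Real.le_sqrt_of_sq_le (ht_sq_le _)
  have h6 : Tendsto (fun n => ht n (x.1 n) - ht n (y.1 n)) U (𝓝 0) := by
    rw [tendsto_zero_iff_abs_tendsto_zero]
    refine squeeze_zero (fun n => abs_nonneg _) (fun n => ?_) h4
    show |ht n (x.1 n) - ht n (y.1 n)| ≤ ht n (x.1 n - y.1 n)
    rw [abs_le]
    have e1 := ht_add_le (x.1 n - y.1 n) (y.1 n)
    rw [sub_add_cancel] at e1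
    have e2 := ht_add_le (y.1 n - x.1 n) (x.1 n)
    rw [sub_add_cancel] at e2
    have e3 : ht n (y.1 n - x.1 n) = ht n (x.1 n - y.1 n) := by
      have := ht_smul (-1) (x.1 n - y.1 n)
      rw [neg_one_smul, neg_sub, norm_neg, norm_one, one_mul] at this
      exact this
    constructor
    · show -(ht n (x.1 n - y.1 n)) ≤ ht n (x.1 n) - ht n (y.1 n)
      linarith
    · show ht n (x.1 n) - ht n (y.1 n) ≤ ht n (x.1 n - y.1 n)
      linarith
  have h7 := h6.add h2
  rw [zero_add] at h7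
  refine h7.congr fun n => ?_
  show ht n (x.1 n) - ht n (y.1 n) + ht n (y.1 n) = _
  ring

theorem IsMatUltra.hgt_nonneg (h : IsMatUltra U π τ) (x : Q) : 0 ≤ h.hgt x := by
  obtain ⟨x, rfl⟩ := h.surj x
  exact ge_of_tendsto' (h.tendsto_hgt x) fun n => ht_nonneg _

theorem IsMatUltra.hgt_add_le (h : IsMatUltra U π τ) (x y : Q) :
    h.hgt (x + y) ≤ h.hgt x + h.hgt y := by
  obtain ⟨x, rfl⟩ := h.surj x
  obtain ⟨y, rfl⟩ := h.surj y
  rw [← map_add]
  exact le_of_tendsto_of_tendsto' (h.tendsto_hgt (x + y)) ((h.tendsto_hgt x).add (h.tendsto_hgt y))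
    fun n => ht_add_le _ _

theorem IsMatUltra.hgt_smul (h : IsMatUltra U π τ) (c : ℂ) (x : Q) :
    h.hgt (c • x) = ‖c‖ * h.hgt x := by
  obtain ⟨x, rfl⟩ := h.surj x
  rw [← map_smul]
  refine tendsto_nhds_unique (h.tendsto_hgt (c • x)) ?_
  exact ((h.tendsto_hgt x).const_mul ‖c‖).congr fun n => (ht_smul c (x.1 n)).symm

theorem IsMatUltra.hgt_le (h : IsMatUltra U π τ) (x : Q) : h.hgt x ≤ n2 τ x := by
  obtain ⟨x, rfl⟩ := h.surj x
  exact le_of_tendsto_of_tendsto' (h.tendsto_hgt x) (h.tendsto_n2 x)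
    fun n => Real.le_sqrt_of_sq_le (ht_sq_le _)

theorem IsMatUltra.hgt_zero (h : IsMatUltra U π τ) : h.hgt 0 = 0 := by
  have := h.hgt_smul 0 0
  rw [zero_smul, norm_zero, zero_mul] at this
  exact this

theorem star_mem_permSet {x : Q} (hx : x ∈ permSet π) : star x ∈ permSet π := by
  obtain ⟨σ, y, hy, rfl⟩ := hx
  refine ⟨fun n => (σ n)⁻¹, star y, fun n => ?_, map_star π y⟩
  show star (y.1 n) = _
  rw [hy]
  exact star_pm (σ n)

theorem mul_mem_permSet {x y : Q} (hx : x ∈ permSet π) (hy : y ∈ permSet π) :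
    x * y ∈ permSet π := by
  obtain ⟨σ, x, hx, rfl⟩ := hx
  obtain ⟨ρ, y, hy, rfl⟩ := hy
  refine ⟨fun n => ρ n * σ n, x * y, fun n => ?_, map_mul π x y⟩
  show x.1 n * y.1 n = _
  rw [hx, hy]
  exact pm_mul_pm (σ n) (ρ n)

theorem IsMatUltra.hgt_perm_mul (h : IsMatUltra U π τ) {s : Q} (hs : s ∈ permSet π) (x : Q) :
    h.hgt (s * x) = h.hgt x := by
  obtain ⟨σ, y, hy, rfl⟩ := hs
  obtain ⟨x, rfl⟩ := h.surj x
  rw [← map_mul]
  refine tendsto_nhds_unique (h.tendsto_hgt (y * x)) ((h.tendsto_hgt x).congr fun n => ?_)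
  show _ = ht n (y.1 n * x.1 n)
  rw [hy]
  exact (ht_pm_mul (σ n) _).symm

theorem IsMatUltra.hgt_mul_perm (h : IsMatUltra U π τ) {s : Q} (hs : s ∈ permSet π) (x : Q) :
    h.hgt (x * s) = h.hgt x := by
  obtain ⟨σ, y, hy, rfl⟩ := hs
  obtain ⟨x, rfl⟩ := h.surj x
  rw [← map_mul]
  refine tendsto_nhds_unique (h.tendsto_hgt (x * y)) ((h.tendsto_hgt x).congr fun n => ?_)
  show _ = ht n (x.1 n * y.1 n)
  rw [hy]
  exact (ht_mul_pm (σ n) _).symm

theorem IsMatUltra.norm_tr_le (h : IsMatUltra U π τ) {s : Q} (hs : s ∈ permSet π) (x : Q) :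
    ‖τ (x * s)‖ ≤ h.hgt x := by
  obtain ⟨σ, y, hy, rfl⟩ := hs
  obtain ⟨x, rfl⟩ := h.surj x
  rw [← map_mul]
  refine le_of_tendsto_of_tendsto' ((h.trace (x * y)).norm) (h.tendsto_hgt x) fun n => ?_
  show ‖ntr n (x.1 n * y.1 n)‖ ≤ _
  rw [hy]
  exact norm_ntr_mul_pm (σ n) _

/-- multiplication operators are bounded in the 2-norm -/
theorem IsMatUltra.mul_bound (h : IsMatUltra U π τ) (x : Q) :
    ∃ C : ℝ, 0 ≤ C ∧ ∀ y, n2 τ (x * y) ≤ C * n2 τ y := by
  obtain ⟨x, rfl⟩ := h.surj x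
  obtain ⟨C, hC0, hC⟩ := bdd x
  refine ⟨C, hC0, fun y => ?_⟩
  obtain ⟨y, rfl⟩ := h.surj y
  rw [← map_mul]
  refine le_of_tendsto_of_tendsto' (h.tendsto_n2 (x * y)) ((h.tendsto_n2 y).const_mul C)
    fun n => ?_
  show Real.sqrt (s2 n (x.1 n * y.1 n)) ≤ C * Real.sqrt (s2 n (y.1 n))
  rw [← Real.sqrt_sq hC0, ← Real.sqrt_mul (sq_nonneg C)]
  refine Real.sqrt_le_sqrt ?_
  refine (s2_mul_le _ _).trans (mul_le_mul_of_nonneg_right ?_ (s2_nonneg _))
  exact pow_le_pow_left₀ (norm_nonneg _) (hC n) 2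

end

end Pool.Agent.Helper278
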