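import Mathlib
import Pool.Agent.Helper278.MUModel

set_option autoImplicit false
set_option linter.unusedSectionVars false
set_option linter.unusedVariables false

open scoped Matrix.Norms.L2Operator Topology ComplexOrder Matrix
open Filter

namespace Pool.Agent.Helper278

theorem s2_add_le {n : ℕ} (x y : Mat n) : s2 n (x + y) ≤ 2 * s2 n x + 2 * s2 n y := by
  unfold s2
  have h1 : ∑ i, ∑ j, ‖(x + y) i j‖ ^ 2 ≤
      2 * ∑ i, ∑ j, ‖x i j‖ ^ 2 + 2 * ∑ i, ∑ j, ‖y i j‖ ^ 2 := by
    rw [Finset.mul_sum, Finset.mul_sum, ← Finset.sum_add_distrib]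
    refine Finset.sum_le_sum fun i _ => ?_
    rw [Finset.mul_sum, Finset.mul_sum, ← Finset.sum_add_distrib]
    refine Finset.sum_le_sum fun j _ => ?_
    have h2 := norm_add_le (x i j) (y i j)
    have h3 := norm_nonneg ((x + y) i j)
    rw [Matrix.add_apply] at h3 ⊢
    nlinarith [sq_nonneg (‖x i j‖ - ‖y i j‖)]
  have h2 := mul_le_mul_of_nonneg_left h1 (show 0 ≤ (n : ℝ)⁻¹ by positivity)
  linarith

theorem s2_neg {n : ℕ} (x : Mat n) : s2 n (-x) = s2 n x := by
  unfold s2
  simp only [Matrix.neg_apply, norm_neg]

theorem s2_mul_le' {n : ℕ} (x y : Mat n) : s2 n (x * y) ≤ ‖y‖ ^ 2 * s2 n x := by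
  rw [← s2_star, star_mul]
  refine (s2_mul_le _ _).trans ?_
  rw [norm_star, s2_star]

/-- the congruence of bounded sequences that agree in the limit -/
noncomputable def muCon (U : Ultrafilter ℕ) : RingCon BddSeq where
  r x y := Tendsto (fun n => s2 n (x.1 n - y.1 n)) U (𝓝 0)
  iseqv := by
    refine ⟨?_, ?_, ?_⟩
    · intro x
      have : (fun n => s2 n (x.1 n - x.1 n)) = fun _ => 0 := by
        funext n
        rw [sub_self]
        unfold s2
        simp
      rw [this]
      exact tendsto_const_nhds
    · intro x y h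
      refine h.congr fun n => ?_
      rw [← s2_neg, neg_sub]
    · intro x y z h1 h2
      have h3 := (h1.const_mul 2).add (h2.const_mul 2)
      rw [mul_zero, add_zero] at h3
      refine squeeze_zero (fun n => s2_nonneg _) (fun n => ?_) h3
      have := s2_add_le (x.1 n - y.1 n) (y.1 n - z.1 n)
      rwa [sub_add_sub_cancel] at this
  mul' := by
    intro w x y z h1 h2
    obtain ⟨C, hC0, hC⟩ := bdd y
    obtain ⟨D, hD0, hD⟩ := bdd x
    have h3 := ((h1.const_mul (C ^ 2)).const_mul 2).add ((h2.const_mul (D ^ 2)).const_mul 2)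
    rw [mul_zero, mul_zero, mul_zero, mul_zero, add_zero] at h3
    refine squeeze_zero (fun n => s2_nonneg _) (fun n => ?_) h3
    have e : (w * y : BddSeq).1 n - (x * z : BddSeq).1 n =
        (w.1 n - x.1 n) * y.1 n + x.1 n * (y.1 n - z.1 n) := by
      show w.1 n * y.1 n - x.1 n * z.1 n = _
      noncomm_ring
    rw [e]
    refine (s2_add_le _ _).trans (add_le_add ?_ ?_)
    · refine mul_le_mul_of_nonneg_left ((s2_mul_le' _ _).trans ?_) zero_le_two
      exact mul_le_mul_of_nonneg_right (pow_le_pow_left₀ (norm_nonneg _) (hC n) 2) (s2_nonneg _)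
    · refine mul_le_mul_of_nonneg_left ((s2_mul_le _ _).trans ?_) zero_le_two
      exact mul_le_mul_of_nonneg_right (pow_le_pow_left₀ (norm_nonneg _) (hD n) 2) (s2_nonneg _)
  add' := by
    intro w x y z h1 h2
    have h3 := (h1.const_mul 2).add (h2.const_mul 2)
    rw [mul_zero, add_zero] at h3
    refine squeeze_zero (fun n => s2_nonneg _) (fun n => ?_) h3
    have e : (w + y : BddSeq).1 n - (x + z : BddSeq).1 n =
        (w.1 n - x.1 n) + (y.1 n - z.1 n) := by
      show w.1 n + y.1 n - (x.1 n + z.1 n) = _
      abel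
    rw [e]
    exact s2_add_le _ _

theorem muCon_star (U : Ultrafilter ℕ) (x y : BddSeq) (h : muCon U x y) :
    muCon U (star x) (star y) := by
  have h' : Tendsto (fun n => s2 n (x.1 n - y.1 n)) U (𝓝 0) := h
  show Tendsto (fun n => s2 n ((star x : BddSeq).1 n - (star y : BddSeq).1 n)) U (𝓝 0)
  refine h'.congr fun n => ?_
  show _ = s2 n (star (x.1 n) - star (y.1 n))
  rw [← star_sub, s2_star]

theorem norm_ntr_sq_le {n : ℕ} (x : Mat n) : ‖ntr n x‖ ^ 2 ≤ s2 n x := by
  have h1 := diag_avg_sq x
  refine le_trans (pow_le_pow_left₀ (norm_nonneg _) ?_ 2) h1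
  unfold ntr
  rw [norm_mul, norm_inv, Complex.norm_natCast]
  exact mul_le_mul_of_nonneg_left (norm_sum_le _ _) (by positivity)

theorem exists_ntr_lim (U : Ultrafilter ℕ) (x : BddSeq) :
    ∃ c : ℂ, Tendsto (fun n => ntr n (x.1 n)) U (𝓝 c) := by
  obtain ⟨C, hC0, hC⟩ := bdd x
  have hc : IsCompact (Metric.closedBall (0 : ℂ) C) := isCompact_closedBall _ _
  have h1 : (U.map (fun n => ntr n (x.1 n)) : Ultrafilter ℂ) ≤ 𝓟 (Metric.closedBall (0 : ℂ) C) := by
    rw [Ultrafilter.coe_map, le_principal_iff, mem_map]
    refine Filter.Eventually.of_forall fun n => ?_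
    show ntr n (x.1 n) ∈ _
    rw [mem_closedBall_zero_iff]
    refine (pow_le_pow_iff_left₀ (norm_nonneg _) hC0 two_ne_zero).1 ?_
    exact (norm_ntr_sq_le _).trans ((s2_le_sq _).trans (pow_le_pow_left₀ (norm_nonneg _) (hC n) 2))
  obtain ⟨c, _, hc2⟩ := (isCompact_iff_ultrafilter_le_nhds.1 hc) _ h1
  exact ⟨c, hc2⟩

theorem ntr_sub {n : ℕ} (x y : Mat n) : ntr n (x - y) = ntr n x - ntr n y := by
  unfold ntr; rw [Matrix.trace_sub, mul_sub]

/-- Matrix ultraproducts exist. -/
theorem exists_matUltra (U : Ultrafilter ℕ) :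
    ∃ (Q : Type) (_ : Ring Q) (_ : StarRing Q) (_ : Algebra ℂ Q) (_ : StarModule ℂ Q)
      (π : BddSeq →⋆ₐ[ℂ] Q) (τ : Q → ℂ), IsMatUltra U π τ := by
  classical
  let c := muCon U
  let Q : Type := c.Quotient
  let st : Q → Q := Quotient.map' star (fun x y h => muCon_star U x y h)
  have hst : ∀ x : BddSeq, st (x : c.Quotient) = ((star x : BddSeq) : c.Quotient) :=
    fun x => rfl
  let sr : StarRing Q :=
    { star := st
      star_involutive := by
        intro q
        induction q using Quotient.inductionOn' with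
        | h x =>
          show st (st (x : c.Quotient)) = (x : c.Quotient)
          rw [hst, hst, star_star]
      star_mul := by
        intro p q
        induction p using Quotient.inductionOn' with
        | h x =>
          induction q using Quotient.inductionOn' with
          | h y =>
            show st ((x : c.Quotient) * (y : c.Quotient)) = st (y : c.Quotient) * st (x : c.Quotient)
            rw [hst, hst, ← RingCon.coe_mul, ← RingCon.coe_mul, hst]
            exact congrArg (fun z : BddSeq => (z : c.Quotient)) (StarMul.star_mul x y)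
      star_add := by
        intro p q
        induction p using Quotient.inductionOn' with
        | h x =>
          induction q using Quotient.inductionOn' with
          | h y =>
            show st ((x : c.Quotient) + (y : c.Quotient)) = st (x : c.Quotient) + st (y : c.Quotient)
            rw [hst, hst, ← RingCon.coe_add, ← RingCon.coe_add, hst, star_add] }
  let sm : StarModule ℂ Q :=
    { star_smul := by
        intro r q
        induction q using Quotient.inductionOn' with
        | h x =>
          show st (r • (x : c.Quotient)) = star r • st (x : c.Quotient)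
          rw [hst, ← RingCon.coe_smul, ← RingCon.coe_smul, hst, star_smul] }
  let π : BddSeq →⋆ₐ[ℂ] Q :=
    { toFun := fun x => (x : c.Quotient)
      map_one' := rfl
      map_mul' := fun _ _ => rfl
      map_zero' := rfl
      map_add' := fun _ _ => rfl
      commutes' := fun _ => rfl
      map_star' := fun _ => rfl }
  have hπ : ∀ x y : BddSeq, π x = π y ↔ Tendsto (fun n => s2 n (x.1 n - y.1 n)) U (𝓝 0) :=
    fun x y => RingCon.eq c
  choose L hL using exists_ntr_lim U
  have hLw : ∀ x y : BddSeq, c x y → L x = L y := by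
    intro x y hxy
    have h1 : Tendsto (fun n => s2 n (x.1 n - y.1 n)) U (𝓝 0) := hxy
    have h2 : Tendsto (fun n => ntr n (x.1 n) - ntr n (y.1 n)) U (𝓝 0) := by
      rw [tendsto_zero_iff_norm_tendsto_zero]
      have h3 := (Real.continuous_sqrt.tendsto _).comp h1
      rw [Real.sqrt_zero] at h3
      refine squeeze_zero (fun n => norm_nonneg _) (fun n => ?_) h3
      rw [← ntr_sub]
      exact Real.le_sqrt_of_sq_le (norm_ntr_sq_le _)
    have h3 := (hL x).sub (hL y)
    exact sub_eq_zero.1 (tendsto_nhds_unique h3 h2)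
  let τ : Q → ℂ := Quotient.lift L hLw
  refine ⟨Q, inferInstance, sr, inferInstance, sm, π, τ, ⟨?_, ?_, ?_⟩⟩
  · intro q
    induction q using Quotient.inductionOn' with
    | h x => exact ⟨x, rfl⟩
  · intro x
    have h0 : π x = 0 ↔ π x = π 0 := by rw [map_zero]
    rw [h0, hπ]
    simp only [ntr_star_mul]
    have h1 : (fun n => s2 n (x.1 n - (0 : BddSeq).1 n)) = fun n => s2 n (x.1 n) := by
      funext n
      show s2 n (x.1 n - 0) = _
      rw [sub_zero]
    rw [h1]
    constructor
    · intro h1
      have := (Complex.continuous_ofReal.tendsto _).comp h1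
      rw [Complex.ofReal_zero] at this
      exact this
    · intro h1
      have := (Complex.continuous_re.tendsto _).comp h1
      rw [Complex.zero_re] at this
      exact this
  · intro x
    exact hL x

end Pool.Agent.Helper278
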