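import Mathlib
import Pool.Agent.Helper278.MUModel

set_option autoImplicit false
set_option linter.unusedSectionVars false
set_option linter.unusedVariables false

open scoped Matrix.Norms.L2Operator Topology ComplexOrder Matrix
open Filter

namespace Pool.Agent.Helper278

section

variable {Q : Type*} [Ring Q] [StarRing Q] [Algebra ℂ Q] [StarModule ℂ Q] {U : Ultrafilter ℕ}
  {π : BddSeq →⋆ₐ[ℂ] Q} {τ : Q → ℂ}

/-- the linear span of the permutations -/
abbrev pspan (π : BddSeq →⋆ₐ[ℂ] Q) : Submodule ℂ Q := Submodule.span ℂ (permSet π)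

theorem star_mem_pspan {x : Q} (hx : x ∈ pspan π) : star x ∈ pspan π := by
  induction hx using Submodule.span_induction with
  | mem x hx => exact Submodule.subset_span (star_mem_permSet hx)
  | zero => rw [star_zero]; exact Submodule.zero_mem _
  | add x y _ _ h1 h2 => rw [star_add]; exact Submodule.add_mem _ h1 h2
  | smul c x _ h1 => rw [star_smul]; exact Submodule.smul_mem _ _ h1

theorem mul_mem_pspan {x y : Q} (hx : x ∈ pspan π) (hy : y ∈ pspan π) : x * y ∈ pspan π := by
  induction hx using Submodule.span_induction with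
  | mem x hx =>
    induction hy using Submodule.span_induction with
    | mem y hy => exact Submodule.subset_span (mul_mem_permSet hx hy)
    | zero => rw [mul_zero]; exact Submodule.zero_mem _
    | add y z _ _ h1 h2 => rw [mul_add]; exact Submodule.add_mem _ h1 h2
    | smul c y _ h1 => rw [mul_smul_comm]; exact Submodule.smul_mem _ _ h1
  | zero => rw [zero_mul]; exact Submodule.zero_mem _
  | add x y _ _ h1 h2 => rw [add_mul]; exact Submodule.add_mem _ h1 h2
  | smul c x _ h1 => rw [smul_mul_assoc]; exact Submodule.smul_mem _ _ h1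

theorem one_mem_permSet : (1 : Q) ∈ permSet π :=
  ⟨fun _ => 1, 1, fun n => (pm_one (n := n)).symm, map_one π⟩

theorem nrm2_eq (x : Q) : nrm2 τ x = n2 τ x := rfl

/-- the elements approximated by the span of the permutations -/
theorem IsMatUltra.permVN_approx (h : IsMatUltra U π τ) (hU : ∀ᶠ n in (U : Filter ℕ), 0 < n)
    (x : Q) (hx : x ∈ permVN π τ) (ε : ℝ) (hε : 0 < ε) :
    ∃ y ∈ pspan π, n2 τ (x - y) < ε := by
  have hT := h.trAlg hU
  let S : StarSubalgebra ℂ Q :=
    { carrier := {x | ∀ ε : ℝ, 0 < ε → ∃ y ∈ pspan π, n2 τ (x - y) < ε}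
      mul_mem' := by
        intro a b ha hb ε hε
        obtain ⟨C, hC0, hC⟩ := h.mul_bound a
        obtain ⟨b', hb', hb2⟩ := hb (ε / (2 * (C + 1))) (by positivity)
        obtain ⟨D, hD0, hD⟩ := h.mul_bound (star b')
        obtain ⟨a', ha', ha2⟩ := ha (ε / (2 * (D + 1))) (by positivity)
        refine ⟨a' * b', mul_mem_pspan ha' hb', ?_⟩
        have e : a * b - a' * b' = a * (b - b') + (a - a') * b' := by noncomm_ring
        rw [e]
        have h1 : n2 τ (a * (b - b')) ≤ C * (ε / (2 * (C + 1))) :=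
          (hC _).trans (mul_le_mul_of_nonneg_left hb2.le hC0)
        have h2 : n2 τ ((a - a') * b') ≤ D * (ε / (2 * (D + 1))) := by
          have h3 := hT.n2_star ((a - a') * b')
          have h3' : n2 τ (star ((a - a') * b')) = n2 τ ((a - a') * b') := h3
          rw [star_mul] at h3'
          rw [← h3']
          refine (hD _).trans (mul_le_mul_of_nonneg_left ?_ hD0)
          have h4 : n2 τ (star (a - a')) = n2 τ (a - a') := hT.n2_star _
          rw [h4]
          exact ha2.le
        have h5 : C * (ε / (2 * (C + 1))) < ε / 2 := by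
          rw [← mul_div_assoc, div_lt_div_iff₀ (by positivity) (by positivity)]
          nlinarith
        have h6 : D * (ε / (2 * (D + 1))) < ε / 2 := by
          rw [← mul_div_assoc, div_lt_div_iff₀ (by positivity) (by positivity)]
          nlinarith
        have h7 : n2 τ (a * (b - b') + (a - a') * b') ≤ n2 τ (a * (b - b')) + n2 τ ((a - a') * b') :=
          hT.n2_add_le _ _
        linarith
      add_mem' := by
        intro a b ha hb ε hε
        obtain ⟨a', ha', ha2⟩ := ha (ε / 2) (by positivity)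
        obtain ⟨b', hb', hb2⟩ := hb (ε / 2) (by positivity)
        refine ⟨a' + b', Submodule.add_mem _ ha' hb', ?_⟩
        have e : a + b - (a' + b') = (a - a') + (b - b') := by abel
        rw [e]
        have h7 : n2 τ ((a - a') + (b - b')) ≤ n2 τ (a - a') + n2 τ (b - b') := hT.n2_add_le _ _
        linarith
      algebraMap_mem' := by
        intro r ε hε
        refine ⟨r • 1, Submodule.smul_mem _ _ (Submodule.subset_span one_mem_permSet), ?_⟩
        rw [Algebra.algebraMap_eq_smul_one, sub_self]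
        have : n2 τ (0 : Q) = 0 := hT.n2_zero
        rw [this]
        exact hε
      star_mem' := by
        intro a ha ε hε
        obtain ⟨a', ha', ha2⟩ := ha ε hε
        refine ⟨star a', star_mem_pspan ha', ?_⟩
        rw [← star_sub]
        have h4 : n2 τ (star (a - a')) = n2 τ (a - a') := hT.n2_star _
        rw [h4]
        exact ha2 }
  have hS : permVN π τ ≤ S := by
    refine sInf_le ⟨?_, ?_⟩
    · intro x hx ε hε
      refine ⟨x, Submodule.subset_span hx, ?_⟩
      rw [sub_self]
      have : n2 τ (0 : Q) = 0 := hT.n2_zero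
      rw [this]
      exact hε
    · intro x hx ε hε
      obtain ⟨y, hy, hy2⟩ := hx (ε / 2) (by positivity)
      obtain ⟨z, hz, hz2⟩ := hy (ε / 2) (by positivity)
      refine ⟨z, hz, ?_⟩
      have h7 : n2 τ (x - z) ≤ n2 τ (x - y) + n2 τ (y - z) := hT.n2_tri _ _ _
      rw [nrm2_eq] at hy2
      linarith
  exact hS hx ε hε

/-- multiplication by elements of the span has bounded effect on the height -/
theorem IsMatUltra.pspan_bound (h : IsMatUltra U π τ) {y : Q} (hy : y ∈ pspan π) :
    ∃ K : ℝ, 0 ≤ K ∧ ∀ x, h.hgt (x * y) ≤ K * h.hgt x ∧ h.hgt (y * x) ≤ K * h.hgt x := by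
  induction hy using Submodule.span_induction with
  | mem y hy =>
    refine ⟨1, zero_le_one, fun x => ?_⟩
    rw [h.hgt_mul_perm hy, h.hgt_perm_mul hy, one_mul]
    exact ⟨le_rfl, le_rfl⟩
  | zero =>
    refine ⟨0, le_rfl, fun x => ?_⟩
    rw [mul_zero, zero_mul, zero_mul, h.hgt_zero]
    exact ⟨le_rfl, le_rfl⟩
  | add y z _ _ h1 h2 =>
    obtain ⟨K, hK0, hK⟩ := h1
    obtain ⟨L, hL0, hL⟩ := h2
    refine ⟨K + L, add_nonneg hK0 hL0, fun x => ?_⟩
    rw [mul_add, add_mul, add_mul]
    exact ⟨(h.hgt_add_le _ _).trans (add_le_add (hK x).1 (hL x).1),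
      (h.hgt_add_le _ _).trans (add_le_add (hK x).2 (hL x).2)⟩
  | smul c y _ h1 =>
    obtain ⟨K, hK0, hK⟩ := h1
    refine ⟨‖c‖ * K, mul_nonneg (norm_nonneg _) hK0, fun x => ?_⟩
    rw [mul_smul_comm, smul_mul_assoc, h.hgt_smul, h.hgt_smul, mul_assoc]
    exact ⟨mul_le_mul_of_nonneg_left (hK x).1 (norm_nonneg _),
      mul_le_mul_of_nonneg_left (hK x).2 (norm_nonneg _)⟩

/-- nonzero elements of `W*(S^U)` have nonzero height -/
theorem IsMatUltra.hgt_pos (h : IsMatUltra U π τ) (hU : ∀ᶠ n in (U : Filter ℕ), 0 < n)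
    (x : Q) (hx : x ∈ permVN π τ) (hx0 : 0 < n2 τ x) : 0 < h.hgt x := by
  have hT := h.trAlg hU
  rcases (h.hgt_nonneg x).lt_or_eq with h1 | h1
  · exact h1
  exfalso
  have h2 : ∀ y ∈ pspan π, τ (x * y) = 0 := by
    intro y hy
    have h3 : h.lin (x * y) = 0 := by
      induction hy using Submodule.span_induction with
      | mem y hy =>
        have := h.norm_tr_le hy x
        rw [← h1] at this
        exact norm_le_zero_iff.1 this
      | zero => rw [mul_zero, map_zero]
      | add y z _ _ h1 h2 => rw [mul_add, map_add, h1, h2, add_zero]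
      | smul c y _ h1 => rw [mul_smul_comm, map_smul, h1, smul_zero]
    exact h3
  have hs : n2 τ x ^ 2 = (τ (star x * x)).re := hT.n2_sq x
  obtain ⟨y, hy, hy2⟩ := h.permVN_approx hU x hx (n2 τ x) hx0
  have h4 : τ (star x * x) = h.lin (x * (star (x - y))) := by
    have e : x * star (x - y) = x * star x - x * star y := by rw [star_sub, mul_sub]
    rw [e, map_sub]
    have e2 : h.lin (x * star y) = 0 := h2 _ (star_mem_pspan hy)
    rw [e2, sub_zero, hT.comm]
    rfl
  have h5 : ‖h.lin (x * (star (x - y)))‖ ≤ n2 τ x * n2 τ (x - y) := by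
    have h6 := hT.cauchy' x (star (x - y))
    have h7 : n2 τ (star (x - y)) = n2 τ (x - y) := hT.n2_star _
    have h8 : ‖h.lin (x * (star (x - y)))‖ ≤ n2 τ x * n2 τ (star (x - y)) := h6
    rwa [h7] at h8
  rw [← h4] at h5
  have h6 := (Complex.re_le_norm _).trans h5
  rw [← hs] at h6
  nlinarith

/-- partial isometries are contractions for the 2-norm -/
theorem TrAlg.n2_mul_pi {σ : Q →ₗ[ℂ] ℂ} (hT : TrAlg σ) (a u q : Q) (hu : u * star u = q)
    (hq1 : star q = q) (hq2 : q * q = q) : n2 σ (a * u) ≤ n2 σ a := by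
  have h1 : n2 σ (a * u) ^ 2 = (σ (star a * a * q)).re := by
    rw [hT.n2_sq]
    have e : σ (star (a * u) * (a * u)) = σ (star a * a * q) := by
      rw [star_mul]
      have e1 : star u * star a * (a * u) = star u * (star a * a * u) := by noncomm_ring
      rw [e1, hT.comm]
      congr 1
      rw [← hu]
      noncomm_ring
    rw [e]
  have h2 : n2 σ (a * (1 - q)) ^ 2 = n2 σ a ^ 2 - (σ (star a * a * q)).re := by
    rw [hT.n2_sq, hT.n2_sq]
    have e : σ (star (a * (1 - q)) * (a * (1 - q))) = σ (star a * a) - σ (star a * a * q) := by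
      rw [star_mul, star_sub, star_one, hq1]
      have e1 : (1 - q) * star a * (a * (1 - q)) = (1 - q) * (star a * a * (1 - q)) := by
        noncomm_ring
      rw [e1, hT.comm]
      have e2 : star a * a * (1 - q) * (1 - q) = star a * a - star a * a * q -
          (star a * a * q - star a * a * (q * q)) := by noncomm_ring
      rw [e2, hq2, sub_self, sub_zero, map_sub]
    rw [e, Complex.sub_re]
  have h3 := sq_nonneg (n2 σ (a * (1 - q)))
  refine (pow_le_pow_iff_left₀ (n2_nonneg _ _) (n2_nonneg _ _) two_ne_zero).1 ?_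
  rw [h1]
  linarith

theorem TrAlg.n2_pi_mul {σ : Q →ₗ[ℂ] ℂ} (hT : TrAlg σ) (a u q : Q) (hu : star u * u = q)
    (hq1 : star q = q) (hq2 : q * q = q) : n2 σ (u * a) ≤ n2 σ a := by
  have h1 := hT.n2_mul_pi (star a) (star u) q (by rw [star_star]; exact hu) hq1 hq2
  rw [← star_mul, hT.n2_star, hT.n2_star] at h1
  exact h1

/-- conjugation by a fixed element of `W*(S^U)` -/
theorem IsMatUltra.height (h : IsMatUltra U π τ) (hU : ∀ᶠ n in (U : Filter ℕ), 0 < n)
    (w q : Q) (hw : w ∈ permVN π τ) (hw1 : star w * w = q) (hw2 : w * star w = q)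
    (hq1 : star q = q) (hq2 : q * q = q) (ε : ℝ) (hε : 0 < ε) :
    ∃ K : ℝ, 0 ≤ K ∧ ∀ v, star v * v = q → v * star v = q →
      h.hgt (star w * v * w) ≤ K * h.hgt v + ε := by
  have hT := h.trAlg hU
  obtain ⟨y, hy, hy2⟩ := h.permVN_approx hU w hw (ε / 2) (by positivity)
  obtain ⟨K, hK0, hK⟩ := h.pspan_bound (star_mem_pspan hy)
  obtain ⟨z, hz, hz2⟩ := h.permVN_approx hU w hw (ε / (2 * (K + 1))) (by positivity)
  obtain ⟨L, hL0, hL⟩ := h.pspan_bound hz
  refine ⟨K * L, mul_nonneg hK0 hL0, fun v hv1 hv2 => ?_⟩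
  have hvq : v * q = q * v := by rw [← hv1, ← mul_assoc, hv2, hv1]
  have hvw : v * w * star (v * w) = q := by
    rw [star_mul]
    calc v * w * (star w * star v) = v * (w * star w) * star v := by noncomm_ring
      _ = q * (v * star v) := by rw [hw2, hvq, mul_assoc]
      _ = q := by rw [hv2, hq2]
  have e1 : star w * v * w = star (w - y) * (v * w) + star y * (v * w) := by
    rw [star_sub]; noncomm_ring
  have e2 : v * w = v * (w - z) + v * z := by noncomm_ring
  have h1 : h.hgt (star (w - y) * (v * w)) ≤ ε / 2 := by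
    refine (h.hgt_le _).trans ?_
    have h2 : n2 τ (star (w - y) * (v * w)) ≤ n2 τ (star (w - y)) :=
      hT.n2_mul_pi _ _ q hvw hq1 hq2
    have h3 : n2 τ (star (w - y)) = n2 τ (w - y) := hT.n2_star _
    linarith
  have h2 : h.hgt (v * (w - z)) ≤ ε / (2 * (K + 1)) := by
    refine (h.hgt_le _).trans ?_
    have h3 : n2 τ (v * (w - z)) ≤ n2 τ (w - z) := hT.n2_pi_mul _ _ q hv1 hq1 hq2
    linarith
  have h3 : h.hgt (v * w) ≤ ε / (2 * (K + 1)) + L * h.hgt v := by
    conv_lhs => rw [e2]
    exact (h.hgt_add_le _ _).trans (add_le_add h2 (hL v).1)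
  have h4 : h.hgt (star y * (v * w)) ≤ K * (ε / (2 * (K + 1)) + L * h.hgt v) :=
    (hK (v * w)).2.trans (mul_le_mul_of_nonneg_left h3 hK0)
  have h5 : K * (ε / (2 * (K + 1))) ≤ ε / 2 := by
    rw [← mul_div_assoc, div_le_div_iff₀ (by positivity) (by positivity)]
    nlinarith
  rw [e1]
  refine (h.hgt_add_le _ _).trans ?_
  nlinarith

end

end Pool.Agent.Helper278
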