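import Mathlib
import Pool.Agent.Helper278.MUPerm

set_option autoImplicit false
set_option linter.unusedSectionVars false
set_option linter.unusedVariables false

open scoped Matrix.Norms.L2Operator Topology ComplexOrder Matrix
open Filter

namespace Pool.Agent.Helper278

theorem sgs_congr {A : Type*} [AddCommMonoid A] [Module ℂ A] (N : ℕ) (s : Idx N) (C D : ℕ → A)
    (h : ∀ l < N, C l = D l) : sgs N s C = sgs N s D := by
  induction N with
  | zero => rfl
  | succ N ih =>
    obtain ⟨s, b⟩ := s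
    rw [sgs_succ, sgs_succ, ih s (fun l hl => h l (by omega)), h N (by omega)]

section

variable {Q : Type*} [Ring Q] [StarRing Q] [Algebra ℂ Q] [StarModule ℂ Q] {U : Ultrafilter ℕ}
  {π : BddSeq →⋆ₐ[ℂ] Q} {τ : Q → ℂ}

/-- self-adjoint lifts -/
theorem IsMatUltra.exists_sa_lift (h : IsMatUltra U π τ) (x : Q) (hx : star x = x) :
    ∃ y : BddSeq, star y = y ∧ π y = x := by
  obtain ⟨y, rfl⟩ := h.surj x
  refine ⟨(1 / 2 : ℂ) • (y + star y), ?_, ?_⟩
  · rw [star_smul, star_add, star_star, add_comm]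
    congr 1
    norm_num
  · rw [map_smul, map_add, map_star, hx, ← two_smul ℂ (π y), smul_smul]
    norm_num

theorem IsMatUltra.flatQ (h : IsMatUltra U π τ) (N : ℕ) (c : ℕ → Q) (q : Q)
    (hq : q * q = q) (h1 : ∀ l < N, star (c l) = c l) (h2 : ∀ l < N, c l * c l = q)
    (h3 : ∀ l < N, ∀ k < N, l ≠ k → c l * c k = -(c k * c l)) :
    ∃ s : Idx N, h.hgt (sgs N s c) ^ 4 ≤ 12 * N := by
  classical
  set c' : ℕ → Q := fun l => if l < N then c l else 0 with hc'
  have hc's : ∀ l, star (c' l) = c' l := by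
    intro l
    by_cases hl : l < N
    · simp only [hc', hl, if_true]; exact h1 l hl
    · simp only [hc', hl, if_false, star_zero]
  choose G hGs hGπ using fun l => h.exists_sa_lift (c' l) (hc's l)
  -- the defects
  let D : ℕ → ℕ → BddSeq := fun l k =>
    if l = k then G l * G l * (G l * G l) - G l * G l else G l * G k + G k * G l
  have hDn : ∀ l k n, (D l k).1 n = dfc (fun l => (G l).1 n) l k := by
    intro l k n
    by_cases hlk : l = k
    · simp only [D, dfc, hlk, if_true]
      rfl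
    · simp only [D, dfc, hlk, if_false]
      rfl
  have hD0 : ∀ l < N, ∀ k < N, π (D l k) = 0 := by
    intro l hl k hk
    by_cases hlk : l = k
    · subst hlk
      simp only [D, if_true]
      rw [map_sub, map_mul, map_mul, hGπ]
      simp only [hc', hl, if_true]
      rw [h2 l hl, hq, sub_self]
    · simp only [D, hlk, if_false]
      rw [map_add, map_mul, map_mul, hGπ, hGπ]
      simp only [hc', hl, hk, if_true]
      rw [h3 l hl k hk hlk, neg_add_cancel]
  choose Cb hCb0 hCb using fun l k => bdd (D l k)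
  set C : ℝ := ∑ l ∈ Finset.range N, ∑ k ∈ Finset.range N, Cb l k with hC
  have hC0 : 0 ≤ C := Finset.sum_nonneg fun l _ => Finset.sum_nonneg fun k _ => hCb0 l k
  let e : (n : ℕ) → Fin n → ℝ := fun n j =>
    ∑ l ∈ Finset.range N, ∑ k ∈ Finset.range N, ‖dfc (fun l => (G l).1 n) l k j j‖
  have he0 : ∀ n j, 0 ≤ e n j := fun n j => by
    show 0 ≤ ∑ l ∈ Finset.range N, ∑ k ∈ Finset.range N, ‖dfc (fun l => (G l).1 n) l k j j‖
    positivity
  have heC : ∀ n j, e n j ≤ C := by
    intro n j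
    refine Finset.sum_le_sum fun l _ => Finset.sum_le_sum fun k _ => ?_
    rw [← hDn]
    exact (norm_apply_le _ _ _).trans (hCb l k n)
  have hlim : Tendsto (fun n : ℕ => (n : ℝ)⁻¹ * ∑ j, e n j) U (𝓝 0) := by
    have f1 : ∀ n : ℕ, (n : ℝ)⁻¹ * ∑ j, e n j = ∑ l ∈ Finset.range N, ∑ k ∈ Finset.range N,
        ((n : ℝ)⁻¹ * ∑ j, ‖(D l k).1 n j j‖) := by
      intro n
      simp only [hDn, ← Finset.mul_sum]
      congr 1
      show ∑ j, ∑ l ∈ Finset.range N, ∑ k ∈ Finset.range N,
        ‖dfc (fun l => (G l).1 n) l k j j‖ = _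
      rw [Finset.sum_comm]
      refine Finset.sum_congr rfl fun l _ => ?_
      rw [Finset.sum_comm]
    simp only [f1]
    have f2 : (0 : ℝ) = ∑ l ∈ Finset.range N, ∑ k ∈ Finset.range N, (0 : ℝ) := by simp
    rw [f2]
    refine tendsto_finsetSum _ fun l hl => tendsto_finsetSum _ fun k hk => ?_
    have f3 := (h.ker' (D l k)).1 (hD0 l (Finset.mem_range.1 hl) k (Finset.mem_range.1 hk))
    have f4 := (Real.continuous_sqrt.tendsto _).comp f3
    rw [Real.sqrt_zero] at f4
    refine squeeze_zero (fun n => by positivity) (fun n => ?_) f4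
    exact Real.le_sqrt_of_sq_le (diag_avg_sq _)
  have hev : ∀ᶠ n : ℕ in (U : Filter ℕ), (n : ℝ)⁻¹ * ∑ j, (1 + e n j) ^ 2 ≤ 2 := by
    have g1 : Tendsto (fun n : ℕ => (2 + C) * ((n : ℝ)⁻¹ * ∑ j, e n j)) U (𝓝 0) := by
      have := hlim.const_mul (2 + C)
      rwa [mul_zero] at this
    filter_upwards [g1.eventually (gt_mem_nhds one_pos)] with n hn
    have g2 : ∀ j, (1 + e n j) ^ 2 ≤ 1 + (2 + C) * e n j := by
      intro j
      have := mul_le_mul_of_nonneg_right (heC n j) (he0 n j)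
      nlinarith
    have g3 : (n : ℝ)⁻¹ * ∑ j, (1 + e n j) ^ 2 ≤ (n : ℝ)⁻¹ * ∑ j, (1 + (2 + C) * e n j) :=
      mul_le_mul_of_nonneg_left (Finset.sum_le_sum fun j _ => g2 j) (by positivity)
    refine g3.trans ?_
    rw [Finset.sum_add_distrib, ← Finset.mul_sum, Finset.sum_const, Finset.card_univ,
      Fintype.card_fin, nsmul_eq_mul, mul_one, mul_add]
    have g4 : (n : ℝ)⁻¹ * n ≤ 1 := by
      rcases Nat.eq_zero_or_pos n with hn | hn
      · subst hn; simp
      · rw [inv_mul_cancel₀]; exact_mod_cast hn.ne'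
    have g5 : (n : ℝ)⁻¹ * ((2 + C) * ∑ j, e n j) = (2 + C) * ((n : ℝ)⁻¹ * ∑ j, e n j) := by ring
    rw [g5]
    linarith
  have hsum : ∀ᶠ n in (U : Filter ℕ), ∑ s : Idx N, ht n ((sgs N s G : BddSeq).1 n) ^ 4 ≤
      2 ^ N * (12 * N) := by
    filter_upwards [hev] with n hn
    have g1 := flat_fin N (fun l => (G l).1 n) (e n) (he0 n)
      (fun j α => col_bound N (fun l => (G l).1 n)
        (fun l => congrArg (fun z : BddSeq => z.1 n) (hGs l)) j α)
    have g2 : ∀ s : Idx N, (sgs N s G : BddSeq).1 n = sgs N s (fun l => (G l).1 n) := by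
      intro s
      let ev : BddSeq →ₗ[ℂ] Mat n :=
        { toFun := fun z => z.1 n
          map_add' := fun _ _ => rfl
          map_smul' := fun _ _ => rfl }
      exact sgs_map ev N s G
    calc ∑ s : Idx N, ht n ((sgs N s G : BddSeq).1 n) ^ 4
        ≤ ∑ s : Idx N, ((n : ℝ)⁻¹ * ∑ i, ∑ j, ‖sgs N s (fun l => (G l).1 n) i j‖ ^ 4) := by
          refine Finset.sum_le_sum fun s _ => ?_
          rw [g2]
          exact ht_four_le _
      _ ≤ 2 ^ N * (6 * N * ((n : ℝ)⁻¹ * ∑ j, (1 + e n j) ^ 2)) := g1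
      _ ≤ 2 ^ N * (6 * N * 2) := by gcongr
      _ = 2 ^ N * (12 * N) := by ring
  have hlim2 : Tendsto (fun n => ∑ s : Idx N, ht n ((sgs N s G : BddSeq).1 n) ^ 4) U
      (𝓝 (∑ s : Idx N, h.hgt (π (sgs N s G)) ^ 4)) :=
    tendsto_finsetSum _ fun s _ => (h.tendsto_hgt (sgs N s G)).pow 4
  have hfin : ∑ s : Idx N, h.hgt (π (sgs N s G)) ^ 4 ≤ 2 ^ N * (12 * N) :=
    le_of_tendsto hlim2 hsum
  have hπ : ∀ s : Idx N, π (sgs N s G) = sgs N s c := by
    intro s
    let f : BddSeq →ₗ[ℂ] Q :=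
      { toFun := fun z => π z
        map_add' := fun x y => map_add π x y
        map_smul' := fun r x => map_smul π r x }
    have := sgs_map f N s G
    refine this.trans ?_
    refine sgs_congr N s _ _ fun l hl => ?_
    show π (G l) = c l
    rw [hGπ]
    simp only [hc', hl, if_true]
  simp only [hπ] at hfin
  by_contra hcon
  push Not at hcon
  have hne : (Finset.univ : Finset (Idx N)).Nonempty := by
    rw [← Finset.card_pos, Finset.card_univ, card_idx]
    positivity
  have := Finset.sum_lt_sum_of_nonempty hne (fun s _ => hcon s)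
  rw [Finset.sum_const, Finset.card_univ, card_idx, nsmul_eq_mul] at this
  push_cast at this
  linarith

end

end Pool.Agent.Helper278
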