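import Mathlib
import Pool.Agent.Helper278.MUFlatQ

set_option autoImplicit false
set_option linter.unusedSectionVars false
set_option linter.unusedVariables false

open scoped Matrix.Norms.L2Operator Topology ComplexOrder Matrix
open Filter

namespace Pool.Agent.Helper278

/-- codes of binary sequences -/
noncomputable def code (a : ℕ → Bool) (t : ℕ) : ℕ :=
  (Fintype.equivFin (Fin t → Bool) (fun i => a i) : ℕ)

theorem code_lt (a : ℕ → Bool) (t : ℕ) : code a t < 2 ^ t := by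
  have h1 := (Fintype.equivFin (Fin t → Bool) (fun i => a i)).isLt
  have h2 : Fintype.card (Fin t → Bool) = 2 ^ t := by simp
  unfold code
  omega

theorem code_ne {a a' : ℕ → Bool} (h : a ≠ a') : ∃ t0, ∀ t ≥ t0, code a t ≠ code a' t := by
  obtain ⟨i, hi⟩ := Function.ne_iff.1 h
  refine ⟨i + 1, fun t ht hc => hi ?_⟩
  have h1 : Fintype.equivFin (Fin t → Bool) (fun i => a i) =
      Fintype.equivFin (Fin t → Bool) (fun i => a' i) := Fin.ext hc
  have h2 := (Fintype.equivFin (Fin t → Bool)).injective h1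
  exact congrFun h2 ⟨i, by omega⟩

theorem exists_slow : ∃ t : ℕ → ℕ, Tendsto t atTop atTop ∧ ∀ᶠ n in atTop, 4 ^ (2 ^ (t n)) ≤ n := by
  classical
  refine ⟨fun n => Nat.findGreatest (fun t => 4 ^ (2 ^ t) ≤ n) n, ?_, ?_⟩
  · rw [tendsto_atTop]
    intro T
    filter_upwards [eventually_ge_atTop (max (4 ^ (2 ^ T)) T)] with n hn
    exact Nat.le_findGreatest ((le_max_right _ _).trans hn) ((le_max_left _ _).trans hn)
  · filter_upwards [eventually_ge_atTop 4] with n hn
    have := Nat.findGreatest_spec (P := fun t => 4 ^ (2 ^ t) ≤ n) (m := 0) (Nat.zero_le n)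
      (by simpa using hn)
    exact this

theorem norm_proj_le {n : ℕ} (p : Mat n) (h1 : star p = p) (h2 : p * p = p) : ‖p‖ ≤ 1 := by
  by_cases h : p = 0
  · rw [h, norm_zero]; exact zero_le_one
  · have h3 := CStarRing.norm_star_mul_self (x := p)
    rw [h1, h2] at h3
    have h4 : ‖p‖ ≠ 0 := norm_ne_zero_iff.2 h
    exact (mul_left_cancel₀ h4 (by rw [← h3, mul_one])).le

theorem norm_pi_le {n : ℕ} (p w : Mat n) (h1 : star p = p) (h2 : p * p = p)
    (h3 : star w * w = p) : ‖w‖ ≤ 1 := by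
  have h4 := CStarRing.norm_star_mul_self (x := w)
  rw [h3] at h4
  have h5 := norm_proj_le p h1 h2
  nlinarith [norm_nonneg w]

/-- an uncountable anticommuting family of sequences of symmetries -/
structure Fam (P : BddSeq) (β : (ℕ → Bool) → BddSeq) : Prop where
  sP : ∀ n, star (P.1 n) = P.1 n
  qP : ∀ n, P.1 n * P.1 n = P.1 n
  lim : Tendsto (fun n => s2 n (1 - P.1 n)) atTop (𝓝 0)
  sa : ∀ a n, star ((β a).1 n) = (β a).1 n
  l : ∀ a n, P.1 n * (β a).1 n = (β a).1 n
  r : ∀ a n, (β a).1 n * P.1 n = (β a).1 n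
  sq : ∀ a n, (β a).1 n * (β a).1 n = P.1 n
  anti : ∀ a a', a ≠ a' → ∀ᶠ n in atTop, (β a).1 n * (β a').1 n = -((β a').1 n * (β a).1 n)

theorem exists_fam : ∃ (P : BddSeq) (β : (ℕ → Bool) → BddSeq), Fam P β := by
  obtain ⟨t, ht, ht2⟩ := exists_slow
  have hex : ∀ n : ℕ, ∃ (b : ℕ → Mat n) (p : Mat n), star p = p ∧
    p * p = p ∧ (0 < n → s2 n (1 - p) ≤ 2 ^ (2 ^ (t n)) / n) ∧ (∀ j, star (b j) = b j) ∧
    (∀ j, p * b j = b j) ∧ (∀ j, b j * p = b j) ∧ (∀ j < 2 ^ (t n), b j * b j = p) ∧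
    ∀ i < 2 ^ (t n), ∀ j < 2 ^ (t n), i ≠ j → b i * b j = -(b j * b i) := by
    intro n
    rcases Nat.eq_zero_or_pos n with hn | hn
    · refine ⟨fun _ => 0, 0, by simp, by simp, fun h => by omega, by simp, by simp, by simp,
        by simp, by simp⟩
    · obtain ⟨b, p, h1, h2, h3, h4⟩ := exists_cliff_fin n (2 ^ (t n)) hn
      exact ⟨b, p, h1, h2, fun _ => h3, h4⟩
  choose b p h1 h2 h3 h4 h5 h6 h7 h8 using hex
  let P : BddSeq := ⟨p, 1, fun n => opBound_of_norm (norm_proj_le (p n) (h1 n) (h2 n))⟩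
  let β : (ℕ → Bool) → BddSeq := fun a => ⟨fun n => b n (code a (t n)), 1, fun n => by
    refine opBound_of_norm ?_
    refine norm_pi_le (p n) _ (h1 n) (h2 n) ?_
    rw [h4, h7 n _ (code_lt a (t n))]⟩
  refine ⟨P, β, h1, h2, ?_, fun a n => h4 n _, fun a n => h5 n _, fun a n => h6 n _,
    fun a n => h7 n _ (code_lt a (t n)), ?_⟩
  · have g1 : Tendsto (fun n : ℕ => (Real.sqrt (n : ℝ))⁻¹) atTop (𝓝 0) :=
      tendsto_inv_atTop_zero.comp (Real.tendsto_sqrt_atTop.comp tendsto_natCast_atTop_atTop)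
    refine tendsto_of_tendsto_of_tendsto_of_le_of_le' tendsto_const_nhds g1
      (Eventually.of_forall fun n => s2_nonneg _) ?_
    filter_upwards [ht2, eventually_gt_atTop 0] with n hn hn0
    refine (h3 n hn0).trans ?_
    have hn' : (0 : ℝ) < n := by exact_mod_cast hn0
    have hs : 0 < Real.sqrt n := Real.sqrt_pos.2 hn'
    have g2 : ((2 : ℝ) ^ (2 ^ (t n))) ≤ Real.sqrt n := by
      refine Real.le_sqrt_of_sq_le ?_
      have g3 : ((2 : ℝ) ^ (2 ^ (t n))) ^ 2 = ((4 ^ (2 ^ (t n)) : ℕ) : ℝ) := by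
        push_cast
        rw [← pow_mul, mul_comm, pow_mul]
        norm_num
      rw [g3]
      exact_mod_cast hn
    rw [div_le_iff₀ hn']
    have g4 : (Real.sqrt (n : ℝ))⁻¹ * n = Real.sqrt n := by
      rw [inv_mul_eq_div, div_eq_iff hs.ne', Real.mul_self_sqrt hn'.le]
    rw [g4]
    exact g2
  · intro a a' haa
    obtain ⟨t0, ht0⟩ := code_ne haa
    filter_upwards [ht.eventually_ge_atTop t0] with n hn
    exact h8 n _ (code_lt a (t n)) _ (code_lt a' (t n)) (ht0 _ hn)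

/-- the normalized signed sums -/
noncomputable def zet (β : (ℕ → Bool) → BddSeq) (C : ℕ → ℕ → ℕ → Bool) (s : ∀ m, Idx (m + 1))
    (m : ℕ) : BddSeq :=
  (((Real.sqrt (m + 1 : ℝ))⁻¹ : ℝ) : ℂ) • sgs (m + 1) (s m) (fun l => β (C m l))

theorem zet_apply (β : (ℕ → Bool) → BddSeq) (C : ℕ → ℕ → ℕ → Bool) (s : ∀ m, Idx (m + 1))
    (m n : ℕ) : (zet β C s m).1 n =
      (((Real.sqrt (m + 1 : ℝ))⁻¹ : ℝ) : ℂ) • sgs (m + 1) (s m) (fun l => (β (C m l)).1 n) := by
  let ev : BddSeq →ₗ[ℂ] Mat n :=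
    { toFun := fun z => z.1 n
      map_add' := fun _ _ => rfl
      map_smul' := fun _ _ => rfl }
  have h1 := sgs_map ev (m + 1) (s m) (fun l => β (C m l))
  show (((Real.sqrt (m + 1 : ℝ))⁻¹ : ℝ) : ℂ) • ev (sgs (m + 1) (s m) (fun l => β (C m l))) = _
  rw [h1]
  rfl

theorem exists_W (P : BddSeq) (β : (ℕ → Bool) → BddSeq) (hF : Fam P β) (A : ℕ → ℕ → Bool)
    (C : ℕ → ℕ → ℕ → Bool) (s : ∀ m, Idx (m + 1)) (hA : Function.Injective A)
    (hC : ∀ m l m' l', C m l = C m' l' → m = m' ∧ l = l') (hAC : ∀ m m' l, A m ≠ C m' l) :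
    ∃ W : BddSeq, (∀ n, star (W.1 n) * W.1 n = P.1 n) ∧ (∀ n, W.1 n * star (W.1 n) = P.1 n) ∧
      ∀ m, ∀ᶠ n in atTop, W.1 n * (β (A m)).1 n * star (W.1 n) = (zet β C s m).1 n := by
  classical
  -- the relations hold eventually
  have hAnti : ∀ M, ∀ᶠ n in atTop, Anti (P.1 n) M (fun m => (β (A m)).1 n)
      (fun m => (zet β C s m).1 n) := by
    intro M
    let F : Finset (ℕ → Bool) := (Finset.range M).image A ∪
      ((Finset.range M) ×ˢ (Finset.range M)).image (fun x => C x.1 x.2)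
    have hev : ∀ᶠ n in atTop, ∀ a ∈ F, ∀ a' ∈ F, a ≠ a' →
        (β a).1 n * (β a').1 n = -((β a').1 n * (β a).1 n) := by
      rw [eventually_all_finset]
      intro a ha
      rw [eventually_all_finset]
      intro a' ha'
      by_cases h : a = a'
      · exact Eventually.of_forall fun n hn => absurd h hn
      · filter_upwards [hF.anti a a' h] with n hn _
        exact hn
    filter_upwards [hev] with n hn
    have hAF : ∀ m < M, A m ∈ F := fun m hm => Finset.mem_union_left _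
      (Finset.mem_image_of_mem _ (Finset.mem_range.2 hm))
    have hCF : ∀ m < M, ∀ l < m + 1, C m l ∈ F := fun m hm l hl => Finset.mem_union_right _
      (Finset.mem_image.2 ⟨(m, l), Finset.mem_product.2
        ⟨Finset.mem_range.2 hm, Finset.mem_range.2 (by omega)⟩, rfl⟩)
    have hr : ∀ m : ℕ, star ((((Real.sqrt (m + 1 : ℝ))⁻¹ : ℝ) : ℂ)) =
        (((Real.sqrt (m + 1 : ℝ))⁻¹ : ℝ) : ℂ) := fun m => by
      rw [Complex.star_def, Complex.conj_ofReal]
    refine ⟨fun m _ => hF.sa _ n, ?_, fun m _ => hF.sq _ n, ?_, fun m _ => hF.l _ n, ?_,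
      fun m _ => hF.r _ n, ?_, ?_, ?_, ?_⟩
    · intro m hm
      simp only [zet_apply]
      rw [star_smul, hr, sgs_sa _ _ _ (fun l _ => hF.sa _ n)]
    · intro m hm
      simp only [zet_apply]
      rw [smul_mul_smul_comm, sgs_sq (m + 1) (s m) _ (P.1 n) (fun l _ => hF.sq _ n), smul_smul,
        ← Complex.ofReal_mul, ← mul_inv, Real.mul_self_sqrt (by positivity)]
      · have : (((m + 1 : ℝ)⁻¹ : ℝ) : ℂ) * ((m + 1 : ℕ) : ℂ) = 1 := by
          push_cast
          rw [inv_mul_cancel₀]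
          exact_mod_cast Nat.succ_ne_zero m
        rw [this, one_smul]
      · intro l hl k hk hlk
        refine hn _ (hCF m hm l hl) _ (hCF m hm k hk) fun he => hlk (hC _ _ _ _ he).2
    · intro m hm
      simp only [zet_apply]
      rw [mul_smul_comm, sgs_unit _ _ _ _ (fun l _ => hF.l _ n)]
    · intro m hm
      simp only [zet_apply]
      rw [smul_mul_assoc, sgs_unit' _ _ _ _ (fun l _ => hF.r _ n)]
    · intro m hm k hk hmk
      exact hn _ (hAF m hm) _ (hAF k hk) fun he => hmk (hA he)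
    · intro m hm k hk hmk
      simp only [zet_apply]
      rw [smul_mul_smul_comm, smul_mul_smul_comm, sgs_anti (k + 1) (s k), smul_neg, mul_comm]
      intro l hl
      have := sgs_anti (m + 1) (s m) (fun l => (β (C m l)).1 n) ((β (C k l)).1 n) (by
        intro l' hl'
        exact hn _ (hCF k hk l hl) _ (hCF m hm l' hl') fun he => hmk (hC _ _ _ _ he).1.symm)
      rw [this, neg_neg]
    · intro m hm k hk
      simp only [zet_apply]
      rw [mul_smul_comm, smul_mul_assoc, sgs_anti (k + 1) (s k), smul_neg]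
      intro l hl
      exact hn _ (hAF m hm) _ (hCF k hk l hl) (hAC m k l)
  -- diagonalization
  let R : ℕ → ℕ → Prop := fun n M => ∃ W : Mat n, star W * W = P.1 n ∧ W * star W = P.1 n ∧
    ∀ m < M, W * (β (A m)).1 n * star W = (zet β C s m).1 n
  have hR0 : ∀ n, R n 0 := fun n => ⟨P.1 n, by rw [hF.sP, hF.qP], by rw [hF.sP, hF.qP],
    fun m hm => absurd hm (by omega)⟩
  have hRM : ∀ M, ∀ᶠ n in atTop, R n M := by
    intro M
    filter_upwards [hAnti M] with n hn
    obtain ⟨W, w1, w2, _, _, w3, _⟩ := exists_conj (hF.sP n) (hF.qP n) M _ _ hn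
    exact ⟨W, w1, w2, w3⟩
  let T : ℕ → ℕ := fun n => Nat.findGreatest (R n) n
  have hT : ∀ n, R n (T n) := fun n => Nat.findGreatest_spec (P := R n) (Nat.zero_le n) (hR0 n)
  choose W w1 w2 w3 using hT
  refine ⟨⟨W, 1, fun n => opBound_of_norm (norm_pi_le _ _ (hF.sP n) (hF.qP n) (w1 n))⟩, w1, w2,
    fun m => ?_⟩
  filter_upwards [hRM (m + 1), eventually_ge_atTop (m + 1)] with n hn hn2
  exact w3 n m (Nat.le_findGreatest hn2 hn)

end Pool.Agent.Helper278
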