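import Mathlib
import Pool.Agent.Helper278.MUSel

set_option autoImplicit false
set_option linter.unusedSectionVars false
set_option linter.unusedVariables false

open scoped Matrix.Norms.L2Operator Topology ComplexOrder Matrix
open Filter

namespace Pool.Agent.Helper278

theorem le_atTop_of_free {U : Ultrafilter ℕ} (hU : ∀ n, {n} ∉ U) : (U : Filter ℕ) ≤ atTop := by
  rcases Ultrafilter.le_cofinite_or_eq_pure U with h1 | ⟨n, hn⟩
  · rwa [Nat.cofinite_eq_atTop] at h1
  · exfalso
    apply hU n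
    rw [hn]
    exact Ultrafilter.mem_pure.2 rfl

theorem infinite_level {f : (ℕ → Bool) → ℝ} (hf : ∀ a, 0 < f a) :
    ∃ c : ℝ, 0 < c ∧ {a | c ≤ f a}.Infinite := by
  by_contra hcon
  push Not at hcon
  have h1 : ∀ k : ℕ, {a | 1 / ((k : ℝ) + 1) ≤ f a}.Finite := fun k =>
    Set.not_infinite.1 (fun h => by
      have := hcon (1 / ((k : ℝ) + 1)) (by positivity)
      exact h this)
  have h2 : (Set.univ : Set (ℕ → Bool)) = ⋃ k : ℕ, {a | 1 / ((k : ℝ) + 1) ≤ f a} := by
    symm
    rw [Set.eq_univ_iff_forall]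
    intro a
    obtain ⟨k, hk⟩ := exists_nat_one_div_lt (hf a)
    exact Set.mem_iUnion.2 ⟨k, hk.le⟩
  have h3 : (Set.univ : Set (ℕ → Bool)).Countable := by
    rw [h2]
    exact Set.countable_iUnion fun k => (h1 k).countable
  have h4 : Countable (ℕ → Bool) := Set.countable_univ_iff.1 h3
  obtain ⟨F, hF⟩ := exists_surjective_nat (ℕ → Bool)
  obtain ⟨k, hk⟩ := hF (fun n => !(F n n))
  have h5 := congrFun hk k
  simp at h5

/-- No trace scaling star homomorphism from a matrix ultraproduct to `W*(S^U)`. -/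
theorem no_hom {U V : Ultrafilter ℕ} (hU : ∀ n, {n} ∉ U) (hV : ∀ n, {n} ∉ V)
    {Q : Type*} [Ring Q] [StarRing Q] [Algebra ℂ Q] [StarModule ℂ Q]
    {π : BddSeq →⋆ₐ[ℂ] Q} {τ : Q → ℂ} (hQ : IsMatUltra U π τ)
    {R : Type*} [Ring R] [StarRing R] [Algebra ℂ R] [StarModule ℂ R]
    {θ : BddSeq →⋆ₐ[ℂ] R} {φ : R → ℂ} (hR : IsMatUltra V θ φ)
    (ρ : R →⋆ₙₐ[ℂ] Q) (c : ℂ) (hc : c ≠ 0) (hρ : ∀ x, τ (ρ x) = c * φ x)
    (hW : ∀ x, ρ x ∈ permVN π τ) : False := by
  classical
  have hUt := le_atTop_of_free hU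
  have hVt := le_atTop_of_free hV
  have hU0 : ∀ᶠ n in (U : Filter ℕ), 0 < n := hUt (eventually_gt_atTop 0)
  have hV0 : ∀ᶠ n in (V : Filter ℕ), 0 < n := hVt (eventually_gt_atTop 0)
  have hT := hQ.trAlg hU0
  have hT' := hR.trAlg hV0
  obtain ⟨P, β, hF⟩ := exists_fam
  set q : Q := ρ 1 with hq
  have hqs : star q = q := by rw [hq, ← map_star, star_one]
  have hqq : q * q = q := by rw [hq, ← map_mul, mul_one]
  -- c is positive
  have hcq : c = τ q := by
    have h1 := hρ 1
    have h2 : φ 1 = 1 := hT'.one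
    rw [h2, mul_one] at h1
    exact h1.symm
  have hc0 : 0 < c.re := by
    have h1 := hT.nonneg q
    rw [hqs, hqq, Complex.nonneg_iff] at h1
    have h2 : c = hQ.lin q := hcq
    rw [← h2] at h1
    refine lt_of_le_of_ne h1.1 fun h3 => hc ?_
    exact Complex.ext h3.symm h1.2.symm
  -- basic relations in R
  have hP1 : θ P = 1 := by
    rw [← map_one θ, hR.pi_eq]
    refine (hF.lim.mono_left hVt).congr fun n => ?_
    show s2 n (1 - P.1 n) = s2 n (P.1 n - (1 : Mat n))
    rw [← s2_star]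
    unfold s2
    congr 1
    refine Finset.sum_congr rfl fun i _ => Finset.sum_congr rfl fun j _ => ?_
    rw [Matrix.star_apply, norm_star]
    have := norm_sub_rev ((1 : Mat n) j i) (P.1 n j i)
    have h2 : star (P.1 n) = P.1 n := hF.sP n
    have h3 : (P.1 n) j i = star ((P.1 n) i j) := by
      conv_lhs => rw [← h2]
      rw [Matrix.star_apply]
    have h4 : (1 : Mat n) j i = star ((1 : Mat n) i j) := by
      conv_lhs => rw [← star_one (Mat n)]
      rw [Matrix.star_apply]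
    show ‖(1 : Mat n) j i - P.1 n j i‖ ^ 2 = ‖P.1 n i j - (1 : Mat n) i j‖ ^ 2
    rw [h3, h4, ← star_sub, norm_star, norm_sub_rev]
  have hsa : ∀ a, star (θ (β a)) = θ (β a) := by
    intro a
    rw [← map_star]
    congr 1
    exact Subtype.ext (funext fun n => hF.sa a n)
  have hsq : ∀ a, θ (β a) * θ (β a) = 1 := by
    intro a
    rw [← map_mul, ← hP1]
    congr 1
    exact Subtype.ext (funext fun n => hF.sq a n)
  have hanti : ∀ a a', a ≠ a' → θ (β a) * θ (β a') = -(θ (β a') * θ (β a)) := by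
    intro a a' haa
    rw [← map_mul, ← map_mul, ← map_neg]
    exact hR.pi_eq_of_eventually _ _ (hVt (hF.anti a a' haa))
  -- heavy elements
  set g : (ℕ → Bool) → ℝ := fun a => hQ.hgt (ρ (θ (β a))) with hg
  have hgpos : ∀ a, 0 < g a := by
    intro a
    refine hQ.hgt_pos hU0 _ (hW _) ?_
    have h1 : n2 τ (ρ (θ (β a))) ^ 2 = (τ (star (ρ (θ (β a))) * ρ (θ (β a)))).re := hT.n2_sq _
    rw [← map_star, hsa, ← map_mul, hsq, ← hq, ← hcq] at h1
    have h2 : 0 ≤ n2 τ (ρ (θ (β a))) := n2_nonneg _ _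
    rcases h2.lt_or_eq with h3 | h3
    · exact h3
    · rw [← h3] at h1
      norm_num at h1
      exact absurd h1 hc0.ne
  obtain ⟨c0, hc0', hinf⟩ := infinite_level hgpos
  let e := hinf.natEmbedding
  let A : ℕ → ℕ → Bool := fun m => (e (2 * m)).1
  let C : ℕ → ℕ → ℕ → Bool := fun m l => (e (2 * Nat.pair m l + 1)).1
  have hinj : ∀ i j, (e i).1 = (e j).1 → i = j := fun i j h => e.injective (Subtype.ext h)
  have hA : Function.Injective A := fun m m' h => by
    have := hinj _ _ h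
    omega
  have hC : ∀ m l m' l', C m l = C m' l' → m = m' ∧ l = l' := by
    intro m l m' l' h
    have h1 := hinj _ _ h
    have h2 : Nat.pair m l = Nat.pair m' l' := by omega
    exact Nat.pair_eq_pair.1 h2
  have hAC : ∀ m m' l, A m ≠ C m' l := by
    intro m m' l h
    have := hinj _ _ h
    omega
  have hAg : ∀ m, c0 ≤ g (A m) := fun m => (e (2 * m)).2
  -- flat elements
  have hflat : ∀ m, ∃ s : Idx (m + 1),
      hQ.hgt (sgs (m + 1) s (fun l => ρ (θ (β (C m l))))) ^ 4 ≤ 12 * ((m + 1 : ℕ) : ℝ) := by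
    intro m
    refine hQ.flatQ (m + 1) _ q hqq ?_ ?_ ?_
    · intro l _
      rw [← map_star, hsa]
    · intro l _
      rw [← map_mul, hsq]
    · intro l _ k _ hlk
      have h1 := hanti (C m l) (C m k) fun h => hlk (hC _ _ _ _ h).2
      have h2 := congrArg ρ h1
      rw [map_neg, map_mul, map_mul] at h2
      exact h2
  choose s hs using hflat
  obtain ⟨W, w1, w2, w3⟩ := exists_W P β hF A C s hA hC hAC
  set w : Q := ρ (θ W) with hw
  have hw1 : star w * w = q := by
    rw [hw, ← map_star, ← map_mul, ← map_star θ, ← map_mul]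
    have : star W * W = P := Subtype.ext (funext fun n => w1 n)
    rw [this, hP1]
  have hw2 : w * star w = q := by
    rw [hw, ← map_star, ← map_mul, ← map_star θ, ← map_mul]
    have : W * star W = P := Subtype.ext (funext fun n => w2 n)
    rw [this, hP1]
  have hz : ∀ m, θ W * θ (β (A m)) * star (θ W) = θ (zet β C s m) := by
    intro m
    rw [← map_star θ, ← map_mul, ← map_mul]
    exact hR.pi_eq_of_eventually _ _ (hVt (w3 m))
  have hWW : star (θ W) * θ W = 1 := by
    rw [← map_star θ, ← map_mul]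
    have : star W * W = P := Subtype.ext (funext fun n => w1 n)
    rw [this, hP1]
  have hWW' : θ W * star (θ W) = 1 := by
    rw [← map_star θ, ← map_mul]
    have : W * star W = P := Subtype.ext (funext fun n => w2 n)
    rw [this, hP1]
  have hb : ∀ m, ρ (θ (β (A m))) = star w * ρ (θ (zet β C s m)) * w := by
    intro m
    rw [hw, ← map_star, ← map_mul, ← map_mul, ← hz]
    congr 1
    calc θ (β (A m)) = (star (θ W) * θ W) * θ (β (A m)) * (star (θ W) * θ W) := by
          rw [hWW, one_mul, mul_one]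
      _ = _ := by noncomm_ring
  have hzz1 : ∀ m, star (θ (zet β C s m)) * θ (zet β C s m) = 1 := by
    intro m
    rw [← hz, star_mul, star_mul, star_star, hsa]
    calc θ W * (θ (β (A m)) * star (θ W)) * (θ W * θ (β (A m)) * star (θ W))
        = θ W * (θ (β (A m)) * (star (θ W) * θ W) * θ (β (A m))) * star (θ W) := by noncomm_ring
      _ = 1 := by rw [hWW, mul_one, hsq, mul_one, hWW']
  have hzz2 : ∀ m, θ (zet β C s m) * star (θ (zet β C s m)) = 1 := by
    intro m
    rw [← hz, star_mul, star_mul, star_star, hsa]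
    calc θ W * θ (β (A m)) * star (θ W) * (θ W * (θ (β (A m)) * star (θ W)))
        = θ W * (θ (β (A m)) * (star (θ W) * θ W) * θ (β (A m))) * star (θ W) := by noncomm_ring
      _ = 1 := by rw [hWW, mul_one, hsq, mul_one, hWW']
  -- heights of the flat elements
  have hzh : ∀ m, hQ.hgt (ρ (θ (zet β C s m))) ^ 4 ≤ 12 / ((m : ℝ) + 1) := by
    intro m
    have h1 : ρ (θ (zet β C s m)) = (((Real.sqrt (m + 1 : ℝ))⁻¹ : ℝ) : ℂ) •
        sgs (m + 1) (s m) (fun l => ρ (θ (β (C m l)))) := by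
      let f : BddSeq →ₗ[ℂ] Q :=
        { toFun := fun z => ρ (θ z)
          map_add' := fun x y => by rw [map_add, map_add]
          map_smul' := fun r x => by rw [map_smul, map_smul]; rfl }
      show f ((((Real.sqrt (m + 1 : ℝ))⁻¹ : ℝ) : ℂ) •
        sgs (m + 1) (s m) (fun l => β (C m l))) = _
      rw [map_smul, sgs_map]
      rfl
    have hm : (0 : ℝ) < (m : ℝ) + 1 := by positivity
    rw [h1, hQ.hgt_smul, mul_pow]
    have h2 : ‖(((Real.sqrt (m + 1 : ℝ))⁻¹ : ℝ) : ℂ)‖ ^ 4 = (((m : ℝ) + 1) ^ 2)⁻¹ := by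
      rw [Complex.norm_real, Real.norm_of_nonneg (by positivity), inv_pow]
      congr 1
      have : Real.sqrt ((m : ℝ) + 1) ^ 4 = (Real.sqrt ((m : ℝ) + 1) ^ 2) ^ 2 := by ring
      rw [this, Real.sq_sqrt hm.le]
    rw [h2]
    have h3 := hs m
    push_cast at h3
    calc (((m : ℝ) + 1) ^ 2)⁻¹ * hQ.hgt (sgs (m + 1) (s m) (fun l => ρ (θ (β (C m l))))) ^ 4
        ≤ (((m : ℝ) + 1) ^ 2)⁻¹ * (12 * ((m : ℝ) + 1)) :=
          mul_le_mul_of_nonneg_left h3 (by positivity)
      _ = 12 / ((m : ℝ) + 1) := by field_simp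
  obtain ⟨K, hK0, hK⟩ := hQ.height hU0 w q (hW _) hw1 hw2 hqs hqq (c0 / 2) (by positivity)
  have hall : ∀ m, c0 / 2 ≤ K * hQ.hgt (ρ (θ (zet β C s m))) := by
    intro m
    have h1 := hK (ρ (θ (zet β C s m))) (by rw [← map_star, ← map_mul, hzz1])
      (by rw [← map_star, ← map_mul, hzz2])
    rw [← hb] at h1
    have h2 : c0 ≤ hQ.hgt (ρ (θ (β (A m)))) := hAg m
    linarith
  -- contradiction
  have hlim : Tendsto (fun m : ℕ => K ^ 4 * (12 / ((m : ℝ) + 1))) atTop (𝓝 0) := by
    have h1 : Tendsto (fun m : ℕ => 1 / ((m : ℝ) + 1)) atTop (𝓝 0) :=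
      tendsto_one_div_add_atTop_nhds_zero_nat
    have h2 := h1.const_mul (K ^ 4 * 12)
    rw [mul_zero] at h2
    refine h2.congr fun m => by ring
  obtain ⟨m, hm⟩ := (hlim.eventually (gt_mem_nhds (show 0 < (c0 / 2) ^ 4 by positivity))).exists
  have h1 := pow_le_pow_left₀ (by positivity) (hall m) 4
  rw [mul_pow] at h1
  have h2 := mul_le_mul_of_nonneg_left (hzh m) (show 0 ≤ K ^ 4 by positivity)
  linarith

end Pool.Agent.Helper278
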