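import Mathlib
import Pool.Agent.Helper278.MUMain
import Pool.Agent.Helper278.MUExist

set_option autoImplicit false
set_option linter.unusedSectionVars false

open scoped Topology
open Filter

namespace Pool.Agent.Helper278

section

variable {Q : Type*} [Ring Q] [StarRing Q] [Algebra ℂ Q]

/-- the star homomorphism on bounded sequences -/
noncomputable def IsMatrixUltraproduct.hom {U : Ultrafilter ℕ} {π : (∀ n, Mat n) → Q} {τ : Q → ℂ}
    (h : IsMatrixUltraproduct U π τ) : BddSeq →⋆ₐ[ℂ] Q where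
  toFun x := π x.1
  map_one' := h.one
  map_mul' x y := h.mul x.1 y.1 x.2 y.2
  map_zero' := by
    have h1 := h.smul 0 (fun n => (0 : BddSeq).1 n) (0 : BddSeq).2
    rw [zero_smul] at h1
    rw [← h1]
    congr 1
    funext n
    rw [zero_smul]
    rfl
  map_add' x y := h.add x.1 y.1 x.2 y.2
  commutes' r := by
    have h1 := h.smul r (fun n => (1 : BddSeq).1 n) (1 : BddSeq).2
    have h2 : π (fun n => (1 : BddSeq).1 n) = 1 := h.one
    rw [h2] at h1
    have h3 : (algebraMap ℂ Q) r = r • 1 := Algebra.algebraMap_eq_smul_one r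
    rw [h3, ← h1]
    congr 1
    funext n
    show (algebraMap ℂ (∀ n, Mat n) r) n = r • (1 : Mat n)
    rw [Pi.algebraMap_apply, Algebra.algebraMap_eq_smul_one]
  map_star' x := h.star x.1 x.2

theorem IsMatrixUltraproduct.hom_apply {U : Ultrafilter ℕ} {π : (∀ n, Mat n) → Q} {τ : Q → ℂ}
    (h : IsMatrixUltraproduct U π τ) (x : BddSeq) : h.hom x = π x.1 := rfl

theorem IsMatrixUltraproduct.isMatUltra {U : Ultrafilter ℕ} {π : (∀ n, Mat n) → Q} {τ : Q → ℂ}
    (h : IsMatrixUltraproduct U π τ) : IsMatUltra U h.hom τ where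
  surj q := by
    obtain ⟨x, hx, rfl⟩ := h.surj q
    exact ⟨⟨x, hx⟩, rfl⟩
  ker x := h.ker x.1 x.2
  trace x := h.trace x.1 x.2

theorem IsMatrixUltraproduct.permSet_eq {U : Ultrafilter ℕ} {π : (∀ n, Mat n) → Q} {τ : Q → ℂ}
    (h : IsMatrixUltraproduct U π τ) : permSet h.hom = symImage π := by
  ext x
  constructor
  · rintro ⟨σ, y, hy, rfl⟩
    refine ⟨σ, ?_⟩
    rw [h.hom_apply]
    congr 1
    funext n
    exact (hy n).symm
  · rintro ⟨σ, rfl⟩
    have hb : NormBounded (fun n => (σ n).permMatrix ℂ) := by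
      refine ⟨1, fun n v => ?_⟩
      rw [one_pow, one_mul]
      have : ∀ i, ((σ n).permMatrix ℂ).mulVec v i = v (σ n i) := by
        intro i
        rw [Equiv.Perm.permMatrix, PEquiv.toMatrix_toPEquiv_mulVec]
        rfl
      simp only [this]
      exact le_of_eq (Equiv.sum_comp (σ n) (fun i => ‖v i‖ ^ 2))
    exact ⟨σ, ⟨_, hb⟩, fun n => rfl, rfl⟩

theorem IsMatrixUltraproduct.permVN_eq [StarModule ℂ Q] {U : Ultrafilter ℕ}
    {π : (∀ n, Mat n) → Q} {τ : Q → ℂ} (h : IsMatrixUltraproduct U π τ) :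
    permVN h.hom τ = symVN π τ := by
  unfold permVN symVN
  rw [h.permSet_eq]

end

theorem matUltraExists (U : Ultrafilter ℕ) : MatUltraExists U := by
  classical
  obtain ⟨Q, i1, i2, i3, i4, π, τ, h⟩ := exists_matUltra U
  refine ⟨Q, i1, i2, i3, i4, fun x => if hx : NormBounded x then π ⟨x, hx⟩ else 0, τ, ?_⟩
  have key : ∀ (x : ∀ n, Mat n) (hx : NormBounded x),
      (if hx : NormBounded x then π ⟨x, hx⟩ else 0) = π ⟨x, hx⟩ := fun x hx => dif_pos hx
  refine ⟨?_, ?_, ?_, ?_, ?_, ?_, ?_, ?_⟩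
  · have h1 : NormBounded (fun _ => 1) := (1 : BddSeq).2
    rw [key _ h1]
    exact map_one π
  · intro x y hx hy
    have h1 : NormBounded (fun n => x n + y n) := BddSeq.add_mem hx hy
    rw [key _ h1, key _ hx, key _ hy]
    have h2 : π ((⟨x, hx⟩ : BddSeq) + ⟨y, hy⟩) = π ⟨x, hx⟩ + π ⟨y, hy⟩ := map_add π _ _
    rw [← h2]
    exact congrArg π (Subtype.ext rfl)
  · intro x y hx hy
    have h1 : NormBounded (fun n => x n * y n) := BddSeq.mul_mem hx hy
    rw [key _ h1, key _ hx, key _ hy]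
    have h2 : π ((⟨x, hx⟩ : BddSeq) * ⟨y, hy⟩) = π ⟨x, hx⟩ * π ⟨y, hy⟩ := map_mul π _ _
    rw [← h2]
    exact congrArg π (Subtype.ext rfl)
  · intro c x hx
    have h1 : NormBounded (fun n => c • x n) := BddSeq.smul_mem hx c
    rw [key _ h1, key _ hx]
    have h2 : π (c • (⟨x, hx⟩ : BddSeq)) = c • π ⟨x, hx⟩ := map_smul π c _
    rw [← h2]
    exact congrArg π (Subtype.ext rfl)
  · intro x hx
    have h1 : NormBounded (fun n => star (x n)) := BddSeq.star_mem' hx
    rw [key _ h1, key _ hx]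
    have h2 : π (star (⟨x, hx⟩ : BddSeq)) = star (π ⟨x, hx⟩) := map_star π _
    rw [← h2]
    exact congrArg π (Subtype.ext rfl)
  · intro q
    obtain ⟨x, rfl⟩ := h.surj q
    exact ⟨x.1, x.2, key _ x.2⟩
  · intro x hx
    rw [key _ hx]
    exact h.ker ⟨x, hx⟩
  · intro x hx
    rw [key _ hx]
    exact h.trace ⟨x, hx⟩

end Pool.Agent.Helper278
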