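import Mathlib

set_option autoImplicit false

noncomputable section

open Classical

namespace Pool.Agent.Helper278.RG

/-! ### free groups -/

section FG

variable {X : Type*}

/-- the elements of the free group whose reduced word has all its letters in `S` -/
def FS (S : Set X) : Subgroup (FreeGroup X) where
  carrier := {w | ∀ x ∈ w.toWord, x.1 ∈ S}
  one_mem' := by
    intro x hx
    simp [FreeGroup.toWord_one] at hx
  mul_mem' := by
    intro a b ha hb x hx
    have h1 := (FreeGroup.toWord_mul_sublist a b).subset hx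
    rcases List.mem_append.1 h1 with h | h
    · exact ha x h
    · exact hb x h
  inv_mem' := by
    intro a ha x hx
    rw [FreeGroup.toWord_inv] at hx
    unfold FreeGroup.invRev at hx
    rw [List.mem_reverse, List.mem_map] at hx
    obtain ⟨y, hy, rfl⟩ := hx
    exact ha y hy

/-- the longest beginning of the reduced word with letters in `S` -/
def gate (S : Set X) (w : FreeGroup X) : FreeGroup X :=
  FreeGroup.mk (w.toWord.takeWhile (fun x => decide (x.1 ∈ S)))

/-- the rest of the reduced word -/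
def rest (S : Set X) (w : FreeGroup X) : FreeGroup X :=
  FreeGroup.mk (w.toWord.dropWhile (fun x => decide (x.1 ∈ S)))

/-- the generator at the beginning of the reduced word -/
def hd (w : FreeGroup X) : Option X := w.toWord.head?.map Prod.fst

theorem toWord_map_inj {Y : Type*} (f : X → Y) (hf : Function.Injective f) (w : FreeGroup X) :
    (FreeGroup.map f w).toWord = w.toWord.map (fun x => (f x.1, x.2)) := by
  have h1 : FreeGroup.map f w = FreeGroup.mk (w.toWord.map (fun x => (f x.1, x.2))) := by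
    conv_lhs => rw [← FreeGroup.mk_toWord (x := w)]
    rw [FreeGroup.map.mk]
  rw [h1, FreeGroup.toWord_mk]
  apply FreeGroup.IsReduced.reduce_eq
  have h2 : FreeGroup.IsReduced w.toWord := FreeGroup.isReduced_toWord
  unfold FreeGroup.IsReduced at h2 ⊢
  rw [List.isChain_map]
  refine h2.imp ?_
  intro a b h hab
  exact h (hf hab)

end FG

/-! ### the group -/

section Grp

variable {ι T : Type*} (P : T → Set ι)

/-- the cosets of the subgroups `FS (P τ)` -/
def Yt : Type _ := Σ τ : T, FreeGroup ι ⧸ FS (P τ)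

instance : MulAction (FreeGroup ι) (Yt P) where
  smul b y := ⟨y.1, b • y.2⟩
  one_smul y := by
    show (⟨y.1, (1 : FreeGroup ι) • y.2⟩ : Yt P) = y
    rw [one_smul]
    rfl
  mul_smul a b y := by
    show (⟨y.1, (a * b) • y.2⟩ : Yt P) = ⟨y.1, a • b • y.2⟩
    rw [mul_smul]

/-- the action of the free group on the free group on the cosets -/
def act : FreeGroup ι →* MulAut (FreeGroup (Yt P)) where
  toFun b := FreeGroup.freeGroupCongr (MulAction.toPerm b)
  map_one' := by
    ext w
    show FreeGroup.freeGroupCongr (MulAction.toPerm (1 : FreeGroup ι)) w = w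
    have h : (MulAction.toPerm (1 : FreeGroup ι) : Equiv.Perm (Yt P)) = Equiv.refl _ := by
      ext y
      simp
    rw [h]
    simp
  map_mul' a b := by
    ext w
    show FreeGroup.freeGroupCongr (MulAction.toPerm (a * b)) w =
      FreeGroup.freeGroupCongr (MulAction.toPerm a)
        (FreeGroup.freeGroupCongr (MulAction.toPerm b) w)
    simp only [FreeGroup.freeGroupCongr_apply, FreeGroup.map.comp]
    congr 1
    congr 1
    ext y
    simp [mul_smul]

/-- the group -/
abbrev Gp : Type _ := FreeGroup (Yt P) ⋊[act P] FreeGroup ι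

theorem act_apply (b : FreeGroup ι) (w : FreeGroup (Yt P)) :
    act P b w = FreeGroup.map (fun y => b • y) w := rfl

theorem toWord_act (b : FreeGroup ι) (w : FreeGroup (Yt P)) :
    (act P b w).toWord = w.toWord.map (fun x => (b • x.1, x.2)) := by
  rw [act_apply]
  exact toWord_map_inj _ (MulAction.injective b) w

/-- a coset as a subset of the free group -/
def cs (y : Yt P) : Set (FreeGroup ι) :=
  {β | (QuotientGroup.mk β : FreeGroup ι ⧸ FS (P y.1)) = y.2}

/-- the cosets contained in `FS S` -/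
def YS (S : Set ι) : Set (Yt P) := {y | cs P y ⊆ (FS S : Set (FreeGroup ι))}

theorem mem_cs (y : Yt P) (β : FreeGroup ι) :
    β ∈ cs P y ↔ (QuotientGroup.mk β : FreeGroup ι ⧸ FS (P y.1)) = y.2 := Iff.rfl

theorem mem_cs_smul (b : FreeGroup ι) (y : Yt P) (β : FreeGroup ι) :
    β ∈ cs P (b • y) ↔ b⁻¹ * β ∈ cs P y := by
  obtain ⟨τ, q⟩ := y
  induction q using QuotientGroup.induction_on with
  | H z =>
    show (QuotientGroup.mk β : FreeGroup ι ⧸ FS (P τ)) = QuotientGroup.mk (b * z) ↔
      (QuotientGroup.mk (b⁻¹ * β) : FreeGroup ι ⧸ FS (P τ)) = QuotientGroup.mk z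
    rw [QuotientGroup.eq, QuotientGroup.eq]
    have : β⁻¹ * (b * z) = (b⁻¹ * β)⁻¹ * z := by group
    rw [this]

theorem smul_mem_YS {S : Set ι} {b : FreeGroup ι} (hb : b ∈ FS S) {y : Yt P} (hy : y ∈ YS P S) :
    b • y ∈ YS P S := by
  intro β hβ
  rw [mem_cs_smul] at hβ
  have h1 := hy hβ
  have h2 := (FS S).mul_mem hb h1
  rwa [mul_inv_cancel_left] at h2

theorem act_mem {S : Set ι} {b : FreeGroup ι} (hb : b ∈ FS S) {w : FreeGroup (Yt P)}
    (hw : w ∈ FS (YS P S)) : act P b w ∈ FS (YS P S) := by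
  intro x hx
  rw [toWord_act, List.mem_map] at hx
  obtain ⟨z, hz, rfl⟩ := hx
  exact smul_mem_YS P hb (hw z hz)

/-- the subgroup of elements supported on `S` -/
def GS (S : Set ι) : Subgroup (Gp P) where
  carrier := {g | g.left ∈ FS (YS P S) ∧ g.right ∈ FS S}
  one_mem' := ⟨(FS _).one_mem, (FS _).one_mem⟩
  mul_mem' := by
    rintro a b ⟨h1, h2⟩ ⟨h3, h4⟩
    refine ⟨?_, ?_⟩
    · rw [SemidirectProduct.mul_left]
      exact (FS _).mul_mem h1 (act_mem P h2 h3)
    · rw [SemidirectProduct.mul_right]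
      exact (FS _).mul_mem h2 h4
  inv_mem' := by
    rintro a ⟨h1, h2⟩
    refine ⟨?_, ?_⟩
    · rw [SemidirectProduct.inv_left]
      exact act_mem P ((FS _).inv_mem h2) ((FS _).inv_mem h1)
    · rw [SemidirectProduct.inv_right]
      exact (FS _).inv_mem h2

/-- the first object of the pair `(r, b)`: the first letter of `r`, or `{b}` -/
def obj (r : FreeGroup (Yt P)) (b : FreeGroup ι) : Set (FreeGroup ι) :=
  match hd r with
  | none => {b}
  | some y => cs P y

/-- the set of gates of `g` in `GS S` -/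
def lam (S : Set ι) (g : Gp P) : Set (Gp P) :=
  (fun β => (⟨gate (YS P S) g.left, gate S β⟩ : Gp P)) '' obj P (rest (YS P S) g.left) g.right

/-- the coset `F_τ` as a letter -/
def y0 (τ : T) : Yt P := ⟨τ, QuotientGroup.mk 1⟩

/-- the generator `c_τ` -/
def cg (τ : T) : Gp P := SemidirectProduct.inl (FreeGroup.of (y0 P τ))

/-- the generator `s_i` -/
def sg (i : ι) : Gp P := SemidirectProduct.inr (FreeGroup.of i)

/-- the edge `τ` has one end in `α \ β` and the other one in `β \ α` -/
def Split (α β : Set ι) (τ : T) : Prop :=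
  ∃ a b, a ∈ α ∧ a ∉ β ∧ b ∈ β ∧ b ∉ α ∧ P τ = {a, b}

/-- first sets -/
def Q1 (R S : Set ι) : Set (Gp P) := {g | g ∉ GS P S ∧ lam P S g ⊆ (GS P R : Set (Gp P))}

/-- second sets -/
def Q2 (α β S : Set ι) : Set (Gp P) :=
  {g | ∃ k ∈ GS P (α ∩ β), ∃ τ, Split P α β τ ∧ ∃ l : ℤ, l ≠ 0 ∧ ∃ g' : Gp P,
    hd g'.left ≠ some (y0 P τ) ∧ g = k * cg P τ ^ l * g' ∧
      ∀ z ∈ GS P S, ∀ γ ∈ obj P (g' * z).left (g' * z).right, ∀ s ∈ P τ ∩ S, hd γ ≠ some s}

/-- the set `⊔ K c^l K` -/
def Zs (α β : Set ι) : Set (Gp P) :=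
  {g | ∃ k ∈ GS P (α ∩ β), ∃ τ, Split P α β τ ∧ ∃ l : ℤ, l ≠ 0 ∧ ∃ k' ∈ GS P (α ∩ β),
    g = k * cg P τ ^ l * k'}

end Grp

end Pool.Agent.Helper278.RG
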