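import Mathlib
import Pool.Agent.Helper278.RGDefs

set_option autoImplicit false
set_option linter.all false

noncomputable section

open Classical

namespace Pool.Agent.Helper278.RG

theorem isReduced_begin {X : Type*} {l w : List (X × Bool)} (h : l <+: w)
    (hw : FreeGroup.IsReduced w) : FreeGroup.IsReduced l := by
  obtain ⟨t, rfl⟩ := h
  exact (List.isChain_append.1 hw).1

theorem isReduced_end {X : Type*} {l w : List (X × Bool)} (h : l <:+ w)
    (hw : FreeGroup.IsReduced w) : FreeGroup.IsReduced l := by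
  obtain ⟨t, rfl⟩ := h
  exact (List.isChain_append.1 hw).2.1

/-! job 9984 -/

section

variable {X : Type*}

theorem gate_word_349 (S : Set X) (w : FreeGroup X) :
    (gate S w).toWord = w.toWord.takeWhile (fun x => decide (x.1 ∈ S)) := by
  unfold gate
  rw [FreeGroup.toWord_mk]
  apply FreeGroup.IsReduced.reduce_eq
  exact isReduced_begin (List.takeWhile_prefix _) FreeGroup.isReduced_toWord

theorem rest_word_349 (S : Set X) (w : FreeGroup X) :
    (rest S w).toWord = w.toWord.dropWhile (fun x => decide (x.1 ∈ S)) := by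
  unfold rest
  rw [FreeGroup.toWord_mk]
  apply FreeGroup.IsReduced.reduce_eq
  exact isReduced_end (List.dropWhile_suffix _) FreeGroup.isReduced_toWord

theorem mem_FS_349 {S : Set X} {w : FreeGroup X} : w ∈ FS S ↔ ∀ x ∈ w.toWord, x.1 ∈ S := Iff.rfl

theorem hd_eq_none (w : FreeGroup X) : hd w = none ↔ w = 1 := by
  unfold hd
  rw [Option.map_eq_none_iff, List.head?_eq_none_iff, FreeGroup.toWord_eq_nil_iff]

theorem hd_mem {S : Set X} {w : FreeGroup X} (hw : w ∈ FS S) {x : X} (hx : hd w = some x) :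
    x ∈ S := by
  unfold hd at hx
  rw [Option.map_eq_some_iff] at hx
  obtain ⟨y, hy, rfl⟩ := hx
  exact hw y (List.mem_of_head? hy)

theorem gate_mem (S : Set X) (w : FreeGroup X) : gate S w ∈ FS S := by
  rw [mem_FS_349, gate_word_349]
  intro x hx
  have := List.mem_takeWhile_imp hx
  simpa using this

theorem gate_mem' {S T : Set X} {w : FreeGroup X} (hw : w ∈ FS T) : gate S w ∈ FS T := by
  rw [mem_FS_349, gate_word_349]
  intro x hx
  exact hw x ((List.takeWhile_prefix _).subset hx)

theorem rest_mem' {S T : Set X} {w : FreeGroup X} (hw : w ∈ FS T) : rest S w ∈ FS T := by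
  rw [mem_FS_349, rest_word_349]
  intro x hx
  exact hw x ((List.dropWhile_suffix _).subset hx)

theorem gate_mul_rest (S : Set X) (w : FreeGroup X) : gate S w * rest S w = w := by
  unfold gate rest
  rw [FreeGroup.mul_mk, List.takeWhile_append_dropWhile, FreeGroup.mk_toWord]

theorem hd_rest (S : Set X) (w : FreeGroup X) {x : X} (hx : hd (rest S w) = some x) : x ∉ S := by
  unfold hd at hx
  rw [rest_word_349, Option.map_eq_some_iff] at hx
  obtain ⟨y, hy, rfl⟩ := hx
  have h1 := List.head?_dropWhile_not (fun x : X × Bool => decide (x.1 ∈ S)) w.toWord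
  rw [hy] at h1
  simpa using h1

theorem FS_inter (S T : Set X) (w : FreeGroup X) : w ∈ FS (S ∩ T) ↔ w ∈ FS S ∧ w ∈ FS T := by
  constructor
  · intro h
    exact ⟨fun x hx => (h x hx).1, fun x hx => (h x hx).2⟩
  · rintro ⟨h1, h2⟩ x hx
    exact ⟨h1 x hx, h2 x hx⟩

theorem FS_mono {S T : Set X} (h : S ⊆ T) : FS S ≤ FS T := by
  intro w hw x hx
  exact h (hw x hx)

theorem of_mem_FS {S : Set X} {x : X} : FreeGroup.of x ∈ FS S ↔ x ∈ S := by
  rw [mem_FS_349, FreeGroup.toWord_of]
  simp

end

/-! job 9985 -/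

section

variable {X : Type*}

theorem takeWhile_head_aux278 {S : Set X} (l : List (X × Bool))
    (h : ∀ y, l.head? = some y → y.1 ∉ S) :
    l.takeWhile (fun x => decide (x.1 ∈ S)) = [] ∧ l.dropWhile (fun x => decide (x.1 ∈ S)) = l := by
  cases l with
  | nil => simp
  | cons y l =>
    have h1 : y.1 ∉ S := h y rfl
    constructor
    · rw [List.takeWhile_cons_of_neg]
      simpa using h1
    · rw [List.dropWhile_cons_of_neg]
      simpa using h1

theorem head_of_hd_aux278 {S : Set X} {r : FreeGroup X} (hr : ∀ x, hd r = some x → x ∉ S) :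
    ∀ y, r.toWord.head? = some y → y.1 ∉ S := by
  intro y hy
  apply hr
  unfold hd
  rw [hy]
  rfl

/-- the concatenation is reduced -/
theorem toWord_mul_of {S : Set X} {p r : FreeGroup X} (hp : p ∈ FS S)
    (hr : ∀ x, hd r = some x → x ∉ S) : (p * r).toWord = p.toWord ++ r.toWord := by
  rw [FreeGroup.toWord_mul]
  apply FreeGroup.IsReduced.reduce_eq
  have h1 : FreeGroup.IsReduced p.toWord := FreeGroup.isReduced_toWord
  have h2 : FreeGroup.IsReduced r.toWord := FreeGroup.isReduced_toWord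
  unfold FreeGroup.IsReduced at h1 h2 ⊢
  rw [List.isChain_append]
  refine ⟨h1, h2, ?_⟩
  intro x hx y hy hxy
  exfalso
  have h3 : x ∈ p.toWord := List.mem_of_mem_getLast? hx
  have h4 : x.1 ∈ S := hp x h3
  have h5 : y.1 ∉ S := head_of_hd_aux278 hr y hy
  rw [hxy] at h4
  exact h5 h4

theorem gate_mul {S : Set X} {p r : FreeGroup X} (hp : p ∈ FS S)
    (hr : ∀ x, hd r = some x → x ∉ S) : gate S (p * r) = p ∧ rest S (p * r) = r := by
  have h1 : ∀ a ∈ p.toWord, decide (a.1 ∈ S) = true := by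
    intro a ha
    have : a.1 ∈ S := hp a ha
    simpa using this
  obtain ⟨h2, h3⟩ := takeWhile_head_aux278 r.toWord (head_of_hd_aux278 hr)
  constructor
  · unfold gate
    rw [toWord_mul_of hp hr, List.takeWhile_append_of_pos h1, h2, List.append_nil,
      FreeGroup.mk_toWord]
  · unfold rest
    rw [toWord_mul_of hp hr, List.dropWhile_append_of_pos h1, h3, FreeGroup.mk_toWord]

theorem hd_mul_of_ne {S : Set X} {p r : FreeGroup X} (hp : p ∈ FS S) (hp1 : p ≠ 1)
    (hr : ∀ x, hd r = some x → x ∉ S) : hd (p * r) = hd p := by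
  unfold hd
  rw [toWord_mul_of hp hr]
  have h1 : p.toWord ≠ [] := by
    intro h
    exact hp1 (FreeGroup.toWord_eq_nil_iff.1 h)
  rw [List.head?_append_of_ne_nil _ h1]

theorem gate_of_mem {S : Set X} {w : FreeGroup X} (hw : w ∈ FS S) :
    gate S w = w ∧ rest S w = 1 := by
  have h := gate_mul (S := S) (p := w) (r := 1) hw (by
    intro x hx
    rw [(hd_eq_none (1 : FreeGroup X)).2 rfl] at hx
    exact absurd hx (by simp))
  rwa [mul_one] at h

theorem gate_left {S : Set X} {p : FreeGroup X} (hp : p ∈ FS S) (w : FreeGroup X) :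
    gate S (p * w) = p * gate S w ∧ rest S (p * w) = rest S w := by
  have h := gate_mul (S := S) (p := p * gate S w) (r := rest S w)
    ((FS S).mul_mem hp (gate_mem S w)) (fun x hx => hd_rest S w hx)
  rwa [mul_assoc, gate_mul_rest] at h

theorem rest_eq_one {S : Set X} {w : FreeGroup X} : rest S w = 1 ↔ w ∈ FS S := by
  constructor
  · intro h
    have h1 := gate_mul_rest S w
    rw [h, mul_one] at h1
    rw [← h1]
    exact gate_mem S w
  · intro h
    exact (gate_of_mem h).2

end

/-! job 9986 -/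

section

variable {X : Type*}

theorem toWord_mk_suffix_306 {w : FreeGroup X} {l : List (X × Bool)} (h : l <:+ w.toWord) :
    (FreeGroup.mk l).toWord = l := by
  rw [FreeGroup.toWord_mk]
  apply FreeGroup.IsReduced.reduce_eq
  exact List.IsChain.suffix FreeGroup.isReduced_toWord h

theorem toWord_mk_prefix_306 {w : FreeGroup X} {l : List (X × Bool)} (h : l <+: w.toWord) :
    (FreeGroup.mk l).toWord = l := by
  rw [FreeGroup.toWord_mk]
  apply FreeGroup.IsReduced.reduce_eq
  exact isReduced_begin h FreeGroup.isReduced_toWord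

theorem hd_rest_eq_306 (S : Set X) (w : FreeGroup X) :
    hd (rest S w) = (w.toWord.dropWhile (fun x => decide (x.1 ∈ S))).head?.map Prod.fst := by
  unfold hd rest
  rw [toWord_mk_suffix_306 (List.dropWhile_suffix _)]

theorem hd_gate_eq_306 (S : Set X) (w : FreeGroup X) :
    hd (gate S w) = (w.toWord.takeWhile (fun x => decide (x.1 ∈ S))).head?.map Prod.fst := by
  unfold hd gate
  rw [toWord_mk_prefix_306 (List.takeWhile_prefix _)]

theorem gate_right_aux_306 {S : Set X} {a c : FreeGroup X}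
    (hc : (a * c).toWord = a.toWord ++ c.toWord) (ha : ∃ x ∈ a.toWord, x.1 ∉ S) :
    gate S (a * c) = gate S a ∧ hd (rest S (a * c)) = hd (rest S a) := by
  have hne : ∀ (l : List (X × Bool)), (∃ x ∈ l, x.1 ∉ S) →
      (l.takeWhile (fun x => decide (x.1 ∈ S))).length ≠ l.length ∧
      l.dropWhile (fun x => decide (x.1 ∈ S)) ≠ [] := by
    intro l hl
    induction l with
    | nil => obtain ⟨x, hx, _⟩ := hl; simp at hx
    | cons y l ih =>
      by_cases hy : y.1 ∈ S
      · have h1 : ∃ x ∈ l, x.1 ∉ S := by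
          obtain ⟨x, hx, hxS⟩ := hl
          rcases List.mem_cons.1 hx with rfl | hx
          · exact absurd hy hxS
          · exact ⟨x, hx, hxS⟩
        obtain ⟨h2, h3⟩ := ih h1
        constructor
        · rw [List.takeWhile_cons_of_pos (by simpa using hy)]
          simp only [List.length_cons]
          omega
        · rw [List.dropWhile_cons_of_pos (by simpa using hy)]
          exact h3
      · constructor
        · rw [List.takeWhile_cons_of_neg (by simpa using hy)]
          simp
        · rw [List.dropWhile_cons_of_neg (by simpa using hy)]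
          simp
  obtain ⟨h1, h2⟩ := hne _ ha
  constructor
  · unfold gate
    rw [hc, List.takeWhile_append, if_neg h1]
  · rw [hd_rest_eq_306, hd_rest_eq_306, hc, List.dropWhile_append, if_neg (by simpa using h2)]
    rw [List.head?_append_of_ne_nil _ h2]

/-- the gate is determined by the part of the word before the first letter outside `S` -/
theorem gate_right {S : Set X} {w s : FreeGroup X} (hw : w ∉ FS S) (hs : s ∈ FS S) :
    gate S (w * s) = gate S w ∧ hd (rest S (w * s)) = hd (rest S w) := by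
  have hw' : w⁻¹ ∉ FS S := fun h => hw (by simpa using (FS S).inv_mem h)
  have hp : gate S w⁻¹ ∈ FS S := gate_mem S _
  have hq : ∀ x, hd (rest S w⁻¹) = some x → x ∉ S := fun x hx => hd_rest S _ hx
  have hmul : gate S w⁻¹ * rest S w⁻¹ = w⁻¹ := gate_mul_rest S _
  have hcat : ∀ c : FreeGroup X, c ∈ FS S →
      ((rest S w⁻¹)⁻¹ * c).toWord = ((rest S w⁻¹)⁻¹).toWord ++ c.toWord := by
    intro c hc
    have h1 := toWord_mul_of ((FS S).inv_mem hc) hq
    have h2 : (rest S w⁻¹)⁻¹ * c = (c⁻¹ * rest S w⁻¹)⁻¹ := by group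
    rw [h2, FreeGroup.toWord_inv, h1, FreeGroup.invRev_append, ← FreeGroup.toWord_inv,
      ← FreeGroup.toWord_inv, inv_inv]
  have hne : ∃ x ∈ ((rest S w⁻¹)⁻¹).toWord, x.1 ∉ S := by
    by_contra hcon
    push Not at hcon
    have h1 : (rest S w⁻¹)⁻¹ ∈ FS S := hcon
    have h2 : rest S w⁻¹ ∈ FS S := by simpa using (FS S).inv_mem h1
    apply hw'
    rw [← hmul]
    exact (FS S).mul_mem hp h2
  have hwe : w = (rest S w⁻¹)⁻¹ * (gate S w⁻¹)⁻¹ := by
    rw [← mul_inv_rev, hmul, inv_inv]
  have e1 := gate_right_aux_306 (hcat _ ((FS S).inv_mem hp)) hne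
  have e2 := gate_right_aux_306 (hcat _ ((FS S).mul_mem ((FS S).inv_mem hp) hs)) hne
  have hws : w * s = (rest S w⁻¹)⁻¹ * ((gate S w⁻¹)⁻¹ * s) := by
    rw [← mul_assoc, ← hwe]
  rw [← hwe] at e1
  rw [← hws] at e2
  exact ⟨e2.1.trans e1.1.symm, e2.2.trans e1.2.symm⟩

theorem hd_eq_of_gate {S : Set X} (w : FreeGroup X) {x : X} (hx : x ∈ S) :
    hd (gate S w) = some x ↔ hd w = some x := by
  rw [hd_gate_eq_306]
  unfold hd
  cases h : w.toWord with
  | nil => simp
  | cons y l =>
    by_cases hy : y.1 ∈ S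
    · rw [List.takeWhile_cons_of_pos (by simpa using hy)]
      simp
    · rw [List.takeWhile_cons_of_neg (by simpa using hy)]
      simp only [List.head?_nil, Option.map_none, List.head?_cons, Option.map_some, Option.some.injEq,
        reduceCtorEq, false_iff]
      rintro rfl
      exact hy hx

end

/-! job 9987 -/

section

variable {X : Type*}

theorem mulL_546 (w : FreeGroup X) (y : X) (e : Bool) :
    (∃ L, w.toWord = L ++ [(y, !e)] ∧ (w * FreeGroup.mk [(y, e)]).toWord = L ∧
      w * FreeGroup.mk [(y, e)] = FreeGroup.mk L) ∨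
    (w * FreeGroup.mk [(y, e)]).toWord = w.toWord ++ [(y, e)] := by
  have hw : w = FreeGroup.mk w.toWord := FreeGroup.mk_toWord.symm
  have hred : FreeGroup.IsReduced w.toWord := FreeGroup.isReduced_toWord
  obtain ⟨W, hW⟩ : ∃ W, W = w.toWord := ⟨_, rfl⟩
  rw [← hW] at hw hred
  rw [← hW]
  by_cases hlast : ∃ L, W = L ++ [(y, !e)]
  · left
    obtain ⟨L, hL⟩ := hlast
    have h1 : w * FreeGroup.mk [(y, e)] = FreeGroup.mk L := by
      have h2 : FreeGroup.mk [(y, !e)] * FreeGroup.mk [(y, e)] = (1 : FreeGroup X) := by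
        have h3 : FreeGroup.mk [(y, !e)] = (FreeGroup.mk [(y, e)])⁻¹ := by
          rw [FreeGroup.inv_mk]
          rfl
        rw [h3, inv_mul_cancel]
      rw [hw, hL, ← FreeGroup.mul_mk, mul_assoc, h2, mul_one]
    refine ⟨L, hL, ?_, h1⟩
    rw [h1, FreeGroup.toWord_mk]
    apply FreeGroup.IsReduced.reduce_eq
    rw [hL] at hred
    exact List.IsChain.left_of_append hred
  · right
    have h1 : w * FreeGroup.mk [(y, e)] = FreeGroup.mk (W ++ [(y, e)]) := by
      rw [← FreeGroup.mul_mk, ← hw]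
    rw [h1, FreeGroup.toWord_mk]
    apply FreeGroup.IsReduced.reduce_eq
    unfold FreeGroup.IsReduced
    refine List.IsChain.append hred (List.isChain_singleton _) ?_
    intro b hb c hc
    have hc' : c = (y, e) := by
      simpa using hc.symm
    subst hc'
    intro h2
    by_contra h3
    apply hlast
    have h4 : b = (y, !e) := by
      refine Prod.ext h2 ?_
      show b.2 = !e
      have h5 : b.2 ≠ e := h3
      revert h5
      cases b.2 <;> cases e <;> simp
    rw [← h4]
    have h6 : W.getLast? = some b := hb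
    exact ⟨W.dropLast, (List.dropLast_append_getLast? b h6).symm⟩

theorem tw_546 (p : X × Bool → Bool) (L M : List (X × Bool)) (h : ∃ x ∈ L, p x = false) :
    (L ++ M).takeWhile p = L.takeWhile p ∧ (L ++ M).dropWhile p = L.dropWhile p ++ M ∧
      L.dropWhile p ≠ [] := by
  induction L with
  | nil =>
    obtain ⟨x, hx, -⟩ := h
    simp at hx
  | cons a L ih =>
    by_cases ha : p a = true
    · have h' : ∃ x ∈ L, p x = false := by
        obtain ⟨x, hx, hpx⟩ := h
        rcases List.mem_cons.1 hx with rfl | hx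
        · rw [ha] at hpx; simp at hpx
        · exact ⟨x, hx, hpx⟩
      obtain ⟨h1, h2, h3⟩ := ih h'
      rw [List.cons_append, List.takeWhile_cons_of_pos ha, List.takeWhile_cons_of_pos ha,
        List.dropWhile_cons_of_pos ha, List.dropWhile_cons_of_pos ha]
      exact ⟨by rw [h1], h2, h3⟩
    · rw [List.cons_append, List.takeWhile_cons_of_neg ha, List.takeWhile_cons_of_neg ha,
        List.dropWhile_cons_of_neg ha, List.dropWhile_cons_of_neg ha]
      exact ⟨rfl, rfl, by simp⟩

theorem hd_rest_546 (S : Set X) (w : FreeGroup X) :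
    hd (rest S w) = (w.toWord.dropWhile (fun x => decide (x.1 ∈ S))).head?.map Prod.fst := by
  unfold hd rest
  rw [FreeGroup.toWord_mk, FreeGroup.IsReduced.reduce_eq]
  exact isReduced_end (List.dropWhile_suffix _) FreeGroup.isReduced_toWord

theorem head_546 (L M : List (X × Bool)) (h : L ≠ []) : (L ++ M).head? = L.head? := by
  cases L with
  | nil => exact absurd rfl h
  | cons a L => rfl

/-- multiplying on the right by a letter `y` or its inverse -/
theorem hd_mul_letter (w : FreeGroup X) (y : X) (e : Bool) :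
    hd (w * FreeGroup.mk [(y, e)]) = hd w ∨
      (w = 1 ∧ hd (w * FreeGroup.mk [(y, e)]) = some y) ∨
      (w = FreeGroup.mk [(y, !e)] ∧ w * FreeGroup.mk [(y, e)] = 1) := by
  rcases mulL_546 w y e with ⟨L, h1, h2, h3⟩ | h1
  · by_cases hL : L = []
    · right; right
      rw [hL, List.nil_append] at h1
      rw [hL] at h3
      refine ⟨?_, h3⟩
      rw [← h1, FreeGroup.mk_toWord]
    · left
      unfold hd
      rw [h2, h1, head_546 L _ hL]
  · by_cases hW : w.toWord = []
    · right; left
      refine ⟨FreeGroup.toWord_eq_nil_iff.1 hW, ?_⟩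
      unfold hd
      rw [h1, hW]
      rfl
    · left
      unfold hd
      rw [h1, head_546 _ _ hW]

/-- the same for the parts of the word -/
theorem rest_mul_letter (S : Set X) (w : FreeGroup X) (y : X) (e : Bool) :
    (hd (rest S (w * FreeGroup.mk [(y, e)])) = hd (rest S w) ∧
      gate S (w * FreeGroup.mk [(y, e)]) = gate S w) ∨
    (w ∈ FS S ∧ y ∈ S) ∨
    (w ∈ FS S ∧ y ∉ S ∧ gate S (w * FreeGroup.mk [(y, e)]) = w ∧
      rest S (w * FreeGroup.mk [(y, e)]) = FreeGroup.mk [(y, e)]) ∨
    (y ∉ S ∧ rest S w = FreeGroup.mk [(y, !e)] ∧ w * FreeGroup.mk [(y, e)] = gate S w) := by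
  obtain ⟨p, hp⟩ : ∃ p : X × Bool → Bool, p = fun x => decide (x.1 ∈ S) := ⟨_, rfl⟩
  have hpt : ∀ x : X × Bool, p x = true ↔ x.1 ∈ S := fun x => by rw [hp]; simp
  have hpf : ∀ x : X × Bool, p x = false ↔ x.1 ∉ S := fun x => by rw [hp]; simp
  have hFS : w ∈ FS S ↔ ∀ x ∈ w.toWord, x.1 ∈ S := Iff.rfl
  have hgate : ∀ v : FreeGroup X, gate S v = FreeGroup.mk (v.toWord.takeWhile p) := fun v => by
    rw [hp]; rfl
  have hrest : ∀ v : FreeGroup X, rest S v = FreeGroup.mk (v.toWord.dropWhile p) := fun v => by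
    rw [hp]; rfl
  have hhd : ∀ v : FreeGroup X, hd (rest S v) = (v.toWord.dropWhile p).head?.map Prod.fst :=
    fun v => by rw [hp]; exact hd_rest_546 S v
  rcases mulL_546 w y e with ⟨L, h1, h2, h3⟩ | h1
  · by_cases hL : ∃ x ∈ L, p x = false
    · left
      obtain ⟨t1, t2, t3⟩ := tw_546 p L [(y, !e)] hL
      rw [hhd, hhd, hgate, hgate, h2, h1, t1, t2, head_546 _ _ t3]
      exact ⟨rfl, rfl⟩
    · have hall : ∀ x ∈ L, p x = true := by
        intro x hx
        by_contra hne
        exact hL ⟨x, hx, by simpa using hne⟩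
      by_cases hy : y ∈ S
      · right; left
        refine ⟨?_, hy⟩
        rw [hFS, h1]
        intro x hx
        rcases List.mem_append.1 hx with hx | hx
        · exact (hpt x).1 (hall x hx)
        · rw [List.mem_singleton] at hx
          rw [hx]
          exact hy
      · right; right; right
        have hny : ¬ p (y, !e) = true := fun h => hy ((hpt _).1 h)
        refine ⟨hy, ?_, ?_⟩
        · rw [hrest, h1, List.dropWhile_append_of_pos hall, List.dropWhile_cons_of_neg hny]
        · rw [h3, hgate, h1, List.takeWhile_append_of_pos hall, List.takeWhile_cons_of_neg hny,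
            List.append_nil]
  · by_cases hW : ∃ x ∈ w.toWord, p x = false
    · left
      obtain ⟨t1, t2, t3⟩ := tw_546 p w.toWord [(y, e)] hW
      rw [hhd, hhd, hgate, hgate, h1, t1, t2, head_546 _ _ t3]
      exact ⟨rfl, rfl⟩
    · have hall : ∀ x ∈ w.toWord, p x = true := by
        intro x hx
        by_contra hne
        exact hW ⟨x, hx, by simpa using hne⟩
      have hwS : w ∈ FS S := by
        rw [hFS]
        intro x hx
        exact (hpt x).1 (hall x hx)
      by_cases hy : y ∈ S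
      · right; left
        exact ⟨hwS, hy⟩
      · right; right; left
        have hny : ¬ p (y, e) = true := fun h => hy ((hpt _).1 h)
        refine ⟨hwS, hy, ?_, ?_⟩
        · rw [hgate, h1, List.takeWhile_append_of_pos hall, List.takeWhile_cons_of_neg hny,
            List.append_nil, FreeGroup.mk_toWord]
        · rw [hrest, h1, List.dropWhile_append_of_pos hall, List.dropWhile_cons_of_neg hny]

end

/-! job 9988 -/

section

variable {X : Type*}

theorem mk_singleton_66 {y : X} (L : List (X × Bool)) (hL : ∀ x ∈ L, x.1 = y) :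
    ∃ l : ℤ, FreeGroup.mk L = FreeGroup.of y ^ l := by
  induction L with
  | nil => exact ⟨0, by rw [zpow_zero, FreeGroup.one_eq_mk]⟩
  | cons a L ih =>
    obtain ⟨l, hl⟩ := ih (fun x hx => hL x (List.mem_cons_of_mem _ hx))
    obtain ⟨x, b⟩ := a
    have hx : x = y := hL (x, b) List.mem_cons_self
    subst hx
    have h1 : FreeGroup.mk ((x, b) :: L) = FreeGroup.mk [(x, b)] * FreeGroup.mk L := by
      rw [FreeGroup.mul_mk]; rfl
    rw [h1, hl]
    cases b with
    | true => exact ⟨1 + l, by rw [zpow_add, zpow_one]; rfl⟩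
    | false =>
      refine ⟨-1 + l, ?_⟩
      rw [zpow_add, zpow_neg_one]
      rfl

theorem mem_FS_singleton {y : X} {w : FreeGroup X} :
    w ∈ FS {y} ↔ ∃ l : ℤ, w = FreeGroup.of y ^ l := by
  constructor
  · intro h
    obtain ⟨l, hl⟩ := mk_singleton_66 (y := y) w.toWord (fun x hx => h x hx)
    exact ⟨l, by rw [← hl, FreeGroup.mk_toWord]⟩
  · rintro ⟨l, rfl⟩
    exact (FS {y}).zpow_mem (of_mem_FS.2 rfl) l

theorem pow_inj {y : X} {l l' : ℤ} (h : FreeGroup.of y ^ l = FreeGroup.of y ^ l') : l = l' := by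
  have h1 := congrArg (FreeGroup.lift (fun _ : X => Multiplicative.ofAdd (1 : ℤ))) h
  simp only [map_zpow, FreeGroup.lift_apply_of] at h1
  have h2 := congrArg Multiplicative.toAdd h1
  simpa using h2

theorem exists_power {w : FreeGroup X} {y : X} (h : hd w = some y) :
    ∃ l : ℤ, l ≠ 0 ∧ ∃ w', hd w' ≠ some y ∧ w = FreeGroup.of y ^ l * w' := by
  obtain ⟨l, hl⟩ := mem_FS_singleton.1 (gate_mem {y} w)
  refine ⟨l, ?_, rest {y} w, ?_, ?_⟩
  · rintro rfl
    rw [zpow_zero] at hl
    have h1 := (hd_eq_of_gate (S := {y}) w (x := y) rfl).2 h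
    rw [(hd_eq_none _).2 hl] at h1
    exact absurd h1 (by simp)
  · intro h1
    exact hd_rest {y} w h1 rfl
  · rw [← hl, gate_mul_rest]

theorem power_unique {y : X} {l l' : ℤ} {w w' : FreeGroup X}
    (h : FreeGroup.of y ^ l * w = FreeGroup.of y ^ l' * w') (hw : hd w ≠ some y)
    (hw' : hd w' ≠ some y) : l = l' ∧ w = w' := by
  have h1 := gate_mul (S := {y}) (p := FreeGroup.of y ^ l) (r := w) (mem_FS_singleton.2 ⟨l, rfl⟩)
    (fun x hx hxy => hw (by rw [hx]; exact congrArg some hxy))
  have h2 := gate_mul (S := {y}) (p := FreeGroup.of y ^ l') (r := w')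
    (mem_FS_singleton.2 ⟨l', rfl⟩)
    (fun x hx hxy => hw' (by rw [hx]; exact congrArg some hxy))
  rw [h] at h1
  exact ⟨pow_inj (h1.1.symm.trans h2.1), h1.2.symm.trans h2.2⟩

theorem hd_power_mul {y : X} {l : ℤ} (hl : l ≠ 0) {w : FreeGroup X} (hw : hd w ≠ some y) :
    hd (FreeGroup.of y ^ l * w) = some y := by
  have hne : FreeGroup.of y ^ l ≠ 1 := by
    intro h
    exact hl (pow_inj (y := y) (h.trans (zpow_zero _).symm))
  have hmem : FreeGroup.of y ^ l ∈ FS ({y} : Set X) := mem_FS_singleton.2 ⟨l, rfl⟩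
  rw [hd_mul_of_ne hmem hne (fun x hx hxy => hw (by rw [hx]; exact congrArg some hxy))]
  cases hx : hd (FreeGroup.of y ^ l) with
  | none => exact absurd ((hd_eq_none _).1 hx) hne
  | some x => exact congrArg some (hd_mem hmem hx)

end

/-! job 9989 -/

section

variable {X : Type*}

theorem toWord_rest653 (S : Set X) (w : FreeGroup X) :
    (rest S w).toWord = w.toWord.dropWhile (fun x => decide (x.1 ∈ S)) := by
  unfold rest
  rw [FreeGroup.toWord_mk]
  apply FreeGroup.IsReduced.reduce_eq
  have h2 : FreeGroup.IsReduced w.toWord := FreeGroup.isReduced_toWord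
  unfold FreeGroup.IsReduced at h2 ⊢
  exact h2.suffix (List.dropWhile_suffix _)

theorem invRev_append653 (A B : List (X × Bool)) :
    FreeGroup.invRev (A ++ B) = FreeGroup.invRev B ++ FreeGroup.invRev A := by
  unfold FreeGroup.invRev
  rw [List.map_append, List.reverse_append]

theorem toWord_coset653 (Q : Set X) (β : FreeGroup X) :
    β = (rest Q β⁻¹)⁻¹ * (gate Q β⁻¹)⁻¹ ∧
    β.toWord = ((rest Q β⁻¹)⁻¹).toWord ++ ((gate Q β⁻¹)⁻¹).toWord := by
  have h0 := gate_mul_rest Q β⁻¹
  have h1 : (gate Q β⁻¹ * rest Q β⁻¹).toWord = (gate Q β⁻¹).toWord ++ (rest Q β⁻¹).toWord :=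
    toWord_mul_of (gate_mem Q β⁻¹) (fun x hx => hd_rest Q β⁻¹ hx)
  rw [h0] at h1
  constructor
  · rw [← mul_inv_rev, h0, inv_inv]
  · have h2 : β.toWord = FreeGroup.invRev (β⁻¹).toWord := by
      rw [← FreeGroup.toWord_inv, inv_inv]
    rw [h2, h1, invRev_append653, FreeGroup.toWord_inv, FreeGroup.toWord_inv]

theorem hd_rest_append653 {R : Set X} {β b0 f : FreeGroup X} (hw : β.toWord = b0.toWord ++ f.toWord)
    (hb : b0 ∉ FS R) : hd (rest R β) = hd (rest R b0) := by
  have hne : b0.toWord.dropWhile (fun x => decide (x.1 ∈ R)) ≠ [] := by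
    intro h0
    apply hb
    intro x hx
    rw [List.dropWhile_eq_nil_iff] at h0
    simpa using h0 x hx
  unfold hd
  rw [toWord_rest653, toWord_rest653, hw, List.dropWhile_append]
  cases hL : b0.toWord.dropWhile (fun x => decide (x.1 ∈ R)) with
  | nil => exact absurd hL hne
  | cons c L => simp

/-- two elements of one coset with different first letters outside `R` -/
theorem coset_lemma {Q R : Set X} {β₁ β₂ : FreeGroup X} {a b : X} (h : β₁⁻¹ * β₂ ∈ FS Q)
    (h1 : hd (rest R β₁) = some a) (h2 : hd (rest R β₂) = some b) (hab : a ≠ b) :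
    a ∈ Q ∧ b ∈ Q ∧ ((∀ x ∈ Q, x ∉ R) → (gate R β₁)⁻¹ * β₁ ∈ FS Q) := by
  obtain ⟨e1, w1⟩ := toWord_coset653 Q β₁
  obtain ⟨e2, w2⟩ := toWord_coset653 Q β₂
  have hr : rest Q β₂⁻¹ = rest Q β₁⁻¹ := by
    have h3 : (β₁⁻¹ * β₂)⁻¹ ∈ FS Q := (FS Q).inv_mem h
    have h4 := (gate_left h3 β₁⁻¹).2
    have h5 : (β₁⁻¹ * β₂)⁻¹ * β₁⁻¹ = β₂⁻¹ := by group
    rwa [h5] at h4
  rw [hr] at e2 w2
  set b0 := (rest Q β₁⁻¹)⁻¹ with hb0
  set f1 := (gate Q β₁⁻¹)⁻¹ with hf1
  set f2 := (gate Q β₂⁻¹)⁻¹ with hf2
  have hf1Q : f1 ∈ FS Q := (FS Q).inv_mem (gate_mem Q _)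
  have hf2Q : f2 ∈ FS Q := (FS Q).inv_mem (gate_mem Q _)
  by_cases hb : b0 ∈ FS R
  · have g1 := gate_left hb f1
    have g2 := gate_left hb f2
    rw [← e1] at g1
    rw [← e2] at g2
    rw [g1.2] at h1
    rw [g2.2] at h2
    refine ⟨hd_mem (rest_mem' hf1Q) h1, hd_mem (rest_mem' hf2Q) h2, fun hdis => ?_⟩
    have hg : gate R f1 = 1 := by
      rw [← hd_eq_none]
      cases hx : hd (gate R f1) with
      | none => rfl
      | some x =>
        exact absurd (hd_mem (gate_mem R f1) hx) (hdis x (hd_mem (gate_mem' hf1Q) hx))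
    have h6 : (gate R β₁)⁻¹ * β₁ = f1 := by
      rw [g1.1, hg, mul_one]
      rw [e1]
      rw [inv_mul_cancel_left]
    rw [h6]
    exact hf1Q
  · exfalso
    rw [hd_rest_append653 w1 hb] at h1
    rw [hd_rest_append653 w2 hb] at h2
    rw [h1] at h2
    exact hab (Option.some.inj h2)

end

/-! job 9990 -/

section

variable {X : Type*}

theorem malnormal_free {R : Set X} {s : X} (hs : s ∉ R) {ρ ρ' : FreeGroup X} (hρ : ρ ∈ FS R)
    (hρ' : ρ' ∈ FS R) {m m' : ℤ} (hm' : m' ≠ 0)
    (h : ρ * FreeGroup.of s ^ m = FreeGroup.of s ^ m' * ρ') : ρ = 1 ∧ ρ' = 1 ∧ m = m' := by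
  have h1 : hd ρ' ≠ some s := fun h' => hs (hd_mem hρ' h')
  have h2 : hd (FreeGroup.of s ^ m' * ρ') = some s := hd_power_mul hm' h1
  have h3 : gate R (FreeGroup.of s ^ m' * ρ') = 1 := by
    have h4 := (gate_mul (S := R) (p := 1) (r := FreeGroup.of s ^ m' * ρ') (FS R).one_mem (by
      intro x hx
      rw [h2] at hx
      have : s = x := Option.some_injective _ hx
      rw [← this]
      exact hs)).1
    rwa [one_mul] at h4
  have h5 : gate R (ρ * FreeGroup.of s ^ m) = ρ := (gate_mul hρ (by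
    intro x hx
    have h6 : x ∈ ({s} : Set X) := hd_mem (mem_FS_singleton.mpr ⟨m, rfl⟩) hx
    rw [Set.mem_singleton_iff] at h6
    rw [h6]
    exact hs)).1
  have h7 : ρ = 1 := by
    rw [← h5, h, h3]
  have h8 : hd (1 : FreeGroup X) ≠ some s := by
    rw [(hd_eq_none 1).mpr rfl]
    simp
  rw [h7, one_mul] at h
  have h9 := power_unique (y := s) (l := m) (l' := m') (w := 1) (w' := ρ')
    (by rw [mul_one]; exact h) h8 h1
  exact ⟨h7, h9.2.symm, h9.1⟩

end

end Pool.Agent.Helper278.RG
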