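import Mathlib
import Pool.Agent.Helper278.RGDefs
import Pool.Agent.Helper278.RGFree

set_option autoImplicit false
set_option linter.all false

noncomputable section

open Classical

namespace Pool.Agent.Helper278.RG

/-! job 9991 -/

section

variable {ι T : Type*} (P : T → Set ι)

theorem hd_act (b : FreeGroup ι) (w : FreeGroup (Yt P)) :
    hd (act P b w) = (hd w).map (fun y => b • y) := by
  unfold hd
  rw [toWord_act, List.head?_map, Option.map_map, Option.map_map]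
  rfl

theorem cs_nonempty (y : Yt P) : (cs P y).Nonempty := by
  obtain ⟨τ, q⟩ := y
  induction q using QuotientGroup.induction_on with
  | H z => exact ⟨z, rfl⟩

theorem cs_eq {y y' : Yt P} (h1 : y.1 = y'.1) {β : FreeGroup ι} (hβ : β ∈ cs P y)
    (hβ' : β ∈ cs P y') : y = y' := by
  obtain ⟨τ, q⟩ := y
  obtain ⟨τ', q'⟩ := y'
  have h1' : τ = τ' := h1
  subst h1'
  have h2 : (QuotientGroup.mk β : FreeGroup ι ⧸ FS (P τ)) = q := hβ
  have h3 : (QuotientGroup.mk β : FreeGroup ι ⧸ FS (P τ)) = q' := hβ'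
  rw [← h2, ← h3]

/-- letters of `YS S` and their ends -/
theorem mem_YS_iff (S : Set ι) (y : Yt P) :
    y ∈ YS P S ↔ P y.1 ⊆ S ∧ ∃ β ∈ cs P y, β ∈ FS S := by
  constructor
  · intro hy
    obtain ⟨β, hβ⟩ := cs_nonempty P y
    refine ⟨?_, β, hβ, hy hβ⟩
    intro i hi
    have h1 : β * FreeGroup.of i ∈ cs P y := by
      rw [mem_cs] at hβ ⊢
      rw [← hβ, QuotientGroup.eq]
      have h2 : (β * FreeGroup.of i)⁻¹ * β = (FreeGroup.of i)⁻¹ := by group
      rw [h2]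
      exact (FS _).inv_mem (of_mem_FS.2 hi)
    have h3 := (FS S).mul_mem ((FS S).inv_mem (hy hβ)) (hy h1)
    rw [inv_mul_cancel_left] at h3
    exact of_mem_FS.1 h3
  · rintro ⟨h1, β, hβ, hβS⟩ γ hγ
    rw [mem_cs] at hβ hγ
    rw [← hγ, QuotientGroup.eq] at hβ
    have h2 := FS_mono h1 hβ
    have h3 := (FS S).mul_mem hβS h2
    rwa [mul_inv_cancel_left] at h3

theorem smul_mem_YS_iff {S : Set ι} {b : FreeGroup ι} (hb : b ∈ FS S) (y : Yt P) :
    b • y ∈ YS P S ↔ y ∈ YS P S := by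
  constructor
  · intro h
    have h1 := smul_mem_YS P ((FS S).inv_mem hb) h
    rwa [inv_smul_smul] at h1
  · exact smul_mem_YS P hb

theorem YS_inter (S R : Set ι) (y : Yt P) : y ∈ YS P (S ∩ R) ↔ y ∈ YS P S ∧ y ∈ YS P R := by
  constructor
  · intro h
    exact ⟨fun β hβ => ((FS_inter S R β).1 (h hβ)).1, fun β hβ => ((FS_inter S R β).1 (h hβ)).2⟩
  · rintro ⟨h1, h2⟩ β hβ
    exact (FS_inter S R β).2 ⟨h1 hβ, h2 hβ⟩

theorem GS_inter (S R : Set ι) (g : Gp P) : g ∈ GS P (S ∩ R) ↔ g ∈ GS P S ∧ g ∈ GS P R := by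
  have hY : YS P (S ∩ R) = YS P S ∩ YS P R := by
    ext y
    exact YS_inter P S R y
  have h0 : ∀ Q : Set ι, g ∈ GS P Q ↔ g.left ∈ FS (YS P Q) ∧ g.right ∈ FS Q := fun Q => Iff.rfl
  rw [h0, h0, h0, hY, FS_inter, FS_inter]
  tauto

theorem obj_nonempty (r : FreeGroup (Yt P)) (b : FreeGroup ι) : (obj P r b).Nonempty := by
  unfold obj
  cases hd r with
  | none => exact Set.singleton_nonempty b
  | some y => exact cs_nonempty P y

theorem obj_act (b₀ : FreeGroup ι) (r : FreeGroup (Yt P)) (b : FreeGroup ι) :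
    obj P (act P b₀ r) (b₀ * b) = (fun β => b₀ * β) '' obj P r b := by
  unfold obj
  rw [hd_act]
  cases hd r with
  | none =>
    show ({b₀ * b} : Set (FreeGroup ι)) = (fun β => b₀ * β) '' {b}
    rw [Set.image_singleton]
  | some y =>
    show cs P (b₀ • y) = (fun β => b₀ * β) '' cs P y
    ext β
    rw [mem_cs_smul]
    constructor
    · intro h
      exact ⟨b₀⁻¹ * β, h, mul_inv_cancel_left _ _⟩
    · rintro ⟨γ, hγ, rfl⟩
      show b₀⁻¹ * (b₀ * γ) ∈ cs P y
      rw [inv_mul_cancel_left]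
      exact hγ

theorem cg_sg_comm (τ : T) {s : ι} (hs : s ∈ P τ) (l n : ℤ) :
    cg P τ ^ l * sg P s ^ n = sg P s ^ n * cg P τ ^ l := by
  have h1 : FreeGroup.of s • y0 P τ = y0 P τ := by
    show (⟨τ, (QuotientGroup.mk (FreeGroup.of s * 1) : FreeGroup ι ⧸ FS (P τ))⟩ : Yt P) =
      ⟨τ, QuotientGroup.mk 1⟩
    congr 1
    rw [QuotientGroup.eq]
    have h2 : (FreeGroup.of s * 1)⁻¹ * 1 = (FreeGroup.of s)⁻¹ := by group
    rw [h2]
    exact (FS _).inv_mem (of_mem_FS.2 hs)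
  have h3 : act P (FreeGroup.of s) (FreeGroup.of (y0 P τ)) = FreeGroup.of (y0 P τ) := by
    rw [act_apply, FreeGroup.map.of, h1]
  have h4 : Commute (cg P τ) (sg P s) := by
    have h5 := SemidirectProduct.inl_aut (φ := act P) (FreeGroup.of s) (FreeGroup.of (y0 P τ))
    rw [h3] at h5
    show SemidirectProduct.inl (FreeGroup.of (y0 P τ)) * SemidirectProduct.inr (FreeGroup.of s) =
      SemidirectProduct.inr (FreeGroup.of s) * SemidirectProduct.inl (FreeGroup.of (y0 P τ))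
    conv_lhs => rw [h5]
    rw [mul_assoc, ← map_mul, inv_mul_cancel, map_one, mul_one]
  exact (h4.zpow_zpow l n).eq

end

/-! job 9992 -/

section

variable {ι T : Type*} (P : T → Set ι)

theorem gate_rest_mul_396 {S : Set ι} {p : Gp P} (hp : p ∈ GS P S) (g : Gp P) :
    gate (YS P S) (p * g).left = p.left * act P p.right (gate (YS P S) g.left) ∧
      rest (YS P S) (p * g).left = act P p.right (rest (YS P S) g.left) := by
  have h1 : (p * g).left =
      (p.left * act P p.right (gate (YS P S) g.left)) *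
        act P p.right (rest (YS P S) g.left) := by
    rw [SemidirectProduct.mul_left, mul_assoc, ← map_mul, gate_mul_rest]
  rw [h1]
  apply gate_mul
  · exact (FS _).mul_mem hp.1 (act_mem P hp.2 (gate_mem _ _))
  · intro x hx
    rw [hd_act] at hx
    obtain ⟨y, hy, rfl⟩ := Option.map_eq_some_iff.1 hx
    rw [smul_mem_YS_iff P hp.2]
    exact hd_rest _ _ hy

/-- the gates of an element of `GS S` in `GS T` lie in `GS (S ∩ T)` -/
theorem lam_of_mem {S R : Set ι} {g : Gp P} (hg : g ∈ GS P R) :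
    lam P S g ⊆ (GS P (S ∩ R) : Set (Gp P)) := by
  rintro x ⟨β, hβ, rfl⟩
  have hβR : β ∈ FS R := by
    unfold obj at hβ
    split at hβ
    · rw [Set.mem_singleton_iff] at hβ
      rw [hβ]
      exact hg.2
    · rename_i y hy
      exact (hd_mem (rest_mem' hg.1) hy) hβ
  show (⟨gate (YS P S) g.left, gate S β⟩ : Gp P) ∈ GS P (S ∩ R)
  rw [GS_inter]
  exact ⟨⟨gate_mem _ _, gate_mem _ _⟩, ⟨gate_mem' hg.1, gate_mem' hβR⟩⟩

theorem lam_nonempty (S : Set ι) (g : Gp P) : (lam P S g).Nonempty := by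
  exact (obj_nonempty P _ _).image _

theorem lam_left {S : Set ι} {p : Gp P} (hp : p ∈ GS P S) (g : Gp P) :
    lam P S (p * g) = (fun x => p * x) '' lam P S g := by
  obtain ⟨h1, h2⟩ := gate_rest_mul_396 P hp g
  unfold lam
  rw [h1, h2, SemidirectProduct.mul_right, obj_act, Set.image_image, Set.image_image]
  apply Set.image_congr
  intro β _
  rw [(gate_left hp.2 β).1]
  apply SemidirectProduct.ext
  · rw [SemidirectProduct.mul_left]
  · rw [SemidirectProduct.mul_right]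

end

/-! job 9993 -/

section

variable {ι T : Type*} (P : T → Set ι)

theorem obj_congr_762 {r r' : FreeGroup (Yt P)} (h : hd r = hd r') (b : FreeGroup ι) :
    obj P r b = obj P r' b := by
  unfold obj
  rw [h]

theorem obj_none_762 {r : FreeGroup (Yt P)} (h : hd r = none) (b : FreeGroup ι) :
    obj P r b = {b} := by
  unfold obj
  rw [h]

theorem obj_some_762 {r : FreeGroup (Yt P)} {y : Yt P} (h : hd r = some y) (b : FreeGroup ι) :
    obj P r b = cs P y := by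
  unfold obj
  rw [h]

theorem hd_one_762 {X : Type*} : hd (1 : FreeGroup X) = none := (hd_eq_none _).2 rfl

theorem hd_letter_762 {X : Type*} (y : X) (e : Bool) :
    hd (FreeGroup.mk [(y, e)]) = some y := by
  unfold hd
  rw [FreeGroup.toWord_mk, FreeGroup.reduce_singleton]
  rfl

/-- the gates of the elements of a coset near `b` -/
theorem cs_image_762 {S : Set ι} {b : FreeGroup ι} (hb : b ∉ FS S) {y1 : Yt P}
    (hy1 : y1 ∈ YS P S) (p : FreeGroup (Yt P)) :
    (fun β => (⟨p, gate S β⟩ : Gp P)) '' cs P (b • y1) = {⟨p, gate S b⟩} := by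
  have key : ∀ β ∈ cs P (b • y1), gate S β = gate S b := by
    intro β hβ
    rw [mem_cs_smul] at hβ
    have h1 : b⁻¹ * β ∈ FS S := hy1 hβ
    have h2 := (gate_right hb h1).1
    rwa [mul_inv_cancel_left] at h2
  obtain ⟨β0, hβ0⟩ := cs_nonempty P (b • y1)
  ext x
  constructor
  · rintro ⟨β, hβ, rfl⟩
    show (⟨p, gate S β⟩ : Gp P) = ⟨p, gate S b⟩
    rw [key β hβ]
  · intro hx
    rw [Set.mem_singleton_iff] at hx
    subst hx
    refine ⟨β0, hβ0, ?_⟩
    show (⟨p, gate S β0⟩ : Gp P) = ⟨p, gate S b⟩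
    rw [key β0 hβ0]

theorem lam_right_inr_762 {S : Set ι} {g : Gp P} (hg : g ∉ GS P S) {b : FreeGroup ι}
    (hb : b ∈ FS S) : lam P S (g * SemidirectProduct.inr b) = lam P S g := by
  have e1 : (g * SemidirectProduct.inr b : Gp P).left = g.left := by
    rw [SemidirectProduct.mul_left, SemidirectProduct.left_inr, map_one, mul_one]
  have e2 : (g * SemidirectProduct.inr b : Gp P).right = g.right * b := by
    rw [SemidirectProduct.mul_right, SemidirectProduct.right_inr]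
  unfold lam
  rw [e1, e2]
  rcases h : hd (rest (YS P S) g.left) with _ | y
  · rw [obj_none_762 P h, obj_none_762 P h, Set.image_singleton, Set.image_singleton]
    have h1 : g.left ∈ FS (YS P S) := rest_eq_one.1 ((hd_eq_none _).1 h)
    have h2 : g.right ∉ FS S := fun h' => hg ⟨h1, h'⟩
    rw [(gate_right h2 hb).1]
  · rw [obj_some_762 P h, obj_some_762 P h]

theorem lam_right_letter_762 {S : Set ι} {g : Gp P} (hg : g ∉ GS P S) {y1 : Yt P}
    (hy1 : y1 ∈ YS P S) (e : Bool) :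
    lam P S (g * SemidirectProduct.inl (FreeGroup.mk [(y1, e)])) = lam P S g := by
  have e1 : (g * SemidirectProduct.inl (FreeGroup.mk [(y1, e)]) : Gp P).left =
      g.left * FreeGroup.mk [(g.right • y1, e)] := by
    rw [SemidirectProduct.mul_left, SemidirectProduct.left_inl, act_apply, FreeGroup.map.mk]
    rfl
  have e2 : (g * SemidirectProduct.inl (FreeGroup.mk [(y1, e)]) : Gp P).right = g.right := by
    rw [SemidirectProduct.mul_right, SemidirectProduct.right_inl, mul_one]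
  unfold lam
  rw [e1, e2]
  rcases rest_mul_letter (YS P S) g.left (g.right • y1) e with ⟨h1, h2⟩ | ⟨h1, h2⟩ |
    ⟨h1, h2, h3, h4⟩ | ⟨h1, h2, h3⟩
  · rw [h2, obj_congr_762 P h1]
  · exfalso
    obtain ⟨β, hβ⟩ := cs_nonempty P (g.right • y1)
    have h3 : β ∈ FS S := h2 hβ
    rw [mem_cs_smul] at hβ
    have h4 : g.right⁻¹ * β ∈ FS S := hy1 hβ
    have h5 := (FS S).mul_mem h3 ((FS S).inv_mem h4)
    rw [mul_inv_rev, inv_inv, mul_inv_cancel_left] at h5
    exact hg ⟨h1, h5⟩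
  · have h5 : g.right ∉ FS S := fun h' => hg ⟨h1, h'⟩
    rw [h3, h4, obj_some_762 P (hd_letter_762 _ _), cs_image_762 P h5 hy1, (gate_of_mem h1).1,
      (gate_of_mem h1).2, obj_none_762 P hd_one_762, Set.image_singleton]
  · have h5 : g.right ∉ FS S := fun h' => h1 (smul_mem_YS P h' hy1)
    have h6 := gate_mem (YS P S) g.left
    rw [h3, (gate_of_mem h6).1, (gate_of_mem h6).2, h2, obj_none_762 P hd_one_762,
      Set.image_singleton, obj_some_762 P (hd_letter_762 _ _), cs_image_762 P h5 hy1]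

theorem inl_letter_mem_762 {S : Set ι} {y1 : Yt P} (hy1 : y1 ∈ YS P S) (e : Bool) :
    (SemidirectProduct.inl (FreeGroup.mk [(y1, e)]) : Gp P) ∈ GS P S := by
  refine ⟨?_, ?_⟩
  · rw [SemidirectProduct.left_inl]
    cases e
    · have : FreeGroup.mk [(y1, false)] = (FreeGroup.of y1)⁻¹ := rfl
      rw [this]
      exact (FS _).inv_mem (of_mem_FS.2 hy1)
    · exact of_mem_FS.2 hy1
  · rw [SemidirectProduct.right_inl]
    exact (FS _).one_mem

theorem lam_right_list_762 {S : Set ι} (l : List (Yt P × Bool)) (hl : ∀ x ∈ l, x.1 ∈ YS P S) :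
    ∀ g : Gp P, g ∉ GS P S →
      (g * SemidirectProduct.inl (FreeGroup.mk l) : Gp P) ∉ GS P S ∧
      lam P S (g * SemidirectProduct.inl (FreeGroup.mk l)) = lam P S g := by
  induction l with
  | nil =>
    intro g hg
    have : (SemidirectProduct.inl (FreeGroup.mk ([] : List (Yt P × Bool))) : Gp P) = 1 :=
      map_one _
    rw [this, mul_one]
    exact ⟨hg, rfl⟩
  | cons x l ih =>
    intro g hg
    have hx : x.1 ∈ YS P S := hl x List.mem_cons_self
    have e : (SemidirectProduct.inl (FreeGroup.mk (x :: l)) : Gp P) =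
        SemidirectProduct.inl (FreeGroup.mk [(x.1, x.2)]) *
          SemidirectProduct.inl (FreeGroup.mk l) := by
      rw [← map_mul, FreeGroup.mul_mk]
      rfl
    rw [e, ← mul_assoc]
    have hg' : (g * SemidirectProduct.inl (FreeGroup.mk [(x.1, x.2)]) : Gp P) ∉ GS P S := by
      intro h
      exact hg (((GS P S).mul_mem_cancel_right (inl_letter_mem_762 P hx x.2)).1 h)
    obtain ⟨h1, h2⟩ := ih (fun z hz => hl z (List.mem_cons_of_mem _ hz)) _ hg'
    exact ⟨h1, h2.trans (lam_right_letter_762 P hg hx x.2)⟩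

theorem lam_right {S : Set ι} {g z : Gp P} (hg : g ∉ GS P S) (hz : z ∈ GS P S) :
    lam P S (g * z) = lam P S g := by
  obtain ⟨hz1, hz2⟩ := hz
  obtain ⟨h1, h2⟩ := lam_right_list_762 P (S := S) z.left.toWord hz1 g hg
  rw [FreeGroup.mk_toWord] at h1 h2
  have e : g * z = (g * SemidirectProduct.inl z.left) * SemidirectProduct.inr z.right := by
    rw [mul_assoc, SemidirectProduct.inl_left_mul_inr_right]
  rw [e, lam_right_inr_762 P h1 hz2, h2]

end

/-! job 9994 -/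

section

variable {ι T : Type*} (P : T → Set ι)

theorem gate_eq_one_of_hd_357 {X : Type*} {S : Set X} {w : FreeGroup X} {y : X}
    (hy : y ∉ S) (hw : hd w = some y) : gate S w = 1 := by
  by_contra hne
  have h0 : hd (gate S w) ≠ none := fun h => hne ((hd_eq_none _).1 h)
  obtain ⟨x, hx⟩ := Option.ne_none_iff_exists'.1 h0
  have hxS : x ∈ S := hd_mem (gate_mem S w) hx
  have h1 := (hd_eq_of_gate w hxS).1 hx
  rw [hw] at h1
  exact hy (Option.some.inj h1 ▸ hxS)

theorem hd_mul_right_357 {X : Type*} {w v : FreeGroup X} {y : X}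
    (hv : v ∈ FS ({y}ᶜ : Set X)) (hw : hd w ≠ some y) : hd (w * v) ≠ some y := by
  intro h
  have hy : y ∉ ({y}ᶜ : Set X) := by simp
  have hw' : w * v ∉ FS ({y}ᶜ : Set X) := fun hm => hy (hd_mem hm h)
  have hs : v⁻¹ ∈ FS ({y}ᶜ : Set X) := (FS _).inv_mem hv
  obtain ⟨h1, h2⟩ := gate_right hw' hs
  have h3 : gate ({y}ᶜ : Set X) (w * v) = 1 := gate_eq_one_of_hd_357 hy h
  rw [mul_inv_cancel_right] at h1 h2
  rw [h3] at h1
  have h4 : rest ({y}ᶜ : Set X) w = w := by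
    have := gate_mul_rest ({y}ᶜ : Set X) w
    rwa [h1, one_mul] at this
  have h5 : rest ({y}ᶜ : Set X) (w * v) = w * v := by
    have := gate_mul_rest ({y}ᶜ : Set X) (w * v)
    rwa [h3, one_mul] at this
  rw [h4, h5, h] at h2
  exact hw h2

theorem hd_left_mul {S : Set ι} {τ : T} (hτ : ¬ P τ ⊆ S) {g z : Gp P} (hz : z ∈ GS P S)
    (hg : hd g.left ≠ some (y0 P τ)) : hd (g * z).left ≠ some (y0 P τ) := by
  rw [SemidirectProduct.mul_left]
  apply hd_mul_right_357 _ hg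
  intro x hx
  rw [toWord_act, List.mem_map] at hx
  obtain ⟨u, hu, rfl⟩ := hx
  have hu1 : u.1 ∈ YS P S := hz.1 u hu
  have hu2 := ((mem_YS_iff P S u.1).1 hu1).1
  simp only [Set.mem_compl_iff, Set.mem_singleton_iff]
  intro he
  apply hτ
  have h1 : (g.right • u.1).1 = (y0 P τ).1 := by rw [he]
  have h2 : (g.right • u.1).1 = u.1.1 := rfl
  have h3 : (y0 P τ).1 = τ := rfl
  rw [h2, h3] at h1
  rw [← h1]
  exact hu2

end

/-! job 9995 -/

section

variable {ι T : Type*} (P : T → Set ι)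

theorem left_formula8 (z g : Gp P) (τ : T) (l : ℤ) :
    (z * cg P τ ^ l * g).left =
      z.left * (FreeGroup.of (z.right • y0 P τ) ^ l * act P z.right g.left) := by
  have h1 : cg P τ ^ l = SemidirectProduct.inl (FreeGroup.of (y0 P τ) ^ l) := by
    unfold cg
    rw [map_zpow]
  have h2 : act P z.right (FreeGroup.of (y0 P τ) ^ l) = FreeGroup.of (z.right • y0 P τ) ^ l := by
    rw [map_zpow, act_apply, FreeGroup.map.of]
  rw [h1, SemidirectProduct.mul_left, SemidirectProduct.mul_left, SemidirectProduct.mul_right,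
    SemidirectProduct.left_inl, SemidirectProduct.right_inl, mul_one, h2, mul_assoc]

theorem right_formula8 (z g : Gp P) (τ : T) (l : ℤ) :
    (z * cg P τ ^ l * g).right = z.right * g.right := by
  have h1 : cg P τ ^ l = SemidirectProduct.inl (FreeGroup.of (y0 P τ) ^ l) := by
    unfold cg
    rw [map_zpow]
  rw [h1, SemidirectProduct.mul_right, SemidirectProduct.mul_right,
    SemidirectProduct.right_inl, mul_one]

theorem y0_notMem8 {S : Set ι} {b : FreeGroup ι} (hb : b ∈ FS S) {τ : T} (hτ : ¬ P τ ⊆ S) :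
    b • y0 P τ ∉ YS P S := by
  rw [smul_mem_YS_iff P hb, mem_YS_iff]
  exact fun h => hτ h.1

theorem hd_act_ne8 {b : FreeGroup ι} {w : FreeGroup (Yt P)} {y : Yt P} (h : hd w ≠ some y) :
    hd (act P b w) ≠ some (b • y) := by
  rw [hd_act]
  intro h2
  apply h
  rw [Option.map_eq_some_iff] at h2
  obtain ⟨x, hx, hxy⟩ := h2
  rw [hx, MulAction.injective b hxy]

theorem YS_mono8 {R S : Set ι} (hRS : R ⊆ S) : YS P R ⊆ YS P S := fun _ hy _ hβ =>
  FS_mono hRS (hy hβ)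

/-- structure lemma -/
theorem structure_lemma {R S : Set ι} (hRS : R ⊆ S) {z k : Gp P} (hz : z ∈ GS P S)
    (hk : k ∈ GS P R) {τ σ : T} (hτ : ¬ P τ ⊆ S) (hσ : ¬ P σ ⊆ S) {s : ι}
    (hs : P τ ∩ S = {s}) {l m : ℤ} (hl : l ≠ 0) (hm : m ≠ 0) {g h : Gp P}
    (hg : hd g.left ≠ some (y0 P τ)) (hh : hd h.left ≠ some (y0 P σ))
    (heq : z * cg P τ ^ l * g = k * cg P σ ^ m * h) :
    τ = σ ∧ l = m ∧ ∃ n : ℤ, z = k * sg P s ^ n ∧ h = sg P s ^ n * g := by
  obtain ⟨hz1, hz2⟩ := hz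
  obtain ⟨hk1, hk2⟩ := hk
  have hk1' : k.left ∈ FS (YS P S) := FS_mono (YS_mono8 P hRS) hk1
  have hk2' : k.right ∈ FS S := FS_mono hRS hk2
  have hL := congrArg SemidirectProduct.left heq
  have hR := congrArg SemidirectProduct.right heq
  rw [left_formula8, left_formula8] at hL
  rw [right_formula8, right_formula8] at hR
  have n1 := y0_notMem8 P hz2 hτ
  have n2 := y0_notMem8 P hk2' hσ
  have d1 := hd_power_mul hl (hd_act_ne8 P (b := z.right) hg)
  have d2 := hd_power_mul hm (hd_act_ne8 P (b := k.right) hh)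
  have g1 := gate_mul (S := YS P S) hz1
    (r := FreeGroup.of (z.right • y0 P τ) ^ l * act P z.right g.left) (by
      intro x hx
      rw [d1] at hx
      rw [← Option.some.inj hx]
      exact n1)
  have g2 := gate_mul (S := YS P S) hk1'
    (r := FreeGroup.of (k.right • y0 P σ) ^ m * act P k.right h.left) (by
      intro x hx
      rw [d2] at hx
      rw [← Option.some.inj hx]
      exact n2)
  have e1 : z.left = k.left := by rw [← g1.1, hL, g2.1]
  have e2 : FreeGroup.of (z.right • y0 P τ) ^ l * act P z.right g.left =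
      FreeGroup.of (k.right • y0 P σ) ^ m * act P k.right h.left := by
    rw [← g1.2, hL, g2.2]
  have e3 : z.right • y0 P τ = k.right • y0 P σ := by
    rw [e2, d2] at d1
    exact (Option.some.inj d1).symm
  have hτσ : τ = σ := congrArg Sigma.fst e3
  subst hτσ
  have e4 := power_unique (y := k.right • y0 P τ) (l := l) (l' := m)
    (w := act P z.right g.left) (w' := act P k.right h.left)
    (by rw [← e2, e3]) (by rw [← e3]; exact hd_act_ne8 P hg) (hd_act_ne8 P hh)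
  refine ⟨rfl, e4.1, ?_⟩
  have e5 : (QuotientGroup.mk (z.right * 1) : FreeGroup ι ⧸ FS (P τ)) =
      QuotientGroup.mk (k.right * 1) := by
    have h5 := e3
    have h6 : (⟨τ, QuotientGroup.mk (z.right * 1)⟩ : Yt P) = ⟨τ, QuotientGroup.mk (k.right * 1)⟩ := h5
    exact eq_of_heq (Sigma.mk.inj h6).2
  rw [mul_one, mul_one] at e5
  have e6 : k.right⁻¹ * z.right ∈ FS (P τ) := QuotientGroup.eq.mp e5.symm
  have e7 : k.right⁻¹ * z.right ∈ FS (P τ ∩ S) :=
    (FS_inter _ _ _).mpr ⟨e6, (FS S).mul_mem ((FS S).inv_mem hk2') hz2⟩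
  rw [hs, mem_FS_singleton] at e7
  obtain ⟨n, hn⟩ := e7
  have e8 : z.right = k.right * FreeGroup.of s ^ n := by rw [← hn, mul_inv_cancel_left]
  have hsg : sg P s ^ n = SemidirectProduct.inr (FreeGroup.of s ^ n) := by
    unfold sg
    rw [map_zpow]
  refine ⟨n, ?_, ?_⟩
  · rw [hsg]
    refine SemidirectProduct.ext ?_ ?_
    · rw [SemidirectProduct.mul_left, SemidirectProduct.left_inr, map_one, mul_one, e1]
    · rw [SemidirectProduct.mul_right, SemidirectProduct.right_inr, e8]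
  · rw [hsg]
    refine SemidirectProduct.ext ?_ ?_
    · rw [SemidirectProduct.mul_left, SemidirectProduct.left_inr, SemidirectProduct.right_inr,
        one_mul]
      have h9 := e4.2
      rw [e8, map_mul, MulAut.mul_apply] at h9
      exact ((act P k.right).injective h9).symm
    · rw [SemidirectProduct.mul_right, SemidirectProduct.right_inr]
      rw [e8, mul_assoc] at hR
      exact (mul_left_cancel hR).symm

end

/-! job 9996 -/

section

variable {ι T : Type*} (P : T → Set ι)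

theorem pow_notMem_372 {X : Type*} {R : Set X} {s : X} (hs : s ∉ R) {m : ℤ} (hm : m ≠ 0) :
    (FreeGroup.of s) ^ m ∉ FS R := by
  intro h
  have h1 : (FreeGroup.of s) ^ m ≠ 1 := by
    intro h1
    rw [← zpow_zero (FreeGroup.of s)] at h1
    exact hm (pow_inj h1)
  obtain ⟨x, hx⟩ : ∃ x, hd ((FreeGroup.of s) ^ m) = some x := by
    cases hh : hd ((FreeGroup.of s) ^ m) with
    | none => exact absurd ((hd_eq_none _).1 hh) h1
    | some x => exact ⟨x, rfl⟩
  have h2 : x ∈ R := hd_mem h hx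
  have h3 : x ∈ ({s} : Set X) := hd_mem (mem_FS_singleton.2 ⟨m, rfl⟩) hx
  rw [Set.mem_singleton_iff] at h3
  rw [h3] at h2
  exact hs h2

theorem malnormal {R : Set ι} {s : ι} (hs : s ∉ R) {k k' : Gp P} (hk : k ∈ GS P R)
    (hk' : k' ∈ GS P R) {m m' : ℤ} (hm' : m' ≠ 0)
    (h : k * sg P s ^ m = sg P s ^ m' * k') : k = 1 ∧ m = m' := by
  have e1 : ∀ n : ℤ, sg P s ^ n = (SemidirectProduct.inr ((FreeGroup.of s) ^ n) : Gp P) := by
    intro n
    unfold sg
    rw [map_zpow]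
  rw [e1, e1] at h
  have hl := congrArg SemidirectProduct.left h
  have hr := congrArg SemidirectProduct.right h
  rw [SemidirectProduct.mul_left, SemidirectProduct.mul_left, SemidirectProduct.left_inr,
    SemidirectProduct.left_inr, map_one, mul_one, one_mul, SemidirectProduct.right_inr] at hl
  rw [SemidirectProduct.mul_right, SemidirectProduct.mul_right, SemidirectProduct.right_inr,
    SemidirectProduct.right_inr] at hr
  obtain ⟨hk1, hk2⟩ := hk
  obtain ⟨hk1', hk2'⟩ := hk'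
  obtain ⟨r1, r2, r3⟩ := malnormal_free hs hk2 hk2' hm' hr
  refine ⟨?_, r3⟩
  have hu : k.left = 1 := by
    by_contra hne
    obtain ⟨y, hy⟩ : ∃ y, hd k.left = some y := by
      cases hh : hd k.left with
      | none => exact absurd ((hd_eq_none _).1 hh) hne
      | some y => exact ⟨y, rfl⟩
    have hy2 := hy
    rw [hl, hd_act, Option.map_eq_some_iff] at hy2
    obtain ⟨y', hy', hyy⟩ := hy2
    have hyR : y ∈ YS P R := hd_mem hk1 hy
    have hyR' : y' ∈ YS P R := hd_mem hk1' hy'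
    obtain ⟨β, hβ⟩ := cs_nonempty P y'
    have h1 : β ∈ FS R := hyR' hβ
    have h2 : (FreeGroup.of s) ^ m' * β ∈ cs P y := by
      rw [← hyy, mem_cs_smul, inv_mul_cancel_left]
      exact hβ
    have h3 : (FreeGroup.of s) ^ m' * β ∈ FS R := hyR h2
    have h4 := (FS R).mul_mem h3 ((FS R).inv_mem h1)
    rw [mul_inv_cancel_right] at h4
    exact pow_notMem_372 hs hm' h4
  exact SemidirectProduct.ext hu r1

end

/-! job 9997 -/

section

variable {X : Type*}

theorem gate_one_679 {S : Set X} {w : FreeGroup X} {y : X} (h : hd w = some y) (hy : y ∉ S) :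
    gate S w = 1 ∧ rest S w = w := by
  have h1 : gate S w = 1 := by
    rw [← hd_eq_none]
    by_contra hne
    obtain ⟨z, hz⟩ := Option.ne_none_iff_exists'.mp hne
    have hzS : z ∈ S := hd_mem (gate_mem S w) hz
    have h2 := (hd_eq_of_gate w hzS).mp hz
    rw [h] at h2
    exact hy (Option.some_inj.mp h2 ▸ hzS)
  refine ⟨h1, ?_⟩
  have h3 := gate_mul_rest S w
  rwa [h1, one_mul] at h3

theorem first_letter_679 {R S : Set X} (hRS : R ⊆ S) {b : FreeGroup X} (h : gate S b ∉ FS R) :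
    ∃ a, hd (rest R b) = some a ∧ a ∈ S ∧ a ∉ R := by
  have h1 := gate_mul_rest R b
  have h2 := (gate_left (S := S) (FS_mono hRS (gate_mem R b)) (rest R b)).1
  rw [h1] at h2
  have h3 : gate S (rest R b) ≠ 1 := by
    intro h4
    rw [h4, mul_one] at h2
    rw [h2] at h
    exact h (gate_mem R b)
  have h5 : hd (gate S (rest R b)) ≠ none := by
    intro h6
    exact h3 ((hd_eq_none _).mp h6)
  obtain ⟨a, ha⟩ := Option.ne_none_iff_exists'.mp h5
  have haS : a ∈ S := hd_mem (gate_mem S _) ha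
  have h7 := (hd_eq_of_gate (rest R b) haS).mp ha
  exact ⟨a, h7, haS, hd_rest R b h7⟩

end

section

variable {ι T : Type*} (P : T → Set ι)

theorem lam_none_679 {R S : Set ι} (hRS : ∀ y, y ∈ YS P R → y ∈ YS P S) (g : Gp P)
    (h : hd (rest (YS P R) g.left) = none) :
    lam P S g = {(⟨gate (YS P R) g.left, gate S g.right⟩ : Gp P)} := by
  have h1 : rest (YS P R) g.left = 1 := (hd_eq_none _).mp h
  have h2 : g.left ∈ FS (YS P R) := rest_eq_one.mp h1
  have h3 := gate_of_mem h2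
  have h4 := gate_of_mem (FS_mono hRS h2)
  unfold lam
  rw [h3.1, h4.1, h4.2]
  have h5 : obj P (1 : FreeGroup (Yt P)) g.right = {g.right} := by
    unfold obj
    rw [(hd_eq_none (1 : FreeGroup (Yt P))).mpr rfl]
  rw [h5, Set.image_singleton]

theorem lam_some_679 {R S : Set ι} (hRS : ∀ y, y ∈ YS P R → y ∈ YS P S) (g : Gp P) {y : Yt P}
    (h : hd (rest (YS P R) g.left) = some y) (hy : y ∉ YS P S) :
    lam P S g = (fun β => (⟨gate (YS P R) g.left, gate S β⟩ : Gp P)) '' cs P y := by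
  have h1 := gate_mul_rest (YS P R) g.left
  have h2 := gate_left (S := YS P S) (FS_mono hRS (gate_mem (YS P R) g.left)) (rest (YS P R) g.left)
  rw [h1] at h2
  have h3 := gate_one_679 h hy
  rw [h3.1, h3.2, mul_one] at h2
  unfold lam
  rw [h2.1, h2.2]
  have h5 : obj P (rest (YS P R) g.left) g.right = cs P y := by
    unfold obj
    rw [h]
  rw [h5]

theorem not_Q1_679 {R S : Set ι} {g : Gp P} (h0 : g ∉ GS P S) (h1 : g ∉ Q1 P R S) :
    ∃ x ∈ lam P S g, x ∉ GS P R := by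
  by_contra hne
  push Not at hne
  exact h1 ⟨h0, hne⟩

theorem cover_aux_679 {S S' : Set ι} {g : Gp P} (h0 : g ∉ GS P S)
    (h1 : g ∉ Q1 P (S ∩ S') S) {y : Yt P}
    (h : hd (rest (YS P (S ∩ S')) g.left) = some y) (hy : y ∉ YS P S) : y ∉ YS P S' := by
  intro hy'
  obtain ⟨x, hx1, hx2⟩ := not_Q1_679 P h0 h1
  rw [lam_some_679 P (fun y hy => ((YS_inter P S S' y).mp hy).1) g h hy] at hx1
  obtain ⟨γ, hγ, rfl⟩ := hx1
  apply hx2
  refine ⟨gate_mem _ _, ?_⟩
  show gate S γ ∈ FS (S ∩ S')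
  rw [FS_inter]
  exact ⟨gate_mem S γ, gate_mem' (hy' hγ)⟩

theorem cover_aux2_679 {S S' : Set ι} {g : Gp P} (h0 : g ∉ GS P S)
    (h1 : g ∉ Q1 P (S ∩ S') S) {y : Yt P}
    (h : hd (rest (YS P (S ∩ S')) g.left) = some y) (hy : y ∉ YS P S) :
    ∃ b ∈ cs P y, ∃ a, hd (rest (S ∩ S') b) = some a ∧ a ∈ S ∧ a ∉ S ∩ S' := by
  obtain ⟨x, hx1, hx2⟩ := not_Q1_679 P h0 h1
  rw [lam_some_679 P (fun y hy => ((YS_inter P S S' y).mp hy).1) g h hy] at hx1
  obtain ⟨γ, hγ, rfl⟩ := hx1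
  refine ⟨γ, hγ, first_letter_679 Set.inter_subset_left ?_⟩
  intro h3
  exact hx2 ⟨gate_mem _ _, h3⟩

theorem cover_aux3_679 {S S' : Set ι} {g : Gp P} (h0 : g ∉ GS P S)
    (h1 : g ∉ Q1 P (S ∩ S') S)
    (h : hd (rest (YS P (S ∩ S')) g.left) = none) :
    ∃ a, hd (rest (S ∩ S') g.right) = some a ∧ a ∈ S ∧ a ∉ S ∩ S' := by
  obtain ⟨x, hx1, hx2⟩ := not_Q1_679 P h0 h1
  rw [lam_none_679 P (fun y hy => ((YS_inter P S S' y).mp hy).1) g h] at hx1
  rw [Set.mem_singleton_iff] at hx1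
  subst hx1
  refine first_letter_679 Set.inter_subset_left ?_
  intro h3
  exact hx2 ⟨gate_mem _ _, h3⟩

theorem cover1 (hP : Function.Injective P) (hP2 : ∀ τ, ∃ a b, a ≠ b ∧ P τ = {a, b})
    (α β : Set ι) (g : Gp P) (h0 : g ∉ GS P (α ∩ β)) (h1 : g ∉ Q1 P (α ∩ β) α)
    (h2 : g ∉ Q1 P (α ∩ β) β) :
    ∃ k ∈ GS P (α ∩ β), ∃ τ, Split P α β τ ∧ ∃ l : ℤ, l ≠ 0 ∧ ∃ g' : Gp P,
      hd g'.left ≠ some (y0 P τ) ∧ g = k * cg P τ ^ l * g' := by
  have hgα : g ∉ GS P α := by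
    intro hg
    apply h2
    refine ⟨fun hg' => h0 ((GS_inter P α β g).mpr ⟨hg, hg'⟩), ?_⟩
    have := lam_of_mem P (S := β) hg
    rwa [Set.inter_comm] at this
  have hgβ : g ∉ GS P β := by
    intro hg
    apply h1
    refine ⟨fun hg' => h0 ((GS_inter P α β g).mpr ⟨hg', hg⟩), ?_⟩
    exact lam_of_mem P (S := α) hg
  have h2' : g ∉ Q1 P (β ∩ α) β := by rwa [Set.inter_comm]
  cases hr : hd (rest (YS P (α ∩ β)) g.left) with
  | none =>
    exfalso
    have hr' : hd (rest (YS P (β ∩ α)) g.left) = none := by rwa [Set.inter_comm]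
    obtain ⟨a, ha1, ha2, ha3⟩ := cover_aux3_679 P hgα h1 hr
    obtain ⟨b, hb1, hb2, hb3⟩ := cover_aux3_679 P hgβ h2' hr'
    rw [Set.inter_comm β α, ha1] at hb1
    have hab := Option.some_inj.mp hb1
    subst hab
    exact ha3 ⟨ha2, hb2⟩
  | some y =>
    have hr' : hd (rest (YS P (β ∩ α)) g.left) = some y := by rwa [Set.inter_comm]
    have hyR : y ∉ YS P (α ∩ β) := hd_rest _ _ hr
    have hyα : y ∉ YS P α := by
      intro hy
      have hyβ : y ∉ YS P β := fun hy' => hyR ((YS_inter P α β y).mpr ⟨hy, hy'⟩)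
      exact cover_aux_679 P hgβ h2' hr' hyβ hy
    have hyβ : y ∉ YS P β := cover_aux_679 P hgα h1 hr hyα
    obtain ⟨b1, hb1, a, ha1, ha2, ha3⟩ := cover_aux2_679 P hgα h1 hr hyα
    obtain ⟨b2, hb2, b, hb3, hb4, hb5⟩ := cover_aux2_679 P hgβ h2' hr' hyβ
    rw [Set.inter_comm β α] at hb3 hb5
    have hab : a ≠ b := by
      rintro rfl
      exact ha3 ⟨ha2, hb4⟩
    have hbb : b1⁻¹ * b2 ∈ FS (P y.1) := by
      rw [mem_cs] at hb1 hb2
      exact QuotientGroup.eq.mp (hb1.trans hb2.symm)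
    obtain ⟨hc1, hc2, hc3⟩ := coset_lemma hbb ha1 hb3 hab
    obtain ⟨a', b', hab', hPy⟩ := hP2 y.1
    have hPy2 : P y.1 = {a, b} := by
      rw [hPy] at hc1 hc2 ⊢
      simp only [Set.mem_insert_iff, Set.mem_singleton_iff] at hc1 hc2
      rcases hc1 with rfl | rfl <;> rcases hc2 with rfl | rfl
      · exact absurd rfl hab
      · rfl
      · exact Set.pair_comm _ _
      · exact absurd rfl hab
    have hdis : ∀ x ∈ P y.1, x ∉ α ∩ β := by
      intro x hx
      rw [hPy2] at hx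
      rcases hx with rfl | hx
      · exact ha3
      · rw [Set.mem_singleton_iff] at hx
        subst hx
        exact hb5
    have hρ := hc3 hdis
    have hyy : y = gate (α ∩ β) b1 • y0 P y.1 := by
      refine cs_eq P (y := y) (y' := gate (α ∩ β) b1 • y0 P y.1) (β := b1) rfl hb1 ?_
      rw [mem_cs_smul, mem_cs]
      show (QuotientGroup.mk _ : FreeGroup ι ⧸ FS (P y.1)) = QuotientGroup.mk 1
      rw [QuotientGroup.eq, mul_one]
      exact (FS _).inv_mem hρ
    obtain ⟨l, hl, w1, hw1, hw2⟩ := exists_power hr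
    refine ⟨⟨gate (YS P (α ∩ β)) g.left, gate (α ∩ β) b1⟩, ⟨gate_mem _ _, gate_mem _ _⟩, y.1,
      ⟨a, b, ha2, fun h => ha3 ⟨ha2, h⟩, hb4, fun h => hb5 ⟨h, hb4⟩, hPy2⟩, l, hl,
      ⟨act P (gate (α ∩ β) b1)⁻¹ w1, (gate (α ∩ β) b1)⁻¹ * g.right⟩, ?_, ?_⟩
    · show hd (act P (gate (α ∩ β) b1)⁻¹ w1) ≠ _
      rw [hd_act]
      intro h3
      rw [Option.map_eq_some_iff] at h3
      obtain ⟨y', hy'1, hy'2⟩ := h3
      apply hw1
      rw [hy'1, hyy, ← hy'2, smul_inv_smul]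
    · have hcl : cg P y.1 ^ l = SemidirectProduct.inl (FreeGroup.of (y0 P y.1) ^ l) := by
        unfold cg
        rw [map_zpow]
      rw [hcl]
      have hact : act P (gate (α ∩ β) b1) (FreeGroup.of (y0 P y.1) ^ l) = FreeGroup.of y ^ l := by
        rw [map_zpow, act_apply, FreeGroup.map.of, ← hyy]
      apply SemidirectProduct.ext
      · simp only [SemidirectProduct.mul_left, SemidirectProduct.mul_right,
          SemidirectProduct.left_inl, SemidirectProduct.right_inl, mul_one]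
        rw [hact, ← MulAut.mul_apply, ← map_mul, mul_inv_cancel, map_one, MulAut.one_apply, mul_assoc, ← hw2,
          gate_mul_rest]
      · simp only [SemidirectProduct.mul_right, SemidirectProduct.right_inl, mul_one,
          mul_inv_cancel_left]

end

/-! job 9998 -/

section

variable {ι T : Type*} (P : T → Set ι)

theorem obj_none_352 {r : FreeGroup (Yt P)} (b : FreeGroup ι) (h : hd r = none) :
    obj P r b = {b} := by
  unfold obj
  rw [h]

theorem obj_some_352 {r : FreeGroup (Yt P)} (b : FreeGroup ι) {y : Yt P} (h : hd r = some y) :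
    obj P r b = cs P y := by
  unfold obj
  rw [h]

theorem gate_left_eq_352 (S : Set ι) {g z : Gp P} (hg : g ∉ GS P S) (hz : z ∈ GS P S) :
    gate (YS P S) (g * z).left = gate (YS P S) g.left := by
  obtain ⟨x, hx⟩ := lam_nonempty P S (g * z)
  have hx' : x ∈ lam P S g := by
    rw [← lam_right P hg hz]
    exact hx
  obtain ⟨β, _, hβ⟩ := hx
  obtain ⟨β', _, hβ'⟩ := hx'
  have h := congrArg SemidirectProduct.left (hβ.trans hβ'.symm)
  exact h

theorem rest_eq_self_352 {X : Type*} (S : Set X) {w : FreeGroup X} (h : gate S w = 1) :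
    rest S w = w := by
  have h1 := gate_mul_rest S w
  rw [h, one_mul] at h1
  exact h1

theorem hd_of_gate_ne_352 {X : Type*} (S : Set X) {w : FreeGroup X} (h : gate S w ≠ 1) :
    hd w = hd (gate S w) := by
  conv_lhs => rw [← gate_mul_rest S w]
  exact hd_mul_of_ne (gate_mem S w) h (fun x hx => hd_rest S w hx)

/-- transfer of a member of the object through the gates -/
theorem transfer_352 (S : Set ι) {g z : Gp P} (hg : g ∉ GS P S) (hz : z ∈ GS P S)
    (hv : gate (YS P S) g.left = 1) {γ : FreeGroup ι}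
    (hγ : γ ∈ obj P (g * z).left (g * z).right) :
    ∃ γ' ∈ obj P g.left g.right, gate S γ' = gate S γ := by
  have h1 : gate (YS P S) (g * z).left = 1 := by rw [gate_left_eq_352 P S hg hz, hv]
  have h2 : (⟨gate (YS P S) (g * z).left, gate S γ⟩ : Gp P) ∈ lam P S (g * z) := by
    refine ⟨γ, ?_, rfl⟩
    rw [rest_eq_self_352 _ h1]
    exact hγ
  rw [lam_right P hg hz] at h2
  obtain ⟨γ', hγ', h3⟩ := h2
  rw [rest_eq_self_352 _ hv] at hγ'
  exact ⟨γ', hγ', congrArg SemidirectProduct.right h3⟩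

theorem case_i_352 (α β : Set ι) {b : ι} (hb : b ∈ β) (hb' : b ∉ α) (g : Gp P)
    (hgα : g ∈ GS P α) (hgβ : g ∉ GS P β)
    (h2 : ∃ z ∈ GS P β, ∃ γ ∈ obj P (g * z).left (g * z).right, hd γ = some b) : False := by
  obtain ⟨z, hz, γ, hγ, hγb⟩ := h2
  by_cases hv : gate (YS P β) g.left = 1
  · obtain ⟨γ', hγ', h3⟩ := transfer_352 P β hgβ hz hv hγ
    have h4 : (⟨gate (YS P β) g.left, gate β γ'⟩ : Gp P) ∈ lam P β g := by
      refine ⟨γ', ?_, rfl⟩
      rw [rest_eq_self_352 _ hv]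
      exact hγ'
    have h5 := lam_of_mem P (S := β) hgα h4
    have h6 : gate β γ' ∈ FS (β ∩ α) := h5.2
    rw [h3] at h6
    have h7 : hd (gate β γ) = some b := (hd_eq_of_gate γ hb).2 hγb
    exact hb' (hd_mem h6 h7).2
  · have h1 : gate (YS P β) (g * z).left = gate (YS P β) g.left := gate_left_eq_352 P β hgβ hz
    have e1 : hd g.left = hd (gate (YS P β) g.left) := hd_of_gate_ne_352 _ hv
    have e2 : hd (g * z).left = hd (gate (YS P β) g.left) := by
      rw [hd_of_gate_ne_352 (YS P β) (w := (g * z).left) (by rw [h1]; exact hv), h1]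
    obtain ⟨y, hy⟩ : ∃ y, hd (gate (YS P β) g.left) = some y := by
      rcases h : hd (gate (YS P β) g.left) with _ | y
      · exact absurd ((hd_eq_none _).1 h) hv
      · exact ⟨y, rfl⟩
    have hyβ : y ∈ YS P β := hd_mem (gate_mem _ _) hy
    have hyα : y ∈ YS P α := hd_mem hgα.1 (e1.trans hy)
    have hyR : y ∈ YS P (α ∩ β) := (YS_inter P α β y).2 ⟨hyα, hyβ⟩
    rw [obj_some_352 P _ (e2.trans hy)] at hγ
    have h6 : γ ∈ FS (α ∩ β) := hyR hγ
    exact hb' (hd_mem h6 hγb).1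

theorem case_iii_352 (α β : Set ι) {a b : ι} (ha' : a ∉ β)
    (hb : b ∈ β) (hb' : b ∉ α) (g : Gp P)
    (hgα : g ∉ GS P α) (hgβ : g ∉ GS P β) (hv : gate (YS P α) g.left ≠ 1)
    (h1 : ∃ z ∈ GS P α, ∃ γ ∈ obj P (g * z).left (g * z).right, hd γ = some a)
    (h2 : ∃ z ∈ GS P β, ∃ γ ∈ obj P (g * z).left (g * z).right, hd γ = some b) : False := by
  obtain ⟨z, hz, γ, hγ, hγa⟩ := h1
  obtain ⟨z₂, hz₂, γ₂, hγ₂, hγ₂b⟩ := h2
  have g1 : gate (YS P α) (g * z).left = gate (YS P α) g.left := gate_left_eq_352 P α hgα hz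
  have e1 : hd g.left = hd (gate (YS P α) g.left) := hd_of_gate_ne_352 _ hv
  have e2 : hd (g * z).left = hd (gate (YS P α) g.left) := by
    rw [hd_of_gate_ne_352 (YS P α) (w := (g * z).left) (by rw [g1]; exact hv), g1]
  obtain ⟨y, hy⟩ : ∃ y, hd (gate (YS P α) g.left) = some y := by
    rcases h : hd (gate (YS P α) g.left) with _ | y
    · exact absurd ((hd_eq_none _).1 h) hv
    · exact ⟨y, rfl⟩
  have hyα : y ∈ YS P α := hd_mem (gate_mem _ _) hy
  rw [obj_some_352 P _ (e2.trans hy)] at hγ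
  have hyβ : y ∉ YS P β := by
    intro hyβ
    have hyR : y ∈ YS P (α ∩ β) := (YS_inter P α β y).2 ⟨hyα, hyβ⟩
    have h6 : γ ∈ FS (α ∩ β) := hyR hγ
    exact ha' (hd_mem h6 hγa).2
  have hvb : gate (YS P β) g.left = 1 := by
    by_contra hne
    have e3 : hd g.left = hd (gate (YS P β) g.left) := hd_of_gate_ne_352 _ hne
    have e4 : hd (gate (YS P β) g.left) = some y := by rw [← e3, e1, hy]
    exact hyβ (hd_mem (gate_mem _ _) e4)
  obtain ⟨γ', hγ', h3⟩ := transfer_352 P β hgβ hz₂ hvb hγ₂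
  rw [obj_some_352 P _ (e1.trans hy)] at hγ'
  have h6 : γ' ∈ FS α := hyα hγ'
  have h7 : gate β γ' ∈ FS α := gate_mem' h6
  rw [h3] at h7
  have h8 : hd (gate β γ₂) = some b := (hd_eq_of_gate γ₂ hb).2 hγ₂b
  exact hb' (hd_mem h7 h8)

theorem gate_empty_352 {X : Type*} (w : FreeGroup X) :
    gate (∅ : Set X) w = 1 ∧ rest (∅ : Set X) w = w := by
  have h := gate_mul (S := (∅ : Set X)) (p := 1) (r := w) (FS _).one_mem
    (fun x _ hx => hx)
  rw [one_mul] at h
  exact h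

theorem cover2 (hP : Function.Injective P) (hP2 : ∀ τ, ∃ a b, a ≠ b ∧ P τ = {a, b})
    (α β : Set ι) {a b : ι} (ha : a ∈ α) (ha' : a ∉ β)
    (hb : b ∈ β) (hb' : b ∉ α) {τ : T} (hτ : P τ = {a, b}) (g : Gp P)
    (hg : hd g.left ≠ some (y0 P τ))
    (h1 : ∃ z ∈ GS P α, ∃ γ ∈ obj P (g * z).left (g * z).right, hd γ = some a)
    (h2 : ∃ z ∈ GS P β, ∃ γ ∈ obj P (g * z).left (g * z).right, hd γ = some b) :
    g ∈ GS P (α ∩ β) := by
  by_contra hgR
  by_cases hgα : g ∈ GS P α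
  · have hgβ : g ∉ GS P β := fun h => hgR ((GS_inter P α β g).2 ⟨hgα, h⟩)
    exact case_i_352 P α β hb hb' g hgα hgβ h2
  by_cases hgβ : g ∈ GS P β
  · exact case_i_352 P β α ha ha' g hgβ hgα h1
  by_cases hva : gate (YS P α) g.left = 1
  swap
  · exact case_iii_352 P α β ha' hb hb' g hgα hgβ hva h1 h2
  by_cases hvb : gate (YS P β) g.left = 1
  swap
  · exact case_iii_352 P β α hb' ha ha' g hgβ hgα hvb h2 h1
  obtain ⟨z, hz, γ, hγ, hγa⟩ := h1
  obtain ⟨z₂, hz₂, γ₂, hγ₂, hγ₂b⟩ := h2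
  obtain ⟨δ₁, hδ₁, e1⟩ := transfer_352 P α hgα hz hva hγ
  obtain ⟨δ₂, hδ₂, e2⟩ := transfer_352 P β hgβ hz₂ hvb hγ₂
  have k1 : hd δ₁ = some a := by
    rw [← hd_eq_of_gate δ₁ ha, e1, hd_eq_of_gate γ ha]
    exact hγa
  have k2 : hd δ₂ = some b := by
    rw [← hd_eq_of_gate δ₂ hb, e2, hd_eq_of_gate γ₂ hb]
    exact hγ₂b
  have hab : a ≠ b := fun h => hb' (h ▸ ha)
  rcases hy : hd g.left with _ | y
  · rw [obj_none_352 P _ hy] at hδ₁ hδ₂
    have h3 : δ₁ = δ₂ := by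
      rw [Set.mem_singleton_iff] at hδ₁ hδ₂
      rw [hδ₁, hδ₂]
    rw [h3, k2] at k1
    exact hab (Option.some.inj k1).symm
  · rw [obj_some_352 P _ hy] at hδ₁ hδ₂
    have h3 : δ₁⁻¹ * δ₂ ∈ FS (P y.1) := by
      rw [← QuotientGroup.eq]
      exact ((mem_cs P y δ₁).1 hδ₁).trans ((mem_cs P y δ₂).1 hδ₂).symm
    have h4 := coset_lemma (R := (∅ : Set ι)) h3
      (by rw [(gate_empty_352 δ₁).2]; exact k1) (by rw [(gate_empty_352 δ₂).2]; exact k2) hab
    obtain ⟨haQ, hbQ, h5⟩ := h4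
    have h6 := h5 (fun x _ hx => hx)
    rw [(gate_empty_352 δ₁).1, inv_one, one_mul] at h6
    have h7 : P y.1 = P τ := by
      obtain ⟨c, d, _, hcd⟩ := hP2 y.1
      rw [hcd] at haQ hbQ
      rw [hcd, hτ]
      rcases haQ with rfl | haQ
      · rcases hbQ with hbQ | hbQ
        · exact absurd hbQ.symm hab
        · rw [Set.mem_singleton_iff] at hbQ
          rw [hbQ]
      · rw [Set.mem_singleton_iff] at haQ
        rcases hbQ with rfl | hbQ
        · rw [haQ, Set.pair_comm]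
        · rw [Set.mem_singleton_iff] at hbQ
          exact absurd (haQ.trans hbQ.symm) hab
    have h8 : y.1 = τ := hP h7
    have h9 : y = y0 P τ := by
      refine cs_eq P (y' := y0 P τ) h8 hδ₁ ?_
      rw [mem_cs]
      show (QuotientGroup.mk δ₁ : FreeGroup ι ⧸ FS (P τ)) = QuotientGroup.mk 1
      rw [QuotientGroup.eq, mul_one]
      rw [h7] at h6
      exact (FS (P τ)).inv_mem h6
    exact hg (by rw [hy, h9])

end

/-! job 9999 -/

section

variable {ι T : Type*} (P : T → Set ι)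

theorem GS_mono54 {R S : Set ι} (hRS : R ⊆ S) {g : Gp P} (hg : g ∈ GS P R) : g ∈ GS P S := by
  have h : R ∩ S = R := Set.inter_eq_left.2 hRS
  have h2 := GS_inter P R S g
  rw [h] at h2
  exact (h2.1 hg).2

theorem Q1_left {R S : Set ι} (hRS : R ⊆ S) {k g : Gp P} (hk : k ∈ GS P R)
    (hg : g ∈ Q1 P R S) : k * g ∈ Q1 P R S := by
  have hkS := GS_mono54 P hRS hk
  refine ⟨fun h => hg.1 ?_, ?_⟩
  · have := (GS P S).mul_mem ((GS P S).inv_mem hkS) h
    rwa [inv_mul_cancel_left] at this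
  · rw [lam_left P hkS]
    rintro _ ⟨y, hy, rfl⟩
    exact (GS P R).mul_mem hk (hg.2 hy)

theorem Q1_right {R S : Set ι} {z g : Gp P} (hz : z ∈ GS P S)
    (hg : g ∈ Q1 P R S) : g * z ∈ Q1 P R S := by
  refine ⟨fun h => hg.1 ?_, ?_⟩
  · have := (GS P S).mul_mem h ((GS P S).inv_mem hz)
    rwa [mul_inv_cancel_right] at this
  · rw [lam_right P hg.1 hz]
    exact hg.2

theorem Q1_cross {R S : Set ι} {x z g : Gp P} (hx : x ∈ GS P S) (hx' : x ∉ GS P R)
    (hz : z ∈ GS P S) (hg : g ∈ Q1 P R S) : x * g * z ∉ Q1 P R S := by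
  intro h
  rw [mul_assoc] at h
  have h2 := h.2
  rw [lam_left P hx, lam_right P hg.1 hz] at h2
  obtain ⟨y, hy⟩ := lam_nonempty P S g
  have h3 : x * y ∈ GS P R := h2 ⟨y, hy, rfl⟩
  have h4 := (GS P R).mul_mem h3 ((GS P R).inv_mem (hg.2 hy))
  rw [mul_inv_cancel_right] at h4
  exact hx' h4

theorem Q2_left {α β S : Set ι} {k g : Gp P} (hk : k ∈ GS P (α ∩ β))
    (hg : g ∈ Q2 P α β S) : k * g ∈ Q2 P α β S := by
  obtain ⟨k1, hk1, τ, hτ, l, hl, g', h1, h2, h3⟩ := hg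
  refine ⟨k * k1, (GS P _).mul_mem hk hk1, τ, hτ, l, hl, g', h1, ?_, h3⟩
  rw [h2]
  simp only [mul_assoc]

theorem split_not54 {α β S : Set ι} (hS : S = α ∨ S = β) {τ : T} (hτ : Split P α β τ) :
    ¬ P τ ⊆ S := by
  obtain ⟨a, b, ha, ha', hb, hb', hP⟩ := hτ
  intro h
  rw [hP] at h
  rcases hS with rfl | rfl
  · exact hb' (h (by simp))
  · exact ha' (h (by simp))

theorem split_inter54 {α β S : Set ι} (hS : S = α ∨ S = β) {τ : T} (hτ : Split P α β τ) :
    ∃ s, P τ ∩ S = {s} := by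
  obtain ⟨a, b, ha, ha', hb, hb', hP⟩ := hτ
  rcases hS with rfl | rfl
  · refine ⟨a, ?_⟩
    rw [hP]
    ext x
    constructor
    · rintro ⟨hx1, hx2⟩
      rcases hx1 with h | h
      · exact h
      · have h' : x = b := h
        rw [h'] at hx2
        exact absurd hx2 hb'
    · intro hx
      have hx' : x = a := hx
      rw [hx']
      exact ⟨Or.inl rfl, ha⟩
  · refine ⟨b, ?_⟩
    rw [hP]
    ext x
    constructor
    · rintro ⟨hx1, hx2⟩
      rcases hx1 with h | h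
      · have h' : x = a := h
        rw [h'] at hx2
        exact absurd hx2 ha'
      · exact h
    · intro hx
      have hx' : x = b := hx
      rw [hx']
      exact ⟨Or.inr rfl, hb⟩

theorem Q2_right {α β S : Set ι} (hS : S = α ∨ S = β) {z g : Gp P} (hz : z ∈ GS P S)
    (hg : g ∈ Q2 P α β S) : g * z ∈ Q2 P α β S := by
  obtain ⟨k1, hk1, τ, hτ, l, hl, g', h1, h2, h3⟩ := hg
  refine ⟨k1, hk1, τ, hτ, l, hl, g' * z, hd_left_mul P (split_not54 P hS hτ) hz h1, ?_, ?_⟩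
  · rw [h2]
    simp only [mul_assoc]
  · intro z1 hz1
    rw [mul_assoc]
    exact h3 (z * z1) ((GS P S).mul_mem hz hz1)

theorem sg_pow54 (s : ι) (n : ℤ) :
    sg P s ^ n = SemidirectProduct.inr (FreeGroup.of s ^ n) := by
  unfold sg
  rw [← map_zpow]

theorem obj_sg54 (s : ι) (n : ℤ) (g : Gp P) :
    obj P (sg P s ^ n * g).left (sg P s ^ n * g).right =
      (fun β => FreeGroup.of s ^ n * β) '' obj P g.left g.right := by
  rw [sg_pow54, SemidirectProduct.mul_left, SemidirectProduct.mul_right,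
    SemidirectProduct.left_inr, SemidirectProduct.right_inr, one_mul, obj_act]

theorem Q2_cross {α β S : Set ι} (hS : S = α ∨ S = β) {x z g : Gp P} (hx : x ∈ GS P S)
    (hx' : x ∉ GS P (α ∩ β)) (hz : z ∈ GS P S) (hg : g ∈ Q2 P α β S) :
    x * g * z ∉ Q2 P α β S := by
  intro hc
  rw [mul_assoc] at hc
  have hsub : α ∩ β ⊆ S := by
    rcases hS with rfl | rfl
    · exact Set.inter_subset_left
    · exact Set.inter_subset_right
  obtain ⟨k, hk, τ, hτ, l, hl, g1, h1, h2, h3⟩ := Q2_right P hS hz hg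
  obtain ⟨k2, hk2, σ, hσ, m, hm, g2, e1, e2, e3⟩ := hc
  obtain ⟨s, hs⟩ := split_inter54 P hS hτ
  have heq : (x * k) * cg P τ ^ l * g1 = k2 * cg P σ ^ m * g2 := by
    rw [← e2, h2]
    simp only [mul_assoc]
  obtain ⟨hτσ, hlm, n, hn1, hn2⟩ := structure_lemma P hsub
    ((GS P S).mul_mem hx (GS_mono54 P hsub hk)) hk2 (split_not54 P hS hτ)
    (split_not54 P hS hσ) hs hl hm h1 e1 heq
  have hn0 : n ≠ 0 := by
    intro h0
    rw [h0, zpow_zero, mul_one] at hn1
    apply hx'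
    have := (GS P (α ∩ β)).mul_mem hk2 ((GS P (α ∩ β)).inv_mem hk)
    rwa [← hn1, mul_inv_cancel_right] at this
  obtain ⟨γ, hγ⟩ := obj_nonempty P g1.left g1.right
  have hsm : s ∈ P τ ∩ S := by
    rw [hs]
    rfl
  have hγs : hd γ ≠ some s := by
    have := h3 1 (GS P S).one_mem γ
    rw [mul_one] at this
    exact this hγ s hsm
  have h5 : FreeGroup.of s ^ n * γ ∈ obj P g2.left g2.right := by
    rw [hn2, obj_sg54]
    exact ⟨γ, hγ, rfl⟩
  have h6 := e3 1 (GS P S).one_mem (FreeGroup.of s ^ n * γ)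
  rw [mul_one] at h6
  exact h6 h5 s (hτσ ▸ hsm) (hd_power_mul hn0 hγs)

end

/-! job 10000 -/

section

variable {ι T : Type*} (P : T → Set ι)

theorem GS_le_left834 {α β : Set ι} {g : Gp P} (hg : g ∈ GS P (α ∩ β)) : g ∈ GS P α :=
  ((GS_inter P α β g).1 hg).1

theorem hd_ne_of_mem834 {S : Set ι} {τ : T} (hτ : ¬ P τ ⊆ S) {g : Gp P} (hg : g ∈ GS P S) :
    hd g.left ≠ some (y0 P τ) := by
  intro h
  have h1 := hd_mem hg.1 h
  have h2 := ((mem_YS_iff P S (y0 P τ)).1 h1).1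
  exact hτ h2

theorem split_data834 {α β : Set ι} {τ : T} (h : Split P α β τ) :
    ∃ s, s ∈ α ∧ s ∉ β ∧ P τ ∩ α = {s} ∧ ¬ P τ ⊆ α ∧ ¬ P τ ⊆ α ∩ β := by
  obtain ⟨a, b, ha, ha', hb, hb', hP⟩ := h
  refine ⟨a, ha, ha', ?_, ?_, ?_⟩
  · ext x
    rw [hP]
    simp only [Set.mem_inter_iff, Set.mem_insert_iff, Set.mem_singleton_iff]
    constructor
    · rintro ⟨h1 | h1, h2⟩
      · exact h1
      · rw [h1] at h2; exact absurd h2 hb'
    · rintro rfl
      exact ⟨Or.inl rfl, ha⟩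
  · intro hsub
    exact hb' (hsub (by rw [hP]; simp))
  · intro hsub
    exact ha' (hsub (by rw [hP]; simp)).2

theorem one_side834 {α β : Set ι} {x : Gp P} (hx : x ∈ GS P α) (hx' : x ∉ GS P (α ∩ β))
    {τ : T} (hτ : Split P α β τ) {s : ι} (hsβ : s ∉ β) (hs : P τ ∩ α = {s}) {l : ℤ} (hl : l ≠ 0)
    {k k1 : Gp P} (hk : k ∈ GS P (α ∩ β)) (hk1 : k1 ∈ GS P (α ∩ β)) {h : Gp P}
    (h1 : ∃ z ∈ Zs P α β, ∃ y ∈ GS P α, y ∉ GS P (α ∩ β) ∧ h = z * y)
    (h3 : x⁻¹ * h ∈ Zs P α β)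
    (h5 : h * (k * cg P τ ^ l * k1)⁻¹ ∈ GS P α) :
    ∃ q ∈ GS P (α ∩ β), ∃ q' ∈ GS P (α ∩ β), ∃ m : ℤ, m ≠ 0 ∧
      h = q * cg P τ ^ l * (sg P s ^ m * k1) ∧ x = q * sg P s ^ m * q'⁻¹ := by
  obtain ⟨z, ⟨q, hq, σ, hσ, n, hn, q1, hq1, rfl⟩, y, hy, _, hh⟩ := h1
  obtain ⟨_, _, _, _, hτα, hτK⟩ := split_data834 P hτ
  obtain ⟨_, _, _, _, hσα, hσK⟩ := split_data834 P hσ
  have hRS : α ∩ β ⊆ α := Set.inter_subset_left
  have hq1y : q1 * y ∈ GS P α := (GS P α).mul_mem (GS_le_left834 P hq1) hy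
  have hxk : h * (k * cg P τ ^ l * k1)⁻¹ * k ∈ GS P α :=
    (GS P α).mul_mem h5 (GS_le_left834 P hk)
  have heq : h * (k * cg P τ ^ l * k1)⁻¹ * k * cg P τ ^ l * k1 = q * cg P σ ^ n * (q1 * y) := by
    have : h * (k * cg P τ ^ l * k1)⁻¹ * k * cg P τ ^ l * k1 = h := by group
    rw [this, hh]; group
  obtain ⟨hτσ, hln, m, hm1, hm2⟩ := structure_lemma P hRS hxk hq hτα hσα hs hl hn
    (hd_ne_of_mem834 P hτα (GS_le_left834 P hk1)) (hd_ne_of_mem834 P hσα hq1y) heq
  subst hτσ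
  subst hln
  have hhform : h = q * cg P τ ^ l * (sg P s ^ m * k1) := by
    rw [hh, ← hm2]; group
  -- the second representation
  obtain ⟨r, hr, ρ, hρ, n', hn', r1, hr1, hxr⟩ := h3
  obtain ⟨s', hs'α, hs'β, hs', hρα, hρK⟩ := split_data834 P hρ
  have hxr' : h = x * r * cg P ρ ^ n' * r1 := by
    have : h = x * (x⁻¹ * h) := by group
    rw [this, hxr]; group
  have hxrm : x * r ∈ GS P α := (GS P α).mul_mem hx (GS_le_left834 P hr)
  have heq2 : x * r * cg P ρ ^ n' * r1 = q * cg P τ ^ l * (sg P s ^ m * k1) := by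
    rw [← hxr', hhform]
  have hhd : hd (sg P s ^ m * k1).left ≠ some (y0 P τ) := by
    rw [← hm2]
    exact hd_ne_of_mem834 P hτα hq1y
  obtain ⟨hρτ, hnl, p, hp1, hp2⟩ := structure_lemma P hRS hxrm hq hρα hτα hs' hn' hl
    (hd_ne_of_mem834 P hρα (GS_le_left834 P hr1)) hhd heq2
  subst hρτ
  have hss : s' = s := by
    have h6 : s' ∈ ({s'} : Set ι) := rfl
    rw [← hs', hs] at h6
    exact h6
  subst hss
  have hsR : s' ∉ α ∩ β := fun h => hsβ h.2
  have hmp : m = p := by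
    by_contra hne
    have hd0 : m - p ≠ 0 := sub_ne_zero.2 hne
    have hmem : r1 * k1⁻¹ ∈ GS P (α ∩ β) := (GS P _).mul_mem hr1 ((GS P _).inv_mem hk1)
    have h7 : (r1 * k1⁻¹) * sg P s' ^ (0 : ℤ) = sg P s' ^ (m - p) * 1 := by
      rw [zpow_zero, mul_one, mul_one, zpow_sub]
      have h8 : r1 = (sg P s' ^ p)⁻¹ * (sg P s' ^ m * k1) := by rw [hp2]; group
      rw [h8]
      have hcomm : (sg P s' ^ p)⁻¹ * sg P s' ^ m = sg P s' ^ m * (sg P s' ^ p)⁻¹ := by
        rw [← zpow_neg, ← zpow_add, ← zpow_add, add_comm]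
      calc (sg P s' ^ p)⁻¹ * (sg P s' ^ m * k1) * k1⁻¹ = (sg P s' ^ p)⁻¹ * sg P s' ^ m := by group
        _ = _ := hcomm
    have h9 := malnormal P hsR hmem (GS P (α ∩ β)).one_mem hd0 h7
    exact hd0 h9.2.symm
  subst hmp
  have hxform : x = q * sg P s' ^ m * r⁻¹ := by
    rw [← hp1]; group
  refine ⟨q, hq, r, hr, m, ?_, hhform, hxform⟩
  rintro rfl
  apply hx'
  rw [hxform, zpow_zero, mul_one]
  exact (GS P _).mul_mem hq ((GS P _).inv_mem hr)

theorem Zs_unique {α β : Set ι} {x : Gp P} (hx : x ∈ GS P α) (hx' : x ∉ GS P (α ∩ β))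
    {z : Gp P} (hz : z ∈ Zs P α β) {h₁ h₂ : Gp P}
    (h1 : ∃ z ∈ Zs P α β, ∃ y ∈ GS P α, y ∉ GS P (α ∩ β) ∧ h₁ = z * y)
    (h2 : ∃ z ∈ Zs P α β, ∃ y ∈ GS P α, y ∉ GS P (α ∩ β) ∧ h₂ = z * y)
    (h3 : x⁻¹ * h₁ ∈ Zs P α β) (h4 : x⁻¹ * h₂ ∈ Zs P α β)
    (h5 : h₁ * z⁻¹ ∈ GS P α) (h6 : h₂ * z⁻¹ ∈ GS P α) (h7 : h₁ * z⁻¹ ∉ GS P (α ∩ β))
    (h8 : h₂ * z⁻¹ ∉ GS P (α ∩ β)) : h₁ = h₂ := by
  obtain ⟨k, hk, τ, hτ, l, hl, k1, hk1, rfl⟩ := hz
  obtain ⟨s, hsα, hsβ, hs, hτα, hτK⟩ := split_data834 P hτ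
  obtain ⟨q, hq, q', hq', m, hm, e1, e2⟩ := one_side834 P hx hx' hτ hsβ hs hl hk hk1 h1 h3 h5
  obtain ⟨r, hr, r', hr', n, hn, e3, e4⟩ := one_side834 P hx hx' hτ hsβ hs hl hk hk1 h2 h4 h6
  have hsR : s ∉ α ∩ β := fun h => hsβ h.2
  have heq : (r⁻¹ * q) * sg P s ^ m = sg P s ^ n * (r'⁻¹ * q') := by
    have h9 : q * sg P s ^ m * q'⁻¹ = r * sg P s ^ n * r'⁻¹ := by rw [← e2, ← e4]
    calc (r⁻¹ * q) * sg P s ^ m = r⁻¹ * (q * sg P s ^ m * q'⁻¹) * q' := by group
      _ = r⁻¹ * (r * sg P s ^ n * r'⁻¹) * q' := by rw [h9]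
      _ = _ := by group
  have h10 := malnormal P hsR ((GS P (α ∩ β)).mul_mem ((GS P _).inv_mem hr) hq)
    ((GS P (α ∩ β)).mul_mem ((GS P _).inv_mem hr') hq') hn heq
  have hqr : q = r := by
    have := h10.1
    calc q = r * (r⁻¹ * q) := by group
      _ = r := by rw [this, mul_one]
  rw [e1, e3, hqr, h10.2]

end

end Pool.Agent.Helper278.RG
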