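import Mathlib
import Pool.Agent.Helper278.RGDefs
import Pool.Agent.Helper278.RGFree
import Pool.Agent.Helper278.RGGroup
import Pool.Agent.Helper278.RGAna

set_option autoImplicit false
set_option linter.all false

noncomputable section

open Filter Topology Classical
open scoped ComplexConjugate

namespace Pool.Agent.Helper278.RG

/-! job 10328 -/

section

variable {ι T : Type*} (P : T → Set ι)

theorem supp_finite_544 {X : Type*} (w : FreeGroup X) : {i : X | ∃ x ∈ w.toWord, x.1 = i}.Finite := by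
  have : {i : X | ∃ x ∈ w.toWord, x.1 = i} = Prod.fst '' {x | x ∈ w.toWord} := by
    ext i
    simp
  rw [this]
  exact (List.finite_toSet _).image _

theorem exists_support (hP2 : ∀ τ, ∃ a b, a ≠ b ∧ P τ = {a, b}) (g : Gp P) :
    ∃ S : Set ι, S.Countable ∧ g ∈ GS P S := by
  have hPf : ∀ τ, (P τ).Finite := by
    intro τ
    obtain ⟨a, b, -, h⟩ := hP2 τ
    rw [h]
    exact (Set.finite_singleton b).insert a
  choose β hβ using fun y : Yt P => cs_nonempty P y
  set S : Set ι := {i : ι | ∃ x ∈ g.right.toWord, x.1 = i} ∪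
    ⋃ x ∈ {x | x ∈ g.left.toWord}, (P x.1.1 ∪ {i : ι | ∃ z ∈ (β x.1).toWord, z.1 = i}) with hS
  refine ⟨S, ?_, ?_, ?_⟩
  · apply (supp_finite_544 _).countable.union
    apply (List.finite_toSet g.left.toWord).countable.biUnion
    intro x _
    exact (hPf _).countable.union (supp_finite_544 _).countable
  · intro x hx
    rw [mem_YS_iff]
    have hsub : (P x.1.1 ∪ {i : ι | ∃ z ∈ (β x.1).toWord, z.1 = i}) ⊆ S := by
      intro i hi
      right
      exact Set.mem_biUnion (x := x) (show x ∈ {x | x ∈ g.left.toWord} from hx) hi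
    refine ⟨fun i hi => hsub (Or.inl hi), β x.1, hβ _, ?_⟩
    intro z hz
    exact hsub (Or.inr ⟨z, hz, rfl⟩)
  · intro z hz
    exact Or.inl ⟨z, hz, rfl⟩

theorem YS_mono_544 {S R : Set ι} (h : S ⊆ R) : YS P S ⊆ YS P R :=
  fun _ hy _ hβ => FS_mono h (hy hβ)

theorem GS_mono {S R : Set ι} (h : S ⊆ R) : GS P S ≤ GS P R := by
  rintro g ⟨h1, h2⟩
  exact ⟨FS_mono (YS_mono_544 P h) h1, FS_mono h h2⟩

theorem list_countable_544 {X : Type*} {S : Set X} (hS : S.Countable) :
    {l : List (X × Bool) | ∀ x ∈ l, x.1 ∈ S}.Countable := by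
  have : Countable S := hS
  apply (Set.countable_range (fun l : List (S × Bool) => l.map (fun x => (x.1.1, x.2)))).mono
  intro l hl
  induction l with
  | nil => exact ⟨[], rfl⟩
  | cons a l ih =>
    obtain ⟨l', hl'⟩ := ih (fun x hx => hl x (List.mem_cons_of_mem _ hx))
    refine ⟨(⟨a.1, hl a List.mem_cons_self⟩, a.2) :: l', ?_⟩
    simp only [List.map_cons]
    rw [← hl']

theorem FS_countable_544 {X : Type*} {S : Set X} (hS : S.Countable) :
    (FS S : Set (FreeGroup X)).Countable := by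
  have h1 : Set.MapsTo (fun w : FreeGroup X => w.toWord) (FS S : Set (FreeGroup X))
      {l : List (X × Bool) | ∀ x ∈ l, x.1 ∈ S} := fun w hw => hw
  exact h1.countable_of_injOn (FreeGroup.toWord_injective.injOn) (list_countable_544 hS)

theorem YS_countable_544 (hP : Function.Injective P) (hP2 : ∀ τ, ∃ a b, a ≠ b ∧ P τ = {a, b})
    {S : Set ι} (hS : S.Countable) : (YS P S).Countable := by
  have h1 : {τ | P τ ⊆ S}.Countable := by
    have h2 : Set.MapsTo P {τ | P τ ⊆ S} ((fun p : ι × ι => ({p.1, p.2} : Set ι)) '' (S ×ˢ S)) := by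
      intro τ hτ
      obtain ⟨a, b, -, h⟩ := hP2 τ
      refine ⟨(a, b), ⟨?_, ?_⟩, h.symm⟩
      · apply hτ
        rw [h]
        exact Set.mem_insert _ _
      · apply hτ
        rw [h]
        exact Set.mem_insert_of_mem _ rfl
    exact h2.countable_of_injOn hP.injOn ((hS.prod hS).image _)
  let F : T × FreeGroup ι → Yt P := fun p => ⟨p.1, QuotientGroup.mk p.2⟩
  have h3 : YS P S ⊆ F '' ({τ | P τ ⊆ S} ×ˢ (FS S : Set (FreeGroup ι))) := by
    intro y hy
    obtain ⟨h2, β, hβ, hβS⟩ := (mem_YS_iff P S y).1 hy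
    refine ⟨(y.1, β), ⟨h2, hβS⟩, ?_⟩
    have h4 := (mem_cs P y β).1 hβ
    exact Sigma.ext rfl (heq_of_eq h4)
  exact ((h1.prod (FS_countable_544 hS)).image F).mono h3

theorem GS_countable (hP : Function.Injective P) (hP2 : ∀ τ, ∃ a b, a ≠ b ∧ P τ = {a, b})
    {S : Set ι} (hS : S.Countable) : (GS P S : Set (Gp P)).Countable := by
  have h1 : Set.MapsTo (fun g : Gp P => (g.left, g.right)) (GS P S : Set (Gp P))
      ((FS (YS P S) : Set (FreeGroup (Yt P))) ×ˢ (FS S : Set (FreeGroup ι))) :=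
    fun g hg => ⟨hg.1, hg.2⟩
  apply h1.countable_of_injOn _
    ((FS_countable_544 (YS_countable_544 P hP hP2 hS)).prod (FS_countable_544 hS))
  intro g _ g' _ h
  simp only [Prod.mk.injEq] at h
  exact SemidirectProduct.ext h.1 h.2

end

/-! job 10329 -/

section

variable {ι T : Type*} (P : T → Set ι)

theorem sg_pow_injective {k : ℤ} (hk : k ≠ 0) : Function.Injective (fun i => sg P i ^ k) := by
  intro i j hij
  have h1 : (SemidirectProduct.inr (FreeGroup.of i ^ k) : Gp P) =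
      SemidirectProduct.inr (FreeGroup.of j ^ k) := by
    rw [map_zpow, map_zpow]
    exact hij
  have h2 := SemidirectProduct.inr_injective h1
  have hn : ∀ x : ι, hd (1 : FreeGroup ι) ≠ some x := by
    intro x
    rw [(hd_eq_none (1 : FreeGroup ι)).2 rfl]
    exact Option.some_ne_none x |>.symm
  have h3 := hd_power_mul (y := i) hk (hn i)
  have h4 := hd_power_mul (y := j) hk (hn j)
  rw [h2, h4] at h3
  exact (Option.some_injective _ h3).symm

theorem cg_injective : Function.Injective (cg P) := by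
  intro τ σ h
  have h1 := SemidirectProduct.inl_injective h
  have h2 := FreeGroup.of_injective h1
  exact congrArg Sigma.fst h2

end

/-! job 10330 -/

section

variable {ι T : Type*} (P : T → Set ι)

theorem Zs_left_304 {α β : Set ι} {k z : Gp P} (hk : k ∈ GS P (α ∩ β)) (hz : z ∈ Zs P α β) :
    k * z ∈ Zs P α β := by
  obtain ⟨k1, hk1, τ, hτ, l, hl, k2, hk2, rfl⟩ := hz
  exact ⟨k * k1, mul_mem hk hk1, τ, hτ, l, hl, k2, hk2, by simp only [mul_assoc]⟩

theorem Zs_right_304 {α β : Set ι} {k z : Gp P} (hk : k ∈ GS P (α ∩ β)) (hz : z ∈ Zs P α β) :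
    z * k ∈ Zs P α β := by
  obtain ⟨k1, hk1, τ, hτ, l, hl, k2, hk2, rfl⟩ := hz
  exact ⟨k1, hk1, τ, hτ, l, hl, k2 * k, mul_mem hk2 hk, by simp only [mul_assoc]⟩

theorem good_Q1_304 {R S : Set ι} (hRS : R ⊆ S) : Good (GS P R) (GS P S) (Q1 P R S) :=
  ⟨fun _ hk _ hq => Q1_left P hRS hk hq,
    fun _ hk _ hq => Q1_right P (GS_mono P hRS hk) hq,
    fun _ hx hx' _ hz _ _ hq => Q1_cross P hx hx' hz hq⟩

theorem good_Q2_304 {α β S : Set ι} (hS : S = α ∨ S = β) :
    Good (GS P (α ∩ β)) (GS P S) (Q2 P α β S) := by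
  have hsub : α ∩ β ⊆ S := by
    rcases hS with rfl | rfl
    · exact Set.inter_subset_left
    · exact Set.inter_subset_right
  exact ⟨fun _ hk _ hq => Q2_left P hk hq,
    fun _ hk _ hq => Q2_right P hS (GS_mono P hsub hk) hq,
    fun _ hx hx' _ hz _ _ hq => Q2_cross P hS hx hx' hz hq⟩

theorem not_Q2_304 {α β S : Set ι} {g : Gp P} (h : g ∉ Q2 P α β S) {k : Gp P}
    (hk : k ∈ GS P (α ∩ β)) {τ : T} (hτ : Split P α β τ) {l : ℤ} (hl : l ≠ 0) {g' : Gp P}
    (hg' : hd g'.left ≠ some (y0 P τ)) (hg : g = k * cg P τ ^ l * g') :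
    ∃ z ∈ GS P S, ∃ γ ∈ obj P (g' * z).left (g' * z).right, ∃ s ∈ P τ ∩ S, hd γ = some s := by
  by_contra hcon
  push Not at hcon
  exact h ⟨k, hk, τ, hτ, l, hl, g', hg', hg, hcon⟩

theorem hasConfig (hP : Function.Injective P) (hP2 : ∀ τ, ∃ a b, a ≠ b ∧ P τ = {a, b})
    (α β : Set ι) : HasConfig (GS P (α ∩ β)) (GS P α) (GS P β) := by
  refine ⟨Q1 P (α ∩ β) α, Q2 P α β α, Q1 P (α ∩ β) β, Q2 P α β β, Zs P α β,
    good_Q1_304 P Set.inter_subset_left, good_Q2_304 P (Or.inl rfl),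
    good_Q1_304 P Set.inter_subset_right, good_Q2_304 P (Or.inr rfl),
    fun k hk z hz => Zs_left_304 P hk hz, fun k hk z hz => Zs_right_304 P hk hz, ?_, ?_⟩
  · intro g
    by_cases h0 : g ∈ GS P (α ∩ β)
    · exact Or.inl h0
    by_cases h1 : g ∈ Q1 P (α ∩ β) α
    · exact Or.inr (Or.inl h1)
    by_cases h2 : g ∈ Q2 P α β α
    · exact Or.inr (Or.inr (Or.inl h2))
    by_cases h3 : g ∈ Q1 P (α ∩ β) β
    · exact Or.inr (Or.inr (Or.inr (Or.inl h3)))
    by_cases h4 : g ∈ Q2 P α β β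
    · exact Or.inr (Or.inr (Or.inr (Or.inr (Or.inl h4))))
    refine Or.inr (Or.inr (Or.inr (Or.inr (Or.inr ?_))))
    obtain ⟨k, hk, τ, hτ, l, hl, g', hg', hg⟩ := cover1 P hP hP2 α β g h0 h1 h3
    have hA := not_Q2_304 P h2 hk hτ hl hg' hg
    have hB := not_Q2_304 P h4 hk hτ hl hg' hg
    obtain ⟨a, b, ha, ha', hb, hb', hab⟩ := id hτ
    have hmem : g' ∈ GS P (α ∩ β) := by
      refine cover2 P hP hP2 α β ha ha' hb hb' hab g' hg' ?_ ?_
      · obtain ⟨z, hz, γ, hγ, s, ⟨hs1, hs2⟩, hs⟩ := hA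
        refine ⟨z, hz, γ, hγ, ?_⟩
        rw [hab] at hs1
        rcases hs1 with rfl | hs1
        · exact hs
        · exact absurd (hs1 ▸ hs2) hb'
      · obtain ⟨z, hz, γ, hγ, s, ⟨hs1, hs2⟩, hs⟩ := hB
        refine ⟨z, hz, γ, hγ, ?_⟩
        rw [hab] at hs1
        rcases hs1 with rfl | hs1
        · exact absurd hs2 ha'
        · rw [Set.mem_singleton_iff] at hs1
          rw [← hs1]
          exact hs
    exact ⟨k, hk, τ, hτ, l, hl, g', hmem, hg⟩
  · intro x hx hx' z hz h₁ h₂ h1 h2 h3 h4 h5 h6 h7 h8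
    exact Zs_unique P hx hx' hz h1 h2 h3 h4 h5 h6 h7 h8

end

end Pool.Agent.Helper278.RG
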