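import Mathlib
import Pool.Agent.Helper278.RGSelP
import Pool.Agent.Helper278.RGGrp2

set_option autoImplicit false

noncomputable section

open Filter Topology

namespace Pool.Agent.Helper278.RG

/-- the ends of an edge of the complete bipartite graph -/
def ends (I₁ I₂ : Type) : I₁ × I₂ → Set (I₁ ⊕ I₂) := fun p => {Sum.inl p.1, Sum.inr p.2}

/-- the core theorem -/
theorem core (I₁ I₂ : Type) (h1 : Cardinal.continuum < Cardinal.mk I₁)
    (h2 : Cardinal.mk I₁ ^ Cardinal.aleph0 < Cardinal.mk I₂) {U : Ultrafilter ℕ} {t : ℝ}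
    {x : Gp (ends I₁ I₂) → ℕ → MonoidAlgebra ℂ (Gp (ends I₁ I₂))} (hx : ApproxRep U t x) :
    t ≤ 0 ∨ 1 ≤ t := by
  have hP2 : ∀ τ, ∃ a b, a ≠ b ∧ ends I₁ I₂ τ = {a, b} := fun τ =>
    ⟨Sum.inl τ.1, Sum.inr τ.2, by simp, rfl⟩
  have hP : Function.Injective (ends I₁ I₂) := by
    rintro ⟨i, j⟩ ⟨i', j'⟩ h
    have h3 : (Sum.inl i : I₁ ⊕ I₂) ∈ ends I₁ I₂ (i', j') := by
      rw [← h]
      exact Or.inl rfl
    have h4 : (Sum.inr j : I₁ ⊕ I₂) ∈ ends I₁ I₂ (i', j') := by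
      rw [← h]
      exact Or.inr rfl
    have h5 : i = i' := by
      rcases h3 with h3 | h3
      · exact Sum.inl_injective h3
      · exact absurd h3 (by simp)
    have h6 : j = j' := by
      rcases h4 with h4 | h4
      · exact absurd h4 (by simp)
      · exact Sum.inr_injective h4
    rw [h5, h6]
  have hsupp : ∀ g : Gp (ends I₁ I₂), ∃ S : Set (I₁ ⊕ I₂), S.Countable ∧
      ∀ n, Supp (GS (ends I₁ I₂) S : Set (Gp (ends I₁ I₂))) (x g n) := by
    intro g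
    choose S hS hS' using fun h => exists_support (ends I₁ I₂) hP2 h
    refine ⟨⋃ n : ℕ, ⋃ h ∈ (x g n).coeff.support, S h, ?_, ?_⟩
    · refine Set.countable_iUnion fun n => ?_
      exact (Finset.countable_toSet _).biUnion fun h _ => hS h
    · intro n h hh
      refine GS_mono _ ?_ (hS' h)
      intro y hy
      refine Set.mem_iUnion.2 ⟨n, ?_⟩
      refine Set.mem_iUnion₂.2 ⟨h, ?_, hy⟩
      exact Finsupp.mem_support_iff.2 hh
  choose S hS hS' using hsupp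
  obtain ⟨i, j, h3, h4, h5⟩ := exists_good_pair h1 h2
    (fun i => sg (ends I₁ I₂) (Sum.inl i)) (fun j => sg (ends I₁ I₂) (Sum.inr j))
    (fun i j => cg (ends I₁ I₂) (i, j))
    (fun k hk i i' h => Sum.inl_injective (sg_pow_injective (ends I₁ I₂) hk h))
    (fun k hk i i' h => Sum.inr_injective (sg_pow_injective (ends I₁ I₂) hk h))
    (fun i j j' h => congrArg Prod.snd (cg_injective (ends I₁ I₂) h))
    (GS (ends I₁ I₂)) (fun S R h => GS_mono _ h) (fun S hS => GS_countable _ hP hP2 hS) x U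
    hx.norm hx.orth
    (fun i => ⋃ k : ℕ, S (sg (ends I₁ I₂) (Sum.inl i) ^ k))
    (fun j => ⋃ k : ℕ, S (sg (ends I₁ I₂) (Sum.inr j) ^ k))
    (fun i => Set.countable_iUnion fun k => hS _) (fun i => Set.countable_iUnion fun k => hS _)
  have hcs : ∀ (s : I₁ ⊕ I₂) (τ : I₁ × I₂), s ∈ ends I₁ I₂ τ →
      sg (ends I₁ I₂) s * cg (ends I₁ I₂) τ = cg (ends I₁ I₂) τ * sg (ends I₁ I₂) s := by
    intro s τ h
    have := cg_sg_comm (ends I₁ I₂) τ h 1 1
    rw [zpow_one, zpow_one] at this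
    exact this.symm
  refine core_of_config (hasConfig (ends I₁ I₂) hP hP2
    (⋃ k : ℕ, S (sg (ends I₁ I₂) (Sum.inl i) ^ k)) (⋃ k : ℕ, S (sg (ends I₁ I₂) (Sum.inr j) ^ k)))
    hx (s := sg (ends I₁ I₂) (Sum.inl i)) (r := sg (ends I₁ I₂) (Sum.inr j))
    (c := cg (ends I₁ I₂) (i, j)) (hcs _ _ (Or.inl rfl)) (hcs _ _ (Or.inr rfl)) ?_ ?_ h3 h4 h5
  · intro k n g hg
    exact GS_mono _ (Set.subset_iUnion (fun k : ℕ => S (sg (ends I₁ I₂) (Sum.inl i) ^ k)) k)
      (hS' _ n g hg)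
  · intro k n g hg
    exact GS_mono _ (Set.subset_iUnion (fun k : ℕ => S (sg (ends I₁ I₂) (Sum.inr j) ^ k)) k)
      (hS' _ n g hg)

end Pool.Agent.Helper278.RG
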