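import Mathlib
import Pool.Agent.Helper278.RGRep
import Pool.Agent.Helper278.RGCore
import Pool.Agent.Helper278.KLift

set_option autoImplicit false

open scoped InnerProductSpace ComplexOrder BoundedContinuousFunction ComplexConjugate
open Filter Topology

namespace Pool.Agent.Helper278.RG

open Pool.Agent.Helper278

universe u v w

section base

variable {H : Type u} [NormedAddCommGroup H] [InnerProductSpace ℂ H] [CompleteSpace H]
variable {N : VonNeumannAlgebra H}

/-- the trace of a II₁ factor is unique (among all tracial states) -/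
theorem trace_unique_base (T : TracialState N) (hL : LyapProp T.τ) (hN : HasTrivialCenter N)
    (φ : Elt N →ₗ[ℂ] ℂ) (hφ : IsTr φ) (x : Elt N) : φ x = T.τ x := by
  have hA := trAlg T
  let π : (ℕ →ᵇ Elt N) →⋆ₐ[ℂ] Elt N :=
    { toFun := fun f => f 0
      map_one' := rfl
      map_mul' := fun _ _ => rfl
      map_zero' := rfl
      map_add' := fun _ _ => rfl
      commutes' := fun _ => rfl
      map_star' := fun _ => rfl }
  have hπ : IsTracialUltrapower (U := (pure 0 : Ultrafilter ℕ)) T.τ π (T.τ : Elt N → ℂ) := by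
    refine ⟨?_, ?_, ?_⟩
    · intro y
      exact ⟨BoundedContinuousFunction.const ℕ y, rfl⟩
    · intro f
      constructor
      · intro h
        have h0 : f 0 = 0 := h
        have h1 : T.τ (star (f 0) * f 0) = 0 := by rw [h0, mul_zero, map_zero]
        have h2 := tendsto_pure_nhds (fun n => T.τ (star (f n) * f n)) 0
        rw [h1] at h2
        exact h2
      · intro h
        have h2 := tendsto_pure_nhds (fun n => T.τ (star (f n) * f n)) 0
        have h3 := tendsto_nhds_unique h2 h
        exact hA.faithful _ h3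
    · intro f
      exact tendsto_pure_nhds (fun n => T.τ (f n)) 0
  exact trace_unique hπ hL hN φ hφ x

/-- projections of every trace -/
theorem exists_proj_trace {A : Type*} [Ring A] [StarRing A] [Algebra ℂ A] [StarModule ℂ A]
    {τ : A →ₗ[ℂ] ℂ} (hτ : TrAlg τ) (hL : LyapProp τ) (t : ℝ) (h0 : 0 ≤ t) (h1 : t ≤ 1) :
    ∃ p : A, IsStarProjection p ∧ τ p = (t : ℂ) := by
  obtain ⟨D, -, -, hD⟩ := hL ∅ (by simp) (by simp)
  obtain ⟨p, -, hp, hpt⟩ := hD Bool Unit
    (fun i => if i then ((t : ℝ) : ℂ) • (1 : A) else ((1 - t : ℝ) : ℂ) • (1 : A)) (fun _ => 1)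
    (fun i => by
      cases i
      · exact D.smul_mem D.one_mem _
      · exact D.smul_mem D.one_mem _)
    (fun i => by
      cases i
      · exact pos_proj (star_one A) (one_mul 1) _ (by linarith)
      · exact pos_proj (star_one A) (one_mul 1) _ h0)
    (by
      rw [Fintype.sum_bool]
      show ((t : ℝ) : ℂ) • (1 : A) + ((1 - t : ℝ) : ℂ) • (1 : A) = 1
      rw [← add_smul, ← Complex.ofReal_add]
      norm_num)
  refine ⟨p true, ⟨hp.idem true, hp.star_eq true⟩, ?_⟩
  have := hpt true ()
  simp only [mul_one, if_true] at this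
  rw [this, map_smul, hτ.one, smul_eq_mul, mul_one]

end base

section ultra

variable {H : Type u} [NormedAddCommGroup H] [InnerProductSpace ℂ H] [CompleteSpace H]
variable {N : VonNeumannAlgebra H}
variable {Q : Type u} [Ring Q] [StarRing Q] [Algebra ℂ Q] [StarModule ℂ Q]
variable {T : TracialState N} {U : Ultrafilter ℕ} {π : (ℕ →ᵇ Elt N) →⋆ₐ[ℂ] Q} {σ : Q → ℂ}

/-- the trace of a star homomorphism into the ultrapower -/
theorem trace_of_hom (hL : LyapProp T.τ) (hN : HasTrivialCenter N)
    (hπ : IsTracialUltrapower T.τ U π σ) (f : Elt N →⋆ₙₐ[ℂ] Q) (x : Elt N) :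
    σ (f x) = σ (f 1) * T.τ x := by
  have hS := sigma_trAlg hπ
  have hA := trAlg T
  have he : star (f 1) = f 1 := by rw [← map_star, star_one]
  have hee : f 1 * f 1 = f 1 := by rw [← map_mul, one_mul]
  by_cases h0 : σ (f 1) = 0
  · have h1 : f 1 = 0 := by
      apply hS.faithful
      show σ (star (f 1) * f 1) = 0
      rw [he, hee, h0]
    have h2 : f x = 0 := by
      rw [← mul_one x, map_mul, h1, mul_zero]
    rw [h2, h1]
    have : σ 0 = 0 := map_zero (sigmaL hπ)
    rw [this, zero_mul]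
  · let φ : Elt N →ₗ[ℂ] ℂ :=
      { toFun := fun x => (σ (f 1))⁻¹ * σ (f x)
        map_add' := fun x y => by
          have : σ (f (x + y)) = σ (f x) + σ (f y) := by
            rw [map_add]
            exact map_add (sigmaL hπ) _ _
          rw [this, mul_add]
        map_smul' := fun c x => by
          have : σ (f (c • x)) = c * σ (f x) := by
            rw [map_smul]
            exact map_smul (sigmaL hπ) c _
          rw [this, RingHom.id_apply, smul_eq_mul]
          ring }
    have hφ : ∀ y, φ y = (σ (f 1))⁻¹ * σ (f y) := fun _ => rfl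
    have hc : 0 ≤ (σ (f 1))⁻¹ := by
      have h2 : (0 : ℂ) ≤ σ (f 1) := by
        have := hS.nonneg (f 1)
        rw [he, hee] at this
        exact this
      rw [Complex.nonneg_iff] at h2
      have hsr : σ (f 1) = (((σ (f 1)).re : ℝ) : ℂ) := Complex.ext rfl h2.2.symm
      rw [hsr, ← Complex.ofReal_inv]
      exact Complex.zero_le_real.2 (inv_nonneg.2 h2.1)
    have hTr : IsTr φ := by
      refine ⟨?_, ?_, ?_⟩
      · rw [hφ, inv_mul_cancel₀ h0]
      · intro y z
        rw [hφ, hφ, map_mul, map_mul]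
        congr 1
        exact hS.comm _ _
      · intro y
        rw [hφ, map_mul, map_star]
        exact mul_nonneg hc (hS.nonneg _)
    have h3 := trace_unique_base T hL hN φ hTr x
    rw [hφ] at h3
    rw [← h3, mul_inv_cancel_left₀ h0]

end ultra

/-! ### the group -/

section group

variable {ι T : Type} (P : T → Set ι)

theorem sg_mem {S : Set ι} {i : ι} (h : i ∈ S) : sg P i ∈ GS P S := by
  refine ⟨?_, ?_⟩
  · show (1 : FreeGroup (Yt P)) ∈ FS (YS P S)
    exact (FS _).one_mem
  · exact of_mem_FS.2 h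

theorem icc [Uncountable ι] (hP2 : ∀ τ, ∃ a b, a ≠ b ∧ P τ = {a, b}) (g : Gp P) (hg : g ≠ 1) :
    (Set.range fun h : Gp P => h * g * h⁻¹).Infinite := by
  obtain ⟨S, hS, hgS⟩ := exists_support P hP2 g
  have hinf : (Sᶜ : Set ι).Infinite := by
    intro hfin
    have : (Set.univ : Set ι).Countable := by
      rw [← Set.union_compl_self S]
      exact hS.union hfin.countable
    exact Set.not_countable_univ this
  have hinj : Set.InjOn (fun i : ι => sg P i * g * (sg P i)⁻¹) Sᶜ := by
    intro i hi j hj hij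
    have hij' : sg P i * g * (sg P i)⁻¹ = sg P j * g * (sg P j)⁻¹ := hij
    by_contra hne
    have key : ∀ k : ι, sg P k * g * (sg P k)⁻¹ ∈ GS P (S ∪ {k}) := by
      intro k
      have h1 : sg P k ∈ GS P (S ∪ {k}) := sg_mem P (Or.inr rfl)
      exact mul_mem (mul_mem h1 (GS_mono P Set.subset_union_left hgS)) (inv_mem h1)
    have h1 : sg P j * g * (sg P j)⁻¹ ∈ GS P ((S ∪ {i}) ∩ (S ∪ {j})) :=
      (GS_inter P _ _ _).2 ⟨hij' ▸ key i, key j⟩
    have h2 : (S ∪ {i}) ∩ (S ∪ {j}) ⊆ S := by
      rintro x ⟨hx | hx, hy | hy⟩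
      · exact hx
      · exact hx
      · exact hy
      · exact absurd (hx.symm.trans hy) hne
    have h3 : sg P j * g * (sg P j)⁻¹ ∈ GS P S := GS_mono P h2 h1
    have h4 := malnormal P (R := S) (s := j) hj h3 hgS (m := 1) (m' := 1) one_ne_zero (by
      rw [zpow_one, inv_mul_cancel_right])
    have h5 : sg P j * g * (sg P j)⁻¹ = 1 := h4.1
    apply hg
    have h6 : sg P j * g = sg P j := by
      rw [← mul_inv_eq_one]
      exact h5
    exact mul_eq_left.1 h6
  have h1 : ((fun i : ι => sg P i * g * (sg P i)⁻¹) '' Sᶜ).Infinite := hinf.image hinj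
  refine h1.mono ?_
  rintro _ ⟨i, -, rfl⟩
  exact ⟨sg P i, rfl⟩

end group

/-- the group `G₀` -/
abbrev G0 : Type := Gp (ends (Set ℝ) (Set (Set ℝ)))

theorem card1 : Cardinal.continuum < Cardinal.mk (Set ℝ) := by
  rw [Cardinal.mk_set, Cardinal.mk_real]
  exact Cardinal.cantor _

theorem card2 : Cardinal.mk (Set ℝ) ^ Cardinal.aleph0 < Cardinal.mk (Set (Set ℝ)) := by
  rw [Cardinal.mk_set (α := Set ℝ), Cardinal.mk_set, Cardinal.mk_real, ← Cardinal.power_mul,
    Cardinal.continuum_mul_aleph0]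
  exact Cardinal.cantor _

instance : Uncountable (Set ℝ ⊕ Set (Set ℝ)) := by
  have h : Uncountable (Set ℝ) := by
    rw [← Cardinal.aleph0_lt_mk_iff]
    exact Cardinal.aleph0_lt_continuum.trans card1
  exact Sum.inl_injective.uncountable

theorem hP2_0 : ∀ τ, ∃ a b, a ≠ b ∧ ends (Set ℝ) (Set (Set ℝ)) τ = {a, b} := fun τ =>
  ⟨Sum.inl τ.1, Sum.inr τ.2, by simp, rfl⟩

theorem icc0 (g : G0) (hg : g ≠ 1) : (Set.range fun h : G0 => h * g * h⁻¹).Infinite :=
  icc _ hP2_0 g hg

instance : Infinite G0 := by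
  have h : Function.Injective (fun i : Set ℝ ⊕ Set (Set ℝ) => sg (ends _ _) i ^ (1 : ℤ)) :=
    sg_pow_injective _ one_ne_zero
  have : Infinite (Set ℝ ⊕ Set (Set ℝ)) := inferInstance
  exact Infinite.of_injective _ h

section main

variable {K : Type w} [NormedAddCommGroup K] [InnerProductSpace ℂ K] [CompleteSpace K]
  (b : HilbertBasis G0 ℂ K)

theorem factor0 : IsIIOneFactor (LK b) (fun x => trG b x) := isIIOne_LK b icc0

theorem lyap0 : LyapProp (TL b).τ :=
  lyapProp (TL b) (diffuse_of_factor (TL b) (factor0 b).center (factor0 b).infinite)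

/-- The main theorem: every nonzero star homomorphism from `M = L(G₀)` to its ultrapower is
unital. -/
theorem hom_unital {Q : Type w} [Ring Q] [StarRing Q] [Algebra ℂ Q] [StarModule ℂ Q]
    {U : Ultrafilter ℕ} (hU : ∀ n, {n} ∉ U) {π : (ℕ →ᵇ Elt (LK b)) →⋆ₐ[ℂ] Q} {σ : Q → ℂ}
    (hπ : IsTracialUltrapower (TL b).τ U π σ) (f : Elt (LK b) →⋆ₙₐ[ℂ] Q) (h0 : f 1 ≠ 0) :
    f 1 = 1 := by
  have hS := sigma_trAlg hπ
  have he : star (f 1) = f 1 := by rw [← map_star, star_one]
  have hee : f 1 * f 1 = f 1 := by rw [← map_mul, one_mul]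
  have hnn : (0 : ℂ) ≤ σ (f 1) := by
    have := hS.nonneg (f 1)
    rw [he, hee] at this
    exact this
  rw [Complex.nonneg_iff] at hnn
  have hsr : σ (f 1) = (((σ (f 1)).re : ℝ) : ℂ) := Complex.ext rfl hnn.2.symm
  set t := (σ (f 1)).re with ht
  have htr : ∀ g, σ (f (La b g)) = σ (f 1) * trG b (La b g) := fun g =>
    trace_of_hom (T := TL b) (lyap0 b) (factor0 b).center hπ f (La b g)
  obtain ⟨x, hx⟩ := exists_approxRep b hU hπ (fun g => f (La b g))
    (fun g h => by rw [← map_mul, La_mul]) (fun g => by rw [← map_star, star_La])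
    (fun g hg => by
      rw [htr]
      have : trG b (La b g) = 0 := by
        rw [trG_apply]
        show ⟪b 1, lamK b g (b 1)⟫_ℂ = 0
        rw [lamK_basis, mul_one]
        exact inner_bb b 1 g (Ne.symm hg)
      rw [this, mul_zero]) (t := t) (by
      show σ (f (La b 1)) = (t : ℂ)
      rw [La_one]
      exact hsr)
  have hcore := core (Set ℝ) (Set (Set ℝ)) card1 card2 hx
  have ht0 : t ≠ 0 := by
    intro h
    apply h0
    apply hS.faithful
    show σ (star (f 1) * f 1) = 0
    rw [he, hee, hsr, h]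
    rfl
  have ht1 : 1 ≤ t := by
    rcases hcore with h | h
    · exact absurd (le_antisymm h hnn.1) ht0
    · exact h
  have h2 : star (1 - f 1) * (1 - f 1) = 1 - f 1 := by
    rw [star_sub, star_one, he]
    have : (1 - f 1) * (1 - f 1) = 1 - f 1 - f 1 + f 1 * f 1 := by noncomm_ring
    rw [this, hee]
    abel
  have h3 := hS.nonneg (1 - f 1)
  have hone : σ 1 = 1 := hS.one
  have h4 : σ (1 - f 1) = 1 - (t : ℂ) := by
    have : σ (1 - f 1) = σ 1 - σ (f 1) := map_sub (sigmaL hπ) _ _
    rw [this, hone, ← hsr]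
  have h5 : (0 : ℂ) ≤ σ (1 - f 1) := by
    rw [h2] at h3
    exact h3
  rw [h4, Complex.nonneg_iff] at h5
  have h6 : 0 ≤ 1 - t := by simpa using h5.1
  have h7 : t = 1 := le_antisymm (by linarith) ht1
  have h8 : 1 - f 1 = 0 := by
    apply hS.faithful
    show σ (star (1 - f 1) * (1 - f 1)) = 0
    rw [h2, h4, h7]
    norm_num
  exact (sub_eq_zero.1 h8).symm

end main

end Pool.Agent.Helper278.RG
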