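import Mathlib
import Pool.Agent.Helper278.DefsG

set_option autoImplicit false

open scoped Topology BoundedContinuousFunction
open Filter

namespace Pool.Agent.Helper278.RG

open Pool.Agent.Helper278

universe u

/-- The corner `pAp` of a star algebra `A` at a projection `p`. -/
def corner {A : Type u} [Ring A] [StarRing A] [Algebra ℂ A] [StarModule ℂ A] (p : A)
    (hp : IsStarProjection p) : NonUnitalStarSubalgebra ℂ A where
  carrier := {x | p * x * p = x}
  add_mem' := by
    intro x y hx hy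
    have hx' : p * x * p = x := hx
    have hy' : p * y * p = y := hy
    show p * (x + y) * p = x + y
    rw [mul_add, add_mul, hx', hy']
  zero_mem' := by
    show p * 0 * p = 0
    rw [mul_zero, zero_mul]
  mul_mem' := by
    intro x y hx hy
    have hx' : p * x * p = x := hx
    have hy' : p * y * p = y := hy
    have hpp : p * p = p := hp.isIdempotentElem
    have h1 : p * x = x := by
      rw [← hx', mul_assoc, ← mul_assoc p p, hpp]
    have h2 : y * p = y := by
      rw [← hy', mul_assoc, hpp]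
    show p * (x * y) * p = x * y
    rw [← mul_assoc, h1, mul_assoc, h2]
  smul_mem' := by
    intro c x hx
    have hx' : p * x * p = x := hx
    show p * (c • x) * p = c • x
    rw [mul_smul_comm, smul_mul_assoc, hx']
  star_mem' := by
    intro x hx
    have hx' : p * x * p = x := hx
    have hs : star p = p := hp.isSelfAdjoint
    show p * star x * p = star x
    have := congrArg star hx'
    rwa [star_mul, star_mul, hs, ← mul_assoc] at this

/-- `p` belongs to the corner `pAp` and is its unit. -/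
theorem mem_corner_self {A : Type u} [Ring A] [StarRing A] [Algebra ℂ A] [StarModule ℂ A] (p : A)
    (hp : IsStarProjection p) : p ∈ corner p hp := by
  have hpp : p * p = p := hp.isIdempotentElem
  show p * p * p = p
  rw [hpp, hpp]

/-- The trace `tr_n ⊗ τ` on the matrix algebra `M_n(A)`. -/
noncomputable def mtr {A : Type u} (τ : A → ℂ) {n : ℕ} (a : Matrix (Fin n) (Fin n) A) : ℂ :=
  (∑ i, τ (a i i)) / n

/-- `p` is a projection in `M_n(A)` with `(tr_n ⊗ τ)(p) = t / n`, so that the corner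
`p M_n(A) p` is a model of the amplification `A^t`. -/
def AmpProj {A : Type u} [Ring A] [StarRing A] (τ : A → ℂ) (t : ℝ) (n : ℕ)
    (p : Matrix (Fin n) (Fin n) A) : Prop :=
  t ≤ n ∧ IsStarProjection p ∧ mtr τ p = ((t / n : ℝ) : ℂ)

/-- For every nonprincipal ultrafilter on `ℕ` the tracial ultrapower of `(M, τ)` exists. -/
def UltrapowersExist {M : Type u} [NormedRing M] [StarRing M] [CStarRing M]
    [NormedAlgebra ℂ M] [StarModule ℂ M] (τ : M → ℂ) : Prop :=
  ∀ U : Ultrafilter ℕ, (∀ n, {n} ∉ U) → ∃ (Q : Type u) (_ : Ring Q) (_ : StarRing Q)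
    (_ : Algebra ℂ Q) (_ : StarModule ℂ Q) (π : (ℕ →ᵇ M) →⋆ₐ[ℂ] Q) (σ : Q → ℂ),
    IsTracialUltrapower τ U π σ

/-- For every nonprincipal ultrafilter `U` on `ℕ` there is no unital star homomorphism from the
algebra of `2 × 2` matrices over `M` to the tracial ultrapower `M^U`. -/
def NoMatrixEmbedding {M : Type u} [NormedRing M] [StarRing M] [CStarRing M]
    [NormedAlgebra ℂ M] [StarModule ℂ M] (τ : M → ℂ) : Prop :=
  ∀ U : Ultrafilter ℕ, (∀ n, {n} ∉ U) → ∀ (Q : Type u) [Ring Q] [StarRing Q] [Algebra ℂ Q]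
    [StarModule ℂ Q] (π : (ℕ →ᵇ M) →⋆ₐ[ℂ] Q) (σ : Q → ℂ), IsTracialUltrapower τ U π σ →
    IsEmpty (Matrix (Fin 2) (Fin 2) M →⋆ₐ[ℂ] Q)

/-- For every nonprincipal ultrafilter `U` on `ℕ`, every nonzero star homomorphism from `M` to the
tracial ultrapower `M^U` is unital. -/
def HomsUnital {M : Type u} [NormedRing M] [StarRing M] [CStarRing M]
    [NormedAlgebra ℂ M] [StarModule ℂ M] (τ : M → ℂ) : Prop :=
  ∀ U : Ultrafilter ℕ, (∀ n, {n} ∉ U) → ∀ (Q : Type u) [Ring Q] [StarRing Q] [Algebra ℂ Q]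
    [StarModule ℂ Q] (π : (ℕ →ᵇ M) →⋆ₐ[ℂ] Q) (σ : Q → ℂ), IsTracialUltrapower τ U π σ →
    ∀ f : M →⋆ₙₐ[ℂ] Q, f 1 ≠ 0 → f 1 = 1

/-- For every `t > 1` the amplification `M^t`, in the model `p M_n(M) p`, has no unital star
homomorphism to `M^U`, for every nonprincipal ultrafilter `U` on `ℕ`. -/
def NoAmplificationEmbeds {M : Type u} [NormedRing M] [StarRing M] [CStarRing M]
    [NormedAlgebra ℂ M] [StarModule ℂ M] (τ : M → ℂ) : Prop :=
  ∀ t : ℝ, 1 < t → ∃ (n : ℕ) (p : Matrix (Fin n) (Fin n) M) (hp : IsStarProjection p),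
    AmpProj τ t n p ∧
    ∀ U : Ultrafilter ℕ, (∀ n, {n} ∉ U) → ∀ (Q : Type u) [Ring Q] [StarRing Q] [Algebra ℂ Q]
      [StarModule ℂ Q] (π : (ℕ →ᵇ M) →⋆ₐ[ℂ] Q) (σ : Q → ℂ), IsTracialUltrapower τ U π σ →
      ∀ f : corner p hp →⋆ₙₐ[ℂ] Q, f ⟨p, mem_corner_self p hp⟩ ≠ 1

end Pool.Agent.Helper278.RG
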