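import Mathlib
import Pool.Agent.Helper278.RGNC
import Pool.Agent.Helper278.RGStmt
import Pool.Agent.Helper278.Model

set_option autoImplicit false

open scoped InnerProductSpace ComplexOrder BoundedContinuousFunction ComplexConjugate
open Filter Topology

namespace Pool.Agent.Helper278.RG

open Pool.Agent.Helper278

universe u v w

/-- the embedding of `A` in a corner of the matrix algebra -/
theorem single_mul_single {A : Type*} [Ring A] {n : ℕ} (i j k : Fin n) (x y : A) :
    Matrix.single i j x * Matrix.single j k y = Matrix.single i k (x * y) :=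
  Matrix.single_mul_single_same x i j k y

theorem star_single {A : Type*} [Ring A] [StarRing A] {n : ℕ} (i j : Fin n) (x : A) :
    star (Matrix.single i j x) = Matrix.single j i (star x) := by
  classical exact Matrix.conjTranspose_single i j x

/-- diagonal projections `diag(1, …, 1, p)` -/
def dg {A : Type*} [Ring A] {m : ℕ} (p : A) : Fin (m + 1) → A := Fin.snoc (fun _ : Fin m => 1) p

theorem dg_castSucc {A : Type*} [Ring A] {m : ℕ} (p : A) (i : Fin m) :
    dg p i.castSucc = 1 := Fin.snoc_castSucc (α := fun _ => A) _ _ _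

theorem dg_last {A : Type*} [Ring A] {m : ℕ} (p : A) : dg (m := m) p (Fin.last m) = p :=
  Fin.snoc_last (α := fun _ => A) _ _

theorem isStarProjection_dg {A : Type*} [Ring A] [StarRing A] {m : ℕ} {p : A}
    (hp : IsStarProjection p) : IsStarProjection (Matrix.diagonal (dg (m := m) p)) := by
  have h1 : ∀ i, IsStarProjection (dg (m := m) p i) := by
    intro i
    refine Fin.lastCases ?_ (fun i => ?_) i
    · rw [dg_last]
      exact hp
    · rw [dg_castSucc]
      exact ⟨mul_one 1, star_one A⟩
  refine ⟨?_, ?_⟩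
  · show Matrix.diagonal _ * Matrix.diagonal _ = Matrix.diagonal _
    rw [Matrix.diagonal_mul_diagonal]
    congr 1
    funext i
    exact (h1 i).isIdempotentElem
  · show star (Matrix.diagonal _) = Matrix.diagonal _
    rw [Matrix.star_eq_conjTranspose, Matrix.diagonal_conjTranspose]
    congr 1
    funext i
    exact (h1 i).isSelfAdjoint

theorem mtr_dg {A : Type*} [Ring A] [StarRing A] (τ : A → ℂ) (h1 : τ 1 = 1) {m : ℕ} (p : A)
    {t : ℝ} (hp : τ p = ((t - m : ℝ) : ℂ)) :
    mtr τ (Matrix.diagonal (dg (m := m) p)) = ((t / (m + 1 : ℕ) : ℝ) : ℂ) := by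
  unfold mtr
  simp only [Matrix.diagonal_apply_eq]
  rw [Fin.sum_univ_castSucc]
  simp only [dg_castSucc, dg_last, h1, hp]
  rw [Finset.sum_const, Finset.card_univ, Fintype.card_fin]
  push_cast
  congr 1
  ring

/-- For `t > 1` there are `m ≥ 1` and `s ∈ (0, 1]` with `t = m + s`. -/
theorem exists_split {t : ℝ} (ht : 1 < t) : ∃ m : ℕ, 1 ≤ m ∧ 0 < t - m ∧ t - m ≤ 1 := by
  have h1 : 1 < ⌈t⌉₊ := by
    rw [Nat.lt_ceil]
    exact_mod_cast ht
  refine ⟨⌈t⌉₊ - 1, by omega, ?_, ?_⟩
  · have h2 : ((⌈t⌉₊ - 1 : ℕ) : ℝ) < t := by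
      rw [← Nat.lt_ceil]
      omega
    linarith
  · have h3 := Nat.le_ceil t
    have h4 : ((⌈t⌉₊ - 1 : ℕ) : ℝ) = (⌈t⌉₊ : ℝ) - 1 := by
      rw [Nat.cast_sub h1.le, Nat.cast_one]
    rw [h4]
    linarith

section main

variable {H : Type u} [NormedAddCommGroup H] [InnerProductSpace ℂ H] [CompleteSpace H]
variable {N : VonNeumannAlgebra H}

/-- no embedding of the matrix algebra -/
theorem noMatrix_of_homsUnital (T : TracialState N) (h : HomsUnital (M := Elt N) T.τ) :
    NoMatrixEmbedding (M := Elt N) T.τ := by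
  intro U hU Q _ _ _ _ π σ hπ
  refine ⟨fun Φ => ?_⟩
  have hS := sigma_trAlg hπ
  have h10 : (1 : Q) ≠ 0 := by
    intro h0
    have h1 : sigmaL hπ 1 = 1 := hS.one
    rw [h0, map_zero] at h1
    exact zero_ne_one h1
  let f : Elt N →⋆ₙₐ[ℂ] Q :=
    { toFun := fun x => Φ (Matrix.single 0 0 x)
      map_smul' := fun c x => by
        rw [← Matrix.smul_single, map_smul]
        rfl
      map_zero' := by rw [Matrix.single_zero, map_zero]
      map_add' := fun x y => by rw [Matrix.single_add, map_add]
      map_mul' := fun x y => by rw [← single_mul_single 0 0 0, map_mul]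
      map_star' := fun x => by rw [← map_star, star_single] }
  have hf : ∀ x, f x = Φ (Matrix.single 0 0 x) := fun _ => rfl
  have hsum : Φ (Matrix.single 0 0 1) + Φ (Matrix.single 1 1 1) = 1 := by
    rw [← map_add, ← map_one Φ]
    congr 1
    ext i j
    fin_cases i <;> fin_cases j <;> simp [Matrix.single]
  have h11 : Φ (Matrix.single 1 1 1) = Φ (Matrix.single 1 0 1) * Φ (Matrix.single 0 0 1) *
      Φ (Matrix.single 0 1 1) := by
    rw [← map_mul, ← map_mul, single_mul_single, single_mul_single, mul_one, mul_one]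
  have h00 : Φ (Matrix.single 0 0 1) = Φ (Matrix.single 0 1 1) * Φ (Matrix.single 1 1 1) *
      Φ (Matrix.single 1 0 1) := by
    rw [← map_mul, ← map_mul, single_mul_single, single_mul_single, mul_one, mul_one]
  by_cases h0 : f 1 = 0
  · rw [hf] at h0
    rw [h0, mul_zero, zero_mul] at h11
    rw [h0, h11, add_zero] at hsum
    exact h10 hsum.symm
  · have h1 := h U hU Q π σ hπ f h0
    rw [hf] at h1
    rw [h1] at hsum
    have h2 : Φ (Matrix.single 1 1 1) = 0 := by
      have : (1 : Q) + Φ (Matrix.single 1 1 1) = 1 + 0 := by rw [hsum, add_zero]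
      exact add_left_cancel this
    rw [h2, mul_zero, zero_mul, h1] at h00
    exact h10 h00

/-- no embedding of amplifications -/
theorem noAmp_of_homsUnital (T : TracialState N) (hL : LyapProp T.τ) (hN : HasTrivialCenter N)
    (h : HomsUnital (M := Elt N) T.τ) : NoAmplificationEmbeds (M := Elt N) T.τ := by
  intro t ht
  have hA := trAlg T
  obtain ⟨m, hm, hs0, hs1⟩ := exists_split ht
  obtain ⟨p, hp, hpt⟩ := exists_proj_trace hA hL (t - m) hs0.le hs1
  have hD := isStarProjection_dg (m := m) hp
  refine ⟨m + 1, Matrix.diagonal (dg p), hD, ⟨?_, hD, mtr_dg T.τ hA.one p hpt⟩, ?_⟩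
  · push_cast
    linarith
  intro U hU Q _ _ _ _ π σ hπ f hf1
  have hS := sigma_trAlg hπ
  set D := Matrix.diagonal (dg (m := m) p) with hDdef
  obtain ⟨m', rfl⟩ : ∃ m', m = m' + 1 := ⟨m - 1, by omega⟩
  have hd0 : dg (m := m' + 1) p 0 = 1 := dg_castSucc p 0
  have hdi : ∀ i, dg (m := m' + 1) p i * dg (m := m' + 1) p i = dg (m := m' + 1) p i := by
    intro i
    refine Fin.lastCases ?_ (fun i => ?_) i
    · rw [dg_last]
      exact hp.isIdempotentElem
    · rw [dg_castSucc, mul_one]
  have hDl : ∀ (i j : Fin (m' + 1 + 1)) (x : Elt N),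
      D * Matrix.single i j x = Matrix.single i j (dg p i * x) := by
    intro i j x
    have h1 : Matrix.single i j (dg p i * x) = Matrix.single i i (dg p i) * Matrix.single i j x :=
      (single_mul_single _ _ _ _ _).symm
    rw [h1, hDdef]
    ext a c
    rw [Matrix.diagonal_mul, Matrix.mul_apply, Finset.sum_eq_single i]
    · by_cases hai : i = a
      · subst hai
        simp [Matrix.single]
      · simp [Matrix.single, hai]
    · intro k _ hk
      simp [Matrix.single, Ne.symm hk]
    · simp
  have hDr : ∀ (i j : Fin (m' + 1 + 1)) (x : Elt N),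
      Matrix.single i j x * D = Matrix.single i j (x * dg p j) := by
    intro i j x
    have h1 : Matrix.single i j (x * dg p j) = Matrix.single i j x * Matrix.single j j (dg p j) :=
      (single_mul_single _ _ _ _ _).symm
    rw [h1, hDdef]
    ext a c
    rw [Matrix.mul_diagonal, Matrix.mul_apply, Finset.sum_eq_single j]
    · by_cases hjc : j = c
      · subst hjc
        simp [Matrix.single]
      · simp [Matrix.single, hjc]
    · intro k _ hk
      simp [Matrix.single, Ne.symm hk]
    · simp
  have hmem : ∀ (i j : Fin (m' + 1 + 1)) (x : Elt N), dg p i * x * dg p j = x →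
      Matrix.single i j x ∈ corner D hD := by
    intro i j x hx
    show D * Matrix.single i j x * D = Matrix.single i j x
    rw [hDl, hDr, hx]
  have h00 : ∀ x : Elt N, Matrix.single (0 : Fin (m' + 1 + 1)) 0 x ∈ corner D hD := by
    intro x
    apply hmem
    rw [hd0, one_mul, mul_one]
  let g : Elt N →⋆ₙₐ[ℂ] Q :=
    { toFun := fun x => f ⟨Matrix.single 0 0 x, h00 x⟩
      map_smul' := fun c x => by
        have : (⟨Matrix.single 0 0 (c • x), h00 (c • x)⟩ : corner D hD) =
            c • ⟨Matrix.single 0 0 x, h00 x⟩ := Subtype.ext (Matrix.smul_single _ _ _ _).symm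
        rw [this, map_smul]
        rfl
      map_zero' := by
        have : (⟨Matrix.single 0 0 0, h00 0⟩ : corner D hD) = 0 :=
          Subtype.ext (Matrix.single_zero _ _)
        rw [this, map_zero]
      map_add' := fun x y => by
        have : (⟨Matrix.single 0 0 (x + y), h00 (x + y)⟩ : corner D hD) =
            ⟨Matrix.single 0 0 x, h00 x⟩ + ⟨Matrix.single 0 0 y, h00 y⟩ :=
          Subtype.ext (Matrix.single_add _ _ _ _)
        rw [this, map_add]
      map_mul' := fun x y => by
        have : (⟨Matrix.single 0 0 (x * y), h00 (x * y)⟩ : corner D hD) =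
            ⟨Matrix.single 0 0 x, h00 x⟩ * ⟨Matrix.single 0 0 y, h00 y⟩ :=
          Subtype.ext (single_mul_single _ _ _ _ _).symm
        rw [this, map_mul]
      map_star' := fun x => by
        have : (⟨Matrix.single 0 0 (star x), h00 (star x)⟩ : corner D hD) =
            star ⟨Matrix.single 0 0 x, h00 x⟩ := Subtype.ext (star_single _ _ _).symm
        rw [this, map_star] }
  have hg : ∀ x, g x = f ⟨Matrix.single 0 0 x, h00 x⟩ := fun _ => rfl
  have hone : σ 1 = 1 := hS.one
  -- the trace of the unit
  have hi0 : ∀ i : Fin (m' + 1 + 1), Matrix.single i 0 (dg p i) ∈ corner D hD := by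
    intro i
    apply hmem
    rw [hd0, mul_one, hdi]
  have h0i : ∀ i : Fin (m' + 1 + 1), Matrix.single 0 i (dg p i) ∈ corner D hD := by
    intro i
    apply hmem
    rw [hd0, one_mul, hdi]
  have hD1 : (⟨D, mem_corner_self D hD⟩ : corner D hD) =
      ∑ i, ⟨Matrix.single i 0 (dg p i), hi0 i⟩ * ⟨Matrix.single 0 i (dg p i), h0i i⟩ := by
    apply Subtype.ext
    rw [AddSubmonoidClass.coe_finsetSum]
    show D = ∑ i, Matrix.single i 0 (dg p i) * Matrix.single 0 i (dg p i)
    rw [hDdef]
    ext a c
    rw [Matrix.sum_apply]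
    simp only [single_mul_single, hdi]
    rw [Matrix.diagonal_apply]
    by_cases hac : a = c
    · subst hac
      rw [if_pos rfl, Finset.sum_eq_single a]
      · simp [Matrix.single]
      · intro k _ hk
        simp [Matrix.single, hk]
      · simp
    · rw [if_neg hac, Finset.sum_eq_zero]
      intro k _
      by_cases hk : k = a
      · subst hk
        simp [Matrix.single, hac]
      · simp [Matrix.single, hk]
  have htr : (1 : ℂ) = σ (g 1) * (t : ℂ) := by
    rw [← hone, ← hf1, hD1, map_sum]
    have h1 : σ (∑ i, f (⟨Matrix.single i 0 (dg p i), hi0 i⟩ *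
        ⟨Matrix.single 0 i (dg p i), h0i i⟩)) =
        ∑ i, σ (f (⟨Matrix.single i 0 (dg p i), hi0 i⟩ *
          ⟨Matrix.single 0 i (dg p i), h0i i⟩)) := map_sum (sigmaL hπ) _ _
    rw [h1]
    have h2 : ∀ i, σ (f (⟨Matrix.single i 0 (dg p i), hi0 i⟩ *
        ⟨Matrix.single 0 i (dg p i), h0i i⟩)) = σ (g 1) * T.τ (dg p i) := by
      intro i
      rw [map_mul]
      have h3 := hS.comm (f ⟨Matrix.single i 0 (dg p i), hi0 i⟩)
        (f ⟨Matrix.single 0 i (dg p i), h0i i⟩)
      have h4 : σ (f ⟨Matrix.single i 0 (dg p i), hi0 i⟩ *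
          f ⟨Matrix.single 0 i (dg p i), h0i i⟩) = σ (f ⟨Matrix.single 0 i (dg p i), h0i i⟩ *
          f ⟨Matrix.single i 0 (dg p i), hi0 i⟩) := h3
      rw [h4, ← map_mul]
      have h5 : (⟨Matrix.single 0 i (dg p i), h0i i⟩ : corner D hD) *
          ⟨Matrix.single i 0 (dg p i), hi0 i⟩ = ⟨Matrix.single 0 0 (dg p i), h00 _⟩ := by
        apply Subtype.ext
        show Matrix.single 0 i (dg p i) * Matrix.single i 0 (dg p i) = _
        rw [single_mul_single, hdi]
      rw [h5, ← hg]
      exact trace_of_hom hL hN hπ g (dg p i)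
    simp only [h2]
    rw [← Finset.mul_sum, Fin.sum_univ_castSucc]
    simp only [dg_castSucc, dg_last, hA.one, hpt]
    rw [Finset.sum_const, Finset.card_univ, Fintype.card_fin]
    congr 1
    push_cast
    simp
  by_cases h0 : g 1 = 0
  · rw [h0] at htr
    have : σ 0 = 0 := map_zero (sigmaL hπ)
    rw [this, zero_mul] at htr
    exact one_ne_zero htr
  · have h1 := h U hU Q π σ hπ g h0
    rw [h1, hone, one_mul] at htr
    have : t = 1 := by exact_mod_cast htr.symm
    linarith

end main

end Pool.Agent.Helper278.RG
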