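import Mathlib
import Pool.Agent.Helper278.RGStmt

set_option autoImplicit false

open scoped Topology BoundedContinuousFunction
open Filter

namespace Pool.Agent.Helper278.RG

open Pool.Agent.Helper278

universe u

/-- Some model `p M_n(Q) p` of the amplification `Q^t` is not star isomorphic to `Q`. -/
def NotIsoAmp {Q : Type u} [Ring Q] [StarRing Q] [Algebra ℂ Q] [StarModule ℂ Q] (σ : Q → ℂ)
    (t : ℝ) : Prop :=
  ∃ (n : ℕ) (p : Matrix (Fin n) (Fin n) Q) (hp : IsStarProjection p), AmpProj σ t n p ∧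
    IsEmpty (Q ≃⋆ₐ[ℂ] corner p hp)

/-- There are projections `p` in `Q` of trace `t`, and for none of them is the corner `pQp` star
isomorphic to `Q`. -/
def NotIsoCorner {Q : Type u} [Ring Q] [StarRing Q] [Algebra ℂ Q] [StarModule ℂ Q] (σ : Q → ℂ)
    (t : ℝ) : Prop :=
  (∃ p : Q, IsStarProjection p ∧ σ p = (t : ℂ)) ∧
    ∀ (p : Q) (hp : IsStarProjection p), σ p = (t : ℂ) → IsEmpty (Q ≃⋆ₐ[ℂ] corner p hp)

/-- For every nonprincipal ultrafilter `U` on `ℕ`, the tracial ultrapower `Q = M^U` is isomorphic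
to none of its amplifications `Q^t`, `t > 0`, `t ≠ 1`: for each such `t` some model `p M_n(Q) p` of
`Q^t` is not star isomorphic to `Q`. For `t < 1` this holds for all models `p Q p`. -/
def TrivialFundamentalGroup {M : Type u} [NormedRing M] [StarRing M] [CStarRing M]
    [NormedAlgebra ℂ M] [StarModule ℂ M] (τ : M → ℂ) : Prop :=
  ∀ U : Ultrafilter ℕ, (∀ n, {n} ∉ U) → ∀ (Q : Type u) [Ring Q] [StarRing Q] [Algebra ℂ Q]
    [StarModule ℂ Q] (π : (ℕ →ᵇ M) →⋆ₐ[ℂ] Q) (σ : Q → ℂ), IsTracialUltrapower τ U π σ →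
    (∀ t : ℝ, 0 < t → t ≠ 1 → NotIsoAmp σ t) ∧ ∀ t : ℝ, 0 < t → t < 1 → NotIsoCorner σ t

end Pool.Agent.Helper278.RG
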