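import Mathlib
import Pool.Agent.Helper278.RGFin
import Pool.Agent.Helper278.RGStmt2

set_option autoImplicit false
set_option linter.unusedSectionVars false

open scoped InnerProductSpace ComplexOrder BoundedContinuousFunction ComplexConjugate
open Filter Topology

namespace Pool.Agent.Helper278.RG

open Pool.Agent.Helper278

universe u v w

theorem single00_mem {A : Type*} [Ring A] [StarRing A] [Algebra ℂ A] [StarModule ℂ A] {m : ℕ}
    {p : A} (hp : IsStarProjection p) (x : A) :
    Matrix.single (0 : Fin (m + 1 + 1)) 0 x ∈
      corner (Matrix.diagonal (dg (m := m + 1) p)) (isStarProjection_dg hp) := by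
  have hd0 : dg (m := m + 1) p 0 = 1 := dg_castSucc p 0
  show Matrix.diagonal (dg (m := m + 1) p) * Matrix.single 0 0 x *
    Matrix.diagonal (dg (m := m + 1) p) = Matrix.single 0 0 x
  ext a c
  rw [Matrix.mul_diagonal, Matrix.diagonal_mul]
  by_cases ha : (0 : Fin (m + 1 + 1)) = a
  · subst ha
    by_cases hc : (0 : Fin (m + 1 + 1)) = c
    · subst hc
      rw [hd0, one_mul, mul_one]
    · simp [Matrix.single, hc]
  · simp [Matrix.single, ha]

section main

variable {H : Type u} [NormedAddCommGroup H] [InnerProductSpace ℂ H] [CompleteSpace H]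
variable {N : VonNeumannAlgebra H}
variable {Q : Type u} [Ring Q] [StarRing Q] [Algebra ℂ Q] [StarModule ℂ Q]

/-- the constant sequences -/
noncomputable def cst (π : (ℕ →ᵇ Elt N) →⋆ₐ[ℂ] Q) : Elt N →⋆ₙₐ[ℂ] Q where
  toFun x := π (BoundedContinuousFunction.const ℕ x)
  map_smul' c x := by
    have : BoundedContinuousFunction.const ℕ (c • x) = c • BoundedContinuousFunction.const ℕ x := rfl
    rw [this, map_smul]
    rfl
  map_zero' := by
    have : BoundedContinuousFunction.const ℕ (0 : Elt N) = 0 := rfl
    rw [this, map_zero]
  map_add' x y := by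
    have : BoundedContinuousFunction.const ℕ (x + y) =
      BoundedContinuousFunction.const ℕ x + BoundedContinuousFunction.const ℕ y := rfl
    rw [this, map_add]
  map_mul' x y := by
    have : BoundedContinuousFunction.const ℕ (x * y) =
      BoundedContinuousFunction.const ℕ x * BoundedContinuousFunction.const ℕ y := rfl
    rw [this, map_mul]
  map_star' x := by
    have : BoundedContinuousFunction.const ℕ (star x) =
      star (BoundedContinuousFunction.const ℕ x) := rfl
    rw [this, map_star]

theorem cst_one (π : (ℕ →ᵇ Elt N) →⋆ₐ[ℂ] Q) : cst π 1 = 1 := by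
  show π (BoundedContinuousFunction.const ℕ 1) = 1
  have : BoundedContinuousFunction.const ℕ (1 : Elt N) = 1 := rfl
  rw [this, map_one]

/-- an isomorphism onto a corner maps `1` to the projection -/
theorem equiv_one {A : Type*} [Ring A] [StarRing A] [Algebra ℂ A] [StarModule ℂ A]
    {p : A} (hp : IsStarProjection p) (e : Q ≃⋆ₐ[ℂ] corner p hp) :
    ((e 1 : corner p hp) : A) = p := by
  have h1 : e 1 * ⟨p, mem_corner_self p hp⟩ = ⟨p, mem_corner_self p hp⟩ := by
    obtain ⟨y, hy⟩ : ∃ y, e y = ⟨p, mem_corner_self p hp⟩ := ⟨e.symm _, e.apply_symm_apply _⟩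
    rw [← hy, ← map_mul, one_mul]
  have h2 : ((e 1 : corner p hp) : A) * p = p := congrArg Subtype.val h1
  have h3 : p * ((e 1 : corner p hp) : A) * p = ((e 1 : corner p hp) : A) := (e 1).2
  have hpp : p * p = p := hp.isIdempotentElem
  have h4 : ((e 1 : corner p hp) : A) * p = ((e 1 : corner p hp) : A) := by
    rw [← h3, mul_assoc, hpp]
  rw [← h4, h2]

variable {T : TracialState N} {U : Ultrafilter ℕ} {π : (ℕ →ᵇ Elt N) →⋆ₐ[ℂ] Q} {σ : Q → ℂ}

theorem sigma_cst (hπ : IsTracialUltrapower T.τ U π σ) (x : Elt N) : σ (cst π x) = T.τ x := by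
  have h1 := hπ.trace (BoundedContinuousFunction.const ℕ x)
  exact tendsto_nhds_unique h1 tendsto_const_nhds

theorem exists_proj_ultra (hL : LyapProp T.τ) (hπ : IsTracialUltrapower T.τ U π σ) (t : ℝ)
    (h0 : 0 ≤ t) (h1 : t ≤ 1) : ∃ p : Q, IsStarProjection p ∧ σ p = (t : ℂ) := by
  obtain ⟨p, hp, hpt⟩ := exists_proj_trace (trAlg T) hL t h0 h1
  refine ⟨cst π p, ⟨?_, ?_⟩, ?_⟩
  · show cst π p * cst π p = cst π p
    rw [← map_mul]
    congr 1
    exact hp.isIdempotentElem
  · show star (cst π p) = cst π p
    rw [← map_star]
    congr 1
    exact hp.isSelfAdjoint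
  · rw [sigma_cst hπ, hpt]

theorem trivialFG_of_homsUnital (T : TracialState N) (hL : LyapProp T.τ)
    (h : HomsUnital (M := Elt N) T.τ) : TrivialFundamentalGroup (M := Elt N) T.τ := by
  intro U hU Q _ _ _ _ π σ hπ
  have hS := sigma_trAlg hπ
  have hone : σ 1 = 1 := hS.one
  have hzero : σ 0 = 0 := map_zero (sigmaL hπ)
  -- projections of trace in (0,1)
  have key : ∀ (t : ℝ), 0 < t → t < 1 → ∀ p : Q, σ p = (t : ℂ) → ∀ f : Elt N →⋆ₙₐ[ℂ] Q,
      f 1 = p → False := by
    intro t h0 h1 p hp f hf
    have hp0 : f 1 ≠ 0 := by
      rw [hf]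
      intro h2
      rw [h2, hzero] at hp
      have : t = 0 := by exact_mod_cast hp.symm
      linarith
    have h2 := h U hU Q π σ hπ f hp0
    rw [hf] at h2
    rw [h2, hone] at hp
    have : t = 1 := by exact_mod_cast hp.symm
    linarith
  refine ⟨?_, ?_⟩
  · intro t h0 h1
    unfold NotIsoAmp
    rcases lt_or_gt_of_ne h1 with h1 | h1
    · obtain ⟨p, hp, hpt⟩ := exists_proj_ultra hL hπ t h0.le h1.le
      have hP : IsStarProjection (Matrix.diagonal (fun _ : Fin 1 => p)) := by
        refine ⟨?_, ?_⟩
        · show Matrix.diagonal _ * Matrix.diagonal _ = Matrix.diagonal _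
          rw [Matrix.diagonal_mul_diagonal]
          congr 1
          funext i
          exact hp.isIdempotentElem
        · show star (Matrix.diagonal _) = Matrix.diagonal _
          rw [Matrix.star_eq_conjTranspose, Matrix.diagonal_conjTranspose]
          congr 1
          funext i
          exact hp.isSelfAdjoint
      refine ⟨1, Matrix.diagonal (fun _ : Fin 1 => p), hP, ⟨by simpa using h1.le, hP, ?_⟩, ⟨fun e => ?_⟩⟩
      · unfold mtr
        rw [Fin.sum_univ_one, Matrix.diagonal_apply_eq, hpt]
        push_cast
        rfl
      · have hent : ∀ a b : Matrix (Fin 1) (Fin 1) Q, (a * b) 0 0 = a 0 0 * b 0 0 := by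
          intro a b
          rw [Matrix.mul_apply, Fin.sum_univ_one]
        let f : Elt N →⋆ₙₐ[ℂ] Q :=
          { toFun := fun x => (e (cst π x) : Matrix (Fin 1) (Fin 1) Q) 0 0
            map_smul' := fun c x => by
              rw [map_smul, map_smul]
              rfl
            map_zero' := by
              rw [map_zero, map_zero]
              rfl
            map_add' := fun x y => by
              rw [map_add, map_add]
              rfl
            map_mul' := fun x y => by
              rw [map_mul, map_mul]
              exact hent _ _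
            map_star' := fun x => by
              rw [map_star, map_star]
              rfl }
        refine key t h0 h1 p hpt f ?_
        show (e (cst π 1) : Matrix (Fin 1) (Fin 1) Q) 0 0 = p
        rw [cst_one, equiv_one hP e, Matrix.diagonal_apply_eq]
    · obtain ⟨m, hm, hs0, hs1⟩ := exists_split h1
      obtain ⟨p, hp, hpt⟩ := exists_proj_ultra hL hπ (t - m) hs0.le hs1
      have hD := isStarProjection_dg (m := m) hp
      refine ⟨m + 1, Matrix.diagonal (dg p), hD, ⟨?_, hD, mtr_dg σ hone p hpt⟩, ⟨fun e => ?_⟩⟩
      · push_cast
        linarith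
      obtain ⟨m', rfl⟩ : ∃ m', m = m' + 1 := ⟨m - 1, by omega⟩
      let f : Elt N →⋆ₙₐ[ℂ] Q :=
        { toFun := fun x => e.symm ⟨Matrix.single 0 0 (cst π x), single00_mem hp _⟩
          map_smul' := fun c x => by
            have : (⟨Matrix.single 0 0 (cst π (c • x)), single00_mem hp _⟩ :
                corner (Matrix.diagonal (dg (m := m' + 1) p)) hD) =
                c • ⟨Matrix.single 0 0 (cst π x), single00_mem hp _⟩ := Subtype.ext (by
              show Matrix.single 0 0 (cst π (c • x)) = c • Matrix.single 0 0 (cst π x)
              rw [map_smul, Matrix.smul_single])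
            rw [this, map_smul]
            rfl
          map_zero' := by
            have : (⟨Matrix.single 0 0 (cst π 0), single00_mem hp _⟩ :
                corner (Matrix.diagonal (dg (m := m' + 1) p)) hD) = 0 := Subtype.ext (by
              show Matrix.single 0 0 (cst π 0) = 0
              rw [map_zero, Matrix.single_zero])
            rw [this, map_zero]
          map_add' := fun x y => by
            have : (⟨Matrix.single 0 0 (cst π (x + y)), single00_mem hp _⟩ :
                corner (Matrix.diagonal (dg (m := m' + 1) p)) hD) =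
                ⟨Matrix.single 0 0 (cst π x), single00_mem hp _⟩ +
                ⟨Matrix.single 0 0 (cst π y), single00_mem hp _⟩ := Subtype.ext (by
              show Matrix.single 0 0 (cst π (x + y)) =
                Matrix.single 0 0 (cst π x) + Matrix.single 0 0 (cst π y)
              rw [map_add, Matrix.single_add])
            rw [this, map_add]
          map_mul' := fun x y => by
            have : (⟨Matrix.single 0 0 (cst π (x * y)), single00_mem hp _⟩ :
                corner (Matrix.diagonal (dg (m := m' + 1) p)) hD) =
                ⟨Matrix.single 0 0 (cst π x), single00_mem hp _⟩ *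
                ⟨Matrix.single 0 0 (cst π y), single00_mem hp _⟩ := Subtype.ext (by
              show Matrix.single 0 0 (cst π (x * y)) =
                Matrix.single 0 0 (cst π x) * Matrix.single 0 0 (cst π y)
              rw [map_mul, single_mul_single])
            rw [this, map_mul]
          map_star' := fun x => by
            have : (⟨Matrix.single 0 0 (cst π (star x)), single00_mem hp _⟩ :
                corner (Matrix.diagonal (dg (m := m' + 1) p)) hD) =
                star ⟨Matrix.single 0 0 (cst π x), single00_mem hp _⟩ := Subtype.ext (by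
              show Matrix.single 0 0 (cst π (star x)) = star (Matrix.single 0 0 (cst π x))
              rw [map_star, star_single])
            rw [this, map_star] }
      have hf : ∀ x, e (f x) = ⟨Matrix.single 0 0 (cst π x), single00_mem hp _⟩ := fun x =>
        e.apply_symm_apply _
      have h10 : (1 : Q) ≠ 0 := by
        intro h2
        rw [h2, hzero] at hone
        exact zero_ne_one hone
      have hf0 : f 1 ≠ 0 := by
        intro h2
        have h3 := hf 1
        rw [h2, map_zero] at h3
        have h4 := congrArg (fun z : corner (Matrix.diagonal (dg (m := m' + 1) p)) hD =>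
          (z : Matrix (Fin (m' + 1 + 1)) (Fin (m' + 1 + 1)) Q) 0 0) h3
        have h5 : (0 : Q) = Matrix.single (0 : Fin (m' + 1 + 1)) 0 (cst π 1) 0 0 := h4
        rw [Matrix.single_apply_same, cst_one] at h5
        exact h10 h5.symm
      have h2 := h U hU Q π σ hπ f hf0
      have h3 := hf 1
      rw [h2] at h3
      have h4 := equiv_one hD e
      rw [h3] at h4
      have h5 : Matrix.single (0 : Fin (m' + 1 + 1)) 0 (cst π 1) (Fin.last (m' + 1))
          (Fin.last (m' + 1)) = p := by
        have h6 : Matrix.single (0 : Fin (m' + 1 + 1)) 0 (cst π 1) =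
          Matrix.diagonal (dg (m := m' + 1) p) := h4
        rw [h6, Matrix.diagonal_apply_eq, dg_last]
      have h7 : Matrix.single (0 : Fin (m' + 1 + 1)) 0 (cst π 1) (Fin.last (m' + 1))
          (Fin.last (m' + 1)) = 0 := by
        have h8 : (0 : Fin (m' + 1 + 1)) ≠ Fin.last (m' + 1) := by
          intro h9
          have := congrArg Fin.val h9
          simp at this
        simp [Matrix.single, h8]
      rw [h7] at h5
      rw [← h5, hzero] at hpt
      have : t - (m' + 1 : ℕ) = 0 := by exact_mod_cast hpt.symm
      linarith
  · intro t h0 h1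
    refine ⟨exists_proj_ultra hL hπ t h0.le h1.le, ?_⟩
    intro p hp hpt
    refine ⟨fun e => ?_⟩
    let f : Elt N →⋆ₙₐ[ℂ] Q :=
      { toFun := fun x => (e (cst π x) : Q)
        map_smul' := fun c x => by
          rw [map_smul, map_smul]
          rfl
        map_zero' := by
          rw [map_zero, map_zero]
          rfl
        map_add' := fun x y => by
          rw [map_add, map_add]
          rfl
        map_mul' := fun x y => by
          rw [map_mul, map_mul]
          rfl
        map_star' := fun x => by
          rw [map_star, map_star]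
          rfl }
    refine key t h0 h1 p hpt f ?_
    show (e (cst π 1) : Q) = p
    rw [cst_one, equiv_one hp e]

end main

end Pool.Agent.Helper278.RG
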