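import Mathlib
import Pool.Agent.Helper278.DefsG

set_option autoImplicit false

open scoped InnerProductSpace

namespace Pool.Agent.Helper278.TP

/-! Continuous first order logic for tracial von Neumann algebras. -/

/-- Terms of the language of unital star algebras, in the variables `v₀, v₁, …`. -/
inductive Term : Type
  | var (i : ℕ) : Term
  | zero : Term
  | one : Term
  | add (s t : Term) : Term
  | mul (s t : Term) : Term
  | smul (c : ℂ) (t : Term) : Term
  | adj (t : Term) : Term

/-- Formulas of continuous first order logic in the language of tracial von Neumann algebras: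
the real and the imaginary part of the trace of a term, the distance of two terms, continuous
connectives, and suprema and infima over a variable that ranges over a ball for the operator
norm. -/
inductive Formula : Type
  | reTr (t : Term) : Formula
  | imTr (t : Term) : Formula
  | dist (s t : Term) : Formula
  | conn (k : ℕ) (u : C(Fin k → ℝ, ℝ)) (φ : Fin k → Formula) : Formula
  | sup (r : ℕ) (i : ℕ) (φ : Formula) : Formula
  | inf (r : ℕ) (i : ℕ) (φ : Formula) : Formula

section semantics

variable {A : Type*} [Ring A] [StarRing A] [Algebra ℂ A]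

/-- The value of a term under an assignment of the variables. -/
def Term.eval (v : ℕ → A) : Term → A
  | .var i => v i
  | .zero => 0
  | .one => 1
  | .add s t => s.eval v + t.eval v
  | .mul s t => s.eval v * t.eval v
  | .smul c t => c • t.eval v
  | .adj t => star (t.eval v)

/-- The value of a formula under an assignment of the variables, for the trace `τ`, the distance
`‖x - y‖₂`, and for suprema and infima over the sets `ball r`. -/
noncomputable def Formula.val (τ : A → ℂ) (ball : ℕ → Set A) : Formula → (ℕ → A) → ℝ
  | .reTr t, v => (τ (t.eval v)).re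
  | .imTr t, v => (τ (t.eval v)).im
  | .dist s t, v => norm2 τ (s.eval v - t.eval v)
  | .conn _ u φ, v => u fun i => (φ i).val τ ball v
  | .sup r i φ, v => ⨆ x : ball r, φ.val τ ball (Function.update v i (x : A))
  | .inf r i φ, v => ⨅ x : ball r, φ.val τ ball (Function.update v i (x : A))

end semantics

/-- The variables of a term. -/
def Term.vars : Term → Finset ℕ
  | .var i => {i}
  | .zero => ∅
  | .one => ∅
  | .add s t => s.vars ∪ t.vars
  | .mul s t => s.vars ∪ t.vars
  | .smul _ t => t.vars
  | .adj t => t.vars

/-- The free variables of a formula. -/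
def Formula.free : Formula → Finset ℕ
  | .reTr t => t.vars
  | .imTr t => t.vars
  | .dist s t => s.vars ∪ t.vars
  | .conn _ _ φ => Finset.univ.biUnion fun i => (φ i).free
  | .sup _ i φ => φ.free.erase i
  | .inf _ i φ => φ.free.erase i

/-- A tracial von Neumann algebra: a von Neumann algebra `N` with a faithful normal tracial
state `τ`. -/
structure TvN where
  /-- the Hilbert space -/
  H : Type
  [i1 : NormedAddCommGroup H]
  [i2 : InnerProductSpace ℂ H]
  [i3 : CompleteSpace H]
  /-- the von Neumann algebra -/
  N : VonNeumannAlgebra H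
  /-- the trace -/
  τ : Elt N → ℂ
  normal : IsNormalPositive N τ
  trace : IsFaithfulTrace τ

attribute [instance] TvN.i1 TvN.i2 TvN.i3

/-- The set of elements of a tracial von Neumann algebra. -/
abbrev TvN.Carrier (M : TvN) : Type := Elt M.N

/-- The value of a formula in `M`: the balls are those of radius `r + 1`, `r = 0, 1, 2, …`, for the
operator norm. -/
noncomputable def TvN.val (M : TvN) (φ : Formula) (v : ℕ → M.Carrier) : ℝ :=
  φ.val M.τ (fun r => {x : M.Carrier | ‖x‖ ≤ r + 1}) v

/-- `M` is a model of the complete theory of `R`: all sentences have the same value. -/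
def SameTheory (R M : TvN) : Prop :=
  ∀ φ : Formula, φ.free = ∅ → M.val φ (fun _ => 0) = R.val φ (fun _ => 0)

/-- `j` is an elementary embedding of `M` into `M'`. -/
def IsElementary (M M' : TvN) (j : M.Carrier → M'.Carrier) : Prop :=
  ∀ (φ : Formula) (v : ℕ → M.Carrier), M'.val φ (fun i => j (v i)) = M.val φ v

/-- The assignment that gives the first `n` variables the values `x` and the others the values
`b`. -/
def asg {A : Type*} (n : ℕ) (x : Fin n → A) (b : ℕ → A) : ℕ → A :=
  fun i => if h : i < n then x ⟨i, h⟩ else b (i - n)

/-- `p` is a complete type over the nonempty set `B ⊆ M`, in `n` variables `x`, the `i`-th of which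
ranges over the ball of radius `s i + 1`. For a formula `φ` and parameters `b` from `B`,
the number `p φ b` is the value that `p` gives to `φ(x, b)`; these values are finitely satisfiable
in `M`. -/
def IsType (M : TvN) (B : Set M.Carrier) (n : ℕ) (s : Fin n → ℕ) (p : Formula → (ℕ → B) → ℝ) :
    Prop :=
  ∀ (F : Finset (Formula × (ℕ → B))) (ε : ℝ), 0 < ε →
    ∃ x : Fin n → M.Carrier, (∀ i, ‖x i‖ ≤ s i + 1) ∧
      ∀ q ∈ F, |M.val q.1 (asg n x (fun m => (q.2 m : M.Carrier))) - p q.1 q.2| < ε

/-- The sequence `b₀, b₁, …` of `ι`-indexed tuples in `M` is indiscernible over `C`: the value of a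
formula with parameters from `C` at finitely many tuples `b_{k₁}, …, b_{kₙ}`, `k₁ < ⋯ < kₙ`, does
not depend on `k₁ < ⋯ < kₙ`. Here `w` says which variable is given which parameter or which
coordinate of which of the tuples. -/
def Indiscernible (M : TvN) (C : Set M.Carrier) {ι : Type} (b : ℕ → ι → M.Carrier) : Prop :=
  ∀ (φ : Formula) (w : ℕ → C ⊕ ℕ × ι) (f g : ℕ → ℕ), StrictMono f → StrictMono g →
    M.val φ (fun m => Sum.elim (fun c : C => (c : M.Carrier)) (fun q => b (f q.1) q.2) (w m)) =
      M.val φ (fun m => Sum.elim (fun c : C => (c : M.Carrier)) (fun q => b (g q.1) q.2) (w m))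

/-- The type `p = p(x, b)` over `B ⊆ M`, where `b` is the enumeration of `B` by itself, divides
over `C`: in some elementary extension `M'` of `M` there is a `C`-indiscernible sequence
`b₀ = b, b₁, b₂, …` for which the union of the `p(x, b_k)` is inconsistent, that is, not finitely
satisfiable. -/
def Divides (M : TvN) (B : Set M.Carrier) (n : ℕ) (s : Fin n → ℕ) (p : Formula → (ℕ → B) → ℝ)
    (C : Set M.Carrier) : Prop :=
  ∃ (M' : TvN) (j : M.Carrier → M'.Carrier) (b : ℕ → B → M'.Carrier), IsElementary M M' j ∧
    (∀ y : B, b 0 y = j y) ∧ Indiscernible M' (j '' C) b ∧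
    ¬ ∀ (F : Finset (Formula × (ℕ → B) × ℕ)) (ε : ℝ), 0 < ε →
      ∃ x : Fin n → M'.Carrier, (∀ i, ‖x i‖ ≤ s i + 1) ∧
        ∀ q ∈ F, |M'.val q.1 (asg n x (fun m => b q.2.2 (q.2.1 m))) - p q.1 q.2.1| < ε

/-- `C` is separable for the distance of `M`. -/
def IsSeparable2 (M : TvN) (C : Set M.Carrier) : Prop :=
  ∃ D : Set M.Carrier, D.Countable ∧ ∀ c ∈ C, ∀ ε : ℝ, 0 < ε → ∃ d ∈ D, norm2 M.τ (c - d) < ε

/-- The complete theory of `R` is simple: every type `p` over a set `B` does not divide over some
separable subset of `B`. -/
def IsSimpleTheory (R : TvN) : Prop :=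
  ∀ M : TvN, SameTheory R M → ∀ B : Set M.Carrier, B.Nonempty →
    ∀ (n : ℕ) (s : Fin n → ℕ) (p : Formula → (ℕ → B) → ℝ), IsType M B n s p →
      ∃ C ⊆ B, IsSeparable2 M C ∧ ¬ Divides M B n s p C

/-- `R` is the hyperfinite II₁ factor: a II₁ factor in which some increasing sequence of finite
dimensional star subalgebras has a union that is dense in the 2-norm. -/
structure IsHyperfiniteIIOneFactor (R : TvN) : Prop where
  factor : IsIIOneFactor R.N R.τ
  hyperfinite : IsHyperfinite R.Carrier R.τ

end Pool.Agent.Helper278.TP
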