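import Mathlib
import Pool.Agent.Helper278.TPDefs

set_option autoImplicit false
set_option linter.all false

open scoped InnerProductSpace Topology BoundedContinuousFunction
open Filter

namespace Pool.Agent.Helper278.TP

section bound

universe u
variable {H : Type u} [NormedAddCommGroup H] [InnerProductSpace ℂ H] [CompleteSpace H]
variable {N : VonNeumannAlgebra H}
variable {Q : Type u} [Ring Q] [StarRing Q] [Algebra ℂ Q] [StarModule ℂ Q]

/-- the balls of the ultrapower -/
def ballR (π : (ℕ →ᵇ Elt N) →⋆ₐ[ℂ] Q) (r : ℕ) : Set Q :=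
  {q | ∃ x : ℕ →ᵇ Elt N, (∀ n, ‖x n‖ ≤ r + 1) ∧ π x = q}

end bound

/-! job 15411 -/

section syn

variable {A : Type*} [Ring A] [StarRing A] [Algebra ℂ A]
variable {A' : Type*} [Ring A'] [StarRing A'] [Algebra ℂ A']

theorem Term.eval_congr (t : Term) :
    ∃ L : ℕ, ∀ v w : ℕ → A, (∀ i < L, v i = w i) → t.eval v = t.eval w := by
  induction t with
  | var i => exact ⟨i + 1, fun v w h => h i (Nat.lt_succ_self i)⟩
  | zero => exact ⟨0, fun v w h => rfl⟩
  | one => exact ⟨0, fun v w h => rfl⟩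
  | add s t hs ht =>
    obtain ⟨L₁, h₁⟩ := hs
    obtain ⟨L₂, h₂⟩ := ht
    refine ⟨max L₁ L₂, fun v w h => ?_⟩
    simp only [Term.eval]
    rw [h₁ v w (fun i hi => h i (lt_of_lt_of_le hi (le_max_left _ _))),
      h₂ v w (fun i hi => h i (lt_of_lt_of_le hi (le_max_right _ _)))]
  | mul s t hs ht =>
    obtain ⟨L₁, h₁⟩ := hs
    obtain ⟨L₂, h₂⟩ := ht
    refine ⟨max L₁ L₂, fun v w h => ?_⟩
    simp only [Term.eval]
    rw [h₁ v w (fun i hi => h i (lt_of_lt_of_le hi (le_max_left _ _))),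
      h₂ v w (fun i hi => h i (lt_of_lt_of_le hi (le_max_right _ _)))]
  | smul c t ht =>
    obtain ⟨L, h₁⟩ := ht
    refine ⟨L, fun v w h => ?_⟩
    simp only [Term.eval]
    rw [h₁ v w h]
  | adj t ht =>
    obtain ⟨L, h₁⟩ := ht
    refine ⟨L, fun v w h => ?_⟩
    simp only [Term.eval]
    rw [h₁ v w h]

theorem Formula.val_congr (τ : A → ℂ) (ball : ℕ → Set A) (φ : Formula) :
    ∃ L : ℕ, ∀ v w : ℕ → A, (∀ i < L, v i = w i) → φ.val τ ball v = φ.val τ ball w := by
  induction φ with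
  | reTr t =>
    obtain ⟨L, h₁⟩ := Term.eval_congr (A := A) t
    refine ⟨L, fun v w h => ?_⟩
    simp only [Formula.val]
    rw [h₁ v w h]
  | imTr t =>
    obtain ⟨L, h₁⟩ := Term.eval_congr (A := A) t
    refine ⟨L, fun v w h => ?_⟩
    simp only [Formula.val]
    rw [h₁ v w h]
  | dist s t =>
    obtain ⟨L₁, h₁⟩ := Term.eval_congr (A := A) s
    obtain ⟨L₂, h₂⟩ := Term.eval_congr (A := A) t
    refine ⟨max L₁ L₂, fun v w h => ?_⟩
    simp only [Formula.val]
    rw [h₁ v w (fun i hi => h i (lt_of_lt_of_le hi (le_max_left _ _))),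
      h₂ v w (fun i hi => h i (lt_of_lt_of_le hi (le_max_right _ _)))]
  | conn k u φ ih =>
    choose L hL using ih
    refine ⟨Finset.univ.sup L, fun v w h => ?_⟩
    simp only [Formula.val]
    congr 1
    funext i
    exact hL i v w (fun j hj => h j (lt_of_lt_of_le hj (Finset.le_sup (Finset.mem_univ i))))
  | sup r i φ ih =>
    obtain ⟨L, hL⟩ := ih
    refine ⟨L, fun v w h => ?_⟩
    simp only [Formula.val]
    congr 1
    funext x
    apply hL
    intro j hj
    by_cases hji : j = i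
    · subst hji; simp
    · simp [Function.update_of_ne hji, h j hj]
  | inf r i φ ih =>
    obtain ⟨L, hL⟩ := ih
    refine ⟨L, fun v w h => ?_⟩
    simp only [Formula.val]
    congr 1
    funext x
    apply hL
    intro j hj
    by_cases hji : j = i
    · subst hji; simp
    · simp [Function.update_of_ne hji, h j hj]

end syn

/-! job 15413 -/

section syn

variable {A : Type*} [Ring A] [StarRing A] [Algebra ℂ A]
variable {A' : Type*} [Ring A'] [StarRing A'] [Algebra ℂ A']

theorem Term.eval_map (e : A ≃⋆ₐ[ℂ] A') (t : Term) (v : ℕ → A) :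
    t.eval (fun i => e (v i)) = e (t.eval v) := by
  induction t with
  | var i => rfl
  | zero => simp only [Term.eval, map_zero]
  | one => simp only [Term.eval, map_one]
  | add s t ihs iht => simp only [Term.eval, ihs, iht, map_add]
  | mul s t ihs iht => simp only [Term.eval, ihs, iht, map_mul]
  | smul c t ih => simp only [Term.eval, ih, map_smul]
  | adj t ih => simp only [Term.eval, ih, map_star]

/-- the equivalence of the balls -/
def ballEquiv83 (e : A ≃⋆ₐ[ℂ] A') (ball : ℕ → Set A)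
    (ball' : ℕ → Set A') (hb : ∀ r x, e x ∈ ball' r ↔ x ∈ ball r) (r : ℕ) :
    ball r ≃ ball' r where
  toFun x := ⟨e x, (hb r x).2 x.2⟩
  invFun y := ⟨e.symm y, (hb r _).1 (by rw [StarAlgEquiv.apply_symm_apply]; exact y.2)⟩
  left_inv x := Subtype.ext (StarAlgEquiv.symm_apply_apply e x)
  right_inv y := Subtype.ext (StarAlgEquiv.apply_symm_apply e y)

theorem ballEquiv_coe83 (e : A ≃⋆ₐ[ℂ] A') (ball : ℕ → Set A)
    (ball' : ℕ → Set A') (hb : ∀ r x, e x ∈ ball' r ↔ x ∈ ball r) (r : ℕ) (x : ball r) :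
    ((ballEquiv83 e ball ball' hb r x : ball' r) : A') = e (x : A) := rfl

theorem update_map83 (e : A ≃⋆ₐ[ℂ] A') (v : ℕ → A) (i : ℕ) (x : A) :
    Function.update (fun j => e (v j)) i (e x) = fun j => e (Function.update v i x j) := by
  funext j
  by_cases h : j = i
  · subst h; simp
  · simp [h]

theorem Formula.val_equiv (e : A ≃⋆ₐ[ℂ] A') (τ : A → ℂ) (τ' : A' → ℂ) (ball : ℕ → Set A)
    (ball' : ℕ → Set A') (hτ : ∀ x, τ' (e x) = τ x) (hb : ∀ r x, e x ∈ ball' r ↔ x ∈ ball r)
    (φ : Formula) (v : ℕ → A) : φ.val τ' ball' (fun i => e (v i)) = φ.val τ ball v := by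
  induction φ generalizing v with
  | reTr t => simp only [Formula.val, Term.eval_map, hτ]
  | imTr t => simp only [Formula.val, Term.eval_map, hτ]
  | dist s t =>
    simp only [Formula.val, Term.eval_map, norm2]
    rw [← map_sub, ← map_star, ← map_mul, hτ]
  | conn k u φ ih =>
    simp only [Formula.val]
    congr 1
    funext i
    exact ih i v
  | sup r i φ ih =>
    simp only [Formula.val]
    symm
    refine (ballEquiv83 e ball ball' hb r).iSup_congr fun x => ?_
    rw [ballEquiv_coe83, update_map83, ih]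
  | inf r i φ ih =>
    simp only [Formula.val]
    symm
    refine (ballEquiv83 e ball ball' hb r).iInf_congr fun x => ?_
    rw [ballEquiv_coe83, update_map83, ih]

end syn

/-! job 15414 -/

section bound

universe u
variable {H : Type u} [NormedAddCommGroup H] [InnerProductSpace ℂ H] [CompleteSpace H]
variable {N : VonNeumannAlgebra H}

theorem Term.norm_bound (N : VonNeumannAlgebra H) (t : Term) (R : ℕ → ℝ) :
    ∃ C : ℝ, ∀ v : ℕ → Elt N, (∀ i, ‖v i‖ ≤ R i) → ‖t.eval v‖ ≤ C := by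
  induction t with
  | var i => exact ⟨R i, fun v hv => hv i⟩
  | zero => exact ⟨0, fun v _ => le_of_eq norm_zero⟩
  | one => exact ⟨‖(1 : Elt N)‖, fun v _ => le_rfl⟩
  | add s t hs ht =>
    obtain ⟨C, hC⟩ := hs
    obtain ⟨D, hD⟩ := ht
    exact ⟨C + D, fun v hv => (norm_add_le _ _).trans (add_le_add (hC v hv) (hD v hv))⟩
  | mul s t hs ht =>
    obtain ⟨C, hC⟩ := hs
    obtain ⟨D, hD⟩ := ht
    refine ⟨|C| * |D|, fun v hv => (norm_mul_le _ _).trans ?_⟩
    exact mul_le_mul ((hC v hv).trans (le_abs_self _)) ((hD v hv).trans (le_abs_self _))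
      (norm_nonneg _) (abs_nonneg _)
  | smul c t ht =>
    obtain ⟨D, hD⟩ := ht
    refine ⟨‖c‖ * D, fun v hv => ?_⟩
    have h1 : ‖c • t.eval v‖ ≤ ‖c‖ * ‖t.eval v‖ := norm_smul_le _ _
    exact h1.trans (mul_le_mul_of_nonneg_left (hD v hv) (norm_nonneg _))
  | adj t ht =>
    obtain ⟨D, hD⟩ := ht
    refine ⟨D, fun v hv => ?_⟩
    have h1 : ‖star (t.eval v)‖ = ‖t.eval v‖ := norm_star _
    exact h1.le.trans (hD v hv)

theorem Formula.bound (τ : Elt N → ℂ) (hτ : ∀ x, ‖τ x‖ ≤ ‖x‖)
    (hn : ∀ x, norm2 τ x ≤ ‖x‖) (φ : Formula) (R : ℕ → ℝ) :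
    ∃ C : ℝ, ∀ v : ℕ → Elt N, (∀ i, ‖v i‖ ≤ R i) →
      |φ.val τ (fun r => {x : Elt N | ‖x‖ ≤ r + 1}) v| ≤ C := by
  have hupd : ∀ (r i : ℕ) (R : ℕ → ℝ) (v : ℕ → Elt N), (∀ j, ‖v j‖ ≤ R j) →
      ∀ x : {x : Elt N | ‖x‖ ≤ r + 1}, ∀ j, ‖Function.update v i (x : Elt N) j‖ ≤
        Function.update R i ((r : ℝ) + 1) j := by
    intro r i R v hv x j
    by_cases hj : j = i
    · subst hj
      rw [Function.update_self, Function.update_self]
      exact x.2
    · rw [Function.update_of_ne hj, Function.update_of_ne hj]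
      exact hv j
  have hne : ∀ r : ℕ, Nonempty {x : Elt N | ‖x‖ ≤ (r : ℝ) + 1} := by
    intro r
    refine ⟨⟨0, ?_⟩⟩
    rw [Set.mem_setOf_eq, norm_zero]
    positivity
  induction φ generalizing R with
  | reTr t =>
    obtain ⟨C, hC⟩ := t.norm_bound N R
    exact ⟨C, fun v hv => (Complex.abs_re_le_norm _).trans ((hτ _).trans (hC v hv))⟩
  | imTr t =>
    obtain ⟨C, hC⟩ := t.norm_bound N R
    exact ⟨C, fun v hv => (Complex.abs_im_le_norm _).trans ((hτ _).trans (hC v hv))⟩
  | dist s t =>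
    obtain ⟨C, hC⟩ := s.norm_bound N R
    obtain ⟨D, hD⟩ := t.norm_bound N R
    refine ⟨C + D, fun v hv => ?_⟩
    have h0 : 0 ≤ norm2 τ (s.eval v - t.eval v) := Real.sqrt_nonneg _
    show |norm2 τ (s.eval v - t.eval v)| ≤ C + D
    rw [abs_of_nonneg h0]
    exact (hn _).trans ((norm_sub_le _ _).trans (add_le_add (hC v hv) (hD v hv)))
  | conn k u φ ih =>
    choose C hC using fun i => ih i R
    have hcomp : IsCompact (Set.pi Set.univ (fun i : Fin k => Set.Icc (-C i) (C i))) :=
      isCompact_univ_pi (fun i => isCompact_Icc)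
    obtain ⟨D, hD⟩ := hcomp.exists_bound_of_continuousOn u.continuous.continuousOn
    refine ⟨D, fun v hv => ?_⟩
    refine hD (fun i => (φ i).val τ (fun r => {x : Elt N | ‖x‖ ≤ r + 1}) v) ?_
    intro i _
    exact abs_le.1 (hC i v hv)
  | sup r i φ ih =>
    obtain ⟨C, hC⟩ := ih (Function.update R i ((r : ℝ) + 1))
    refine ⟨C, fun v hv => ?_⟩
    have := hne r
    show |⨆ x : {x : Elt N | ‖x‖ ≤ (r : ℝ) + 1},
      φ.val τ (fun r => {x : Elt N | ‖x‖ ≤ r + 1}) (Function.update v i (x : Elt N))| ≤ C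
    have hb : ∀ x : {x : Elt N | ‖x‖ ≤ (r : ℝ) + 1},
        |φ.val τ (fun r => {x : Elt N | ‖x‖ ≤ r + 1}) (Function.update v i (x : Elt N))| ≤ C :=
      fun x => hC _ (hupd r i R v hv x)
    rw [abs_le]
    constructor
    · obtain ⟨x0⟩ := this
      refine (abs_le.1 (hb x0)).1.trans ?_
      refine le_ciSup (f := fun x : {x : Elt N | ‖x‖ ≤ (r : ℝ) + 1} =>
        φ.val τ (fun r => {x : Elt N | ‖x‖ ≤ r + 1}) (Function.update v i (x : Elt N))) ?_ x0
      refine ⟨C, ?_⟩
      rintro _ ⟨x, rfl⟩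
      exact (abs_le.1 (hb x)).2
    · exact ciSup_le (fun x => (abs_le.1 (hb x)).2)
  | inf r i φ ih =>
    obtain ⟨C, hC⟩ := ih (Function.update R i ((r : ℝ) + 1))
    refine ⟨C, fun v hv => ?_⟩
    have := hne r
    show |⨅ x : {x : Elt N | ‖x‖ ≤ (r : ℝ) + 1},
      φ.val τ (fun r => {x : Elt N | ‖x‖ ≤ r + 1}) (Function.update v i (x : Elt N))| ≤ C
    have hb : ∀ x : {x : Elt N | ‖x‖ ≤ (r : ℝ) + 1},
        |φ.val τ (fun r => {x : Elt N | ‖x‖ ≤ r + 1}) (Function.update v i (x : Elt N))| ≤ C :=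
      fun x => hC _ (hupd r i R v hv x)
    rw [abs_le]
    constructor
    · exact le_ciInf (fun x => (abs_le.1 (hb x)).1)
    · obtain ⟨x0⟩ := this
      refine le_trans ?_ (abs_le.1 (hb x0)).2
      refine ciInf_le (f := fun x : {x : Elt N | ‖x‖ ≤ (r : ℝ) + 1} =>
        φ.val τ (fun r => {x : Elt N | ‖x‖ ≤ r + 1}) (Function.update v i (x : Elt N))) ?_ x0
      refine ⟨-C, ?_⟩
      rintro _ ⟨x, rfl⟩
      exact (abs_le.1 (hb x)).1

end bound

/-! job 15416 -/

section bound

universe u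
variable {H : Type u} [NormedAddCommGroup H] [InnerProductSpace ℂ H] [CompleteSpace H]
variable {N : VonNeumannAlgebra H}

theorem tendsto_iSup_ultra {α β : Type*} [Nonempty α] (U : Ultrafilter ℕ) (f : ℕ → α → ℝ)
    (g : β → ℝ) (P : (ℕ → α) → β) (hP : Function.Surjective P) (C : ℝ) (hC : ∀ n x, |f n x| ≤ C)
    (h : ∀ y : ℕ → α, Tendsto (fun n => f n (y n)) U (𝓝 (g (P y)))) :
    Tendsto (fun n => ⨆ x, f n x) U (𝓝 (⨆ q, g q)) := by
  have hβ : Nonempty β := ⟨P (fun _ => Classical.arbitrary α)⟩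
  have hg : ∀ q, |g q| ≤ C := by
    intro q
    obtain ⟨y, rfl⟩ := hP q
    exact le_of_tendsto (h y).abs (Eventually.of_forall (fun n => hC n (y n)))
  have hbf : ∀ n, BddAbove (Set.range (f n)) := by
    intro n
    refine ⟨C, ?_⟩
    rintro _ ⟨x, rfl⟩
    exact (le_abs_self _).trans (hC n x)
  have hbg : BddAbove (Set.range g) := by
    refine ⟨C, ?_⟩
    rintro _ ⟨x, rfl⟩
    exact (le_abs_self _).trans (hg x)
  rw [tendsto_order]
  constructor
  · intro a ha
    obtain ⟨q, hq⟩ := exists_lt_of_lt_ciSup ha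
    obtain ⟨y, rfl⟩ := hP q
    filter_upwards [(h y).eventually (lt_mem_nhds hq)] with n hn
    exact lt_of_lt_of_le hn (le_ciSup (hbf n) (y n))
  · intro a ha
    have hε : 0 < (a - ⨆ q, g q) / 2 := by linarith
    have hex : ∀ n, ∃ x, (⨆ x, f n x) - (a - ⨆ q, g q) / 2 < f n x := by
      intro n
      exact exists_lt_of_lt_ciSup (by linarith)
    choose y hy using hex
    have h1 : g (P y) < (⨆ q, g q) + (a - ⨆ q, g q) / 2 := by
      have := le_ciSup hbg (P y)
      linarith
    filter_upwards [(h y).eventually (gt_mem_nhds h1)] with n hn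
    have := hy n
    linarith

theorem tendsto_iInf_ultra {α β : Type*} [Nonempty α] (U : Ultrafilter ℕ) (f : ℕ → α → ℝ)
    (g : β → ℝ) (P : (ℕ → α) → β) (hP : Function.Surjective P) (C : ℝ) (hC : ∀ n x, |f n x| ≤ C)
    (h : ∀ y : ℕ → α, Tendsto (fun n => f n (y n)) U (𝓝 (g (P y)))) :
    Tendsto (fun n => ⨅ x, f n x) U (𝓝 (⨅ q, g q)) := by
  have key1 : ∀ F : α → ℝ, ⨅ x, F x = -⨆ x, -F x := by
    intro F
    rw [iInf, Real.sInf_def, iSup]
    congr 2
    ext z
    simp [neg_eq_iff_eq_neg]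
  have key2 : ∀ F : β → ℝ, ⨅ x, F x = -⨆ x, -F x := by
    intro F
    rw [iInf, Real.sInf_def, iSup]
    congr 2
    ext z
    simp [neg_eq_iff_eq_neg]
  rw [key2]
  simp only [key1]
  refine (tendsto_iSup_ultra U (fun n x => -f n x) (fun q => -g q) P hP C ?_ ?_).neg
  · intro n x
    rw [abs_neg]
    exact hC n x
  · intro y
    exact (h y).neg

end bound

/-! job 15419 -/

section bound

universe u
variable {H : Type u} [NormedAddCommGroup H] [InnerProductSpace ℂ H] [CompleteSpace H]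
variable {N : VonNeumannAlgebra H}

variable {Q : Type u} [Ring Q] [StarRing Q] [Algebra ℂ Q] [StarModule ℂ Q]
variable {U : Ultrafilter ℕ} {π : (ℕ →ᵇ Elt N) →⋆ₐ[ℂ] Q} {σ : Q → ℂ}

theorem term_pi_537 (t : Term) (X : ℕ → ℕ →ᵇ Elt N) :
    π (t.eval X) = t.eval (fun i => π (X i)) := by
  induction t with
  | var i => rfl
  | zero => exact map_zero π
  | one => exact map_one π
  | add s t hs ht =>
    show π (s.eval X + t.eval X) = _
    rw [map_add, hs, ht]; rfl
  | mul s t hs ht =>
    show π (s.eval X * t.eval X) = _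
    rw [map_mul, hs, ht]; rfl
  | smul c t ht =>
    show π (c • t.eval X) = _
    rw [map_smul, ht]; rfl
  | adj t ht =>
    show π (star (t.eval X)) = _
    rw [map_star, ht]; rfl

theorem term_coe_537 (t : Term) (X : ℕ → ℕ →ᵇ Elt N) (n : ℕ) :
    (t.eval X) n = t.eval (fun i => X i n) := by
  induction t with
  | var i => rfl
  | zero => rfl
  | one => rfl
  | add s t hs ht =>
    show s.eval X n + t.eval X n = s.eval (fun i => X i n) + t.eval (fun i => X i n)
    rw [hs, ht]
  | mul s t hs ht =>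
    show s.eval X n * t.eval X n = s.eval (fun i => X i n) * t.eval (fun i => X i n)
    rw [hs, ht]
  | smul c t ht =>
    show c • t.eval X n = c • t.eval (fun i => X i n)
    rw [ht]
  | adj t ht =>
    show star (t.eval X n) = star (t.eval (fun i => X i n))
    rw [ht]

/-- the bounded sequence attached to a sequence in a ball -/
noncomputable def seq_537 (r : ℕ) (y : ℕ → {x : Elt N | ‖x‖ ≤ r + 1}) : ℕ →ᵇ Elt N :=
  BoundedContinuousFunction.ofNormedAddCommGroupDiscrete (fun n => (y n : Elt N)) (r + 1)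
    (fun n => (y n).2)

theorem seq_apply_537 (r : ℕ) (y : ℕ → {x : Elt N | ‖x‖ ≤ r + 1}) (n : ℕ) :
    seq_537 r y n = (y n : Elt N) := rfl

theorem upd_537 {A B : Type*} (X : ℕ → A) (i : ℕ) (a : A) (f : A → B) :
    (fun j => f (Function.update X i a j)) = Function.update (fun j => f (X j)) i (f a) := by
  funext j
  by_cases h : j = i
  · subst h
    rw [Function.update_self, Function.update_self]
  · rw [Function.update_of_ne h, Function.update_of_ne h]

/-- the surjection from sequences in the ball to the ball of the ultrapower -/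
noncomputable def PP_537 (π : (ℕ →ᵇ Elt N) →⋆ₐ[ℂ] Q) (r : ℕ)
    (y : ℕ → {x : Elt N | ‖x‖ ≤ r + 1}) : ballR π r :=
  ⟨π (seq_537 r y), seq_537 r y, fun n => (y n).2, rfl⟩

theorem PP_surj_537 (π : (ℕ →ᵇ Elt N) →⋆ₐ[ℂ] Q) (r : ℕ) :
    Function.Surjective (PP_537 π r) := by
  rintro ⟨q, x, hx, rfl⟩
  refine ⟨fun n => ⟨x n, hx n⟩, ?_⟩
  apply Subtype.ext
  show π (seq_537 r _) = π x
  congr 1

theorem bdd_537 {τ : Elt N → ℂ} (hτ : ∀ x, ‖τ x‖ ≤ ‖x‖)
    (hn : ∀ x, norm2 τ x ≤ ‖x‖) (φ : Formula) (X : ℕ → ℕ →ᵇ Elt N) (r i : ℕ) :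
    ∃ C : ℝ, ∀ n : ℕ, ∀ x : {x : Elt N | ‖x‖ ≤ r + 1},
      |φ.val τ (fun r => {x : Elt N | ‖x‖ ≤ r + 1})
        (Function.update (fun j => X j n) i (x : Elt N))| ≤ C := by
  obtain ⟨C, hC⟩ := Formula.bound τ hτ hn φ (fun j => max ‖X j‖ (r + 1))
  refine ⟨C, fun n x => hC _ fun j => ?_⟩
  by_cases h : j = i
  · subst h
    rw [Function.update_self]
    exact le_trans x.2 (le_max_right _ _)
  · rw [Function.update_of_ne h]
    exact le_trans ((X j).norm_coe_le_norm n) (le_max_left _ _)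

/-- Łoś's theorem. -/
theorem los {τ : Elt N → ℂ} (hπ : IsTracialUltrapower τ U π σ) (hτ : ∀ x, ‖τ x‖ ≤ ‖x‖)
    (hn : ∀ x, norm2 τ x ≤ ‖x‖) (φ : Formula) (X : ℕ → ℕ →ᵇ Elt N) :
    Tendsto (fun n => φ.val τ (fun r => {x : Elt N | ‖x‖ ≤ r + 1}) (fun i => X i n)) U
      (𝓝 (φ.val σ (ballR π) (fun i => π (X i)))) := by
  induction φ generalizing X with
  | reTr t =>
    show Tendsto (fun n => (τ (t.eval (fun i => X i n))).re) U
      (𝓝 (σ (t.eval (fun i => π (X i)))).re)
    have h := hπ.trace (t.eval X)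
    simp only [term_pi_537, term_coe_537] at h
    exact (Complex.continuous_re.tendsto _).comp h
  | imTr t =>
    show Tendsto (fun n => (τ (t.eval (fun i => X i n))).im) U
      (𝓝 (σ (t.eval (fun i => π (X i)))).im)
    have h := hπ.trace (t.eval X)
    simp only [term_pi_537, term_coe_537] at h
    exact (Complex.continuous_im.tendsto _).comp h
  | dist s t =>
    show Tendsto (fun n => norm2 τ (s.eval (fun i => X i n) - t.eval (fun i => X i n))) U
      (𝓝 (norm2 σ (s.eval (fun i => π (X i)) - t.eval (fun i => π (X i)))))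
    have h := hπ.trace (star (s.eval X - t.eval X) * (s.eval X - t.eval X))
    have e1 : π (star (s.eval X - t.eval X) * (s.eval X - t.eval X)) =
        star (s.eval (fun i => π (X i)) - t.eval (fun i => π (X i))) *
          (s.eval (fun i => π (X i)) - t.eval (fun i => π (X i))) := by
      rw [map_mul, map_star, map_sub, term_pi_537, term_pi_537]
    have e2 : ∀ n, (star (s.eval X - t.eval X) * (s.eval X - t.eval X)) n =
        star (s.eval (fun i => X i n) - t.eval (fun i => X i n)) *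
          (s.eval (fun i => X i n) - t.eval (fun i => X i n)) := by
      intro n
      show star (s.eval X n - t.eval X n) * (s.eval X n - t.eval X n) = _
      rw [term_coe_537, term_coe_537]
    rw [e1] at h
    simp only [e2] at h
    exact (Real.continuous_sqrt.tendsto _).comp ((Complex.continuous_re.tendsto _).comp h)
  | conn k u φ ih =>
    show Tendsto (fun n => u fun i => (φ i).val τ (fun r => {x : Elt N | ‖x‖ ≤ r + 1})
      (fun i => X i n)) U (𝓝 (u fun i => (φ i).val σ (ballR π) (fun i => π (X i))))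
    exact (u.continuous.tendsto _).comp (tendsto_pi_nhds.mpr fun i => ih i X)
  | sup r i φ ih =>
    have : Nonempty {x : Elt N | ‖x‖ ≤ r + 1} := ⟨⟨0, by
      show ‖(0 : Elt N)‖ ≤ (r : ℝ) + 1
      rw [norm_zero]; positivity⟩⟩
    obtain ⟨C, hC⟩ := bdd_537 hτ hn φ X r i
    refine tendsto_iSup_ultra U (fun n (x : {x : Elt N | ‖x‖ ≤ r + 1}) =>
      φ.val τ (fun r => {x : Elt N | ‖x‖ ≤ r + 1}) (Function.update (fun j => X j n) i (x : Elt N)))
      (fun q : ballR π r => φ.val σ (ballR π) (Function.update (fun j => π (X j)) i (q : Q)))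
      (PP_537 π r) (PP_surj_537 π r) C hC ?_
    intro y
    have h := ih (Function.update X i (seq_537 r y))
    have e1 : ∀ n, (fun j => (Function.update X i (seq_537 r y) j) n) =
        Function.update (fun j => X j n) i ((y n : Elt N)) := fun n =>
      upd_537 X i (seq_537 r y) (fun Z => Z n)
    have e2 : (fun j => π (Function.update X i (seq_537 r y) j)) =
        Function.update (fun j => π (X j)) i (π (seq_537 r y)) :=
      upd_537 X i (seq_537 r y) (fun Z => π Z)
    simp only [e1] at h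
    rw [e2] at h
    exact h
  | inf r i φ ih =>
    have : Nonempty {x : Elt N | ‖x‖ ≤ r + 1} := ⟨⟨0, by
      show ‖(0 : Elt N)‖ ≤ (r : ℝ) + 1
      rw [norm_zero]; positivity⟩⟩
    obtain ⟨C, hC⟩ := bdd_537 hτ hn φ X r i
    refine tendsto_iInf_ultra U (fun n (x : {x : Elt N | ‖x‖ ≤ r + 1}) =>
      φ.val τ (fun r => {x : Elt N | ‖x‖ ≤ r + 1}) (Function.update (fun j => X j n) i (x : Elt N)))
      (fun q : ballR π r => φ.val σ (ballR π) (Function.update (fun j => π (X j)) i (q : Q)))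
      (PP_537 π r) (PP_surj_537 π r) C hC ?_
    intro y
    have h := ih (Function.update X i (seq_537 r y))
    have e1 : ∀ n, (fun j => (Function.update X i (seq_537 r y) j) n) =
        Function.update (fun j => X j n) i ((y n : Elt N)) := fun n =>
      upd_537 X i (seq_537 r y) (fun Z => Z n)
    have e2 : (fun j => π (Function.update X i (seq_537 r y) j)) =
        Function.update (fun j => π (X j)) i (π (seq_537 r y)) :=
      upd_537 X i (seq_537 r y) (fun Z => π Z)
    simp only [e1] at h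
    rw [e2] at h
    exact h

end bound

end Pool.Agent.Helper278.TP
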