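import Mathlib
import Pool.Agent.Helper278.TPDefs
import Pool.Agent.Helper278.TPSyn
import Pool.Agent.Helper278.Trace
import Pool.Agent.Helper278.Indep

set_option autoImplicit false
set_option linter.all false

open scoped InnerProductSpace Topology BoundedContinuousFunction
open Filter

namespace Pool.Agent.Helper278.TP

/-- A family of symmetries in which every finite injection is implemented by a unitary. -/
structure SymFam (M : TvN) {Z : Type} (S : Z → M.Carrier) : Prop where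
  sa : ∀ z, star (S z) = S z
  sq : ∀ z, S z * S z = 1
  ne : ∀ z z', z ≠ z' → M.τ (S z * S z') = 0
  conj : ∀ (D : Finset Z) (ρ : Z → Z), Set.InjOn ρ D →
    ∃ w : M.Carrier, star w * w = 1 ∧ w * star w = 1 ∧ ∀ z ∈ D, w * S z * star w = S (ρ z)

theorem exists_state {H : Type*} [NormedAddCommGroup H] [InnerProductSpace ℂ H] [CompleteSpace H]
    (N : VonNeumannAlgebra H) (τ : Elt N → ℂ) (h1 : IsNormalPositive N τ)
    (h2 : IsFaithfulTrace τ) : ∃ T : TracialState N, ∀ x, T.τ x = τ x :=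
  ⟨mkState N τ h1 h2, fun _ => rfl⟩

/-! job 15428 -/

section fam

theorem SymFam.comp {M : TvN} {Z Z' : Type} {S : Z → M.Carrier} (hS : SymFam M S) (f : Z' → Z)
    (hf : Function.Injective f) : SymFam M (fun z => S (f z)) := by
  classical
  refine ⟨fun z => hS.sa (f z), fun z => hS.sq (f z), fun z z' h => hS.ne _ _ (hf.ne h), ?_⟩
  intro D ρ hρ
  obtain ⟨w, h1, h2, h3⟩ := hS.conj (D.image f) (Function.extend f (f ∘ ρ) id) (by
    intro a ha b hb hab
    rw [Finset.coe_image] at ha hb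
    obtain ⟨a', ha', rfl⟩ := ha
    obtain ⟨b', hb', rfl⟩ := hb
    rw [hf.extend_apply, hf.extend_apply] at hab
    exact congrArg f (hρ ha' hb' (hf hab)))
  refine ⟨w, h1, h2, fun z hz => ?_⟩
  have := h3 (f z) (Finset.mem_image_of_mem f hz)
  rw [hf.extend_apply] at this
  exact this

theorem norm_le_one_of_unitary {M : TvN} (w : M.Carrier) (hw : star w * w = 1) : ‖w‖ ≤ 1 := by
  have h1 : star (w : M.H →L[ℂ] M.H) * (w : M.H →L[ℂ] M.H) = 1 := by
    have := congrArg (fun x : M.Carrier => (x : M.H →L[ℂ] M.H)) hw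
    exact this
  have h2 := CStarRing.norm_star_mul_self (x := (w : M.H →L[ℂ] M.H))
  rw [h1] at h2
  have h3 : ‖(1 : M.H →L[ℂ] M.H)‖ ≤ 1 := ContinuousLinearMap.norm_id_le
  have h4 : ‖w‖ = ‖(w : M.H →L[ℂ] M.H)‖ := rfl
  rw [h4]
  nlinarith [norm_nonneg (w : M.H →L[ℂ] M.H)]

theorem conj_norm_h887 {M : TvN} (w x : M.Carrier) (h1 : star w * w = 1) (h2 : w * star w = 1) :
    ‖w * x * star w‖ = ‖x‖ := by
  have hw := norm_le_one_of_unitary w h1
  have hw' : ‖star w‖ ≤ 1 := norm_le_one_of_unitary (star w) (by rw [star_star]; exact h2)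
  apply le_antisymm
  · calc ‖w * x * star w‖ ≤ ‖w * x‖ * ‖star w‖ := norm_mul_le _ _
      _ ≤ ‖w * x‖ * 1 := mul_le_mul_of_nonneg_left hw' (norm_nonneg _)
      _ = ‖w * x‖ := mul_one _
      _ ≤ ‖w‖ * ‖x‖ := norm_mul_le _ _
      _ ≤ 1 * ‖x‖ := mul_le_mul_of_nonneg_right hw (norm_nonneg _)
      _ = ‖x‖ := one_mul _
  · have e : x = star w * (w * x * star w) * w := by
      calc x = (star w * w) * x * (star w * w) := by rw [h1, one_mul, mul_one]
        _ = _ := by simp only [mul_assoc]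
    calc ‖x‖ = ‖star w * (w * x * star w) * w‖ := by rw [← e]
      _ ≤ ‖star w * (w * x * star w)‖ * ‖w‖ := norm_mul_le _ _
      _ ≤ ‖star w * (w * x * star w)‖ * 1 := mul_le_mul_of_nonneg_left hw (norm_nonneg _)
      _ = ‖star w * (w * x * star w)‖ := mul_one _
      _ ≤ ‖star w‖ * ‖w * x * star w‖ := norm_mul_le _ _
      _ ≤ 1 * ‖w * x * star w‖ := mul_le_mul_of_nonneg_right hw' (norm_nonneg _)
      _ = ‖w * x * star w‖ := one_mul _

/-- conjugation by a unitary -/
noncomputable def conjE_h887 {M : TvN} (w : M.Carrier) (h1 : star w * w = 1)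
    (h2 : w * star w = 1) : M.Carrier ≃⋆ₐ[ℂ] M.Carrier where
  toFun x := w * x * star w
  invFun x := star w * x * w
  left_inv x := by
    calc star w * (w * x * star w) * w = (star w * w) * x * (star w * w) := by
          simp only [mul_assoc]
      _ = x := by rw [h1, one_mul, mul_one]
  right_inv x := by
    calc w * (star w * x * w) * star w = (w * star w) * x * (w * star w) := by
          simp only [mul_assoc]
      _ = x := by rw [h2, one_mul, mul_one]
  map_mul' x y := by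
    calc w * (x * y) * star w = w * x * 1 * y * star w := by simp only [mul_assoc, one_mul]
      _ = w * x * (star w * w) * y * star w := by rw [h1]
      _ = _ := by simp only [mul_assoc]
  map_add' x y := by rw [mul_add, add_mul]
  map_star' x := by
    rw [star_mul, star_mul, star_star, mul_assoc]
  map_smul' c x := by
    rw [mul_smul_comm, smul_mul_assoc]

theorem val_conj {M : TvN} (w : M.Carrier) (h1 : star w * w = 1) (h2 : w * star w = 1)
    (φ : Formula) (v : ℕ → M.Carrier) : M.val φ (fun i => w * v i * star w) = M.val φ v := by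
  unfold TvN.val
  apply Formula.val_equiv (conjE_h887 w h1 h2) M.τ M.τ
  · intro x
    show M.τ (w * x * star w) = M.τ x
    rw [M.trace.tracial (w * x) (star w), ← mul_assoc, h1, one_mul]
  · intro r x
    show ‖w * x * star w‖ ≤ _ ↔ ‖x‖ ≤ _
    rw [conj_norm_h887 w x h1 h2]

theorem TvN.val_congr (M : TvN) (φ : Formula) :
    ∃ L : ℕ, ∀ v w : ℕ → M.Carrier, (∀ i < L, v i = w i) → M.val φ v = M.val φ w :=
  Formula.val_congr M.τ _ φ

theorem TvN.bound (M : TvN) (φ : Formula) (R : ℕ → ℝ) :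
    ∃ C : ℝ, ∀ v : ℕ → M.Carrier, (∀ i, ‖v i‖ ≤ R i) → |M.val φ v| ≤ C := by
  obtain ⟨T, hT⟩ := exists_state M.N M.τ M.normal M.trace
  have hn : ∀ x : Elt M.N, norm2 M.τ x ≤ ‖x‖ := by
    intro x
    have h1 := n2_mul_le T x 1
    rw [mul_one, (trAlg T).n2_one, mul_one] at h1
    have h2 : norm2 M.τ x = n2 T.τ x := by
      unfold norm2 n2
      rw [hT]
    rw [h2]
    exact h1
  have hτ : ∀ x : Elt M.N, ‖M.τ x‖ ≤ ‖x‖ := by
    intro x
    rw [← hT]
    refine ((trAlg T).norm_le x).trans ?_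
    have h1 := n2_mul_le T x 1
    rw [mul_one, (trAlg T).n2_one, mul_one] at h1
    exact h1
  exact Formula.bound M.τ hτ hn φ R

end fam

/-! job 15431 -/

section fam

theorem exists_lim_h232 (M : TvN) (B : Set M.Carrier) (hB : ∀ b ∈ B, ‖b‖ ≤ 1) {I : Type}
    (𝓕 : Ultrafilter I) (u : I → M.Carrier) (hu : ∀ i, ‖u i‖ ≤ 1) (φ : Formula) (b : ℕ → B) :
    ∃ y : ℝ, Tendsto (fun i => M.val φ (asg 1 (fun _ => u i) (fun m => (b m : M.Carrier)))) 𝓕
      (𝓝 y) := by
  obtain ⟨C, hC⟩ := M.bound φ (fun _ => 1)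
  have h1 : ∀ i, M.val φ (asg 1 (fun _ => u i) (fun m => (b m : M.Carrier))) ∈ Set.Icc (-C) C := by
    intro i
    rw [Set.mem_Icc, ← abs_le]
    apply hC
    intro k
    unfold asg
    split
    · exact hu i
    · exact hB _ (b _).2
  have h2 := isCompact_iff_ultrafilter_le_nhds.1 (isCompact_Icc (a := -C) (b := C))
    (𝓕.map (fun i => M.val φ (asg 1 (fun _ => u i) (fun m => (b m : M.Carrier))))) (by
      rw [le_principal_iff]
      exact Filter.mem_map.2 (Filter.univ_mem' h1))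
  obtain ⟨y, _, hy⟩ := h2
  exact ⟨y, hy⟩

/-- A limit of types of elements of the unit ball. -/
theorem exists_limit_type (M : TvN) (B : Set M.Carrier) (hB : ∀ b ∈ B, ‖b‖ ≤ 1) {I : Type}
    (𝓕 : Ultrafilter I) (u : I → M.Carrier) (hu : ∀ i, ‖u i‖ ≤ 1) :
    ∃ p : Formula → (ℕ → B) → ℝ, IsType M B 1 (fun _ => 0) p ∧ ∀ (φ : Formula) (b : ℕ → B),
      Tendsto (fun i => M.val φ (asg 1 (fun _ => u i) (fun m => (b m : M.Carrier)))) 𝓕
        (𝓝 (p φ b)) := by
  choose p hp using exists_lim_h232 M B hB 𝓕 u hu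
  refine ⟨p, ?_, hp⟩
  intro F ε hε
  have h1 : ∀ᶠ i in (𝓕 : Filter I), ∀ q ∈ F,
      |M.val q.1 (asg 1 (fun _ => u i) (fun m => (q.2 m : M.Carrier))) - p q.1 q.2| < ε := by
    rw [Filter.eventually_all_finset]
    intro q _
    have := (hp q.1 q.2).eventually (Metric.ball_mem_nhds _ hε)
    filter_upwards [this] with i hi
    rwa [Real.dist_eq] at hi
  obtain ⟨i, hi⟩ := h1.exists
  refine ⟨fun _ => u i, fun _ => ?_, hi⟩
  have := hu i
  simpa using this
end fam

/-! job 15432 -/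

section fam

theorem indisc_aux {M : TvN} {X : Type} {S : X ⊕ X ⊕ ℕ → M.Carrier} (hS : SymFam M S) (x₀ : X)
    (B : Set M.Carrier) (hB : B = {y | ∃ x, y = S (Sum.inl x) ∨ y = S (Sum.inr (Sum.inl x))})
    (C : Set M.Carrier) (hC : C ⊆ B) (hx : S (Sum.inl x₀) ∉ C) (b : ℕ → B → M.Carrier)
    (hb1 : ∀ k (y : B), (y : M.Carrier) ≠ S (Sum.inl x₀) → b k y = y)
    (hb2 : ∀ k (y : B), (y : M.Carrier) = S (Sum.inl x₀) →
      b k y = if k = 0 then S (Sum.inl x₀) else S (Sum.inr (Sum.inr k))) :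
    Indiscernible M C b := by
  classical
  intro φ w f g hf hg
  set z : ℕ → X ⊕ X ⊕ ℕ := fun k => if k = 0 then Sum.inl x₀ else Sum.inr (Sum.inr k) with hz
  have hzinj : Function.Injective z := by
    intro a c h
    simp only [hz] at h
    by_cases ha : a = 0 <;> by_cases hc : c = 0
    · rw [ha, hc]
    · rw [if_pos ha, if_neg hc] at h; cases h
    · rw [if_neg ha, if_pos hc] at h; cases h
    · rw [if_neg ha, if_neg hc] at h
      exact Sum.inr_injective (Sum.inr_injective h)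
  have hbz : ∀ k (y : B), (y : M.Carrier) = S (Sum.inl x₀) → b k y = S (z k) := by
    intro k y hy
    rw [hb2 k y hy]
    simp only [hz]
    split_ifs <;> rfl
  -- elements of `B` different from `S (inl x₀)`
  have hns : ∀ y ∈ B, y ≠ S (Sum.inl x₀) → ∃ z' : X ⊕ X ⊕ ℕ, y = S z' ∧ ∀ k, z k ≠ z' := by
    intro y hy hne
    rw [hB] at hy
    obtain ⟨x, hx' | hx'⟩ := hy
    · refine ⟨Sum.inl x, hx', ?_⟩
      intro k hk
      simp only [hz] at hk
      by_cases h0 : k = 0
      · rw [if_pos h0] at hk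
        apply hne
        rw [hx', ← hk]
      · rw [if_neg h0] at hk; cases hk
    · refine ⟨Sum.inr (Sum.inl x), hx', ?_⟩
      intro k hk
      simp only [hz] at hk
      by_cases h0 : k = 0
      · rw [if_pos h0] at hk; cases hk
      · rw [if_neg h0] at hk
        have := Sum.inr_injective hk
        cases this
  have key : ∀ m : ℕ, ∃ α : (X ⊕ X ⊕ ℕ) ⊕ ℕ,
      (∀ h : ℕ → ℕ, Sum.elim (fun c : C => (c : M.Carrier)) (fun q => b (h q.1) q.2) (w m) =
        S (Sum.elim id (fun q => z (h q)) α)) ∧ ∀ z', α = Sum.inl z' → ∀ k, z k ≠ z' := by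
    intro m
    rcases hw : w m with c | ⟨q, y⟩
    · obtain ⟨z', h1, h2⟩ := hns c (hC c.2) (fun h => hx (h ▸ c.2))
      refine ⟨Sum.inl z', fun h => ?_, ?_⟩
      · simpa using h1
      · intro z'' h'' k
        have := Sum.inl_injective h''
        rw [← this]
        exact h2 k
    · by_cases hy : (y : M.Carrier) = S (Sum.inl x₀)
      · refine ⟨Sum.inr q, fun h => ?_, ?_⟩
        · simpa using hbz (h q) y hy
        · intro z'' h''
          cases h''
      · obtain ⟨z', h1, h2⟩ := hns y y.2 hy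
        refine ⟨Sum.inl z', fun h => ?_, ?_⟩
        · have := hb1 (h q) y hy
          simp only [Sum.elim_inr, Sum.elim_inl, id]
          rw [this, h1]
        · intro z'' h'' k
          have := Sum.inl_injective h''
          rw [← this]
          exact h2 k
  choose A hA1 hA2 using key
  obtain ⟨L, hL⟩ := TvN.val_congr M φ
  have hzf : Function.Injective (fun q => z (f q)) := hzinj.comp hf.injective
  have hzg : Function.Injective (fun q => z (g q)) := hzinj.comp hg.injective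
  set ρ : X ⊕ X ⊕ ℕ → X ⊕ X ⊕ ℕ := Function.extend (fun q => z (f q)) (fun q => z (g q)) id with hρ
  have hρ1 : ∀ q, ρ (z (f q)) = z (g q) := by
    intro q
    exact hzf.extend_apply (fun q => z (g q)) id q
  have hρ2 : ∀ z', (∀ k, z k ≠ z') → ρ z' = z' := by
    intro z' h
    rw [hρ, Function.extend_apply']
    · rfl
    · rintro ⟨q, hq⟩
      exact h _ hq
  have hT : ∀ m, ρ (Sum.elim id (fun q => z (f q)) (A m)) = Sum.elim id (fun q => z (g q)) (A m) := by
    intro m
    rcases hm : A m with z' | q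
    · simpa using hρ2 z' (hA2 m z' hm)
    · simpa using hρ1 q
  have hinj : Set.InjOn ρ ((Finset.range L).image
      (fun m => Sum.elim id (fun q => z (f q)) (A m)) : Finset (X ⊕ X ⊕ ℕ)) := by
    intro d1 hd1 d2 hd2 h
    simp only [Finset.coe_image, Set.mem_image] at hd1 hd2
    obtain ⟨m1, _, rfl⟩ := hd1
    obtain ⟨m2, _, rfl⟩ := hd2
    rw [hT, hT] at h
    rcases h1 : A m1 with z1 | q1 <;> rcases h2 : A m2 with z2 | q2 <;> rw [h1, h2] at h
    · simpa using h
    · exact absurd (by simpa using h.symm) (hA2 m1 z1 h1 (g q2))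
    · exact absurd (by simpa using h) (hA2 m2 z2 h2 (g q1))
    · have : q1 = q2 := hzg (by simpa using h)
      rw [this]
  obtain ⟨u, hu1, hu2, hu3⟩ := hS.conj _ ρ hinj
  rw [← val_conj u hu1 hu2 φ]
  apply hL
  intro i hi
  rw [hA1 i f, hA1 i g, hu3 _ (Finset.mem_image_of_mem _ (Finset.mem_range.2 hi)), hT]

end fam

/-! job 15434 -/

section fam

theorem norm2_eq_n2_627 {M : TvN} (T : TracialState M.N) (hT : ∀ x, T.τ x = M.τ x)
    (x : M.Carrier) : norm2 M.τ x = n2 T.τ x := by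
  unfold norm2 n2
  rw [hT]

theorem norm_sub_sym {M : TvN} {Z : Type} {S : Z → M.Carrier} (hS : SymFam M S) (z z' : Z)
    (h : z ≠ z') : norm2 M.τ (S z - S z') = Real.sqrt 2 := by
  obtain ⟨T, hT⟩ := exists_state M.N M.τ M.normal M.trace
  have h1 : star (S z - S z') * (S z - S z') = (1 : M.Carrier) - S z * S z' - S z' * S z + 1 := by
    rw [star_sub, hS.sa, hS.sa, sub_mul, mul_sub, mul_sub, hS.sq, hS.sq]
    abel
  unfold norm2
  rw [h1, ← hT, map_add, map_sub, map_sub, T.map_one, hT, hT, hS.ne z z' h, hS.ne z' z (Ne.symm h)]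
  norm_num

theorem not_sep_aux {M : TvN} {X : Type} [Uncountable X] {Z : Type} {S : Z → M.Carrier}
    (hS : SymFam M S) (f : X → Z) (hf : Function.Injective f) (C : Set M.Carrier)
    (hC : IsSeparable2 M C) : ∃ x, S (f x) ∉ C := by
  obtain ⟨T, hT⟩ := exists_state M.N M.τ M.normal M.trace
  by_contra hcon
  push Not at hcon
  obtain ⟨D, hD, hC⟩ := hC
  have hex : ∀ x, ∃ d : D, norm2 M.τ (S (f x) - d) < 1 / 2 := by
    intro x
    obtain ⟨d, hd, hlt⟩ := hC _ (hcon x) (1 / 2) (by norm_num)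
    exact ⟨⟨d, hd⟩, hlt⟩
  choose d hd using hex
  have hinj : Function.Injective d := by
    intro x y hxy
    by_contra hne
    have h1 := norm_sub_sym hS (f x) (f y) (fun h => hne (hf h))
    have h2 := hd x
    have h3 := hd y
    rw [norm2_eq_n2_627 T hT] at h1 h2 h3
    have h4 := (trAlg T).n2_tri (S (f x)) (d x : M.Carrier) (S (f y))
    have h5 := (trAlg T).n2_sub_comm (d x : M.Carrier) (S (f y))
    rw [h5, h1, hxy] at h4
    rw [hxy] at h2
    have h6 : (1 : ℝ) < Real.sqrt 2 := by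
      rw [Real.lt_sqrt (by norm_num)]
      norm_num
    linarith
  have : Countable D := hD.to_subtype
  have hcount : Countable X := hinj.countable
  exact not_countable hcount

theorem incons_aux_half_627 {M : TvN} (T : TracialState M.N) (x a b : M.Carrier) (hx : ‖x‖ ≤ 1)
    (ha : ‖a‖ ≤ 1) (h1 : n2 T.τ (star x * x - 1) < 1 / 10)
    (h2 : n2 T.τ (x * a * star x - b) < 1 / 10) :
    n2 T.τ (a - star x * b * x) < 3 / 10 := by
  have hsx : ‖star x‖ ≤ 1 := by rw [norm_star]; exact hx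
  have he : ‖star x * x‖ ≤ 1 := by
    calc ‖star x * x‖ ≤ ‖star x‖ * ‖x‖ := norm_mul_le _ _
      _ ≤ 1 * 1 := mul_le_mul hsx hx (norm_nonneg _) zero_le_one
      _ = 1 := one_mul 1
  have hea : ‖star x * x * a‖ ≤ 1 := by
    calc ‖star x * x * a‖ ≤ ‖star x * x‖ * ‖a‖ := norm_mul_le _ _
      _ ≤ 1 * 1 := mul_le_mul he ha (norm_nonneg _) zero_le_one
      _ = 1 := one_mul 1
  have hn0 : ∀ y : M.Carrier, 0 ≤ n2 T.τ y := fun y => Real.sqrt_nonneg _
  have h1' : n2 T.τ (1 - star x * x) < 1 / 10 := by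
    rw [(trAlg T).n2_sub_comm]; exact h1
  have e1 : a - star x * b * x = (1 - star x * x) * a + (star x * x * a) * (1 - star x * x) +
      star x * (x * a * star x - b) * x := by
    noncomm_ring
  have b1 : n2 T.τ ((1 - star x * x) * a) < 1 / 10 := by
    calc n2 T.τ ((1 - star x * x) * a) ≤ ‖a‖ * n2 T.τ (1 - star x * x) := n2_mul_le' T _ _
      _ ≤ 1 * n2 T.τ (1 - star x * x) := mul_le_mul_of_nonneg_right ha (hn0 _)
      _ < 1 / 10 := by rw [one_mul]; exact h1'
  have b2 : n2 T.τ ((star x * x * a) * (1 - star x * x)) < 1 / 10 := by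
    calc n2 T.τ ((star x * x * a) * (1 - star x * x))
        ≤ ‖star x * x * a‖ * n2 T.τ (1 - star x * x) := n2_mul_le T _ _
      _ ≤ 1 * n2 T.τ (1 - star x * x) := mul_le_mul_of_nonneg_right hea (hn0 _)
      _ < 1 / 10 := by rw [one_mul]; exact h1'
  have b3 : n2 T.τ (star x * (x * a * star x - b) * x) < 1 / 10 := by
    calc n2 T.τ (star x * (x * a * star x - b) * x)
        ≤ ‖x‖ * n2 T.τ (star x * (x * a * star x - b)) := n2_mul_le' T _ _
      _ ≤ 1 * n2 T.τ (star x * (x * a * star x - b)) := mul_le_mul_of_nonneg_right hx (hn0 _)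
      _ = n2 T.τ (star x * (x * a * star x - b)) := one_mul _
      _ ≤ ‖star x‖ * n2 T.τ (x * a * star x - b) := n2_mul_le T _ _
      _ ≤ 1 * n2 T.τ (x * a * star x - b) := mul_le_mul_of_nonneg_right hsx (hn0 _)
      _ < 1 / 10 := by rw [one_mul]; exact h2
  rw [e1]
  have t1 := (trAlg T).n2_add_le ((1 - star x * x) * a + (star x * x * a) * (1 - star x * x))
    (star x * (x * a * star x - b) * x)
  have t2 := (trAlg T).n2_add_le ((1 - star x * x) * a) ((star x * x * a) * (1 - star x * x))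
  linarith

theorem incons_aux {M : TvN} (x a c b : M.Carrier) (hx : ‖x‖ ≤ 1) (ha : ‖a‖ ≤ 1) (hc : ‖c‖ ≤ 1)
    (hac : norm2 M.τ (a - c) = Real.sqrt 2) (h1 : norm2 M.τ (star x * x - 1) < 1 / 10)
    (h2 : norm2 M.τ (x * a * star x - b) < 1 / 10)
    (h3 : norm2 M.τ (x * c * star x - b) < 1 / 10) : False := by
  obtain ⟨T, hT⟩ := exists_state M.N M.τ M.normal M.trace
  rw [norm2_eq_n2_627 T hT] at hac h1 h2 h3
  have k1 := incons_aux_half_627 T x a b hx ha h1 h2
  have k2 := incons_aux_half_627 T x c b hx hc h1 h3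
  have k3 := (trAlg T).n2_tri a (star x * b * x) c
  rw [(trAlg T).n2_sub_comm (star x * b * x) c, hac] at k3
  have h6 : (1 : ℝ) < Real.sqrt 2 := by
    rw [Real.lt_sqrt (by norm_num)]
    norm_num
  linarith

end fam

/-! job 15437 -/

section fam

theorem norm2_zero_h849 (M : TvN) : norm2 M.τ (0 : M.Carrier) = 0 := by
  obtain ⟨ξ, _, h⟩ := M.normal
  have h0 : M.τ 0 = 0 := by
    rw [h 0]
    simp
  simp [norm2, h0]

theorem val1_h849 (M : TvN) (x : M.Carrier) (b : ℕ → M.Carrier) :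
    M.val (Formula.dist (.mul (.adj (.var 0)) (.var 0)) .one) (asg 1 (fun _ => x) b) =
      norm2 M.τ (star x * x - 1) := by
  simp [TvN.val, Formula.val, Term.eval, asg]

theorem val2_h849 (M : TvN) (x : M.Carrier) (b : ℕ → M.Carrier) :
    M.val (Formula.dist (.mul (.mul (.var 0) (.var 1)) (.adj (.var 0))) (.var 2))
      (asg 1 (fun _ => x) b) = norm2 M.τ (x * b 0 * star x - b 1) := by
  simp [TvN.val, Formula.val, Term.eval, asg]

theorem main_aux {M : TvN} {X : Type} [Uncountable X] {S : X ⊕ X ⊕ ℕ → M.Carrier}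
    (hS : SymFam M S) : ∃ (B : Set M.Carrier) (p : Formula → (ℕ → B) → ℝ), B.Nonempty ∧
      IsType M B 1 (fun _ => 0) p ∧ ∀ C ⊆ B, IsSeparable2 M C → Divides M B 1 (fun _ => 0) p C := by
  classical
  obtain ⟨B, hB⟩ : ∃ B : Set M.Carrier,
      B = {y | ∃ x, y = S (Sum.inl x) ∨ y = S (Sum.inr (Sum.inl x))} := ⟨_, rfl⟩
  have hnS : ∀ z, ‖S z‖ ≤ 1 := fun z =>
    norm_le_one_of_unitary (S z) (by rw [hS.sa, hS.sq])
  have hmem1 : ∀ x, S (Sum.inl x) ∈ B := fun x => by rw [hB]; exact ⟨x, Or.inl rfl⟩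
  have hmem2 : ∀ x, S (Sum.inr (Sum.inl x)) ∈ B := fun x => by rw [hB]; exact ⟨x, Or.inr rfl⟩
  have hB1 : ∀ b ∈ B, ‖b‖ ≤ 1 := by
    intro b hb
    rw [hB] at hb
    obtain ⟨x, hx | hx⟩ := hb
    · rw [hx]; exact hnS _
    · rw [hx]; exact hnS _
  let ρ : X ⊕ X ⊕ ℕ → X ⊕ X ⊕ ℕ := fun z => Sum.elim (fun x => Sum.inr (Sum.inl x)) Sum.inr z
  have hu : ∀ F : Finset X, ∃ w : M.Carrier, star w * w = 1 ∧ w * star w = 1 ∧
      ∀ x ∈ F, w * S (Sum.inl x) * star w = S (Sum.inr (Sum.inl x)) := by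
    intro F
    obtain ⟨w, h1, h2, h3⟩ := hS.conj (F.image Sum.inl) ρ (by
      intro z hz z' hz' hzz
      simp only [Finset.coe_image, Set.mem_image] at hz hz'
      obtain ⟨x, _, rfl⟩ := hz
      obtain ⟨x', _, rfl⟩ := hz'
      simp only [ρ, Sum.elim_inl, Sum.inr.injEq, Sum.inl.injEq] at hzz
      rw [hzz])
    refine ⟨w, h1, h2, fun x hx => ?_⟩
    exact h3 (Sum.inl x) (Finset.mem_image_of_mem _ hx)
  choose u hu1 hu2 hu3 using hu
  have hu0 : ∀ F, ‖u F‖ ≤ 1 := fun F => norm_le_one_of_unitary (u F) (hu1 F)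
  obtain ⟨p, hp, hlim⟩ := exists_limit_type M B hB1 (Ultrafilter.of (atTop : Filter (Finset X)))
    u hu0
  have hle : ((Ultrafilter.of (atTop : Filter (Finset X)) : Ultrafilter (Finset X)) :
      Filter (Finset X)) ≤ atTop := Ultrafilter.of_le _
  obtain ⟨xx⟩ : Nonempty X := inferInstance
  refine ⟨B, p, ⟨_, hmem1 xx⟩, hp, ?_⟩
  intro C hCB hC
  obtain ⟨x₀, hx₀⟩ := not_sep_aux hS (Sum.inl : X → X ⊕ X ⊕ ℕ) Sum.inl_injective C hC
  let b : ℕ → B → M.Carrier := fun k y =>
    if (y : M.Carrier) = S (Sum.inl x₀) then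
      (if k = 0 then S (Sum.inl x₀) else S (Sum.inr (Sum.inr k))) else y
  have hb1 : ∀ k (y : B), (y : M.Carrier) ≠ S (Sum.inl x₀) → b k y = y := by
    intro k y hy
    simp only [b, if_neg hy]
  have hb2 : ∀ k (y : B), (y : M.Carrier) = S (Sum.inl x₀) →
      b k y = if k = 0 then S (Sum.inl x₀) else S (Sum.inr (Sum.inr k)) := by
    intro k y hy
    simp only [b, if_pos hy]
  have hind : Indiscernible M C b := indisc_aux hS x₀ B hB C hCB hx₀ b hb1 hb2
  refine ⟨M, id, b, fun _ _ => rfl, ?_, ?_, ?_⟩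
  · intro y
    by_cases hy : (y : M.Carrier) = S (Sum.inl x₀)
    · rw [hb2 0 y hy, if_pos rfl]; exact hy.symm
    · rw [hb1 0 y hy]; rfl
  · rw [Set.image_id]; exact hind
  · intro H
    let β : ℕ → B := fun m => if m = 0 then ⟨S (Sum.inl x₀), hmem1 x₀⟩ else
      ⟨S (Sum.inr (Sum.inl x₀)), hmem2 x₀⟩
    have hβ0 : ((β 0 : B) : M.Carrier) = S (Sum.inl x₀) := rfl
    have hβ1 : ((β 1 : B) : M.Carrier) = S (Sum.inr (Sum.inl x₀)) := rfl
    have hne : S (Sum.inr (Sum.inl x₀)) ≠ S (Sum.inl x₀) := by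
      intro he
      have h := norm_sub_sym hS (Sum.inr (Sum.inl x₀)) (Sum.inl x₀) (by simp)
      rw [he, sub_self, norm2_zero_h849] at h
      have h2 : (0 : ℝ) < Real.sqrt 2 := Real.sqrt_pos.mpr (by norm_num)
      rw [← h] at h2
      exact lt_irrefl _ h2
    have hp1 : p (Formula.dist (.mul (.adj (.var 0)) (.var 0)) .one) β = 0 := by
      have h := hlim (Formula.dist (.mul (.adj (.var 0)) (.var 0)) .one) β
      have h' : (fun i => M.val (Formula.dist (.mul (.adj (.var 0)) (.var 0)) .one)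
          (asg 1 (fun _ => u i) (fun m => (β m : M.Carrier)))) = fun _ => (0 : ℝ) := by
        funext i
        rw [val1_h849, hu1, sub_self, norm2_zero_h849]
      rw [h'] at h
      exact tendsto_nhds_unique h tendsto_const_nhds
    have hp2 : p (Formula.dist (.mul (.mul (.var 0) (.var 1)) (.adj (.var 0))) (.var 2)) β
        = 0 := by
      have h := hlim (Formula.dist (.mul (.mul (.var 0) (.var 1)) (.adj (.var 0))) (.var 2)) β
      have h' : (fun i => M.val
          (Formula.dist (.mul (.mul (.var 0) (.var 1)) (.adj (.var 0))) (.var 2))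
          (asg 1 (fun _ => u i) (fun m => (β m : M.Carrier)))) =ᶠ[
            ((Ultrafilter.of (atTop : Filter (Finset X)) : Ultrafilter (Finset X)) :
              Filter (Finset X))] fun _ => (0 : ℝ) := by
        refine hle ?_
        filter_upwards [Filter.mem_atTop ({x₀} : Finset X)] with F hF
        have hF' : x₀ ∈ F := hF (Finset.mem_singleton_self x₀)
        rw [val2_h849]
        simp only [hβ0, hβ1]
        rw [hu3 F x₀ hF', sub_self, norm2_zero_h849]
      have h2 : Tendsto (fun _ : Finset X => (0 : ℝ))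
          (((Ultrafilter.of (atTop : Filter (Finset X)) : Ultrafilter (Finset X)) :
              Filter (Finset X))) (𝓝 (p (Formula.dist
                (.mul (.mul (.var 0) (.var 1)) (.adj (.var 0))) (.var 2)) β)) :=
        h.congr' h'
      exact tendsto_nhds_unique h2 tendsto_const_nhds
    obtain ⟨x, hx, hq⟩ := H
      {((Formula.dist (.mul (.adj (.var 0)) (.var 0)) .one : Formula), β, 0),
       ((Formula.dist (.mul (.mul (.var 0) (.var 1)) (.adj (.var 0))) (.var 2) : Formula), β, 0),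
       ((Formula.dist (.mul (.mul (.var 0) (.var 1)) (.adj (.var 0))) (.var 2) : Formula), β, 1)}
      (1 / 10) (by norm_num)
    have hxx : x = fun _ => x 0 := by
      funext i
      rw [Subsingleton.elim i 0]
    have e1 := hq ((Formula.dist (.mul (.adj (.var 0)) (.var 0)) .one : Formula), β, 0)
      (by simp)
    have e2 := hq
      ((Formula.dist (.mul (.mul (.var 0) (.var 1)) (.adj (.var 0))) (.var 2) : Formula), β, 0)
      (by simp)
    have e3 := hq
      ((Formula.dist (.mul (.mul (.var 0) (.var 1)) (.adj (.var 0))) (.var 2) : Formula), β, 1)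
      (by simp)
    rw [hxx] at e1 e2 e3
    simp only [hp1, hp2, sub_zero] at e1 e2 e3
    rw [val1_h849] at e1
    rw [val2_h849] at e2 e3
    have q0 : b 0 (β 0) = S (Sum.inl x₀) := by rw [hb2 0 (β 0) hβ0, if_pos rfl]
    have q1 : b 0 (β 1) = S (Sum.inr (Sum.inl x₀)) := by
      rw [hb1 0 (β 1) (by rw [hβ1]; exact hne), hβ1]
    have q2 : b 1 (β 0) = S (Sum.inr (Sum.inr 1)) := by
      rw [hb2 1 (β 0) hβ0, if_neg (by norm_num)]
    have q3 : b 1 (β 1) = S (Sum.inr (Sum.inl x₀)) := by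
      rw [hb1 1 (β 1) (by rw [hβ1]; exact hne), hβ1]
    simp only [q0, q1] at e2
    simp only [q2, q3] at e3
    have hx0 : ‖x 0‖ ≤ 1 := by simpa using hx 0
    exact incons_aux (x 0) (S (Sum.inl x₀)) (S (Sum.inr (Sum.inr 1))) (S (Sum.inr (Sum.inl x₀)))
      hx0 (hnS _) (hnS _) (norm_sub_sym hS _ _ (by simp)) ((le_abs_self _).trans_lt e1)
      ((le_abs_self _).trans_lt e2) ((le_abs_self _).trans_lt e3)

end fam

end Pool.Agent.Helper278.TP
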