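import Mathlib
import Pool.Agent.Helper278.TPDefs

set_option autoImplicit false
set_option linter.all false

open scoped InnerProductSpace Topology BoundedContinuousFunction
open Filter

namespace Pool.Agent.Helper278.TP

/-- finitary permutations of the natural numbers -/
def FP : Subgroup (Equiv.Perm ℕ) where
  carrier := {g | ∃ L : ℕ, ∀ k ≥ L, g k = k}
  mul_mem' := by
    rintro a b ⟨L, hL⟩ ⟨L', hL'⟩
    refine ⟨max L L', fun k hk => ?_⟩
    rw [Equiv.Perm.mul_apply, hL' k (le_trans (le_max_right _ _) hk),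
      hL k (le_trans (le_max_left _ _) hk)]
  one_mem' := ⟨0, fun k _ => rfl⟩
  inv_mem' := by
    rintro a ⟨L, hL⟩
    refine ⟨L, fun k hk => ?_⟩
    rw [Equiv.Perm.inv_eq_iff_eq, hL k hk]

/-- the permutations of `0, …, L-1` -/
def FPn (L : ℕ) : Subgroup FP where
  carrier := {g | ∀ k ≥ L, (g : Equiv.Perm ℕ) k = k}
  mul_mem' := by
    intro a b ha hb k hk
    show (a : Equiv.Perm ℕ) ((b : Equiv.Perm ℕ) k) = k
    rw [hb k hk, ha k hk]
  one_mem' := fun k _ => rfl
  inv_mem' := by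
    intro a ha k hk
    show (a : Equiv.Perm ℕ)⁻¹ k = k
    rw [Equiv.Perm.inv_eq_iff_eq, ha k hk]


/-! job 15438 -/

section hyp

theorem lt_of_FPn_991 (L : ℕ) (g : FPn L) (k : ℕ) (hk : k < L) :
    ((g : FP) : Equiv.Perm ℕ) k < L := by
  by_contra h
  push Not at h
  have h1 := g.2 (((g : FP) : Equiv.Perm ℕ) k) h
  have h2 := ((g : FP) : Equiv.Perm ℕ).injective h1
  omega

theorem FPn_finite (L : ℕ) : Finite (FPn L) := by
  let φ : FPn L → (Fin L → Fin L) := fun g i =>
    ⟨((g : FP) : Equiv.Perm ℕ) i.1, lt_of_FPn_991 L g i.1 i.2⟩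
  apply Finite.of_injective φ
  intro g g' h
  apply Subtype.ext
  apply Subtype.ext
  apply Equiv.ext
  intro k
  by_cases hk : k < L
  · have h1 := congrFun h ⟨k, hk⟩
    exact congrArg Fin.val h1
  · push Not at hk
    rw [g.2 k hk, g'.2 k hk]

theorem FPn_mono : Monotone FPn := by
  intro L L' h g hg k hk
  exact hg k (le_trans h hk)

theorem FPn_exhaust (F : Finset FP) : ∃ L, ∀ g ∈ F, g ∈ FPn L := by
  classical
  have h : ∀ g : FP, ∃ L, g ∈ FPn L := fun g => g.2
  choose Lg hLg using h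
  refine ⟨F.sup Lg, fun g hg => ?_⟩
  exact FPn_mono (Finset.le_sup (f := Lg) hg) (hLg g)

theorem swap_mem_991 (a b : ℕ) : Equiv.swap a b ∈ FP := by
  refine ⟨max a b + 1, fun k hk => ?_⟩
  apply Equiv.swap_apply_of_ne_of_ne
  · have := le_max_left a b
    omega
  · have := le_max_right a b
    omega

theorem FP_icc (g : FP) (hg : g ≠ 1) : (Set.range fun h : FP => h * g * h⁻¹).Infinite := by
  intro hfin
  obtain ⟨L, hL⟩ := FPn_exhaust hfin.toFinset
  obtain ⟨k, hk⟩ : ∃ k, (g : Equiv.Perm ℕ) k ≠ k := by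
    by_contra h
    push Not at h
    apply hg
    apply Subtype.ext
    apply Equiv.ext
    intro k
    exact h k
  set m := max L (max k ((g : Equiv.Perm ℕ) k)) + 1 with hm
  have hmL : L ≤ m := by
    have := le_max_left L (max k ((g : Equiv.Perm ℕ) k))
    omega
  have hmk : k < m := by
    have h1 := le_max_right L (max k ((g : Equiv.Perm ℕ) k))
    have h2 := le_max_left k ((g : Equiv.Perm ℕ) k)
    omega
  have hmg : (g : Equiv.Perm ℕ) k < m := by
    have h1 := le_max_right L (max k ((g : Equiv.Perm ℕ) k))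
    have h2 := le_max_right k ((g : Equiv.Perm ℕ) k)
    omega
  let h : FP := ⟨Equiv.swap k m, swap_mem_991 k m⟩
  have h1 : h * g * h⁻¹ ∈ FPn L := hL _ (by
    rw [Set.Finite.mem_toFinset]
    exact ⟨h, rfl⟩)
  have h2 := h1 m hmL
  have h3 : ((h * g * h⁻¹ : FP) : Equiv.Perm ℕ) m
      = Equiv.swap k m ((g : Equiv.Perm ℕ) ((Equiv.swap k m)⁻¹ m)) := rfl
  rw [h3, Equiv.swap_inv, Equiv.swap_apply_right, Equiv.swap_apply_of_ne_of_ne hk hmg.ne] at h2
  exact hmg.ne h2

theorem FP_infinite : Infinite FP := by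
  apply Infinite.of_injective (fun n : ℕ => (⟨Equiv.swap 0 (n + 1), swap_mem_991 0 (n + 1)⟩ : FP))
  intro n m h
  have h1 := congrArg (fun g : FP => (g : Equiv.Perm ℕ) 0) h
  simp only [Equiv.swap_apply_left] at h1
  omega

end hyp

end Pool.Agent.Helper278.TP
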