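import Mathlib
import Pool.Agent.Helper278.TPDefs
import Pool.Agent.Helper278.TPPerm
import Pool.Agent.Helper278.RGVN

set_option autoImplicit false

open scoped InnerProductSpace Topology BoundedContinuousFunction
open Filter

namespace Pool.Agent.Helper278.TP

open Pool.Agent.Helper278.RG

section hyp2

variable {K : Type} [NormedAddCommGroup K] [InnerProductSpace ℂ K] [CompleteSpace K]

theorem hyperfinite_of_exhaust {G : Type} [Group G] (b : HilbertBasis G ℂ K)
    (E : ℕ → Subgroup G) (h1 : Monotone E) (h2 : ∀ n, Finite (E n))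
    (h3 : ∀ F : Finset G, ∃ n, ∀ g ∈ F, g ∈ E n) :
    IsHyperfinite (Elt (LK b)) (fun x => trG b x) := by
  classical
  have hstar : ∀ n, (La b '' (E n : Set G)) ∪ star (La b '' (E n : Set G)) =
      La b '' (E n : Set G) := by
    intro n
    apply Set.union_eq_self_of_subset_right
    rintro x hx
    obtain ⟨g, hg, hgx⟩ := Set.mem_star.1 hx
    refine ⟨g⁻¹, (E n).inv_mem hg, ?_⟩
    rw [← star_La, hgx, star_star]
  refine ⟨fun n => StarAlgebra.adjoin ℂ (La b '' (E n : Set G)), ?_, ?_, ?_⟩
  · intro m n hmn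
    exact StarAlgebra.adjoin_mono (Set.image_mono (h1 hmn))
  · intro n
    have := h2 n
    let S : Submonoid (Elt (LK b)) :=
      { carrier := La b '' (E n : Set G)
        mul_mem' := by
          rintro _ _ ⟨g, hg, rfl⟩ ⟨h, hh, rfl⟩
          exact ⟨g * h, (E n).mul_mem hg hh, (La_mul b g h).symm⟩
        one_mem' := ⟨1, (E n).one_mem, La_one b⟩ }
    have hfin : (La b '' (E n : Set G)).Finite := (Set.toFinite (E n : Set G)).image _
    have e1 : Subalgebra.toSubmodule (StarAlgebra.adjoin ℂ (La b '' (E n : Set G))).toSubalgebra =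
        Submodule.span ℂ (La b '' (E n : Set G)) := by
      rw [StarAlgebra.adjoin_toSubalgebra, hstar, Algebra.adjoin_eq_span]
      congr 1
      have : Submonoid.closure (La b '' (E n : Set G)) = S := Submonoid.closure_eq S
      rw [this]
      rfl
    have e2 : FiniteDimensional ℂ (Submodule.span ℂ (La b '' (E n : Set G))) :=
      FiniteDimensional.span_of_finite ℂ hfin
    rw [← e1] at e2
    exact e2
  · intro x ε hε
    obtain ⟨a, ⟨v, rfl⟩, ha⟩ := dense_CG b x ε hε
    obtain ⟨n, hn⟩ := h3 v.coeff.support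
    refine ⟨n, Lop b v, ?_, ?_⟩
    · rw [Lop_apply]
      refine sum_mem fun g hg => ?_
      refine SMulMemClass.smul_mem _ (StarAlgebra.subset_adjoin ℂ _ ⟨g, hn g hg, rfl⟩)
    · have h4 : norm2 (fun x => trG b x) (x - Lop b v) = N2 b (x - Lop b v) := n2_TL b _
      rw [h4]
      exact ha

theorem exists_hyperfinite : ∃ R : TvN, IsHyperfiniteIIOneFactor R := by
  have := FP_infinite
  let b : HilbertBasis FP ℂ (EllTwo FP) := default
  have h := isIIOne_LK b FP_icc
  refine ⟨{ H := EllTwo FP, N := LK b, τ := fun x => trG b x, normal := h.normal, trace := h.trace },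
    h, ?_⟩
  exact hyperfinite_of_exhaust b FPn FPn_mono FPn_finite FPn_exhaust

end hyp2

end Pool.Agent.Helper278.TP
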