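import Mathlib
import Pool.Agent.Helper278.TPDefs
import Pool.Agent.Helper278.Conj
import Pool.Agent.Helper278.Factor
import Pool.Agent.Helper278.TraceUniq
import Pool.Agent.Helper278.CEPi
import Pool.Agent.Helper278.TPSyn

set_option autoImplicit false
set_option linter.all false

open scoped InnerProductSpace Topology BoundedContinuousFunction
open Filter

open Pool.Agent.Helper278.CE (le_atTop_of_nonprincipal)

namespace Pool.Agent.Helper278.TP

/-- the symmetry attached to a coordinate -/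
noncomputable def symm {A : Type*} [Ring A] [Algebra ℂ A] {J : Type} [Fintype J] [DecidableEq J]
    (p : (J → Bool) → A) (k : J) : A :=
  ∑ ε : J → Bool, (if ε k then (1 : ℂ) else -1) • p ε

theorem norm_unitary_le' {H : Type*} [NormedAddCommGroup H] [InnerProductSpace ℂ H] [CompleteSpace H]
    {N : VonNeumannAlgebra H} (w : Elt N) (hw : star w * w = 1) : ‖w‖ ≤ 1 := by
  have h2 : star ((w : H →L[ℂ] H)) * (w : H →L[ℂ] H) = 1 := congrArg Subtype.val hw
  exact norm_le_one_of_star_mul h2.le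

/-! job 15420 -/

section sym

universe u
variable {H : Type u} [NormedAddCommGroup H] [InnerProductSpace ℂ H] [CompleteSpace H]
variable {N : VonNeumannAlgebra H}

theorem exists_pvm {A : Type*} [Ring A] [StarRing A] [Algebra ℂ A] [StarModule ℂ A]
    {τ : A →ₗ[ℂ] ℂ} (h1 : τ 1 = 1) (hL : LyapProp τ) (ι : Type) [Fintype ι] [Nonempty ι] :
    ∃ p : ι → A, PVM p ∧ ∀ i, τ (p i) = (Fintype.card ι : ℂ)⁻¹ := by
  obtain ⟨D, -, -, hD⟩ := hL ∅ (by simp) (by simp)
  have hc : (Fintype.card ι : ℂ) ≠ 0 := by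
    have := Fintype.card_ne_zero (α := ι)
    exact_mod_cast this
  have hc0 : (0 : ℝ) < Fintype.card ι := by
    have := Fintype.card_pos (α := ι)
    exact_mod_cast this
  obtain ⟨p, -, hp, hτ⟩ := hD ι Unit (fun _ => (Fintype.card ι : ℂ)⁻¹ • (1 : A)) (fun _ => 1)
    (fun _ => D.smul_mem (one_mem D) _)
    (fun _ => by
      apply AddSubmonoid.subset_closure
      refine ⟨((Real.sqrt ((Fintype.card ι : ℝ)⁻¹) : ℝ) : ℂ) • (1 : A), ?_⟩
      have hs : ((Real.sqrt ((Fintype.card ι : ℝ)⁻¹) : ℝ) : ℂ)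
          * ((Real.sqrt ((Fintype.card ι : ℝ)⁻¹) : ℝ) : ℂ) = (Fintype.card ι : ℂ)⁻¹ := by
        rw [← Complex.ofReal_mul, Real.mul_self_sqrt (by positivity)]
        push_cast
        rfl
      simp only [star_smul, star_one, smul_mul_smul_comm, mul_one]
      rw [← hs]
      congr 2
      exact Complex.conj_ofReal _)
    (by
      rw [Finset.sum_const, Finset.card_univ, ← Nat.cast_smul_eq_nsmul ℂ, smul_smul,
        mul_inv_cancel₀ hc, one_smul])
  refine ⟨p, hp, fun i => ?_⟩
  have := hτ i ()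
  rw [mul_one, mul_one, map_smul, h1, smul_eq_mul, mul_one] at this
  exact this

theorem symm_star {A : Type*} [Ring A] [StarRing A] [Algebra ℂ A] [StarModule ℂ A] {J : Type}
    [Fintype J] [DecidableEq J] (p : (J → Bool) → A) (hp : PVM p) (k : J) :
    star (symm p k) = symm p k := by
  unfold symm
  rw [star_sum]
  apply Finset.sum_congr rfl
  intro ε _
  rw [star_smul, hp.star_eq]
  split_ifs
  · rw [star_one]
  · rw [star_neg, star_one]

theorem symm_mul {A : Type*} [Ring A] [StarRing A] [Algebra ℂ A] [StarModule ℂ A] {J : Type}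
    [Fintype J] [DecidableEq J] (p : (J → Bool) → A) (hp : PVM p) (k l : J) :
    symm p k * symm p l =
      ∑ ε : J → Bool, ((if ε k then (1 : ℂ) else -1) * (if ε l then (1 : ℂ) else -1)) • p ε := by
  unfold symm
  rw [Finset.sum_mul_sum]
  apply Finset.sum_congr rfl
  intro ε _
  rw [Finset.sum_eq_single ε]
  · rw [smul_mul_smul_comm, hp.idem]
  · intro η _ hne
    rw [smul_mul_smul_comm, hp.orth ε η (Ne.symm hne), smul_zero]
  · intro h
    exact absurd (Finset.mem_univ _) h

theorem sum_signs {J : Type} [Fintype J] [DecidableEq J] (k l : J) (hkl : k ≠ l) :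
    ∑ ε : J → Bool, ((if ε k then (1 : ℂ) else -1) * (if ε l then (1 : ℂ) else -1)) = 0 := by
  apply Finset.sum_involution (fun ε _ => Function.update ε k (!ε k))
  · intro ε _
    rw [Function.update_self, Function.update_of_ne (Ne.symm hkl)]
    cases ε k <;> cases ε l <;> norm_num
  · intro ε _ _ h
    have := congrFun h k
    rw [Function.update_self] at this
    cases h2 : ε k <;> rw [h2] at this <;> exact absurd this (by decide)
  · intro ε _
    rw [Function.update_self, Function.update_idem, Bool.not_not, Function.update_eq_self]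
  · intro ε _
    exact Finset.mem_univ _

end sym

/-! job 15422 -/

section sym

universe u
variable {H : Type u} [NormedAddCommGroup H] [InnerProductSpace ℂ H] [CompleteSpace H]
variable {N : VonNeumannAlgebra H}

theorem exists_sym (T : TracialState N) (hL : LyapProp T.τ) (hN : HasTrivialCenter N)
    (J : Type) [Fintype J] [DecidableEq J] :
    ∃ s : J → Elt N, (∀ k, star (s k) = s k) ∧ (∀ k, s k * s k = 1) ∧
      (∀ k l, k ≠ l → T.τ (s k * s l) = 0) ∧ ∀ ρ : Equiv.Perm J,
        ∃ w : Elt N, star w * w = 1 ∧ w * star w = 1 ∧ ∀ k, w * s k * star w = s (ρ k) := by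
  obtain ⟨p, hp, hpt⟩ := exists_pvm T.map_one hL (J → Bool)
  refine ⟨symm p, symm_star p hp, ?_, ?_, ?_⟩
  · intro k
    rw [symm_mul p hp]
    have : ∀ ε : J → Bool, ((if ε k then (1 : ℂ) else -1) * (if ε k then (1 : ℂ) else -1)) • p ε
        = p ε := by
      intro ε
      split_ifs <;> simp
    rw [Finset.sum_congr rfl fun ε _ => this ε]
    exact hp.sum
  · intro k l hkl
    rw [symm_mul p hp, map_sum]
    have : ∀ ε : J → Bool, T.τ (((if ε k then (1 : ℂ) else -1) *
        (if ε l then (1 : ℂ) else -1)) • p ε) =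
        ((if ε k then (1 : ℂ) else -1) * (if ε l then (1 : ℂ) else -1)) *
          (Fintype.card (J → Bool) : ℂ)⁻¹ := by
      intro ε
      rw [map_smul, hpt, smul_eq_mul]
    rw [Finset.sum_congr rfl fun ε _ => this ε, ← Finset.sum_mul, sum_signs k l hkl, zero_mul]
  · intro ρ
    let E : (J → Bool) ≃ (J → Bool) := Equiv.arrowCongr ρ (Equiv.refl Bool)
    have hE : ∀ (ε : J → Bool) (k : J), E ε (ρ k) = ε k := by
      intro ε k
      show ε (ρ.symm (ρ k)) = ε k
      rw [Equiv.symm_apply_apply]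
    have hq : PVM (fun ε => p (E ε)) :=
      { star_eq := fun ε => hp.star_eq _
        idem := fun ε => hp.idem _
        orth := fun ε δ h => hp.orth _ _ (fun h' => h (E.injective h'))
        sum := by rw [Equiv.sum_comp E p]; exact hp.sum }
    have hv : ∀ ε, ∃ v : Elt N, star v * v = p ε ∧ v * star v = p (E ε) := by
      intro ε
      exact exists_equiv T hN (p ε) (p (E ε)) (hp.star_eq _) (hp.idem _) (hp.star_eq _)
        (hp.idem _) (by rw [hpt, hpt])
    obtain ⟨w, hw1, hw2, hw3⟩ := (trAlg T).conj_pvm p (fun ε => p (E ε)) hp hq hv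
    refine ⟨w, hw1, hw2, fun k => ?_⟩
    unfold symm
    rw [Finset.mul_sum, Finset.sum_mul]
    have h1 : ∀ ε : J → Bool, w * ((if ε k then (1 : ℂ) else -1) • p ε) * star w =
        (if (E ε) (ρ k) then (1 : ℂ) else -1) • p (E ε) := by
      intro ε
      rw [mul_smul_comm, smul_mul_assoc, hw3, hE]
    rw [Finset.sum_congr rfl fun ε _ => h1 ε]
    exact Equiv.sum_comp E (fun δ => (if δ (ρ k) then (1 : ℂ) else -1) • p δ)

end sym

/-! job 15425 -/

section sym

universe u
variable {H : Type u} [NormedAddCommGroup H] [InnerProductSpace ℂ H] [CompleteSpace H]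
variable {N : VonNeumannAlgebra H}

theorem extend_perm {J : Type} [Fintype J] [DecidableEq J] (D : Finset J) (ρ : J → J)
    (hρ : Set.InjOn ρ D) : ∃ r : Equiv.Perm J, ∀ x ∈ D, r x = ρ x := by
  classical
  let e : {x // x ∈ D} ≃ {y // y ∈ D.image ρ} :=
    Equiv.ofBijective (fun x => ⟨ρ x, Finset.mem_image_of_mem ρ x.2⟩) (by
      refine ⟨fun x y h => ?_, fun y => ?_⟩
      · exact Subtype.ext (hρ x.2 y.2 (congrArg Subtype.val h))
      · obtain ⟨x, hx, hxy⟩ := Finset.mem_image.1 y.2
        exact ⟨⟨x, hx⟩, Subtype.ext hxy⟩)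
  refine ⟨e.extendSubtype, fun x hx => ?_⟩
  rw [Equiv.extendSubtype_apply_of_mem e x hx]
  rfl

/-- For a finite set of binary sequences, the restrictions to a long enough piece differ. -/
theorem eventually_injOn (D : Finset (ℕ → Bool)) : ∃ L : ℕ, ∀ n ≥ L,
    Set.InjOn (fun (x : ℕ → Bool) (i : Fin n) => x i) D := by
  classical
  let k : (ℕ → Bool) × (ℕ → Bool) → ℕ := fun p =>
    if h : ∃ i, p.1 i ≠ p.2 i then h.choose + 1 else 0
  refine ⟨(D ×ˢ D).sup k, fun n hn x hx y hy hxy => ?_⟩
  by_contra hne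
  have h : ∃ i, x i ≠ y i := by
    by_contra hcon
    push Not at hcon
    exact hne (funext hcon)
  have h1 : k (x, y) ≤ n := le_trans (Finset.le_sup (f := k) (Finset.mem_product.2 ⟨hx, hy⟩)) hn
  have h2 : k (x, y) = h.choose + 1 := by
    simp only [k]
    rw [dif_pos h]
  have h3 : h.choose < n := by omega
  exact h.choose_spec (congrFun hxy ⟨h.choose, h3⟩)

end sym

/-! job 15426 -/

section sym

universe u
variable {H : Type u} [NormedAddCommGroup H] [InnerProductSpace ℂ H] [CompleteSpace H]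
variable {N : VonNeumannAlgebra H}

variable {Q : Type u} [Ring Q] [StarRing Q] [Algebra ℂ Q] [StarModule ℂ Q]
variable {T : TracialState N} {U : Ultrafilter ℕ} {π : (ℕ →ᵇ Elt N) →⋆ₐ[ℂ] Q} {σ : Q → ℂ}

theorem mkB'_apply_671 (x : ℕ → Elt N) (h : ∀ n, ‖x n‖ ≤ 1) (n : ℕ) : mkB' x h n = x n := rfl

/-- the partial map on restrictions, extended to a permutation -/
theorem perm_restr_671 (D : Finset (ℕ → Bool)) (ρ : (ℕ → Bool) → (ℕ → Bool))
    (hρ : Set.InjOn ρ D) (n : ℕ) [DecidableEq (ℕ → Bool)]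
    (hn : Set.InjOn (fun (x : ℕ → Bool) (i : Fin n) => x i) (D ∪ D.image ρ : Finset (ℕ → Bool))) :
    ∃ r : Equiv.Perm (Fin n → Bool), ∀ x ∈ D, r (fun i : Fin n => x i) = fun i : Fin n => ρ x i := by
  classical
  let R : (ℕ → Bool) → (Fin n → Bool) := fun x i => x i
  let g : (Fin n → Bool) → (Fin n → Bool) := fun k =>
    if h : ∃ x ∈ D, R x = k then R (ρ h.choose) else k
  have hg : ∀ x ∈ D, g (R x) = R (ρ x) := by
    intro x hx
    have h : ∃ x' ∈ D, R x' = R x := ⟨x, hx, rfl⟩
    have h1 : g (R x) = R (ρ h.choose) := dif_pos h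
    obtain ⟨h2, h3⟩ := h.choose_spec
    have h4 : h.choose = x := hn (Finset.mem_coe.2 (Finset.mem_union_left _ h2))
      (Finset.mem_coe.2 (Finset.mem_union_left _ hx)) h3
    rw [h1, h4]
  have hinj : Set.InjOn g (D.image R : Finset (Fin n → Bool)) := by
    intro k hk k' hk' hkk
    rw [Finset.mem_coe, Finset.mem_image] at hk hk'
    obtain ⟨x, hx, rfl⟩ := hk
    obtain ⟨x', hx', rfl⟩ := hk'
    rw [hg x hx, hg x' hx'] at hkk
    have h1 : ρ x = ρ x' := hn
      (Finset.mem_coe.2 (Finset.mem_union_right _ (Finset.mem_image_of_mem ρ hx)))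
      (Finset.mem_coe.2 (Finset.mem_union_right _ (Finset.mem_image_of_mem ρ hx'))) hkk
    rw [hρ (Finset.mem_coe.2 hx) (Finset.mem_coe.2 hx') h1]
  obtain ⟨r, hr⟩ := extend_perm (D.image R) g hinj
  exact ⟨r, fun x hx => (hr (R x) (Finset.mem_image_of_mem R hx)).trans (hg x hx)⟩

theorem exists_symQ (hU : ∀ n, {n} ∉ U) (hπ : IsTracialUltrapower T.τ U π σ)
    (hL : LyapProp T.τ) (hN : HasTrivialCenter N) :
    ∃ S : (ℕ → Bool) → Q, (∀ x, star (S x) = S x) ∧
      (∀ x, S x * S x = 1) ∧ (∀ x y, x ≠ y → σ (S x * S y) = 0) ∧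
      ∀ (D : Finset (ℕ → Bool)) (ρ : (ℕ → Bool) → (ℕ → Bool)), Set.InjOn ρ D →
        ∃ w : Q, star w * w = 1 ∧ w * star w = 1 ∧ ∀ x ∈ D, w * S x * star w = S (ρ x) := by
  classical
  choose s hs1 hs2 hs3 hs4 using fun n : ℕ => exists_sym T hL hN (Fin n → Bool)
  have hb : ∀ (x : ℕ → Bool) (n : ℕ), ‖s n (fun i : Fin n => x i)‖ ≤ 1 := fun x n =>
    norm_unitary_le' _ (by rw [hs1, hs2])
  let X : (ℕ → Bool) → (ℕ →ᵇ Elt N) := fun x => mkB' (fun n => s n (fun i : Fin n => x i)) (hb x)
  have hX : ∀ x n, X x n = s n (fun i : Fin n => x i) := fun x n => rfl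
  refine ⟨fun x => π (X x), ?_, ?_, ?_, ?_⟩
  · intro x
    show star (π (X x)) = π (X x)
    rw [← map_star]
    congr 1
    ext1 n
    rw [BoundedContinuousFunction.star_apply, hX, hs1]
  · intro x
    show π (X x) * π (X x) = 1
    rw [← map_mul, ← map_one π]
    congr 1
    ext1 n
    rw [BoundedContinuousFunction.mul_apply, hX, hs2]
    rfl
  · intro x y hxy
    show σ (π (X x) * π (X y)) = 0
    rw [← map_mul]
    have h1 := hπ.trace (X x * X y)
    obtain ⟨L, hLn⟩ := eventually_injOn {x, y}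
    have h2 : ∀ᶠ n in (U : Filter ℕ), (0 : ℂ) = T.τ ((X x * X y) n) := by
      have h3 : ∀ᶠ n in (U : Filter ℕ), L ≤ n :=
        (le_atTop_of_nonprincipal hU) (eventually_ge_atTop L)
      filter_upwards [h3] with n hn
      rw [BoundedContinuousFunction.mul_apply, hX, hX]
      symm
      apply hs3
      intro h4
      exact hxy (hLn n hn (by simp) (by simp) h4)
    exact tendsto_nhds_unique h1 (tendsto_const_nhds.congr' h2)
  · intro D ρ hρ
    obtain ⟨L, hLn⟩ := eventually_injOn (D ∪ D.image ρ)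
    have hw : ∀ n : ℕ, ∃ w : Elt N, star w * w = 1 ∧ w * star w = 1 ∧ (L ≤ n → ∀ x ∈ D,
        w * s n (fun i : Fin n => x i) * star w = s n (fun i : Fin n => ρ x i)) := by
      intro n
      by_cases hn : L ≤ n
      · obtain ⟨r, hr⟩ := perm_restr_671 D ρ hρ n (hLn n hn)
        obtain ⟨w, hw1, hw2, hw3⟩ := hs4 n r
        refine ⟨w, hw1, hw2, fun _ x hx => ?_⟩
        rw [hw3, hr x hx]
      · exact ⟨1, by simp, by simp, fun h => absurd h hn⟩
    choose w hw1 hw2 hw3 using hw
    let W : ℕ →ᵇ Elt N := mkB' w (fun n => norm_unitary_le' _ (hw1 n))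
    have hW : ∀ n, W n = w n := fun n => rfl
    refine ⟨π W, ?_, ?_, ?_⟩
    · rw [← map_star, ← map_mul, ← map_one π]
      congr 1
      ext1 n
      rw [BoundedContinuousFunction.mul_apply, BoundedContinuousFunction.star_apply, hW, hw1]
      rfl
    · rw [← map_star, ← map_mul, ← map_one π]
      congr 1
      ext1 n
      rw [BoundedContinuousFunction.mul_apply, BoundedContinuousFunction.star_apply, hW, hw2]
      rfl
    · intro x hx
      show π W * π (X x) * star (π W) = π (X (ρ x))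
      rw [← map_star, ← map_mul, ← map_mul]
      refine pi_eq_of_eventually hπ _ _ ?_
      have h3 : ∀ᶠ n in (U : Filter ℕ), L ≤ n :=
        (le_atTop_of_nonprincipal hU) (eventually_ge_atTop L)
      filter_upwards [h3] with n hn
      rw [BoundedContinuousFunction.mul_apply, BoundedContinuousFunction.mul_apply,
        BoundedContinuousFunction.star_apply, hW, hX, hX]
      exact hw3 n hn x hx

end sym

end Pool.Agent.Helper278.TP
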