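import Mathlib
import Pool.Agent.Helper278.TPDefs
import Pool.Agent.Helper278.TPSyn
import Pool.Agent.Helper278.TPSym
import Pool.Agent.Helper278.TPFam
import Pool.Agent.Helper278.CEMod
import Pool.Agent.Helper278.GroupMain
import Pool.Agent.Helper278.Model

set_option autoImplicit false

open scoped InnerProductSpace Topology BoundedContinuousFunction
open Filter

namespace Pool.Agent.Helper278.TP

open Pool.Agent.Helper278.CE

section model

theorem mem_ballR_iff {H : Type} [NormedAddCommGroup H] [InnerProductSpace ℂ H] [CompleteSpace H]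
    {N : VonNeumannAlgebra H} {Q : Type} [Ring Q] [StarRing Q] [Algebra ℂ Q] [StarModule ℂ Q]
    {T : TracialState N} {U : Ultrafilter ℕ} {π : (ℕ →ᵇ Elt N) →⋆ₐ[ℂ] Q} {σ : Q → ℂ}
    (hU : ∀ n, {n} ∉ U) (hπ : IsTracialUltrapower T.τ U π σ)
    {K : Type} [NormedAddCommGroup K] [InnerProductSpace ℂ K] [CompleteSpace K]
    {j : Q →ₗ[ℂ] K} (hd : DenseRange j)
    (hj : ∀ x y, ⟪j x, j y⟫_ℂ = sigmaL hπ (star x * y)) (r : ℕ) (x : Q) :
    ‖LmEquiv (sigma_trAlg hπ) hd hj (ball_ultra hU hπ) x‖ ≤ (r : ℝ) + 1 ↔ x ∈ ballR π r := by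
  set h := sigma_trAlg hπ with hh
  set hB := ball_ultra hU hπ with hhB
  set e := LmEquiv h hd hj hB with he
  have hr : (0 : ℝ) < (r : ℝ) + 1 := by positivity
  constructor
  · intro hx
    have hmem : (((r : ℝ) + 1)⁻¹ : ℂ) • ((e x : Elt (MM j)) : K →L[ℂ] K) ∈ MM j :=
      ((((r : ℝ) + 1)⁻¹ : ℂ) • (e x)).2
    have hn : ‖(((r : ℝ) + 1)⁻¹ : ℂ) • ((e x : Elt (MM j)) : K →L[ℂ] K)‖ ≤ 1 := by
      rw [norm_smul]
      have h1 : ‖(((r : ℝ) + 1)⁻¹ : ℂ)‖ = ((r : ℝ) + 1)⁻¹ := by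
        rw [norm_inv]
        congr 1
        have : ((r : ℝ) : ℂ) + 1 = (((r : ℝ) + 1 : ℝ) : ℂ) := by push_cast; ring
        rw [this, Complex.norm_real, Real.norm_eq_abs, abs_of_pos hr]
      rw [h1, inv_mul_le_iff₀ hr, mul_one]
      exact hx
    obtain ⟨a, ⟨X, hX, hXa⟩, ha⟩ := exists_of_mem h hd hj hB _ hmem hn
    refine ⟨(((r : ℝ) : ℂ) + 1) • X, fun n => ?_, ?_⟩
    · show ‖(((r : ℝ) : ℂ) + 1) • X n‖ ≤ r + 1
      have h1 : ((r : ℝ) : ℂ) + 1 = (((r : ℝ) + 1 : ℝ) : ℂ) := by push_cast; ring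
      rw [norm_smul, h1, Complex.norm_real, Real.norm_eq_abs, abs_of_pos hr]
      have := hX n
      nlinarith
    · rw [map_smul, hXa]
      refine EquivLike.injective e ?_
      rw [map_smul]
      apply Subtype.ext
      have h2 : ((e a : Elt (MM j)) : K →L[ℂ] K) = (((r : ℝ) + 1)⁻¹ : ℂ) • ((e x : Elt (MM j)) : K →L[ℂ] K) := by
        rw [ha, he, LmEquiv_apply]
      show (((r : ℝ) : ℂ) + 1) • ((e a : Elt (MM j)) : K →L[ℂ] K) = _
      have h6 : ((r : ℝ) : ℂ) + 1 ≠ 0 := by exact_mod_cast hr.ne'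
      rw [h2, smul_smul, mul_inv_cancel₀ h6, one_smul]
  · rintro ⟨X, hX, rfl⟩
    have h1 : (((r : ℝ) + 1)⁻¹ : ℂ) • π X ∈ ballQ π := by
      refine ⟨(((r : ℝ) + 1)⁻¹ : ℂ) • X, fun n => ?_, map_smul _ _ _⟩
      show ‖(((r : ℝ) + 1)⁻¹ : ℂ) • X n‖ ≤ 1
      rw [norm_smul]
      have h1 : ‖(((r : ℝ) + 1)⁻¹ : ℂ)‖ = ((r : ℝ) + 1)⁻¹ := by
        rw [norm_inv]
        congr 1
        have : ((r : ℝ) : ℂ) + 1 = (((r : ℝ) + 1 : ℝ) : ℂ) := by push_cast; ring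
        rw [this, Complex.norm_real, Real.norm_eq_abs, abs_of_pos hr]
      rw [h1, inv_mul_le_iff₀ hr, mul_one]
      exact hX n
    have h2 := norm_Lm_le h hd hj hB _ h1
    have h3 : (e (π X) : Elt (MM j)) = (((r : ℝ) : ℂ) + 1) • e ((((r : ℝ) + 1)⁻¹ : ℂ) • π X) := by
      have h6 : ((r : ℝ) : ℂ) + 1 ≠ 0 := by exact_mod_cast hr.ne'
      rw [map_smul, smul_smul, mul_inv_cancel₀ h6, one_smul]
    rw [h3, norm_smul]
    have h4 : ‖e ((((r : ℝ) + 1)⁻¹ : ℂ) • π X)‖ ≤ 1 := h2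
    have h5 : ‖((r : ℝ) : ℂ) + 1‖ = (r : ℝ) + 1 := by
      have : ((r : ℝ) : ℂ) + 1 = (((r : ℝ) + 1 : ℝ) : ℂ) := by push_cast; ring
      rw [this, Complex.norm_real, Real.norm_eq_abs, abs_of_pos hr]
    rw [h5]
    nlinarith

theorem exists_model (M : TvN) (hM : IsIIOneFactor M.N M.τ) :
    ∃ (M' : TvN) (S : (ℕ → Bool) → M'.Carrier), SameTheory M M' ∧ SymFam M' S := by
  set T := mkState M.N M.τ M.normal M.trace with hT
  obtain ⟨U, hU⟩ : ∃ U : Ultrafilter ℕ, ∀ n, {n} ∉ U :=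
    ⟨Filter.hyperfilter ℕ, fun n => (Set.finite_singleton n).notMem_hyperfilter⟩
  obtain ⟨Q, _, _, _, _, π, σ, hπ⟩ := exists_ultrapower T U
  have hL : LyapProp T.τ := lyapProp T (diffuse_of_factor T hM.center hM.infinite)
  obtain ⟨K, _, _, _, j, hd, hj⟩ := exists_gns (sigma_trAlg hπ)
  have hB := ball_ultra hU hπ
  have hII : IsIIOneFactor (MM j) (tauM j) := isIIOne_MM (sigma_trAlg hπ) hd hj hB
    (central_scalar hπ hL hM.center) (infinite_Q hπ hM.infinite)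
  let M' : TvN := { H := K, N := MM j, τ := tauM j, normal := hII.normal, trace := hII.trace }
  let e : Q ≃⋆ₐ[ℂ] M'.Carrier := LmEquiv (sigma_trAlg hπ) hd hj hB
  have he : ∀ x, M'.τ (e x) = σ x := fun x => tauM_LmEquiv (sigma_trAlg hπ) hd hj hB x
  have hb : ∀ (r : ℕ) (x : Q), e x ∈ {x : M'.Carrier | ‖x‖ ≤ (r : ℝ) + 1} ↔ x ∈ ballR π r :=
    fun r x => mem_ballR_iff hU hπ hd hj r x
  obtain ⟨S, hS1, hS2, hS3, hS4⟩ := exists_symQ hU hπ hL hM.center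
  have hA := trAlg T
  have hτ : ∀ x, ‖T.τ x‖ ≤ ‖x‖ := by
    intro x
    refine (hA.norm_le _).trans ?_
    have h2 := n2_mul_le T x 1
    rw [mul_one, hA.n2_one, mul_one] at h2
    exact h2
  have hn : ∀ x, norm2 T.τ x ≤ ‖x‖ := by
    intro x
    have h2 := n2_mul_le T x 1
    rw [mul_one, hA.n2_one, mul_one] at h2
    exact h2
  refine ⟨M', fun x => e (S x), ?_, ⟨?_, ?_, ?_, ?_⟩⟩
  · intro φ _
    have h1 := los hπ hτ hn φ (fun _ => 0)
    have h2 : φ.val σ (ballR π) (fun _ => π 0) = M.val φ (fun _ => 0) :=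
      tendsto_nhds_unique h1 tendsto_const_nhds
    have h3 := Formula.val_equiv e σ M'.τ (ballR π) (fun r => {x : M'.Carrier | ‖x‖ ≤ r + 1}) he hb
      φ (fun _ => π 0)
    have h4 : M'.val φ (fun _ => e (π 0)) = M.val φ (fun _ => 0) := by
      rw [← h2]
      exact h3
    rw [map_zero, map_zero] at h4
    exact h4
  · intro x
    rw [← map_star, hS1]
  · intro x
    rw [← map_mul, hS2, map_one]
  · intro x y hxy
    rw [← map_mul, he, hS3 x y hxy]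
  · intro D ρ hρ
    obtain ⟨w, hw1, hw2, hw3⟩ := hS4 D ρ hρ
    refine ⟨e w, ?_, ?_, fun x hx => ?_⟩
    · rw [← map_star, ← map_mul, hw1, map_one]
    · rw [← map_star, ← map_mul, hw2, map_one]
    · rw [← map_star, ← map_mul, ← map_mul, hw3 x hx]

theorem not_simple (M : TvN) (hM : IsIIOneFactor M.N M.τ) : ¬ IsSimpleTheory M := by
  obtain ⟨M', S, hMM', hS⟩ := exists_model M hM
  have hcard : Cardinal.mk ((ℕ → Bool) ⊕ (ℕ → Bool) ⊕ ℕ) = Cardinal.mk (ℕ → Bool) := by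
    simp
  obtain ⟨f⟩ := Cardinal.eq.1 hcard
  have : Uncountable (ℕ → Bool) := by
    rw [← Cardinal.aleph0_lt_mk_iff]
    simp [Cardinal.aleph0_lt_continuum]
  have hS' := hS.comp f f.injective
  obtain ⟨B, p, hB, hp, hdiv⟩ := main_aux hS'
  intro hsimple
  obtain ⟨C, hCB, hC, hnd⟩ := hsimple M' hMM' B hB 1 (fun _ => 0) p hp
  exact hnd (hdiv C hCB hC)

end model

end Pool.Agent.Helper278.TP
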